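import Mathlib

/-!
# Helpers for broadcasts on small graphs

* `dist_eq_of_table`: a table satisfying local conditions is the distance function of a graph;
* `connected_of_potential`: connectivity from a potential function;
* `go`, `go_sound`: a search over all irredundant broadcasts with bit masks.
-/

set_option autoImplicit false

namespace Pool.Agent.R43.BSearch

theorem walk_ge {V : Type*} (G : SimpleGraph V) (D : V → V → ℕ) (h0 : ∀ u, D u u = 0)
    (h1 : ∀ u v w, G.Adj u v → D u w ≤ D v w + 1) {u v : V} (p : G.Walk u v) :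
    D u v ≤ p.length := by
  induction p with
  | nil => rw [h0]; exact Nat.zero_le _
  | cons hadj q ih =>
    rw [SimpleGraph.Walk.length_cons]
    exact (h1 _ _ _ hadj).trans (Nat.add_le_add_right ih 1)

theorem exists_walk {V : Type*} (G : SimpleGraph V) (D : V → V → ℕ)
    (h0 : ∀ u v, D u v = 0 → u = v)
    (h2 : ∀ u v, D u v ≠ 0 → ∃ w, G.Adj u w ∧ D w v + 1 = D u v) (n : ℕ) :
    ∀ u v, D u v = n → ∃ p : G.Walk u v, p.length = n := by
  induction n with
  | zero =>
    intro u v h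
    have := h0 u v h
    subst this
    exact ⟨SimpleGraph.Walk.nil, rfl⟩
  | succ n ih =>
    intro u v h
    obtain ⟨w, hw, hD⟩ := h2 u v (by omega)
    obtain ⟨p, hp⟩ := ih w v (by omega)
    exact ⟨SimpleGraph.Walk.cons hw p, by rw [SimpleGraph.Walk.length_cons, hp]⟩

theorem connected_of_table {V : Type*} [Nonempty V] (G : SimpleGraph V) (D : V → V → ℕ)
    (h0 : ∀ u v, D u v = 0 → u = v)
    (h2 : ∀ u v, D u v ≠ 0 → ∃ w, G.Adj u w ∧ D w v + 1 = D u v) : G.Connected :=
  ⟨fun u v => by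
    obtain ⟨p, _⟩ := exists_walk G D h0 h2 (D u v) u v rfl
    exact ⟨p⟩⟩

theorem dist_eq_of_table {V : Type*} (G : SimpleGraph V) (D : V → V → ℕ)
    (h0 : ∀ u v, D u v = 0 → u = v) (h0' : ∀ u, D u u = 0)
    (h1 : ∀ u v w, G.Adj u v → D u w ≤ D v w + 1)
    (h2 : ∀ u v, D u v ≠ 0 → ∃ w, G.Adj u w ∧ D w v + 1 = D u v) (u v : V) :
    G.dist u v = D u v := by
  obtain ⟨p, hp⟩ := exists_walk G D h0 h2 (D u v) u v rfl
  apply le_antisymm
  · rw [← hp]; exact SimpleGraph.dist_le p
  · have hr : G.Reachable u v := ⟨p⟩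
    obtain ⟨q, hq⟩ := hr.exists_walk_length_eq_dist
    rw [← hq]
    exact walk_ge G D h0' h1 q

theorem connected_of_potential {V : Type*} (G : SimpleGraph V) (r : V) (P : V → ℕ)
    (h : ∀ u, u ≠ r → ∃ w, G.Adj u w ∧ P w < P u) : G.Connected := by
  have key : ∀ n, ∀ u, P u = n → G.Reachable u r := by
    intro n
    induction n using Nat.strong_induction_on with
    | _ n ih =>
      intro u hu
      by_cases hur : u = r
      · rw [hur]
      · obtain ⟨w, hw, hlt⟩ := h u hur
        exact hw.reachable.trans (ih (P w) (by omega) w rfl)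
  have : Nonempty V := ⟨r⟩
  exact ⟨fun u v => (key _ u rfl).trans (key _ v rfl).symm⟩

/-! ### The search -/

/-- Search over all irredundant broadcasts. `tab v` lists, for the possible strengths `k` of `v`, the
triples `(k, ball mask, mask of the candidates for private boundary vertices)`. State: the candidate masks of
the chosen vertices, the mask of the vertices that hear the broadcast, the mask of the vertices that hear it
from at least two vertices, and the weight. -/
def go (tab : ℕ → List (ℕ × ℕ × ℕ)) (leaf : ℕ → ℕ → ℕ → Bool) : ℕ → List ℕ → ℕ → ℕ → ℕ → Bool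
  | 0, _, a, m, w => leaf a m w
  | i + 1, cs, a, m, w =>
      go tab leaf i cs a m w && (tab i).all fun t =>
        (! ((t.2.2 :: cs).all fun c => (c &&& ((a ||| t.2.1) ^^^ (m ||| (a &&& t.2.1)))) != 0)) ||
          go tab leaf i (t.2.2 :: cs) (a ||| t.2.1) (m ||| (a &&& t.2.1)) (w + t.1)

theorem go_sound (tab : ℕ → List (ℕ × ℕ × ℕ)) (leaf : ℕ → ℕ → ℕ → Bool) (n : ℕ)
    (f B C : ℕ → ℕ) (h1 : ∀ v < n, f v ≠ 0 → (f v, B v, C v) ∈ tab v)
    (h2 : ∀ v < n, f v ≠ 0 → ∃ p, (C v).testBit p = true ∧ (B v).testBit p = true ∧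
      ∀ v' < n, f v' ≠ 0 → v' ≠ v → (B v').testBit p = false) :
    ∀ i ≤ n, ∀ (cs : List ℕ) (a m w : ℕ),
      (∀ u, a.testBit u = true ↔ ∃ v, i ≤ v ∧ v < n ∧ f v ≠ 0 ∧ (B v).testBit u = true) →
      (∀ u, m.testBit u = true ↔ ∃ v v', v ≠ v' ∧ i ≤ v ∧ v < n ∧ f v ≠ 0 ∧
        (B v).testBit u = true ∧ i ≤ v' ∧ v' < n ∧ f v' ≠ 0 ∧ (B v').testBit u = true) →
      (∀ c ∈ cs, ∃ v, i ≤ v ∧ v < n ∧ f v ≠ 0 ∧ c = C v) →
      w = ∑ v ∈ Finset.Ico i n, f v →
      go tab leaf i cs a m w = true →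
      ∃ a' m', (∀ u, a'.testBit u = true ↔ ∃ v, v < n ∧ f v ≠ 0 ∧ (B v).testBit u = true) ∧
        (∀ u, m'.testBit u = true ↔ ∃ v v', v ≠ v' ∧ v < n ∧ f v ≠ 0 ∧
        (B v).testBit u = true ∧ v' < n ∧ f v' ≠ 0 ∧ (B v').testBit u = true) ∧
        leaf a' m' (∑ v ∈ Finset.range n, f v) = true := by
  intro i
  induction i with
  | zero =>
    intro _ cs a m w ha hm _ hw hgo
    refine ⟨a, m, ?_, ?_, ?_⟩
    · intro u; rw [ha u]; simp
    · intro u; rw [hm u]; simp
    · rw [hw, ← Finset.range_eq_Ico] at hgo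
      exact hgo
  | succ i ih =>
    intro hi cs a m w ha hm hcs hw hgo
    rw [go, Bool.and_eq_true] at hgo
    obtain ⟨hgo1, hgo2⟩ := hgo
    have hin : i < n := hi
    by_cases hf : f i = 0
    · refine ih hin.le cs a m w ?_ ?_ ?_ ?_ hgo1
      · intro u
        rw [ha u]
        constructor
        · rintro ⟨v, hv1, hv2, hv3, hv4⟩
          exact ⟨v, by omega, hv2, hv3, hv4⟩
        · rintro ⟨v, hv1, hv2, hv3, hv4⟩
          refine ⟨v, ?_, hv2, hv3, hv4⟩
          rcases Nat.eq_or_lt_of_le hv1 with rfl | h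
          · exact absurd hf hv3
          · exact h
      · intro u
        rw [hm u]
        constructor
        · rintro ⟨v, v', h0, a1, a2, a3, a4, a5, a6, a7, a8⟩
          exact ⟨v, v', h0, by omega, a2, a3, a4, by omega, a6, a7, a8⟩
        · rintro ⟨v, v', h0, a1, a2, a3, a4, a5, a6, a7, a8⟩
          refine ⟨v, v', h0, ?_, a2, a3, a4, ?_, a6, a7, a8⟩
          · rcases Nat.eq_or_lt_of_le a1 with rfl | h
            · exact absurd hf a3
            · exact h
          · rcases Nat.eq_or_lt_of_le a5 with rfl | h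
            · exact absurd hf a7
            · exact h
      · intro c hc
        obtain ⟨v, hv1, hv2, hv3, hv4⟩ := hcs c hc
        exact ⟨v, by omega, hv2, hv3, hv4⟩
      · rw [hw, Finset.sum_eq_sum_Ico_succ_bot hin, hf, zero_add]
    · have hmem := h1 i hin hf
      have hgo3 := List.all_eq_true.1 hgo2 _ hmem
      rw [Bool.or_eq_true] at hgo3
      simp only at hgo3
      -- new masks
      have hA : ∀ u, (a ||| B i).testBit u = true ↔
          ∃ v, i ≤ v ∧ v < n ∧ f v ≠ 0 ∧ (B v).testBit u = true := by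
        intro u
        rw [Nat.testBit_or, Bool.or_eq_true, ha u]
        constructor
        · rintro (⟨v, hv1, hv2, hv3, hv4⟩ | h)
          · exact ⟨v, by omega, hv2, hv3, hv4⟩
          · exact ⟨i, le_refl _, hin, hf, h⟩
        · rintro ⟨v, hv1, hv2, hv3, hv4⟩
          rcases Nat.eq_or_lt_of_le hv1 with rfl | h
          · exact Or.inr hv4
          · exact Or.inl ⟨v, h, hv2, hv3, hv4⟩
      have hM : ∀ u, (m ||| (a &&& B i)).testBit u = true ↔ ∃ v v', v ≠ v' ∧ i ≤ v ∧ v < n ∧ f v ≠ 0 ∧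
          (B v).testBit u = true ∧ i ≤ v' ∧ v' < n ∧ f v' ≠ 0 ∧ (B v').testBit u = true := by
        intro u
        rw [Nat.testBit_or, Bool.or_eq_true, Nat.testBit_and, Bool.and_eq_true, ha u, hm u]
        constructor
        · rintro (⟨v, v', h0, a1, a2, a3, a4, a5, a6, a7, a8⟩ | ⟨⟨v, hv1, hv2, hv3, hv4⟩, h⟩)
          · exact ⟨v, v', h0, by omega, a2, a3, a4, by omega, a6, a7, a8⟩
          · exact ⟨v, i, by omega, by omega, hv2, hv3, hv4, le_refl _, hin, hf, h⟩
        · rintro ⟨v, v', h0, a1, a2, a3, a4, a5, a6, a7, a8⟩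
          rcases Nat.eq_or_lt_of_le a1 with rfl | h
          · rcases Nat.eq_or_lt_of_le a5 with rfl | h'
            · exact absurd rfl h0
            · exact Or.inr ⟨⟨v', h', a6, a7, a8⟩, a4⟩
          · rcases Nat.eq_or_lt_of_le a5 with rfl | h'
            · exact Or.inr ⟨⟨v, h, a2, a3, a4⟩, a8⟩
            · exact Or.inl ⟨v, v', h0, h, a2, a3, a4, h', a6, a7, a8⟩
      have hCS : ∀ c ∈ C i :: cs, ∃ v, i ≤ v ∧ v < n ∧ f v ≠ 0 ∧ c = C v := by
        intro c hc
        rcases List.mem_cons.1 hc with rfl | hc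
        · exact ⟨i, le_refl _, hin, hf, rfl⟩
        · obtain ⟨v, hv1, hv2, hv3, hv4⟩ := hcs c hc
          exact ⟨v, by omega, hv2, hv3, hv4⟩
      have hall : ((C i :: cs).all fun c =>
          (c &&& ((a ||| B i) ^^^ (m ||| (a &&& B i)))) != 0) = true := by
        rw [List.all_eq_true]
        intro c hc
        obtain ⟨v, hv1, hv2, hv3, rfl⟩ := hCS c hc
        obtain ⟨p, hp1, hp2, hp3⟩ := h2 v hv2 hv3
        rw [bne_iff_ne]
        intro h0
        have hbit : ((C v) &&& ((a ||| B i) ^^^ (m ||| (a &&& B i)))).testBit p = true := by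
          rw [Nat.testBit_and, Nat.testBit_xor, hp1, Bool.true_and]
          have e1 : (a ||| B i).testBit p = true := (hA p).2 ⟨v, hv1, hv2, hv3, hp2⟩
          have e2 : (m ||| (a &&& B i)).testBit p = false := by
            rw [Bool.eq_false_iff]
            intro h
            obtain ⟨x, y, hxy, a1, a2, a3, a4, a5, a6, a7, a8⟩ := (hM p).1 h
            have hx : x = v := by
              by_contra hne
              have := hp3 x a2 a3 hne
              rw [a4] at this
              exact absurd this (by simp)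
            have hy : y = v := by
              by_contra hne
              have := hp3 y a6 a7 hne
              rw [a8] at this
              exact absurd this (by simp)
            exact hxy (hx.trans hy.symm)
          rw [e1, e2]; rfl
        rw [h0, Nat.zero_testBit] at hbit
        exact absurd hbit (by simp)
      rcases hgo3 with hgo3 | hgo3
      · rw [hall] at hgo3
        exact absurd hgo3 (by simp)
      · refine ih hin.le (C i :: cs) _ _ _ hA hM hCS ?_ hgo3
        rw [hw, Finset.sum_eq_sum_Ico_succ_bot hin, add_comm]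

theorem search_sound (tab : ℕ → List (ℕ × ℕ × ℕ)) (leaf : ℕ → ℕ → ℕ → Bool) (n : ℕ)
    (hgo : go tab leaf n [] 0 0 0 = true)
    (f B C : ℕ → ℕ) (h1 : ∀ v < n, f v ≠ 0 → (f v, B v, C v) ∈ tab v)
    (h2 : ∀ v < n, f v ≠ 0 → ∃ p, (C v).testBit p = true ∧ (B v).testBit p = true ∧
      ∀ v' < n, f v' ≠ 0 → v' ≠ v → (B v').testBit p = false) :
    ∃ a m, (∀ u, a.testBit u = true ↔ ∃ v, v < n ∧ f v ≠ 0 ∧ (B v).testBit u = true) ∧
        (∀ u, m.testBit u = true ↔ ∃ v v', v ≠ v' ∧ v < n ∧ f v ≠ 0 ∧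
        (B v).testBit u = true ∧ v' < n ∧ f v' ≠ 0 ∧ (B v').testBit u = true) ∧
        leaf a m (∑ v ∈ Finset.range n, f v) = true := by
  refine go_sound tab leaf n f B C h1 h2 n le_rfl [] 0 0 0 ?_ ?_ ?_ ?_ hgo
  · intro u
    rw [Nat.zero_testBit]
    constructor
    · intro h; exact absurd h (by simp)
    · rintro ⟨v, h3, h4, _⟩; omega
  · intro u
    rw [Nat.zero_testBit]
    constructor
    · intro h; exact absurd h (by simp)
    · rintro ⟨v, v', _, h3, h4, _⟩; omega
  · intro c hc; exact absurd hc (by simp)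
  · simp

/-- The mask of the ball of radius `k` about `v`. -/
def ballM {n : ℕ} (D : Fin n → Fin n → ℕ) (v : Fin n) (k : ℕ) : ℕ :=
  Nat.ofBits fun u => decide (D v u ≤ k)

/-- The mask of the vertices which may be private boundary vertices of `v` at strength `k`. -/
def candM {n : ℕ} (D : Fin n → Fin n → ℕ) (v : Fin n) (k : ℕ) : ℕ :=
  Nat.ofBits fun u => decide (if k = 1 then D v u ≤ 1 else D v u = k)

theorem search_fin {n : ℕ} (D : Fin n → Fin n → ℕ) (E : Fin n → ℕ)
    (tab : ℕ → List (ℕ × ℕ × ℕ)) (leaf : ℕ → ℕ → ℕ → Bool)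
    (htab : ∀ v : Fin n, ∀ k, 1 ≤ k → k ≤ E v → (k, ballM D v k, candM D v k) ∈ tab v)
    (hgo : go tab leaf n [] 0 0 0 = true)
    (f : Fin n → ℕ) (hE : ∀ v, f v ≤ E v)
    (hirr : ∀ v, f v ≠ 0 → ∃ p, (if f v = 1 then D v p ≤ 1 else D v p = f v) ∧
      ∀ v', f v' ≠ 0 → v' ≠ v → f v' < D v' p) :
    ∃ a m, (∀ u : Fin n, a.testBit u = true ↔ ∃ v, f v ≠ 0 ∧ D v u ≤ f v) ∧
      (∀ u : Fin n, m.testBit u = true ↔ ∃ v v', v ≠ v' ∧ f v ≠ 0 ∧ D v u ≤ f v ∧
        f v' ≠ 0 ∧ D v' u ≤ f v') ∧ leaf a m (∑ v, f v) = true := by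
  classical
  have hB : ∀ (v u : Fin n) (k : ℕ), (ballM D v k).testBit u = decide (D v u ≤ k) := by
    intro v u k
    unfold ballM
    rw [Nat.testBit_ofBits_lt _ _ u.2]
  have hC : ∀ (v u : Fin n) (k : ℕ), (candM D v k).testBit u =
      decide (if k = 1 then D v u ≤ 1 else D v u = k) := by
    intro v u k
    unfold candM
    rw [Nat.testBit_ofBits_lt _ _ u.2]
  set F : ℕ → ℕ := fun v => if h : v < n then f ⟨v, h⟩ else 0 with hF
  set B : ℕ → ℕ := fun v => if h : v < n then ballM D ⟨v, h⟩ (f ⟨v, h⟩) else 0 with hBd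
  set C : ℕ → ℕ := fun v => if h : v < n then candM D ⟨v, h⟩ (f ⟨v, h⟩) else 0 with hCd
  have eF : ∀ v : Fin n, F v = f v := fun v => by simp [hF]
  have eB : ∀ v : Fin n, B v = ballM D v (f v) := fun v => by simp [hBd]
  have eC : ∀ v : Fin n, C v = candM D v (f v) := fun v => by simp [hCd]
  obtain ⟨a, m, ha, hm, hl⟩ := search_sound tab leaf n hgo F B C
    (by
      intro v hv hfv
      have e1 := eF ⟨v, hv⟩
      have e2 := eB ⟨v, hv⟩
      have e3 := eC ⟨v, hv⟩
      simp only at e1 e2 e3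
      rw [e1] at hfv
      rw [e1, e2, e3]
      exact htab ⟨v, hv⟩ _ (Nat.one_le_iff_ne_zero.2 hfv) (hE _))
    (by
      intro v hv hfv
      have e1 := eF ⟨v, hv⟩
      have e2 := eB ⟨v, hv⟩
      have e3 := eC ⟨v, hv⟩
      simp only at e1 e2 e3
      rw [e1] at hfv
      obtain ⟨p, hp1, hp2⟩ := hirr ⟨v, hv⟩ hfv
      refine ⟨p, ?_, ?_, ?_⟩
      · rw [e3, hC, decide_eq_true_eq]; exact hp1
      · rw [e2, hB, decide_eq_true_eq]
        split_ifs at hp1 with h
        · rw [h]; exact hp1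
        · exact hp1.le
      · intro v' hv' hfv' hne
        have e1' := eF ⟨v', hv'⟩
        have e2' := eB ⟨v', hv'⟩
        simp only at e1' e2'
        rw [e1'] at hfv'
        rw [e2', hB, decide_eq_false_iff_not]
        have := hp2 ⟨v', hv'⟩ hfv' (fun h => hne (congrArg Fin.val h))
        omega)
  refine ⟨a, m, ?_, ?_, ?_⟩
  · intro u
    rw [ha u]
    constructor
    · rintro ⟨v, hv, hfv, hb⟩
      refine ⟨⟨v, hv⟩, ?_, ?_⟩
      · have e1 := eF ⟨v, hv⟩
        simp only at e1
        rwa [← e1]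
      · have e2 := eB ⟨v, hv⟩
        simp only at e2
        rw [e2, hB, decide_eq_true_eq] at hb
        exact hb
    · rintro ⟨v, hfv, hb⟩
      refine ⟨v, v.2, ?_, ?_⟩
      · rwa [eF]
      · rw [eB, hB, decide_eq_true_eq]
        exact hb
  · intro u
    rw [hm u]
    constructor
    · rintro ⟨v, v', hne, hv, hfv, hb, hv', hfv', hb'⟩
      refine ⟨⟨v, hv⟩, ⟨v', hv'⟩, fun h => hne (congrArg Fin.val h), ?_, ?_, ?_, ?_⟩
      · have e1 := eF ⟨v, hv⟩
        simp only at e1
        rwa [← e1]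
      · have e2 := eB ⟨v, hv⟩
        simp only at e2
        rw [e2, hB, decide_eq_true_eq] at hb
        exact hb
      · have e1 := eF ⟨v', hv'⟩
        simp only at e1
        rwa [← e1]
      · have e2 := eB ⟨v', hv'⟩
        simp only at e2
        rw [e2, hB, decide_eq_true_eq] at hb'
        exact hb'
    · rintro ⟨v, v', hne, hfv, hb, hfv', hb'⟩
      refine ⟨v, v', fun h => hne (Fin.ext h), v.2, ?_, ?_, v'.2, ?_, ?_⟩
      · rwa [eF]
      · rw [eB, hB, decide_eq_true_eq]
        exact hb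
      · rwa [eF]
      · rw [eB, hB, decide_eq_true_eq]
        exact hb'
  · have e : ∑ v ∈ Finset.range n, F v = ∑ v, f v := by
      rw [Finset.sum_range]
      exact Finset.sum_congr rfl fun v _ => eF v
    rw [← e]
    exact hl

theorem and_full {n a : ℕ} (h : ∀ u : Fin n, a.testBit u = true) :
    a &&& (2 ^ n - 1) = 2 ^ n - 1 := by
  apply Nat.eq_of_testBit_eq
  intro i
  rw [Nat.testBit_and, Nat.testBit_two_pow_sub_one]
  by_cases hi : i < n
  · have := h ⟨i, hi⟩
    simp only at this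
    rw [this]; simp
  · simp [hi]

end Pool.Agent.R43.BSearch
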