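import Mathlib

/-!
# Rectangular bishops graphs: the combinatorial core of the lower bound

A square of the `k × n` board is described by the numbers `a`, `b` of its two diagonals, see `On`.
-/

set_option autoImplicit false

namespace Pool.Agent.R43.BishopCore

/-- The diagonals `a` and `b` meet in a square of the board. -/
def On (k n a b : ℕ) : Prop :=
  (a + b + k + 1) % 2 = 0 ∧ a < b + k ∧ b < a + k ∧ k ≤ a + b + 1 ∧ a + b + 3 ≤ 2 * n + k

theorem card_par (x c : ℕ) (hc : c < 2) :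
    ((Finset.range x).filter fun y => y % 2 = c).card = (x + 1 - c) / 2 := by
  induction x with
  | zero => simp; omega
  | succ x ih =>
    rw [Finset.range_add_one, Finset.filter_insert]
    split_ifs with h
    · rw [Finset.card_insert_of_notMem (by simp), ih]
      omega
    · rw [ih]
      omega

theorem card_Ico_par (lo hi c : ℕ) (hc : c < 2) (h : lo ≤ hi) :
    ((Finset.Ico lo hi).filter fun y => y % 2 = c).card = (hi + 1 - c) / 2 - (lo + 1 - c) / 2 := by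
  have h1 : (Finset.range hi).filter (fun y => y % 2 = c) =
      (Finset.range lo).filter (fun y => y % 2 = c) ∪ (Finset.Ico lo hi).filter fun y => y % 2 = c := by
    ext y
    simp only [Finset.mem_filter, Finset.mem_range, Finset.mem_union, Finset.mem_Ico]
    omega
  have h2 : Disjoint ((Finset.range lo).filter fun y => y % 2 = c)
      ((Finset.Ico lo hi).filter fun y => y % 2 = c) := by
    rw [Finset.disjoint_left]
    intro y
    simp only [Finset.mem_filter, Finset.mem_range, Finset.mem_Ico]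
    omega
  have h3 := congrArg Finset.card h1
  rw [Finset.card_union_of_disjoint h2, card_par _ _ hc, card_par _ _ hc] at h3
  omega

/-- Column `0`. -/
theorem left_count {k n c c' : ℕ} (hn : 2 * k < n) (hc' : (c + c' + k + 1) % 2 = 0) (hc : c < 2)
    (U W : Finset ℕ) (hU : ∀ a ∈ U, a % 2 = c) (hW : ∀ b ∈ W, b % 2 = c')
    (hN : ∀ a ∈ U, ∀ b ∈ W, ¬ On k n a b) :
    (U.filter (· < k)).card + (W.filter (· < k)).card ≤ (k + 1 - c) / 2 := by
  rw [← card_par k c hc]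
  have hinj : Set.InjOn (fun w => k - 1 - w) ((W.filter (· < k) : Finset ℕ) : Set ℕ) := by
    intro x hx y hy h
    have hx' := (Finset.mem_filter.1 hx).2
    have hy' := (Finset.mem_filter.1 hy).2
    simp only at h
    omega
  rw [← Finset.card_image_of_injOn hinj, ← Finset.card_union_of_disjoint]
  · apply Finset.card_le_card
    intro x hx
    rw [Finset.mem_union] at hx
    rw [Finset.mem_filter, Finset.mem_range]
    rcases hx with hx | hx
    · have h1 := Finset.mem_filter.1 hx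
      exact ⟨h1.2, hU x h1.1⟩
    · obtain ⟨w, hw, rfl⟩ := Finset.mem_image.1 hx
      have h1 := Finset.mem_filter.1 hw
      have h2 := hW w h1.1
      omega
  · rw [Finset.disjoint_left]
    intro x hx hx2
    obtain ⟨w, hw, rfl⟩ := Finset.mem_image.1 hx2
    have h1 := Finset.mem_filter.1 hw
    have h2 := Finset.mem_filter.1 hx
    apply hN _ h2.1 w h1.1
    unfold On
    omega

/-- Column `n - 1`. -/
theorem right_count {k n c c' : ℕ} (hn : 2 * k < n) (hc' : (c + c' + k + 1) % 2 = 0) (hc : c < 2)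
    (U W : Finset ℕ) (hU : ∀ a ∈ U, a % 2 = c ∧ a + 1 < n + k)
    (hW : ∀ b ∈ W, b % 2 = c' ∧ b + 1 < n + k)
    (hN : ∀ a ∈ U, ∀ b ∈ W, ¬ On k n a b) :
    (U.filter (n ≤ · + 1)).card + (W.filter (n ≤ · + 1)).card ≤ (n + k - c) / 2 - (n - c) / 2 := by
  have e : (n + k - c) / 2 - (n - c) / 2 =
      ((Finset.Ico (n - 1) (n + k - 1)).filter fun y => y % 2 = c).card := by
    rw [card_Ico_par _ _ _ hc (by omega)]
    congr 2 <;> omega
  rw [e]
  have hinj : Set.InjOn (fun w => 2 * n + k - 3 - w) ((W.filter (n ≤ · + 1) : Finset ℕ) : Set ℕ) := by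
    intro x hx y hy h
    have hx' := hW x (Finset.mem_filter.1 hx).1
    have hy' := hW y (Finset.mem_filter.1 hy).1
    simp only at h
    omega
  rw [← Finset.card_image_of_injOn hinj, ← Finset.card_union_of_disjoint]
  · apply Finset.card_le_card
    intro x hx
    rw [Finset.mem_union] at hx
    rw [Finset.mem_filter, Finset.mem_Ico]
    rcases hx with hx | hx
    · have h1 := Finset.mem_filter.1 hx
      have h2 := hU x h1.1
      omega
    · obtain ⟨w, hw, rfl⟩ := Finset.mem_image.1 hx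
      have h1 := Finset.mem_filter.1 hw
      have h2 := hW w h1.1
      omega
  · rw [Finset.disjoint_left]
    intro x hx hx2
    obtain ⟨w, hw, rfl⟩ := Finset.mem_image.1 hx2
    have h1 := Finset.mem_filter.1 hw
    have h2 := Finset.mem_filter.1 hx
    have h3 := hW w h1.1
    apply hN _ h2.1 w h1.1
    unfold On
    omega

/-- The defect at the left end. -/
def dL (k c : ℕ) : ℕ := if k % 2 = 1 ∧ c = 0 then 1 else 0

/-- The defect at the right end. -/
def dR (k n c : ℕ) : ℕ := if k % 2 = 1 ∧ (n + c) % 2 = 0 then 0 else 1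

theorem left_set {k n c c' z : ℕ} (hk : 1 ≤ k) (hn : 2 * k < n) (hc' : (c + c' + k + 1) % 2 = 0)
    (hc : c < 2) (U W : Finset ℕ) (hU : ∀ a ∈ U, a % 2 = c) (hW : ∀ b ∈ W, b % 2 = c')
    (hN : ∀ a ∈ U, ∀ b ∈ W, ¬ On k n a b) (hz : z ∈ W) (hz1 : k ≤ z) (hz2 : z + 2 ≤ n)
    (hmin : ∀ a ∈ U, a < z → a < k) :
    ∃ Z : Finset ℕ, (∀ p ∈ Z, p < z ∧ p % 2 = c ∧ p ∉ U) ∧
      (U.filter (· < k)).card + (W.filter (· < k)).card ≤ Z.card + dL k c := by
  have hcount := left_count hn hc' hc U W hU hW hN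
  by_cases hE : (U.filter (· < k)).Nonempty
  · set x := (U.filter (· < k)).max' hE with hx
    have hxm := (U.filter (· < k)).max'_mem hE
    rw [← hx] at hxm
    have hx1 := Finset.mem_filter.1 hxm
    have hx2 := hU x hx1.1
    have hz3 := hW z hz
    have hxz := hN x hx1.1 z hz
    have hxz2 : x + k + 1 ≤ z := by
      unfold On at hxz
      omega
    refine ⟨(Finset.Ico (x + 1) z).filter fun y => y % 2 = c, ?_, ?_⟩
    · intro p hp
      have hp1 := Finset.mem_filter.1 hp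
      have hp2 := Finset.mem_Ico.1 hp1.1
      refine ⟨hp2.2, hp1.2, fun hpU => ?_⟩
      have h1 := (U.filter (· < k)).le_max' p (Finset.mem_filter.2 ⟨hpU, hmin p hpU hp2.2⟩)
      rw [← hx] at h1
      omega
    · rw [card_Ico_par _ _ _ hc (by omega)]
      unfold dL
      split_ifs <;> omega
  · refine ⟨(Finset.range k).filter fun y => y % 2 = c, ?_, ?_⟩
    · intro p hp
      have hp1 := Finset.mem_filter.1 hp
      have hp2 := Finset.mem_range.1 hp1.1
      exact ⟨by omega, hp1.2, fun hpU => hE ⟨p, Finset.mem_filter.2 ⟨hpU, hp2⟩⟩⟩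
    · rw [card_par _ _ hc]
      omega

theorem right_set {k n c c' z : ℕ} (hk : 1 ≤ k) (hn : 2 * k < n) (hc' : (c + c' + k + 1) % 2 = 0)
    (hc : c < 2) (U W : Finset ℕ) (hU : ∀ a ∈ U, a % 2 = c ∧ a + 1 < n + k)
    (hW : ∀ b ∈ W, b % 2 = c' ∧ b + 1 < n + k)
    (hN : ∀ a ∈ U, ∀ b ∈ W, ¬ On k n a b) (hz : z ∈ W) (hz1 : k ≤ z) (hz2 : z + 2 ≤ n)
    (hmax : ∀ a ∈ U, z < a → n ≤ a + 1) :
    ∃ Z : Finset ℕ, (∀ p ∈ Z, z + (k + 1) % 2 < p ∧ p + 1 < n + k ∧ p % 2 = c ∧ p ∉ U) ∧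
      (U.filter (n ≤ · + 1)).card + (W.filter (n ≤ · + 1)).card ≤ Z.card + dR k n c := by
  have hcount := right_count hn hc' hc U W hU hW hN
  have hz3 := (hW z hz).1
  by_cases hE : (U.filter (n ≤ · + 1)).Nonempty
  · set x := (U.filter (n ≤ · + 1)).min' hE with hx
    have hxm := (U.filter (n ≤ · + 1)).min'_mem hE
    rw [← hx] at hxm
    have hx1 := Finset.mem_filter.1 hxm
    have hx2 := hU x hx1.1
    have hxz := hN x hx1.1 z hz
    have hxz2 : z + k + 1 ≤ x := by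
      unfold On at hxz
      omega
    refine ⟨(Finset.Ico (z + (k + 1) % 2 + 1) x).filter fun y => y % 2 = c, ?_, ?_⟩
    · intro p hp
      have hp1 := Finset.mem_filter.1 hp
      have hp2 := Finset.mem_Ico.1 hp1.1
      refine ⟨by omega, by omega, hp1.2, fun hpU => ?_⟩
      have h1 := (U.filter (n ≤ · + 1)).min'_le p
        (Finset.mem_filter.2 ⟨hpU, hmax p hpU (by omega)⟩)
      rw [← hx] at h1
      omega
    · rw [card_Ico_par _ _ _ hc (by omega)]
      unfold dR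
      split_ifs <;> omega
  · refine ⟨(Finset.Ico (n - 1 + (k + 1) % 2) (n + k - 1)).filter fun y => y % 2 = c, ?_, ?_⟩
    · intro p hp
      have hp1 := Finset.mem_filter.1 hp
      have hp2 := Finset.mem_Ico.1 hp1.1
      exact ⟨by omega, by omega, hp1.2, fun hpU =>
        hE ⟨p, Finset.mem_filter.2 ⟨hpU, by omega⟩⟩⟩
    · rw [card_Ico_par _ _ _ hc (by omega)]
      unfold dR
      split_ifs <;> omega

/-- Splitting a set into its left, middle and right parts. -/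
theorem split3 {k n : ℕ} (hn : 2 * k < n) (U : Finset ℕ) :
    U.card = (U.filter (· < k)).card + (U.filter fun x => k ≤ x ∧ x + 2 ≤ n).card +
      (U.filter (n ≤ · + 1)).card := by
  have h1 : U = (U.filter (· < k)) ∪ (U.filter fun x => k ≤ x ∧ x + 2 ≤ n) ∪
      (U.filter (n ≤ · + 1)) := by
    ext x
    simp only [Finset.mem_union, Finset.mem_filter]
    constructor
    · intro h
      by_cases h2 : x < k
      · exact Or.inl (Or.inl ⟨h, h2⟩)
      · by_cases h3 : x + 2 ≤ n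
        · exact Or.inl (Or.inr ⟨h, by omega, h3⟩)
        · exact Or.inr ⟨h, by omega⟩
    · rintro ((h | h) | h) <;> exact h.1
  have h2 : Disjoint (U.filter (· < k)) (U.filter fun x => k ≤ x ∧ x + 2 ≤ n) := by
    rw [Finset.disjoint_left]
    intro x hx hx2
    have := (Finset.mem_filter.1 hx).2
    have := (Finset.mem_filter.1 hx2).2
    omega
  have h3 : Disjoint ((U.filter (· < k)) ∪ (U.filter fun x => k ≤ x ∧ x + 2 ≤ n))
      (U.filter (n ≤ · + 1)) := by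
    rw [Finset.disjoint_left]
    intro x hx hx2
    have h4 := (Finset.mem_filter.1 hx2).2
    rcases Finset.mem_union.1 hx with h | h
    · have := (Finset.mem_filter.1 h).2
      omega
    · have := (Finset.mem_filter.1 h).2
      omega
  conv_lhs => rw [h1]
  rw [Finset.card_union_of_disjoint h3, Finset.card_union_of_disjoint h2]

/-- Occupied, pairwise non-crossing diagonals need distinct bishops. -/
theorem indep_bound {k n : ℕ} (D : Finset (ℕ × ℕ)) (hD : ∀ p ∈ D, On k n p.1 p.2)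
    (ZA ZB : Finset ℕ) (hA : ∀ a ∈ ZA, ∃ p ∈ D, p.1 = a) (hB : ∀ b ∈ ZB, ∃ p ∈ D, p.2 = b)
    (hN : ∀ a ∈ ZA, ∀ b ∈ ZB, ¬ On k n a b) : ZA.card + ZB.card ≤ D.card := by
  have h1 : ZA.card ≤ (D.filter fun p => p.1 ∈ ZA).card := by
    calc ZA.card ≤ ((D.filter fun p => p.1 ∈ ZA).image Prod.fst).card := by
          apply Finset.card_le_card
          intro a ha
          obtain ⟨p, hp, rfl⟩ := hA a ha
          exact Finset.mem_image.2 ⟨p, Finset.mem_filter.2 ⟨hp, ha⟩, rfl⟩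
      _ ≤ _ := Finset.card_image_le
  have h2 : ZB.card ≤ (D.filter fun p => p.2 ∈ ZB).card := by
    calc ZB.card ≤ ((D.filter fun p => p.2 ∈ ZB).image Prod.snd).card := by
          apply Finset.card_le_card
          intro b hb
          obtain ⟨p, hp, rfl⟩ := hB b hb
          exact Finset.mem_image.2 ⟨p, Finset.mem_filter.2 ⟨hp, hb⟩, rfl⟩
      _ ≤ _ := Finset.card_image_le
  have h3 : Disjoint (D.filter fun p => p.1 ∈ ZA) (D.filter fun p => p.2 ∈ ZB) := by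
    rw [Finset.disjoint_left]
    intro p hp hp2
    have h4 := Finset.mem_filter.1 hp
    have h5 := Finset.mem_filter.1 hp2
    exact hN _ h4.2 _ h5.2 (hD p h4.1)
  calc ZA.card + ZB.card ≤ (D.filter fun p => p.1 ∈ ZA).card + (D.filter fun p => p.2 ∈ ZB).card :=
        Nat.add_le_add h1 h2
    _ = ((D.filter fun p => p.1 ∈ ZA) ∪ (D.filter fun p => p.2 ∈ ZB)).card :=
        (Finset.card_union_of_disjoint h3).symm
    _ ≤ D.card := Finset.card_le_card (Finset.union_subset (Finset.filter_subset _ _)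
        (Finset.filter_subset _ _))

theorem dL_eq {k c c' : ℕ} (hc : c < 2) (hc2 : c' < 2) (hcc : (c + c' + k + 1) % 2 = 0) :
    dL k c = dL k c' := by
  unfold dL
  split_ifs <;> omega

theorem dR_eq {k n c c' : ℕ} (hc : c < 2) (hc2 : c' < 2) (hcc : (c + c' + k + 1) % 2 = 0) :
    dR k n c = dR k n c' := by
  unfold dR
  split_ifs <;> omega

/-- The left part of the set of occupied diagonals. -/
theorem left_pair {k n c c' z : ℕ} (hk : 1 ≤ k) (hn : 2 * k < n) (hcc : (c + c' + k + 1) % 2 = 0)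
    (hc : c < 2) (hc2 : c' < 2) (U W : Finset ℕ) (hU : ∀ a ∈ U, a % 2 = c) (hW : ∀ b ∈ W, b % 2 = c')
    (hN : ∀ a ∈ U, ∀ b ∈ W, ¬ On k n a b) (hz : z ∈ U ∨ z ∈ W) (hz1 : k ≤ z) (hz2 : z + 2 ≤ n)
    (hmin : ∀ a, (a ∈ U ∨ a ∈ W) → a < z → a < k) :
    ∃ LA LB : Finset ℕ,
      (∀ p ∈ LA, p < z ∧ p % 2 = c ∧ p ∉ U ∧ z ∈ W) ∧ (∀ p ∈ LB, p < z ∧ p % 2 = c' ∧ p ∉ W ∧ z ∈ U) ∧
      (U.filter (· < k)).card + (W.filter (· < k)).card ≤ LA.card + LB.card + dL k c := by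
  rcases hz with h | h
  · obtain ⟨Z, h1, h2⟩ := left_set hk hn (by omega) hc2 W U hW hU (fun b hb a ha hon => by
      apply hN a ha b hb
      unfold On at hon ⊢
      omega) h hz1 hz2 (fun x hx => hmin x (Or.inr hx))
    refine ⟨∅, Z, by simp, fun p hp => ⟨(h1 p hp).1, (h1 p hp).2.1, (h1 p hp).2.2, h⟩, ?_⟩
    rw [Finset.card_empty, dL_eq hc hc2 hcc]
    omega
  · obtain ⟨Z, h1, h2⟩ := left_set hk hn hcc hc U W hU hW hN h hz1 hz2
      (fun x hx => hmin x (Or.inl hx))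
    refine ⟨Z, ∅, fun p hp => ⟨(h1 p hp).1, (h1 p hp).2.1, (h1 p hp).2.2, h⟩, by simp, ?_⟩
    rw [Finset.card_empty]
    omega

/-- The right part of the set of occupied diagonals. -/
theorem right_pair {k n c c' z : ℕ} (hk : 1 ≤ k) (hn : 2 * k < n) (hcc : (c + c' + k + 1) % 2 = 0)
    (hc : c < 2) (hc2 : c' < 2) (U W : Finset ℕ) (hU : ∀ a ∈ U, a % 2 = c ∧ a + 1 < n + k)
    (hW : ∀ b ∈ W, b % 2 = c' ∧ b + 1 < n + k)
    (hN : ∀ a ∈ U, ∀ b ∈ W, ¬ On k n a b) (hz : z ∈ U ∨ z ∈ W) (hz1 : k ≤ z) (hz2 : z + 2 ≤ n)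
    (hmax : ∀ a, (a ∈ U ∨ a ∈ W) → z < a → n ≤ a + 1) :
    ∃ RA RB : Finset ℕ,
      (∀ p ∈ RA, z + (k + 1) % 2 < p ∧ p + 1 < n + k ∧ p % 2 = c ∧ p ∉ U ∧ z ∈ W) ∧
      (∀ p ∈ RB, z + (k + 1) % 2 < p ∧ p + 1 < n + k ∧ p % 2 = c' ∧ p ∉ W ∧ z ∈ U) ∧
      (U.filter (n ≤ · + 1)).card + (W.filter (n ≤ · + 1)).card ≤ RA.card + RB.card + dR k n c := by
  rcases hz with h | h
  · obtain ⟨Z, h1, h2⟩ := right_set hk hn (by omega) hc2 W U hW hU (fun b hb a ha hon => by
      apply hN a ha b hb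
      unfold On at hon ⊢
      omega) h hz1 hz2 (fun x hx => hmax x (Or.inr hx))
    refine ⟨∅, Z, by simp, fun p hp =>
      ⟨(h1 p hp).1, (h1 p hp).2.1, (h1 p hp).2.2.1, (h1 p hp).2.2.2, h⟩, ?_⟩
    rw [Finset.card_empty, dR_eq hc hc2 hcc]
    omega
  · obtain ⟨Z, h1, h2⟩ := right_set hk hn hcc hc U W hU hW hN h hz1 hz2
      (fun x hx => hmax x (Or.inl hx))
    refine ⟨Z, ∅, fun p hp =>
      ⟨(h1 p hp).1, (h1 p hp).2.1, (h1 p hp).2.2.1, (h1 p hp).2.2.2, h⟩, by simp, ?_⟩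
    rw [Finset.card_empty]
    omega

theorem arith_nc {k n e z z' w u a b : ℕ} (h1 : u + k + 1 ≤ w ∨ w + k + 1 ≤ u)
    (h2 : z ≤ w ∧ w ≤ z') (h3 : z ≤ u ∧ u ≤ z')
    (hwa : a = w + e ∨ (w = z ∧ a < z) ∨ (w = z' ∧ z' + e < a))
    (hub : b = u + e ∨ (u = z ∧ b < z) ∨ (u = z' ∧ z' + e < b)) : ¬ On k n a b := by
  intro hon
  unfold On at hon
  obtain ⟨_, h4, h5, _, _⟩ := hon
  rcases hwa with h | h | h <;> rcases hub with h' | h' | h' <;> omega

theorem arith_shift {k n c c' w : ℕ} (hcc : (c + c' + k + 1) % 2 = 0) (h1 : w % 2 = c')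
    (hk : 1 ≤ k) (hw1 : k ≤ w) (hw2 : w + 2 ≤ n) :
    On k n (w + (k + 1) % 2) w ∧ On k n w (w + (k + 1) % 2) := by
  unfold On
  omega

theorem arith_shift2 {k n c c' w : ℕ} (hc : c < 2) (hcc : (c + c' + k + 1) % 2 = 0) (h1 : w % 2 = c')
    (hk : 1 ≤ k) (hw2 : w + 2 ≤ n) :
    (w + (k + 1) % 2) % 2 = c ∧ w + (k + 1) % 2 + 1 < n + k := by
  omega

/-- If there is a free middle diagonal, then many occupied diagonals are pairwise non-crossing. -/
theorem middle {k n c c' : ℕ} (hk : 1 ≤ k) (hn : 2 * k < n) (hcc : (c + c' + k + 1) % 2 = 0)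
    (hc : c < 2) (hc2 : c' < 2) (U W : Finset ℕ) (hU : ∀ a ∈ U, a % 2 = c ∧ a + 1 < n + k)
    (hW : ∀ b ∈ W, b % 2 = c' ∧ b + 1 < n + k)
    (hN : ∀ a ∈ U, ∀ b ∈ W, ¬ On k n a b)
    (hM : ((U.filter fun x => k ≤ x ∧ x + 2 ≤ n) ∪ (W.filter fun x => k ≤ x ∧ x + 2 ≤ n)).Nonempty) :
    ∃ ZA ZB : Finset ℕ, (∀ a ∈ ZA, a % 2 = c ∧ a + 1 < n + k ∧ a ∉ U) ∧
      (∀ b ∈ ZB, b % 2 = c' ∧ b + 1 < n + k ∧ b ∉ W) ∧
      (∀ a ∈ ZA, ∀ b ∈ ZB, ¬ On k n a b) ∧
      U.card + W.card ≤ ZA.card + ZB.card + dL k c + dR k n c := by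
  classical
  obtain ⟨z, hz, hzmin⟩ : ∃ z, (z ∈ (U.filter fun x => k ≤ x ∧ x + 2 ≤ n) ∪
      (W.filter fun x => k ≤ x ∧ x + 2 ≤ n)) ∧ ∀ x ∈ (U.filter fun x => k ≤ x ∧ x + 2 ≤ n) ∪
      (W.filter fun x => k ≤ x ∧ x + 2 ≤ n), z ≤ x :=
    ⟨_, Finset.min'_mem _ hM, fun x hx => Finset.min'_le _ x hx⟩
  obtain ⟨z', hz', hzmax⟩ : ∃ z, (z ∈ (U.filter fun x => k ≤ x ∧ x + 2 ≤ n) ∪
      (W.filter fun x => k ≤ x ∧ x + 2 ≤ n)) ∧ ∀ x ∈ (U.filter fun x => k ≤ x ∧ x + 2 ≤ n) ∪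
      (W.filter fun x => k ≤ x ∧ x + 2 ≤ n), x ≤ z :=
    ⟨_, Finset.max'_mem _ hM, fun x hx => Finset.le_max' _ x hx⟩
  clear hM
  have hzz : z ≤ z' := hzmin z' hz'
  have mem_iff : ∀ x, x ∈ (U.filter fun x => k ≤ x ∧ x + 2 ≤ n) ∪
      (W.filter fun x => k ≤ x ∧ x + 2 ≤ n) ↔ (x ∈ U ∨ x ∈ W) ∧ k ≤ x ∧ x + 2 ≤ n := by
    intro x
    simp only [Finset.mem_union, Finset.mem_filter]
    tauto
  rw [mem_iff] at hz hz'
  have hzmin' : ∀ x, (x ∈ U ∨ x ∈ W) → k ≤ x → x + 2 ≤ n → z ≤ x :=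
    fun x h1 h2 h3 => hzmin x ((mem_iff x).2 ⟨h1, h2, h3⟩)
  have hzmax' : ∀ x, (x ∈ U ∨ x ∈ W) → k ≤ x → x + 2 ≤ n → x ≤ z' :=
    fun x h1 h2 h3 => hzmax x ((mem_iff x).2 ⟨h1, h2, h3⟩)
  clear hzmin hzmax mem_iff
  obtain ⟨LA, LB, hLA, hLB, hL⟩ := left_pair hk hn hcc hc hc2 U W (fun a ha => (hU a ha).1)
    (fun b hb => (hW b hb).1) hN hz.1 hz.2.1 hz.2.2 (fun a h1 h2 => by
      by_contra h3
      have := hzmin' a h1 (by omega) (by omega)
      omega)
  obtain ⟨RA, RB, hRA, hRB, hR⟩ := right_pair hk hn hcc hc hc2 U W hU hW hN hz'.1 hz'.2.1 hz'.2.2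
    (fun a h1 h2 => by
      by_contra h3
      have := hzmax' a h1 (by omega) (by omega)
      omega)
  have hzW : ∀ w ∈ W.filter (fun x => k ≤ x ∧ x + 2 ≤ n), z ≤ w ∧ w ≤ z' := by
    intro w hw
    have h2 := Finset.mem_filter.1 hw
    exact ⟨hzmin' w (Or.inr h2.1) h2.2.1 h2.2.2, hzmax' w (Or.inr h2.1) h2.2.1 h2.2.2⟩
  have hzU : ∀ w ∈ U.filter (fun x => k ≤ x ∧ x + 2 ≤ n), z ≤ w ∧ w ≤ z' := by
    intro w hw
    have h2 := Finset.mem_filter.1 hw
    exact ⟨hzmin' w (Or.inl h2.1) h2.2.1 h2.2.2, hzmax' w (Or.inl h2.1) h2.2.1 h2.2.2⟩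
  have hmid : ∀ u ∈ U.filter (fun x => k ≤ x ∧ x + 2 ≤ n), ∀ w ∈ W.filter (fun x => k ≤ x ∧ x + 2 ≤ n),
      u + k + 1 ≤ w ∨ w + k + 1 ≤ u := by
    intro u hu w hw
    have h1 := Finset.mem_filter.1 hu
    have h2 := Finset.mem_filter.1 hw
    have h3 := hN u h1.1 w h2.1
    have h4 := (hU u h1.1).1
    have h5 := (hW w h2.1).1
    obtain ⟨_, h6, h7⟩ := h1
    obtain ⟨_, h8, h9⟩ := h2
    clear hL hR hLA hLB hRA hRB hN hU hW hzW hzU hzmin' hzmax' hz hz'
    unfold On at h3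
    omega
  have cMA : ((W.filter fun x => k ≤ x ∧ x + 2 ≤ n).image (· + (k + 1) % 2)).card =
      (W.filter fun x => k ≤ x ∧ x + 2 ≤ n).card :=
    Finset.card_image_of_injective _ (add_left_injective _)
  have cMB : ((U.filter fun x => k ≤ x ∧ x + 2 ≤ n).image (· + (k + 1) % 2)).card =
      (U.filter fun x => k ≤ x ∧ x + 2 ≤ n).card :=
    Finset.card_image_of_injective _ (add_left_injective _)
  have cZA : (LA ∪ (W.filter fun x => k ≤ x ∧ x + 2 ≤ n).image (· + (k + 1) % 2) ∪ RA).card =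
      LA.card + (W.filter fun x => k ≤ x ∧ x + 2 ≤ n).card + RA.card := by
    have h1 : Disjoint LA ((W.filter fun x => k ≤ x ∧ x + 2 ≤ n).image (· + (k + 1) % 2)) := by
      rw [Finset.disjoint_left]
      intro x hx hx2
      obtain ⟨w, hw, rfl⟩ := Finset.mem_image.1 hx2
      have h3 := (hLA _ hx).1
      have h4 := (hzW w hw).1
      clear hL hR hLA hLB hRA hRB hN hU hW hzW hzU hzmin' hzmax' hz hz'
      omega
    have h2 : Disjoint (LA ∪ (W.filter fun x => k ≤ x ∧ x + 2 ≤ n).image (· + (k + 1) % 2)) RA := by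
      rw [Finset.disjoint_left]
      intro x hx hx2
      have h3 := (hRA _ hx2).1
      rcases Finset.mem_union.1 hx with h | h
      · have h4 := (hLA _ h).1
        clear hL hR hLA hLB hRA hRB hN hU hW hzW hzU hzmin' hzmax' hz hz'
        omega
      · obtain ⟨w, hw, rfl⟩ := Finset.mem_image.1 h
        have h4 := (hzW w hw).2
        clear hL hR hLA hLB hRA hRB hN hU hW hzW hzU hzmin' hzmax' hz hz'
        omega
    rw [Finset.card_union_of_disjoint h2, Finset.card_union_of_disjoint h1, cMA]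
  have cZB : (LB ∪ (U.filter fun x => k ≤ x ∧ x + 2 ≤ n).image (· + (k + 1) % 2) ∪ RB).card =
      LB.card + (U.filter fun x => k ≤ x ∧ x + 2 ≤ n).card + RB.card := by
    have h1 : Disjoint LB ((U.filter fun x => k ≤ x ∧ x + 2 ≤ n).image (· + (k + 1) % 2)) := by
      rw [Finset.disjoint_left]
      intro x hx hx2
      obtain ⟨w, hw, rfl⟩ := Finset.mem_image.1 hx2
      have h3 := (hLB _ hx).1
      have h4 := (hzU w hw).1
      clear hL hR hLA hLB hRA hRB hN hU hW hzW hzU hzmin' hzmax' hz hz'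
      omega
    have h2 : Disjoint (LB ∪ (U.filter fun x => k ≤ x ∧ x + 2 ≤ n).image (· + (k + 1) % 2)) RB := by
      rw [Finset.disjoint_left]
      intro x hx hx2
      have h3 := (hRB _ hx2).1
      rcases Finset.mem_union.1 hx with h | h
      · have h4 := (hLB _ h).1
        clear hL hR hLA hLB hRA hRB hN hU hW hzW hzU hzmin' hzmax' hz hz'
        omega
      · obtain ⟨w, hw, rfl⟩ := Finset.mem_image.1 h
        have h4 := (hzU w hw).2
        clear hL hR hLA hLB hRA hRB hN hU hW hzW hzU hzmin' hzmax' hz hz'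
        omega
    rw [Finset.card_union_of_disjoint h2, Finset.card_union_of_disjoint h1, cMB]
  have anA : ∀ p ∈ LA ∪ (W.filter fun x => k ≤ x ∧ x + 2 ≤ n).image (· + (k + 1) % 2) ∪ RA,
      (p % 2 = c ∧ p + 1 < n + k ∧ p ∉ U) ∧ ∃ w ∈ W.filter (fun x => k ≤ x ∧ x + 2 ≤ n),
      (p = w + (k + 1) % 2 ∨ (w = z ∧ p < z) ∨ (w = z' ∧ z' + (k + 1) % 2 < p)) := by
    intro p hp
    rcases Finset.mem_union.1 hp with h | h
    · rcases Finset.mem_union.1 h with h | h
      · obtain ⟨h1, h2, h3, h4⟩ := hLA p h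
        exact ⟨⟨h2, by
          obtain ⟨_, _, h5⟩ := hz
          clear hL hR hLA hLB hRA hRB hN hU hW hzW hzU hzmin' hzmax'
          omega, h3⟩, z, Finset.mem_filter.2 ⟨h4, hz.2⟩, Or.inr (Or.inl ⟨rfl, h1⟩)⟩
      · obtain ⟨w, hw, rfl⟩ := Finset.mem_image.1 h
        have h1 := Finset.mem_filter.1 hw
        have h2 := arith_shift (n := n) hcc (hW w h1.1).1 hk h1.2.1 h1.2.2
        have h3 := arith_shift2 (n := n) hc hcc (hW w h1.1).1 hk h1.2.2
        exact ⟨⟨h3.1, h3.2, fun hmem => hN _ hmem w h1.1 h2.1⟩, w, hw, Or.inl rfl⟩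
    · obtain ⟨h1, h2, h3, h4, h5⟩ := hRA p h
      exact ⟨⟨h3, h2, h4⟩, z', Finset.mem_filter.2 ⟨h5, hz'.2⟩, Or.inr (Or.inr ⟨rfl, h1⟩)⟩
  have anB : ∀ p ∈ LB ∪ (U.filter fun x => k ≤ x ∧ x + 2 ≤ n).image (· + (k + 1) % 2) ∪ RB,
      (p % 2 = c' ∧ p + 1 < n + k ∧ p ∉ W) ∧ ∃ w ∈ U.filter (fun x => k ≤ x ∧ x + 2 ≤ n),
      (p = w + (k + 1) % 2 ∨ (w = z ∧ p < z) ∨ (w = z' ∧ z' + (k + 1) % 2 < p)) := by
    intro p hp
    rcases Finset.mem_union.1 hp with h | h
    · rcases Finset.mem_union.1 h with h | h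
      · obtain ⟨h1, h2, h3, h4⟩ := hLB p h
        exact ⟨⟨h2, by
          obtain ⟨_, _, h5⟩ := hz
          clear hL hR hLA hLB hRA hRB hN hU hW hzW hzU hzmin' hzmax'
          omega, h3⟩, z, Finset.mem_filter.2 ⟨h4, hz.2⟩, Or.inr (Or.inl ⟨rfl, h1⟩)⟩
      · obtain ⟨w, hw, rfl⟩ := Finset.mem_image.1 h
        have h1 := Finset.mem_filter.1 hw
        have hcc2 : (c' + c + k + 1) % 2 = 0 := by
          rw [Nat.add_comm c' c]; exact hcc
        have h2 := arith_shift (n := n) hcc2 (hU w h1.1).1 hk h1.2.1 h1.2.2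
        have h3 := arith_shift2 (n := n) hc2 hcc2 (hU w h1.1).1 hk h1.2.2
        exact ⟨⟨h3.1, h3.2, fun hmem => hN w h1.1 _ hmem h2.2⟩, w, hw, Or.inl rfl⟩
    · obtain ⟨h1, h2, h3, h4, h5⟩ := hRB p h
      exact ⟨⟨h3, h2, h4⟩, z', Finset.mem_filter.2 ⟨h5, hz'.2⟩, Or.inr (Or.inr ⟨rfl, h1⟩)⟩
  refine ⟨_, _, fun a ha => (anA a ha).1, fun b hb => (anB b hb).1, ?_, ?_⟩
  · intro a ha b hb
    obtain ⟨_, w, hw, hwa⟩ := anA a ha
    obtain ⟨_, u, hu, hub⟩ := anB b hb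
    exact arith_nc (hmid u hu w hw) (hzW w hw) (hzU u hu) hwa hub
  · rw [cZA, cZB, split3 hn U, split3 hn W]
    clear cZA cZB anA anB hmid hzW hzU hLA hLB hRA hRB hN hU hW hzmin' hzmax' hz hz' cMA cMB
    omega

theorem arith_final1 {k n c c' m u w uL uR wL wR : ℕ} (hk : 1 ≤ k) (hn : 2 * k < n) (hc : c < 2)
    (hc2 : c' < 2) (hcc : (c + c' + k + 1) % 2 = 0)
    (cA : (n + k - 1 + 1 - c) / 2 ≤ u + m) (cB : (n + k - 1 + 1 - c') / 2 ≤ w + m)
    (hu : u = uL + 0 + uR) (hw : w = wL + 0 + wR) (qL : uL + wL ≤ (k + 1 - c) / 2)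
    (qR : uR + wR ≤ (n + k - c) / 2 - (n - c) / 2) : n + k ≤ 3 * m + 2 := by
  obtain ⟨q, hq | hq⟩ : ∃ q, k = 2 * q ∨ k = 2 * q + 1 := ⟨k / 2, by omega⟩
  · obtain ⟨r, hr | hr⟩ : ∃ r, n = 2 * r ∨ n = 2 * r + 1 := ⟨n / 2, by omega⟩
    · subst hq hr
      obtain rfl | rfl : c = 0 ∨ c = 1 := by omega
      · obtain rfl : c' = 1 := by omega
        have e1 : (2 * r + 2 * q - 1 + 1 - 0) / 2 = r + q := by omega
        have e2 : (2 * r + 2 * q - 1 + 1 - 1) / 2 = r + q - 1 := by omega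
        have e3 : (2 * q + 1 - 0) / 2 = q := by omega
        have e4 : (2 * r + 2 * q - 0) / 2 - (2 * r - 0) / 2 = q := by omega
        rw [e1] at cA; rw [e2] at cB; rw [e3] at qL; rw [e4] at qR
        omega
      · obtain rfl : c' = 0 := by omega
        have e1 : (2 * r + 2 * q - 1 + 1 - 1) / 2 = r + q - 1 := by omega
        have e2 : (2 * r + 2 * q - 1 + 1 - 0) / 2 = r + q := by omega
        have e3 : (2 * q + 1 - 1) / 2 = q := by omega
        have e4 : (2 * r + 2 * q - 1) / 2 - (2 * r - 1) / 2 = q := by omega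
        rw [e1] at cA; rw [e2] at cB; rw [e3] at qL; rw [e4] at qR
        omega
    · subst hq hr
      obtain rfl | rfl : c = 0 ∨ c = 1 := by omega
      · obtain rfl : c' = 1 := by omega
        have e1 : (2 * r + 1 + 2 * q - 1 + 1 - 0) / 2 = r + q := by omega
        have e2 : (2 * r + 1 + 2 * q - 1 + 1 - 1) / 2 = r + q := by omega
        have e3 : (2 * q + 1 - 0) / 2 = q := by omega
        have e4 : (2 * r + 1 + 2 * q - 0) / 2 - (2 * r + 1 - 0) / 2 = q := by omega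
        rw [e1] at cA; rw [e2] at cB; rw [e3] at qL; rw [e4] at qR
        omega
      · obtain rfl : c' = 0 := by omega
        have e1 : (2 * r + 1 + 2 * q - 1 + 1 - 1) / 2 = r + q := by omega
        have e2 : (2 * r + 1 + 2 * q - 1 + 1 - 0) / 2 = r + q := by omega
        have e3 : (2 * q + 1 - 1) / 2 = q := by omega
        have e4 : (2 * r + 1 + 2 * q - 1) / 2 - (2 * r + 1 - 1) / 2 = q := by omega
        rw [e1] at cA; rw [e2] at cB; rw [e3] at qL; rw [e4] at qR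
        omega
  · obtain ⟨r, hr | hr⟩ : ∃ r, n = 2 * r ∨ n = 2 * r + 1 := ⟨n / 2, by omega⟩
    · subst hq hr
      obtain rfl | rfl : c = 0 ∨ c = 1 := by omega
      · obtain rfl : c' = 0 := by omega
        have e1 : (2 * r + (2 * q + 1) - 1 + 1 - 0) / 2 = r + q := by omega
        have e3 : (2 * q + 1 + 1 - 0) / 2 = q + 1 := by omega
        have e4 : (2 * r + (2 * q + 1) - 0) / 2 - (2 * r - 0) / 2 = q := by omega
        rw [e1] at cA; rw [e1] at cB; rw [e3] at qL; rw [e4] at qR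
        omega
      · obtain rfl : c' = 1 := by omega
        have e1 : (2 * r + (2 * q + 1) - 1 + 1 - 1) / 2 = r + q := by omega
        have e3 : (2 * q + 1 + 1 - 1) / 2 = q := by omega
        have e4 : (2 * r + (2 * q + 1) - 1) / 2 - (2 * r - 1) / 2 = q + 1 := by omega
        rw [e1] at cA; rw [e1] at cB; rw [e3] at qL; rw [e4] at qR
        omega
    · subst hq hr
      obtain rfl | rfl : c = 0 ∨ c = 1 := by omega
      · obtain rfl : c' = 0 := by omega
        have e1 : (2 * r + 1 + (2 * q + 1) - 1 + 1 - 0) / 2 = r + q + 1 := by omega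
        have e3 : (2 * q + 1 + 1 - 0) / 2 = q + 1 := by omega
        have e4 : (2 * r + 1 + (2 * q + 1) - 0) / 2 - (2 * r + 1 - 0) / 2 = q + 1 := by omega
        rw [e1] at cA; rw [e1] at cB; rw [e3] at qL; rw [e4] at qR
        omega
      · obtain rfl : c' = 1 := by omega
        have e1 : (2 * r + 1 + (2 * q + 1) - 1 + 1 - 1) / 2 = r + q := by omega
        have e3 : (2 * q + 1 + 1 - 1) / 2 = q := by omega
        have e4 : (2 * r + 1 + (2 * q + 1) - 1) / 2 - (2 * r + 1 - 1) / 2 = q := by omega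
        rw [e1] at cA; rw [e1] at cB; rw [e3] at qL; rw [e4] at qR
        omega

theorem arith_final2 {k n c c' m u w z : ℕ} (hk : 1 ≤ k) (hc : c < 2)
    (hc2 : c' < 2) (hcc : (c + c' + k + 1) % 2 = 0)
    (cA : (n + k - 1 + 1 - c) / 2 ≤ u + m) (cB : (n + k - 1 + 1 - c') / 2 ≤ w + m)
    (h1 : u + w ≤ z + dL k c + dR k n c) (h2 : z ≤ m) : n + k ≤ 3 * m + 2 := by
  unfold dL dR at h1
  split_ifs at h1 <;> omega

/-- The core inequality: a dominating set of one colour class has at least `(n + k - 2) / 3` squares. -/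
theorem core {k n c : ℕ} (hk : 1 ≤ k) (hn : 2 * k < n) (hc : c < 2) (D : Finset (ℕ × ℕ))
    (hD : ∀ p ∈ D, On k n p.1 p.2)
    (hdom : ∀ a b, a % 2 = c → On k n a b → (∃ p ∈ D, p.1 = a) ∨ (∃ p ∈ D, p.2 = b)) :
    n + k ≤ 3 * D.card + 2 := by
  classical
  obtain ⟨c', hc2, hcc⟩ : ∃ c', c' < 2 ∧ (c + c' + k + 1) % 2 = 0 :=
    ⟨(c + k + 1) % 2, by omega, by omega⟩
  set A : Finset ℕ := (Finset.range (n + k - 1)).filter fun y => y % 2 = c with hAd
  set B : Finset ℕ := (Finset.range (n + k - 1)).filter fun y => y % 2 = c' with hBd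
  set U : Finset ℕ := A.filter fun a => ¬ ∃ p ∈ D, p.1 = a with hUd
  set W : Finset ℕ := B.filter fun b => ¬ ∃ p ∈ D, p.2 = b with hWd
  have hU : ∀ a ∈ U, a % 2 = c ∧ a + 1 < n + k := by
    intro a ha
    have h1 := Finset.mem_filter.1 (Finset.mem_filter.1 ha).1
    have h2 := Finset.mem_range.1 h1.1
    exact ⟨h1.2, by omega⟩
  have hW : ∀ b ∈ W, b % 2 = c' ∧ b + 1 < n + k := by
    intro a ha
    have h1 := Finset.mem_filter.1 (Finset.mem_filter.1 ha).1
    have h2 := Finset.mem_range.1 h1.1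
    exact ⟨h1.2, by omega⟩
  have hN : ∀ a ∈ U, ∀ b ∈ W, ¬ On k n a b := by
    intro a ha b hb hon
    rcases hdom a b (hU a ha).1 hon with h | h
    · exact (Finset.mem_filter.1 ha).2 h
    · exact (Finset.mem_filter.1 hb).2 h
  have occA : ∀ a, a + 1 < n + k → a % 2 = c → a ∉ U → ∃ p ∈ D, p.1 = a := by
    intro a h1 h2 h3
    by_contra hcon
    exact h3 (Finset.mem_filter.2 ⟨Finset.mem_filter.2 ⟨Finset.mem_range.2 (by omega), h2⟩, hcon⟩)
  have occB : ∀ b, b + 1 < n + k → b % 2 = c' → b ∉ W → ∃ p ∈ D, p.2 = b := by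
    intro a h1 h2 h3
    by_contra hcon
    exact h3 (Finset.mem_filter.2 ⟨Finset.mem_filter.2 ⟨Finset.mem_range.2 (by omega), h2⟩, hcon⟩)
  have cA : A.card ≤ U.card + D.card := by
    have h1 : A ⊆ U ∪ D.image Prod.fst := by
      intro a ha
      rw [Finset.mem_union]
      by_cases h : ∃ p ∈ D, p.1 = a
      · obtain ⟨p, hp, rfl⟩ := h
        exact Or.inr (Finset.mem_image.2 ⟨p, hp, rfl⟩)
      · exact Or.inl (Finset.mem_filter.2 ⟨ha, h⟩)
    exact (Finset.card_le_card h1).trans ((Finset.card_union_le _ _).trans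
      (Nat.add_le_add_left Finset.card_image_le _))
  have cB : B.card ≤ W.card + D.card := by
    have h1 : B ⊆ W ∪ D.image Prod.snd := by
      intro a ha
      rw [Finset.mem_union]
      by_cases h : ∃ p ∈ D, p.2 = a
      · obtain ⟨p, hp, rfl⟩ := h
        exact Or.inr (Finset.mem_image.2 ⟨p, hp, rfl⟩)
      · exact Or.inl (Finset.mem_filter.2 ⟨ha, h⟩)
    exact (Finset.card_le_card h1).trans ((Finset.card_union_le _ _).trans
      (Nat.add_le_add_left Finset.card_image_le _))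
  rw [hAd, card_par _ _ hc] at cA
  rw [hBd, card_par _ _ hc2] at cB
  by_cases hM : ((U.filter fun x => k ≤ x ∧ x + 2 ≤ n) ∪
      (W.filter fun x => k ≤ x ∧ x + 2 ≤ n)).Nonempty
  · obtain ⟨ZA, ZB, h1, h2, h3, h4⟩ := middle hk hn hcc hc hc2 U W hU hW hN hM
    have hfin := indep_bound D hD ZA ZB
      (fun a ha => occA a (h1 a ha).2.1 (h1 a ha).1 (h1 a ha).2.2)
      (fun b hb => occB b (h2 b hb).2.1 (h2 b hb).1 (h2 b hb).2.2) h3
    exact arith_final2 hk hc hc2 hcc cA cB h4 hfin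
  · rw [Finset.not_nonempty_iff_eq_empty, Finset.union_eq_empty] at hM
    have sU := split3 hn U
    have sW := split3 hn W
    rw [hM.1, Finset.card_empty] at sU
    rw [hM.2, Finset.card_empty] at sW
    exact arith_final1 hk hn hc hc2 hcc cA cB sU sW
      (left_count hn hcc hc U W (fun a ha => (hU a ha).1) (fun b hb => (hW b hb).1) hN)
      (right_count hn hcc hc U W hU hW hN)

end Pool.Agent.R43.BishopCore
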