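import Pool.Agent.R43.BSearch

/-!
# A 2-connected graph on 12 vertices with `α_bnr = 5 > 4 = Γ_b`

The graph is obtained from a graph on 9 vertices by replacing its three cut vertices by pairs of adjacent
twins.
-/

set_option autoImplicit false

namespace Pool.Agent.R43.BnrGraph

section Definitions

variable {V : Type} [Fintype V] [DecidableEq V]

/-- The eccentricity of `v`. -/
noncomputable def ecc (G : SimpleGraph V) (v : V) : ℕ := Finset.univ.sup fun u => G.dist v u

/-- `f` is a broadcast: `f v ≤ e(v)` for all `v`. (The graph is understood to be connected.) -/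
def IsBroadcast (G : SimpleGraph V) (f : V → ℕ) : Prop := ∀ v, f v ≤ ecc G v

/-- `u` hears `f` from `v`. -/
def HearsFrom (G : SimpleGraph V) (f : V → ℕ) (u v : V) : Prop := 0 < f v ∧ G.dist u v ≤ f v

/-- `f` is dominating: every `u` hears `f` from some `v`. -/
def Dominating (G : SimpleGraph V) (f : V → ℕ) : Prop := ∀ u, ∃ v, HearsFrom G f u v

/-- `f` is a minimal dominating broadcast: no broadcast `g ≤ f`, `g ≠ f`, is dominating. -/
def MinimalDominating (G : SimpleGraph V) (f : V → ℕ) : Prop :=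
  IsBroadcast G f ∧ Dominating G f ∧
    ∀ g : V → ℕ, IsBroadcast G g → (∀ v, g v ≤ f v) → g ≠ f → ¬ Dominating G g

/-- The upper broadcast domination number `Γ_b(G)`: the largest weight of a minimal dominating
broadcast. -/
noncomputable def upperBroadcast (G : SimpleGraph V) : ℕ :=
  sSup {c : ℕ | ∃ f : V → ℕ, MinimalDominating G f ∧ ∑ v, f v = c}

/-- `f` is bn-independent: a vertex `x` in `N_f(u) ∩ N_f(v)`, for distinct broadcasting `u`, `v`, lies in
`B_f(u) ∩ B_f(v)`. -/
def BnIndependent (G : SimpleGraph V) (f : V → ℕ) : Prop :=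
  ∀ u v, u ≠ v → 0 < f u → 0 < f v → ∀ x, G.dist x u ≤ f u → G.dist x v ≤ f v →
    G.dist x u = f u ∧ G.dist x v = f v

/-- The private boundary of `v`: the vertices of `N_f(v)` that do not hear the broadcast obtained from `f` by
replacing the value at `v` by `f v - 1`. -/
def PB (G : SimpleGraph V) (f : V → ℕ) (v : V) : Set V :=
  {u | G.dist u v ≤ f v ∧ ¬ ∃ w, HearsFrom G (Function.update f v (f v - 1)) u w}

/-- `f` is irredundant: every broadcasting vertex has a nonempty private boundary. -/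
def Irredundant (G : SimpleGraph V) (f : V → ℕ) : Prop := ∀ v, 0 < f v → (PB G f v).Nonempty

/-- The bnr-independence number `α_bnr(G)`: the largest weight of an irredundant bn-independent
broadcast. -/
noncomputable def bnrNumber (G : SimpleGraph V) : ℕ :=
  sSup {c : ℕ | ∃ f : V → ℕ, IsBroadcast G f ∧ BnIndependent G f ∧ Irredundant G f ∧ ∑ v, f v = c}

/-- A private vertex for every broadcasting vertex of a minimal dominating broadcast. -/
theorem MinimalDominating.private {G : SimpleGraph V} {f : V → ℕ} (hf : MinimalDominating G f) {v : V}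
    (hv : f v ≠ 0) : ∃ p, (if f v = 1 then G.dist v p ≤ 1 else G.dist v p = f v) ∧
      ∀ v', f v' ≠ 0 → v' ≠ v → f v' < G.dist v' p := by
  obtain ⟨hb, hd, hmin⟩ := hf
  have hnd := hmin (Function.update f v (f v - 1)) (by
      intro z
      by_cases hz : z = v
      · subst hz; rw [Function.update_self]; exact (Nat.sub_le _ _).trans (hb z)
      · rw [Function.update_of_ne hz]; exact hb z)
    (by
      intro z
      by_cases hz : z = v
      · subst hz; rw [Function.update_self]; exact Nat.sub_le _ _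
      · rw [Function.update_of_ne hz])
    (by
      intro h
      have := congrFun h v
      rw [Function.update_self] at this
      omega)
  unfold Dominating at hnd
  push Not at hnd
  obtain ⟨p, hp⟩ := hnd
  have hother : ∀ v', f v' ≠ 0 → v' ≠ v → f v' < G.dist v' p := by
    intro v' hv' hne
    have h1 := hp v'
    unfold HearsFrom at h1
    rw [Function.update_of_ne hne, SimpleGraph.dist_comm] at h1
    by_contra hcon
    exact h1 ⟨Nat.pos_of_ne_zero hv', by omega⟩
  refine ⟨p, ?_, hother⟩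
  obtain ⟨w, hw0, hw⟩ := hd p
  have hwv : w = v := by
    by_contra hne
    have := hother w hw0.ne' hne
    rw [SimpleGraph.dist_comm] at this
    omega
  subst hwv
  have h2 := hp w
  unfold HearsFrom at h2
  rw [Function.update_self] at h2
  rw [SimpleGraph.dist_comm]
  split_ifs with h1
  · omega
  · by_contra hcon
    exact h2 ⟨by omega, by omega⟩

end Definitions

/-! ### The graph -/

/-- The distance table. -/
def Dl : List (List ℕ) :=
   [[0, 3, 3, 3, 2, 2, 2, 2, 1, 2, 2, 1],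
    [3, 0, 4, 3, 3, 1, 2, 3, 2, 3, 1, 2],
    [3, 4, 0, 3, 1, 3, 3, 2, 2, 1, 3, 2],
    [3, 3, 3, 0, 2, 2, 1, 1, 2, 2, 2, 2],
    [2, 3, 1, 2, 0, 2, 2, 1, 1, 1, 2, 1],
    [2, 1, 3, 2, 2, 0, 1, 2, 1, 2, 1, 1],
    [2, 2, 3, 1, 2, 1, 0, 1, 1, 2, 1, 1],
    [2, 3, 2, 1, 1, 2, 1, 0, 1, 1, 2, 1],
    [1, 2, 2, 2, 1, 1, 1, 1, 0, 1, 1, 1],
    [2, 3, 1, 2, 1, 2, 2, 1, 1, 0, 2, 1],
    [2, 1, 3, 2, 2, 1, 1, 2, 1, 2, 0, 1],
    [1, 2, 2, 2, 1, 1, 1, 1, 1, 1, 1, 0]]

/-- The distance function. -/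
def D (u v : Fin 12) : ℕ := (Dl.getD u []).getD v 0

/-- The graph: two vertices are adjacent when their table entry is `1`. -/
def G : SimpleGraph (Fin 12) where
  Adj u v := D u v = 1
  symm := ⟨by
    have : ∀ u v, D u v = 1 → D v u = 1 := by decide +kernel
    exact fun u v => this u v⟩
  loopless := ⟨by
    have : ∀ u, ¬ D u u = 1 := by decide +kernel
    exact fun u => this u⟩

theorem G_dist (u v : Fin 12) : G.dist u v = D u v := by
  apply BSearch.dist_eq_of_table G D
  · decide +kernel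
  · decide +kernel
  · have : ∀ u v w, D u v = 1 → D u w ≤ D v w + 1 := by decide +kernel
    exact fun u v w h => this u v w h
  · have : ∀ u v, D u v ≠ 0 → ∃ w, D u w = 1 ∧ D w v + 1 = D u v := by decide +kernel
    exact fun u v h => this u v h

theorem G_connected : G.Connected := by
  apply BSearch.connected_of_table G D
  · decide +kernel
  · have : ∀ u v, D u v ≠ 0 → ∃ w, D u w = 1 ∧ D w v + 1 = D u v := by decide +kernel
    exact fun u v h => this u v h

/-- The eccentricities. -/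
def E (v : Fin 12) : ℕ := Finset.univ.sup fun u => D v u

theorem G_ecc (v : Fin 12) : ecc G v = E v := by
  unfold ecc E
  simp only [G_dist]

/-- Ball and boundary masks. -/
def Tl : List (List (ℕ × ℕ × ℕ)) :=
   [[(1, 2305, 2305), (2, 4081, 1776), (3, 4095, 14)],
    [(1, 1058, 1058), (2, 3426, 2368), (3, 4091, 665), (4, 4095, 4)],
    [(1, 532, 532), (2, 2964, 2432), (3, 4093, 1129), (4, 4095, 2)],
    [(1, 200, 200), (2, 4088, 3888), (3, 4095, 7)],
    [(1, 2964, 2964), (2, 4093, 1129), (3, 4095, 2)],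
    [(1, 3426, 3426), (2, 4091, 665), (3, 4095, 4)],
    [(1, 3560, 3560), (2, 4091, 531), (3, 4095, 4)],
    [(1, 3032, 3032), (2, 4093, 1061), (3, 4095, 2)],
    [(1, 4081, 4081), (2, 4095, 14)],
    [(1, 2964, 2964), (2, 4093, 1129), (3, 4095, 2)],
    [(1, 3426, 3426), (2, 4091, 665), (3, 4095, 4)],
    [(1, 4081, 4081), (2, 4095, 14)]]

/-- The table of masks. -/
def tab (v : ℕ) : List (ℕ × ℕ × ℕ) := Tl.getD v []

theorem tab_spec : ∀ v : Fin 12, ∀ k, 1 ≤ k → k ≤ E v →
    (k, BSearch.ballM D v k, BSearch.candM D v k) ∈ tab v := by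
  have h1 : ∀ v : Fin 12, E v ≤ 4 := by decide +kernel
  have h2 : ∀ v : Fin 12, ∀ k ∈ Finset.range 5, 1 ≤ k → k ≤ E v →
    (k, BSearch.ballM D v k, BSearch.candM D v k) ∈ tab v := by decide +kernel
  intro v k hk1 hk2
  exact h2 v k (Finset.mem_range.2 (by have := h1 v; omega)) hk1 hk2

/-- The test at the leaves: a dominating broadcast has weight at most `4`. -/
def leaf (a _m w : ℕ) : Bool := (a &&& (2 ^ 12 - 1)) != 2 ^ 12 - 1 || decide (w ≤ 4)

theorem search_true : BSearch.go tab leaf 12 [] 0 0 0 = true := by decide +kernel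

theorem upper_le : upperBroadcast G ≤ 4 := by
  apply csSup_le'
  rintro c ⟨f, hf, rfl⟩
  obtain ⟨a, m, ha, _, hl⟩ := BSearch.search_fin D E tab leaf tab_spec search_true f
    (fun v => (hf.1 v).trans_eq (G_ecc v))
    (fun v hv => by
      obtain ⟨p, hp1, hp2⟩ := hf.private hv
      refine ⟨p, ?_, fun v' h1 h2 => ?_⟩
      · rw [G_dist] at hp1; exact hp1
      · have := hp2 v' h1 h2
        rwa [G_dist] at this)
  have hfull : a &&& (2 ^ 12 - 1) = 2 ^ 12 - 1 := by
    apply BSearch.and_full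
    intro u
    obtain ⟨v, hv0, hv⟩ := hf.2.1 u
    rw [ha u]
    refine ⟨v, hv0.ne', ?_⟩
    rw [← G_dist, SimpleGraph.dist_comm]
    exact hv
  unfold leaf at hl
  rw [hfull] at hl
  simpa using hl

/-- The bnr-independent broadcast of weight `5`. -/
def f0 (v : Fin 12) : ℕ := if v = 0 then 1 else if v = 1 then 2 else if v = 2 then 2 else 0

theorem five_le : 5 ≤ bnrNumber G := by
  apply le_csSup
  · refine ⟨∑ v, ecc G v, ?_⟩
    rintro c ⟨g, hg, _, _, rfl⟩
    exact Finset.sum_le_sum fun v _ => hg v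
  · refine ⟨f0, ?_, ?_, ?_, ?_⟩
    · intro v
      rw [G_ecc]
      revert v
      decide +kernel
    · have : ∀ u v, u ≠ v → 0 < f0 u → 0 < f0 v → ∀ x, D x u ≤ f0 u → D x v ≤ f0 v →
        D x u = f0 u ∧ D x v = f0 v := by decide +kernel
      unfold BnIndependent
      simp only [G_dist]
      exact this
    · have : ∀ v, 0 < f0 v → ∃ u, D u v ≤ f0 v ∧
        ∀ w, ¬ (0 < (Function.update f0 v (f0 v - 1)) w ∧
          D u w ≤ (Function.update f0 v (f0 v - 1)) w) := by decide +kernel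
      intro v hv
      obtain ⟨u, h1, h2⟩ := this v hv
      refine ⟨u, ?_, ?_⟩
      · rw [G_dist]; exact h1
      · rintro ⟨w, hw1, hw2⟩
        rw [G_dist] at hw2
        exact h2 w ⟨hw1, hw2⟩
    · decide +kernel

theorem upper_lt_bnr : upperBroadcast G < bnrNumber G := by
  have h1 := upper_le
  have h2 := five_le
  omega

/-- Potentials for the graphs with a vertex removed. -/
def Pl : List (List ℕ) :=
   [[0, 0, 4, 3, 3, 1, 2, 3, 2, 3, 1, 2],
    [0, 0, 3, 3, 2, 2, 2, 2, 1, 2, 2, 1],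
    [0, 3, 0, 3, 2, 2, 2, 2, 1, 2, 2, 1],
    [0, 3, 3, 0, 2, 2, 2, 2, 1, 2, 2, 1],
    [0, 3, 3, 3, 0, 2, 2, 2, 1, 2, 2, 1],
    [0, 3, 3, 3, 2, 0, 2, 2, 1, 2, 2, 1],
    [0, 3, 3, 3, 2, 2, 0, 2, 1, 2, 2, 1],
    [0, 3, 3, 3, 2, 2, 2, 0, 1, 2, 2, 1],
    [0, 3, 3, 3, 2, 2, 2, 2, 0, 2, 2, 1],
    [0, 3, 3, 3, 2, 2, 2, 2, 1, 0, 2, 1],
    [0, 3, 3, 3, 2, 2, 2, 2, 1, 2, 0, 1],
    [0, 3, 3, 3, 2, 2, 2, 2, 1, 2, 2, 0]]

/-- Potential. -/
def P (v u : Fin 12) : ℕ := (Pl.getD v []).getD u 0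

/-- Removing a vertex leaves a connected graph. -/
theorem delete_connected (v : Fin 12) : (G.induce {u | u ≠ v}).Connected := by
  have key : ∀ v : Fin 12, ∃ r, r ≠ v ∧ ∀ u, u ≠ v → u ≠ r → ∃ w, w ≠ v ∧ D u w = 1 ∧ P v w < P v u := by
    decide +kernel
  obtain ⟨r, hr, h⟩ := key v
  apply BSearch.connected_of_potential (G.induce {u | u ≠ v}) ⟨r, hr⟩ (fun u => P v u.1)
  rintro ⟨u, hu⟩ hne
  obtain ⟨w, hw1, hw2, hw3⟩ := h u hu (fun h => hne (Subtype.ext h))
  exact ⟨⟨w, hw1⟩, hw2, hw3⟩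

/-- Every vertex has two distinct neighbours. -/
theorem two_neighbours (v : Fin 12) : ∃ x y, x ≠ y ∧ G.Adj v x ∧ G.Adj v y := by
  have key : ∀ v : Fin 12, ∃ x y, x ≠ y ∧ D v x = 1 ∧ D v y = 1 := by decide +kernel
  exact key v

end Pool.Agent.R43.BnrGraph
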