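import Pool.Agent.R43.BSearch

/-!
# Search for dominating broadcasts of small cost
-/

set_option autoImplicit false

namespace Pool.Agent.R43.Cover

open Pool.Agent.R43.BSearch

/-- Is there a set of balls (from the table) of total radius at most `lim` covering all vertices that are not
yet covered by `dom`? `tab u` lists the pairs `(k, ball mask)` of the balls of radius `k` containing `u`. -/
def cgo {n : ℕ} (tab : Fin n → List (ℕ × ℕ)) : ℕ → ℕ → ℕ → Bool
  | 0, dom, _ => ((List.finRange n).find? fun (u : Fin n) => ! dom.testBit u.val).isNone
  | fuel + 1, dom, lim =>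
      match (List.finRange n).find? fun (u : Fin n) => ! dom.testBit u.val with
      | none => true
      | some u => (tab u).any fun t => decide (t.1 ≤ lim) && cgo tab fuel (dom ||| t.2) (lim - t.1)

theorem cgo_sound {n : ℕ} (D : Fin n → Fin n → ℕ) (E : Fin n → ℕ) (L : ℕ)
    (tab : Fin n → List (ℕ × ℕ))
    (htab : ∀ u v : Fin n, ∀ k, 1 ≤ k → k ≤ E v → k ≤ L → D v u ≤ k → (k, ballM D v k) ∈ tab u) :
    ∀ fuel dom lim : ℕ, lim ≤ fuel → lim ≤ L → ∀ f : Fin n → ℕ, (∀ v, f v ≤ E v) → ∑ v, f v ≤ lim →
      (∀ u : Fin n, dom.testBit u = false → ∃ v, f v ≠ 0 ∧ D v u ≤ f v) →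
      cgo tab fuel dom lim = true := by
  intro fuel
  induction fuel with
  | zero =>
    intro dom lim hl _ f _ hsum hdom
    rw [cgo, Option.isNone_iff_eq_none, List.find?_eq_none]
    intro u _
    rw [Bool.not_eq_true', Bool.not_eq_false]
    by_contra hcon
    obtain ⟨v, hv, _⟩ := hdom u (by simpa using hcon)
    have := Finset.single_le_sum (f := f) (fun _ _ => Nat.zero_le _) (Finset.mem_univ v)
    omega
  | succ fuel ih =>
    intro dom lim hl hL f hE hsum hdom
    rw [cgo]
    cases hfind : (List.finRange n).find? fun (u : Fin n) => ! dom.testBit u.val with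
    | none => rfl
    | some u =>
      have hu : dom.testBit u = false := by
        have := List.find?_some hfind
        simpa using this
      obtain ⟨v, hv, hDv⟩ := hdom u hu
      have hle : f v ≤ ∑ v, f v :=
        Finset.single_le_sum (f := f) (fun _ _ => Nat.zero_le _) (Finset.mem_univ v)
      simp only
      rw [List.any_eq_true]
      refine ⟨(f v, ballM D v (f v)), htab u v (f v) (Nat.one_le_iff_ne_zero.2 hv) (hE v)
        (by omega) hDv, ?_⟩
      rw [Bool.and_eq_true, decide_eq_true_eq]
      refine ⟨by simp only; omega, ?_⟩
      simp only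
      have hsum' : ∑ w, Function.update f v 0 w + f v = ∑ w, f w := by
        rw [← Finset.add_sum_erase _ _ (Finset.mem_univ v),
          ← Finset.add_sum_erase _ (fun w => f w) (Finset.mem_univ v), Function.update_self, zero_add,
          add_comm]
        congr 1
        apply Finset.sum_congr rfl
        intro w hw
        rw [Function.update_of_ne (Finset.ne_of_mem_erase hw)]
      apply ih _ _ (by omega) (by omega) (Function.update f v 0)
      · intro w
        by_cases hw : w = v
        · subst hw; rw [Function.update_self]; exact Nat.zero_le _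
        · rw [Function.update_of_ne hw]; exact hE w
      · omega
      · intro w hw
        rw [Nat.testBit_or, Bool.or_eq_false_iff] at hw
        obtain ⟨z, hz, hDz⟩ := hdom w hw.1
        have hzv : z ≠ v := by
          rintro rfl
          have h2 := hw.2
          unfold ballM at h2
          rw [Nat.testBit_ofBits_lt _ _ w.2, decide_eq_false_iff_not] at h2
          exact h2 hDz
        refine ⟨z, ?_, ?_⟩
        · rw [Function.update_of_ne hzv]; exact hz
        · rw [Function.update_of_ne hzv]; exact hDz

end Pool.Agent.R43.Cover
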