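import Mathlib

/-! Rotation counting and a prime tail sum. -/

namespace R43LD

open Finset Real

open Classical in
/-- indicator -/
noncomputable def ind (Q : Prop) : ℝ := if Q then 1 else 0

theorem ind_nonneg (Q : Prop) : 0 ≤ ind Q := by
  unfold ind; split_ifs <;> norm_num

theorem ind_le_one (Q : Prop) : ind Q ≤ 1 := by
  unfold ind; split_ifs <;> norm_num

theorem ind_pos {Q : Prop} (h : Q) : ind Q = 1 := by
  unfold ind; rw [if_pos h]

theorem ind_neg {Q : Prop} (h : ¬ Q) : ind Q = 0 := by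
  unfold ind; rw [if_neg h]

theorem ind_mono {Q R : Prop} (h : Q → R) : ind Q ≤ ind R := by
  by_cases hQ : Q
  · rw [ind_pos hQ, ind_pos (h hQ)]
  · rw [ind_neg hQ]; exact ind_nonneg R

/-- the circle arc `[0, l)` -/
def arc (l y : ℝ) : Prop := ∃ m : ℤ, (m : ℝ) ≤ y ∧ y < m + l

/-- number of visits to the arc -/
noncomputable def cnt (α s l : ℝ) (n : ℕ) : ℝ := ∑ a ∈ range n, ind (arc l (s + a * α))

theorem cnt_add (α s l : ℝ) (n m : ℕ) :
    cnt α s l (n + m) = cnt α s l n + cnt α (s + n * α) l m := by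
  unfold cnt
  rw [Finset.sum_range_add]
  congr 1
  apply Finset.sum_congr rfl
  intro a _
  congr 2
  push_cast
  ring

theorem cnt_mono (α s l : ℝ) {n m : ℕ} (h : n ≤ m) : cnt α s l n ≤ cnt α s l m := by
  unfold cnt
  apply Finset.sum_le_sum_of_subset_of_nonneg
  · intro x hx
    rw [mem_range] at hx ⊢
    omega
  · intro _ _ _
    exact ind_nonneg _

theorem cnt_block {α l s : ℝ} (hl : 0 ≤ l) (x : ℚ) (hx : |α - x| < 1 / (x.den : ℝ) ^ 2) :
    cnt α s l x.den ≤ l * x.den + 3 := by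
  classical
  set q := x.den with hq
  have hq0 : 0 < q := x.den_pos
  have hqR : (0 : ℝ) < q := by exact_mod_cast hq0
  have hxr : (x : ℝ) = x.num / q := by
    rw [hq]; exact_mod_cast (Rat.num_div_den x).symm
  have hcard : cnt α s l q = (((range q).filter (fun a : ℕ => arc l (s + a * α))).card : ℝ) := by
    unfold cnt ind
    rw [Finset.sum_boole]
  rw [hcard]
  have hch : ∀ a ∈ (range q).filter (fun a : ℕ => arc l (s + a * α)),
      ∃ m : ℤ, (m : ℝ) ≤ s + a * α ∧ s + a * α < m + l := by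
    intro a ha
    exact (mem_filter.1 ha).2
  choose! f hf using hch
  set t : ℕ → ℤ := fun a => a * x.num - f a * q with ht
  set u : ℝ := -s * q - 1 with hu
  set v : ℝ := -s * q + l * q + 1 with hv
  have hmaps : ∀ a ∈ (range q).filter (fun a : ℕ => arc l (s + a * α)),
      t a ∈ Finset.Ioo ⌊u⌋ ⌈v⌉ := by
    intro a ha
    obtain ⟨h1, h2⟩ := hf a ha
    have haq : a < q := mem_range.1 (mem_filter.1 ha).1
    have haqR : (a : ℝ) + 1 ≤ q := by exact_mod_cast haq
    have hdiff : |(a : ℝ) * α * q - a * x.num| < 1 := by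
      have e1 : (a : ℝ) * α * q - a * x.num = a * q * (α - x) := by
        rw [hxr]; field_simp
      rw [e1, abs_mul, abs_of_nonneg (by positivity : (0 : ℝ) ≤ a * q)]
      rcases Nat.eq_zero_or_pos a with h0 | h0
      · rw [h0]; simp
      · have ha0 : (0 : ℝ) < a := by exact_mod_cast h0
        calc (a : ℝ) * q * |α - x| < a * q * (1 / (q : ℝ) ^ 2) :=
              mul_lt_mul_of_pos_left hx (by positivity)
          _ = a / q := by field_simp
          _ ≤ 1 := by rw [div_le_one hqR]; linarith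
    rw [abs_lt] at hdiff
    have h1' := mul_le_mul_of_nonneg_right h1 hqR.le
    have h2' := mul_lt_mul_of_pos_right h2 hqR
    have htR : ((t a : ℤ) : ℝ) = a * x.num - f a * q := by
      rw [ht]; push_cast; ring
    rw [Finset.mem_Ioo, Int.floor_lt, Int.lt_ceil, htR]
    constructor
    · rw [hu]; nlinarith
    · rw [hv]; nlinarith
  have hinj : Set.InjOn t ((range q).filter (fun a : ℕ => arc l (s + a * α)) : Finset ℕ) := by
    intro a ha b hb e
    have haq : a < q := mem_range.1 (mem_filter.1 ha).1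
    have hbq : b < q := mem_range.1 (mem_filter.1 hb).1
    simp only [ht] at e
    have h1 : ((a : ℤ) - b) * x.num = (f a - f b) * q := by linarith
    have h2 : (q : ℤ) ∣ ((a : ℤ) - b) * x.num := ⟨f a - f b, by rw [h1]; ring⟩
    have h3 : IsCoprime (q : ℤ) x.num := by
      rw [Int.isCoprime_iff_gcd_eq_one, Int.gcd_comm]
      have := x.reduced
      rw [hq]
      simpa [Int.gcd, Nat.Coprime] using this
    have h4 : (q : ℤ) ∣ (a : ℤ) - b := h3.dvd_of_dvd_mul_right h2
    have h5 := Int.eq_zero_of_abs_lt_dvd h4 (by rw [abs_lt]; constructor <;> omega)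
    omega
  have hle := Finset.card_le_card_of_injOn t hmaps hinj
  have hcardR : ((Finset.Ioo ⌊u⌋ ⌈v⌉).card : ℝ) ≤ l * q + 3 := by
    rw [Int.card_Ioo]
    have h1 : (⌈v⌉ : ℝ) < v + 1 := Int.ceil_lt_add_one v
    have h2 : u - 1 < ⌊u⌋ := Int.sub_one_lt_floor u
    have h3 : ((⌈v⌉ - ⌊u⌋ - 1).toNat : ℝ) = max (((⌈v⌉ - ⌊u⌋ - 1 : ℤ)) : ℝ) 0 := by
      have : (((⌈v⌉ - ⌊u⌋ - 1).toNat : ℤ) : ℝ) = ((max (⌈v⌉ - ⌊u⌋ - 1) 0 : ℤ) : ℝ) := by
        rw [Int.toNat_eq_max]
      rw [Int.cast_max] at this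
      simpa using this
    rw [h3]
    apply max_le
    · push_cast
      rw [hu] at h2
      rw [hv] at h1
      linarith
    · positivity
  calc (((range q).filter (fun a : ℕ => arc l (s + a * α))).card : ℝ)
      ≤ ((Finset.Ioo ⌊u⌋ ⌈v⌉).card : ℝ) := by exact_mod_cast hle
    _ ≤ l * q + 3 := hcardR

theorem big_den {α : ℝ} (hα : Irrational α) (D : ℕ) :
    ∃ x : ℚ, |α - x| < 1 / (x.den : ℝ) ^ 2 ∧ D < x.den := by
  by_contra hcon
  push Not at hcon
  have hinf := Real.infinite_rat_abs_sub_lt_one_div_den_sq_of_irrational hα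
  apply hinf
  set B : ℤ := ⌈(|α| + 1) * D⌉ with hB
  have hsub : {q : ℚ | |α - q| < 1 / (q.den : ℝ) ^ 2} ⊆
      (fun z : ℤ × ℕ => (z.1 : ℚ) / z.2) '' (Set.Icc (-B) B ×ˢ Set.Icc 0 D) := by
    intro x hx
    have h1 := hcon x hx
    refine ⟨(x.num, x.den), ?_, Rat.num_div_den x⟩
    have hd1 : (1 : ℝ) ≤ x.den := by exact_mod_cast x.den_pos
    have h2 : |(x : ℝ)| ≤ |α| + 1 := by
      have h3 : (1 : ℝ) / (x.den : ℝ) ^ 2 ≤ 1 := by
        rw [div_le_one (by positivity)]
        nlinarith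
      have h4 : |α - x| < 1 := lt_of_lt_of_le hx h3
      have h5 : |(x : ℝ)| ≤ |α| + |α - x| := by
        have := abs_sub_abs_le_abs_sub (x : ℝ) α
        rw [abs_sub_comm] at this
        linarith
      linarith
    have hnum : |(x.num : ℝ)| ≤ (|α| + 1) * D := by
      have h3 : (x.num : ℝ) = x * x.den := by
        have := Rat.mul_den_eq_num x
        exact_mod_cast this.symm
      rw [h3, abs_mul, abs_of_nonneg (by positivity : (0 : ℝ) ≤ x.den)]
      have h4 : (x.den : ℝ) ≤ D := by exact_mod_cast h1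
      exact mul_le_mul h2 h4 (by positivity) (by positivity)
    rw [abs_le] at hnum
    have hceil : (|α| + 1) * D ≤ (B : ℝ) := Int.le_ceil _
    refine Set.mk_mem_prod (Set.mem_Icc.2 ⟨?_, ?_⟩) (Set.mem_Icc.2 ⟨Nat.zero_le _, h1⟩)
    · have : (-(B : ℝ)) ≤ x.num := by linarith
      exact_mod_cast this
    · have : (x.num : ℝ) ≤ B := by linarith
      exact_mod_cast this
  exact Set.Finite.subset (((Set.finite_Icc _ _).prod (Set.finite_Icc _ _)).image _) hsub

theorem cnt_bound {α l ε : ℝ} (hα : Irrational α) (hl : 0 ≤ l) (hε : 0 < ε) :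
    ∃ C : ℝ, ∀ (s : ℝ) (N : ℕ), cnt α s l N ≤ (l + ε) * N + C := by
  obtain ⟨x, hx, hxD⟩ := big_den hα ⌈3 / ε⌉₊
  have hq0 : (0 : ℝ) < x.den := by exact_mod_cast x.den_pos
  have h3 : 3 / ε < x.den := lt_of_le_of_lt (Nat.le_ceil _) (by exact_mod_cast hxD)
  have h3' : 3 / (x.den : ℝ) ≤ ε := by
    rw [div_lt_iff₀ hε] at h3
    rw [div_le_iff₀ hq0]
    linarith
  refine ⟨l * x.den + 3, ?_⟩
  have hblk : ∀ (t : ℕ) (s : ℝ), cnt α s l (x.den * t) ≤ t * (l * x.den + 3) := by
    intro t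
    induction t with
    | zero => intro s; simp [cnt]
    | succ t ih =>
      intro s
      rw [Nat.mul_succ, cnt_add]
      have h1 := ih s
      have h2 := cnt_block (s := s + (x.den * t : ℕ) * α) hl x hx
      push_cast at h2 ⊢
      linarith
  intro s N
  have h1 : N ≤ x.den * (N / x.den + 1) := by
    have := Nat.div_add_mod N x.den
    have h2 := Nat.mod_lt N x.den_pos
    rw [Nat.mul_succ]
    omega
  have h2 := (cnt_mono α s l h1).trans (hblk (N / x.den + 1) s)
  have h4 : ((N / x.den : ℕ) : ℝ) ≤ N / x.den := Nat.cast_div_le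
  have h5 : ((N / x.den : ℕ) : ℝ) * (l * x.den + 3) ≤ (l + ε) * N := by
    have h6 : ((N / x.den : ℕ) : ℝ) * (l * x.den + 3) ≤ N / x.den * (l * x.den + 3) :=
      mul_le_mul_of_nonneg_right h4 (by positivity)
    have h7 : (N : ℝ) / x.den * (l * x.den + 3) = (l + 3 / x.den) * N := by
      field_simp
    rw [h7] at h6
    refine h6.trans ?_
    apply mul_le_mul_of_nonneg_right _ (by positivity)
    linarith
  push_cast at h2
  linarith

/-! ### tail sum over primes -/

/-- Chebyshev function -/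
noncomputable def th (n : ℕ) : ℝ := ∑ m ∈ range (n + 1), if m.Prime then log m else 0

theorem th_le (n : ℕ) : th n ≤ log 4 * n := by
  have h1 : th n = log (primorial n) := by
    unfold th primorial
    rw [← Finset.sum_filter, Nat.cast_prod, Real.log_prod]
    intro i hi
    have := (mem_filter.1 hi).2.pos
    positivity
  rw [h1]
  have h2 : (primorial n : ℝ) ≤ 4 ^ n := by exact_mod_cast primorial_le_four_pow n
  have h3 : (0 : ℝ) < primorial n := by exact_mod_cast primorial_pos n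
  calc log (primorial n) ≤ log (4 ^ n) := log_le_log h3 h2
    _ = log 4 * n := by rw [Real.log_pow]; ring

theorem th_succ (n : ℕ) : th (n + 1) = th n + if (n + 1).Prime then log ((n + 1 : ℕ) : ℝ) else 0 := by
  unfold th
  rw [Finset.sum_range_succ]

/-- prime sum over `(X, Y]` -/
noncomputable def ps (X Y : ℕ) : ℝ :=
  ∑ m ∈ range (Y + 1), if X < m ∧ m.Prime then 1 / (m * log m) else 0

theorem ps_bound_aux {X : ℕ} (hX : 2 ≤ X) : ∀ Y, X ≤ Y →
    ps X Y ≤ th Y * (1 / (Y * log Y ^ 2)) +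
      log 4 * (1 / log X ^ 2 - 1 / log Y ^ 2 + (1 / log X - 1 / log Y)) := by
  intro Y hXY
  induction Y, hXY using Nat.le_induction with
  | base =>
    have h0 : ps X X = 0 := by
      unfold ps
      apply Finset.sum_eq_zero
      intro m hm
      rw [mem_range] at hm
      rw [if_neg (by omega)]
    have h1 : 0 ≤ th X := by
      unfold th
      apply Finset.sum_nonneg
      intro m _
      split_ifs with h
      · exact log_nonneg (by exact_mod_cast h.one_lt.le)
      · exact le_rfl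
    rw [h0]
    have : (0 : ℝ) ≤ 1 / (X * log X ^ 2) := by positivity
    nlinarith [mul_nonneg h1 this]
  | succ Y hY ih =>
    have hY2 : (2 : ℝ) ≤ Y := by exact_mod_cast hX.trans hY
    have hlY : 0 < log Y := log_pos (by linarith)
    have hlY1 : 0 < log ((Y + 1 : ℕ) : ℝ) := log_pos (by push_cast; linarith)
    have hYp : (0 : ℝ) < Y := by linarith
    have hY1p : (0 : ℝ) < ((Y + 1 : ℕ) : ℝ) := by push_cast; linarith
    have hmono : log Y ≤ log ((Y + 1 : ℕ) : ℝ) := log_le_log hYp (by push_cast; linarith)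
    have hps : ps X (Y + 1) = ps X Y +
        (if (Y + 1).Prime then log ((Y + 1 : ℕ) : ℝ) else 0) *
          (1 / (((Y + 1 : ℕ) : ℝ) * log ((Y + 1 : ℕ) : ℝ) ^ 2)) := by
      unfold ps
      rw [Finset.sum_range_succ _ (Y + 1)]
      congr 1
      by_cases hp : (Y + 1).Prime
      · rw [if_pos ⟨by omega, hp⟩, if_pos hp]
        field_simp
      · rw [if_neg (by tauto), if_neg hp]; ring
    rw [hps, th_succ]
    set L := (if (Y + 1).Prime then log ((Y + 1 : ℕ) : ℝ) else 0) with hL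
    set w1 := 1 / (((Y + 1 : ℕ) : ℝ) * log ((Y + 1 : ℕ) : ℝ) ^ 2) with hw1
    set w0 := 1 / ((Y : ℝ) * log Y ^ 2) with hw0
    have hw10 : w1 ≤ w0 := by
      rw [hw1, hw0]
      apply one_div_le_one_div_of_le (by positivity)
      apply mul_le_mul (by push_cast; linarith) _ (by positivity) (by positivity)
      exact pow_le_pow_left₀ hlY.le hmono 2
    have hth := th_le Y
    have hlog : 1 / ((Y + 1 : ℕ) : ℝ) ≤ log ((Y + 1 : ℕ) : ℝ) - log Y := by
      rw [← Real.log_div (by positivity) (by positivity)]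
      have := Real.one_sub_inv_le_log_of_pos (x := ((Y + 1 : ℕ) : ℝ) / Y) (by positivity)
      have h2 : 1 - (((Y + 1 : ℕ) : ℝ) / Y)⁻¹ = 1 / ((Y + 1 : ℕ) : ℝ) := by
        rw [inv_div]
        field_simp
        push_cast
        ring
      linarith
    have hw1le : w1 ≤ 1 / log Y - 1 / log ((Y + 1 : ℕ) : ℝ) := by
      have e1 : 1 / log Y - 1 / log ((Y + 1 : ℕ) : ℝ) =
          (log ((Y + 1 : ℕ) : ℝ) - log Y) / (log Y * log ((Y + 1 : ℕ) : ℝ)) := by
        field_simp
      rw [e1, hw1]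
      rw [div_le_div_iff₀ (by positivity) (by positivity)]
      have h3 : log Y * log ((Y + 1 : ℕ) : ℝ) ≤ log ((Y + 1 : ℕ) : ℝ) ^ 2 := by
        nlinarith
      have h4 : 1 ≤ (log ((Y + 1 : ℕ) : ℝ) - log Y) * ((Y + 1 : ℕ) : ℝ) := by
        rw [div_le_iff₀ hY1p] at hlog
        exact hlog
      calc 1 * (log Y * log ((Y + 1 : ℕ) : ℝ)) ≤ 1 * log ((Y + 1 : ℕ) : ℝ) ^ 2 := by linarith
        _ ≤ ((log ((Y + 1 : ℕ) : ℝ) - log Y) * ((Y + 1 : ℕ) : ℝ)) *
            log ((Y + 1 : ℕ) : ℝ) ^ 2 := mul_le_mul_of_nonneg_right h4 (by positivity)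
        _ = _ := by ring
    have hg : (Y : ℝ) * w0 = 1 / log Y ^ 2 := by rw [hw0]; field_simp
    have hg1 : ((Y + 1 : ℕ) : ℝ) * w1 = 1 / log ((Y + 1 : ℕ) : ℝ) ^ 2 := by rw [hw1]; field_simp
    have hg1' : (Y : ℝ) * w1 = 1 / log ((Y + 1 : ℕ) : ℝ) ^ 2 - w1 := by
      rw [← hg1]; push_cast; ring
    have hkey : th Y * (w0 - w1) ≤ log 4 * Y * (w0 - w1) :=
      mul_le_mul_of_nonneg_right hth (by linarith)
    have hl4 : 0 < log 4 := log_pos (by norm_num)
    have hexp : log 4 * Y * (w0 - w1) =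
        log 4 * (1 / log Y ^ 2 - 1 / log ((Y + 1 : ℕ) : ℝ) ^ 2 + w1) := by
      have : (Y : ℝ) * (w0 - w1) = 1 / log Y ^ 2 - 1 / log ((Y + 1 : ℕ) : ℝ) ^ 2 + w1 := by
        rw [mul_sub, hg, hg1']; ring
      rw [mul_assoc, this]
    have hw1m := mul_le_mul_of_nonneg_left hw1le hl4.le
    nlinarith [ih]

theorem ps_bound {X : ℕ} (hX : 2 ≤ X) (Y : ℕ) :
    ps X Y ≤ log 4 * (1 / log X ^ 2 + 1 / log X) := by
  have hX2 : (2 : ℝ) ≤ X := by exact_mod_cast hX
  have hlX : 0 < log X := log_pos (by linarith)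
  have hl4 : 0 < log 4 := log_pos (by norm_num)
  rcases Nat.lt_or_ge Y X with h | h
  · have h0 : ps X Y = 0 := by
      unfold ps
      apply Finset.sum_eq_zero
      intro m hm
      rw [mem_range] at hm
      rw [if_neg (by omega)]
    rw [h0]
    positivity
  · have h1 := ps_bound_aux hX Y h
    have hY2 : (2 : ℝ) ≤ Y := hX2.trans (by exact_mod_cast h)
    have hlY : 0 < log Y := log_pos (by linarith)
    have h2 : th Y * (1 / (Y * log Y ^ 2)) ≤ log 4 * (1 / log Y ^ 2) := by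
      have h3 := mul_le_mul_of_nonneg_right (th_le Y)
        (by positivity : (0 : ℝ) ≤ 1 / (Y * log Y ^ 2))
      have h4 : log 4 * Y * (1 / (Y * log Y ^ 2)) = log 4 * (1 / log Y ^ 2) := by
        field_simp
      linarith
    have h5 : 0 ≤ log 4 * (1 / log Y) := by positivity
    nlinarith

end R43LD
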