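import Mathlib
import Pool.Agent.R43.LDRot

namespace R43LD

open Finset Real

/-- average over the window `[3 * 2 ^ a, 4 * 2 ^ a)` -/
noncomputable def av (a : ℕ) (Q : ℕ → Prop) : ℝ :=
  (∑ i ∈ range (2 ^ a), ind (Q (3 * 2 ^ a + i))) / 2 ^ a

theorem av_nonneg (a : ℕ) (Q : ℕ → Prop) : 0 ≤ av a Q := by
  unfold av
  apply div_nonneg (Finset.sum_nonneg fun _ _ => ind_nonneg _) (by positivity)

theorem av_le_one (a : ℕ) (Q : ℕ → Prop) : av a Q ≤ 1 := by
  unfold av
  rw [div_le_one (by positivity)]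
  calc ∑ i ∈ range (2 ^ a), ind (Q (3 * 2 ^ a + i)) ≤ ∑ i ∈ range (2 ^ a), (1 : ℝ) :=
        Finset.sum_le_sum fun _ _ => ind_le_one _
    _ = 2 ^ a := by simp

theorem sum_blocks (f : ℕ → ℝ) (n : ℕ) (hn : 0 < n) : ∀ m : ℕ,
    ∑ j ∈ range (m * n), f (j / n) = n * ∑ i ∈ range m, f i := by
  intro m
  induction m with
  | zero => simp
  | succ m ih =>
    rw [Nat.succ_mul, Finset.sum_range_add, ih, Finset.sum_range_succ, mul_add]
    congr 1
    have : ∀ x ∈ range n, f ((m * n + x) / n) = f m := by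
      intro x hx
      rw [mem_range] at hx
      rw [Nat.add_comm, Nat.add_mul_div_right _ _ hn, Nat.div_eq_of_lt hx, Nat.zero_add]
    rw [Finset.sum_congr rfl this]
    simp

/-- the windowed average through a common refinement -/
theorem av_eq {a N : ℕ} (h : a ≤ N) (Q : ℕ → Prop) :
    av a Q = (∑ j ∈ range (2 ^ N), ind (Q (3 * 2 ^ a + j / 2 ^ (N - a)))) / 2 ^ N := by
  have h1 : 2 ^ N = 2 ^ a * 2 ^ (N - a) := by rw [← pow_add]; congr 1; omega
  have h2 := sum_blocks (fun i => ind (Q (3 * 2 ^ a + i))) (2 ^ (N - a)) (by positivity) (2 ^ a)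
  rw [← h1] at h2
  rw [h2]
  unfold av
  have h3 : ((2 : ℝ) ^ N) = 2 ^ a * 2 ^ (N - a) := by exact_mod_cast h1
  rw [h3]
  push_cast
  field_simp

/-- bad for the prime `p` -/
def Bd (p k : ℕ) : Prop := ∃ c, 2 ≤ c ∧ p ^ c ≤ k ∧ k < p ^ c + p ^ (c - 1)

noncomputable def lam (p : ℕ) : ℝ := log (1 + 1 / p) / log p

theorem irr {p : ℕ} (hp : p.Prime) (h3 : 3 ≤ p) : Irrational (log 2 / log p) := by
  rintro ⟨x, hx⟩
  have hlp : 0 < log (p : ℝ) := log_pos (by exact_mod_cast hp.one_lt)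
  have hl2 : 0 < log (2 : ℝ) := log_pos (by norm_num)
  have hx0 : (0 : ℝ) < x := by rw [hx]; positivity
  have hx0' : 0 < x := by exact_mod_cast hx0
  have hnum : 0 < x.num := Rat.num_pos.2 hx0'
  obtain ⟨n, hn⟩ : ∃ n : ℕ, x.num = n := ⟨x.num.toNat, by omega⟩
  have hxr : (x : ℝ) = n / x.den := by
    have : (x : ℝ) = x.num / x.den := by exact_mod_cast (Rat.num_div_den x).symm
    rw [this, hn]; simp
  have hd : (0 : ℝ) < x.den := by exact_mod_cast x.den_pos
  rw [hxr, div_eq_div_iff hd.ne' hlp.ne'] at hx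
  have h4 : log ((p : ℝ) ^ n) = log ((2 : ℝ) ^ x.den) := by
    rw [Real.log_pow, Real.log_pow]; linarith
  have h5 : (p : ℝ) ^ n = (2 : ℝ) ^ x.den :=
    Real.log_injOn_pos (Set.mem_Ioi.2 (by positivity)) (Set.mem_Ioi.2 (by positivity)) h4
  have h6 : p ^ n = 2 ^ x.den := by exact_mod_cast h5
  have h7 : 2 ∣ p ^ n := by rw [h6]; exact dvd_pow_self 2 x.den_pos.ne'
  have h8 := (Nat.prime_dvd_prime_iff_eq Nat.prime_two hp).1 (Nat.prime_two.dvd_of_dvd_pow h7)
  omega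

theorem bad_arc {p N a j : ℕ} (hp : p.Prime) (haN : a ≤ N)
    (h : Bd p (3 * 2 ^ a + j / 2 ^ (N - a))) :
    arc (lam p) (log ((3 * 2 ^ N + j : ℕ) / 2 ^ N) / log p + a * (log 2 / log p)) := by
  obtain ⟨c, hc, h1, h2⟩ := h
  have hlp : 0 < log (p : ℝ) := log_pos (by exact_mod_cast hp.one_lt)
  have hp0 : (0 : ℝ) < p := by exact_mod_cast hp.pos
  set D := 2 ^ (N - a) with hD
  have hD0 : 0 < D := by positivity
  have h2N : 2 ^ N = 2 ^ a * D := by rw [hD, ← pow_add]; congr 1; omega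
  -- real number y * 2 ^ a
  set Y : ℝ := (3 * 2 ^ N + j : ℕ) / 2 ^ N with hY
  have hYpos : 0 < Y := by rw [hY]; positivity
  have hYa : Y * 2 ^ a = 3 * 2 ^ a + (j : ℝ) / D := by
    rw [hY]
    have e : ((2 : ℝ) ^ N) = 2 ^ a * D := by exact_mod_cast h2N
    push_cast
    rw [e]
    have : (D : ℝ) ≠ 0 := by positivity
    field_simp
  have hfl : ((j / D : ℕ) : ℝ) ≤ (j : ℝ) / D := Nat.cast_div_le
  have hfu : (j : ℝ) / D < ((j / D : ℕ) : ℝ) + 1 := by
    rw [div_lt_iff₀ (by positivity)]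
    have := Nat.lt_div_mul_add (a := j) hD0
    have h3 : j < (j / D + 1) * D := by rw [Nat.add_mul]; omega
    exact_mod_cast h3
  have h1' : (p : ℝ) ^ c ≤ Y * 2 ^ a := by
    rw [hYa]
    have : ((p ^ c : ℕ) : ℝ) ≤ ((3 * 2 ^ a + j / D : ℕ) : ℝ) := by exact_mod_cast h1
    push_cast at this
    have e2 : ((j / D : ℕ) : ℝ) = ((j / D : ℕ) : ℝ) := rfl
    calc (p : ℝ) ^ c ≤ 3 * 2 ^ a + ((j / D : ℕ) : ℝ) := by exact_mod_cast h1
      _ ≤ _ := by linarith
  have h2' : Y * 2 ^ a < (p : ℝ) ^ c * (1 + 1 / p) := by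
    rw [hYa]
    have h3 : 3 * 2 ^ a + j / D + 1 ≤ p ^ c + p ^ (c - 1) := h2
    have h4 : (3 : ℝ) * 2 ^ a + ((j / D : ℕ) : ℝ) + 1 ≤ (p : ℝ) ^ c + (p : ℝ) ^ (c - 1) := by
      exact_mod_cast h3
    have h5 : (p : ℝ) ^ c * (1 + 1 / p) = (p : ℝ) ^ c + (p : ℝ) ^ (c - 1) := by
      have : (p : ℝ) ^ c = (p : ℝ) ^ (c - 1) * p := by
        rw [← pow_succ]; congr 1; omega
      rw [mul_add, mul_one]
      congr 1
      rw [this]; field_simp
    rw [h5]
    linarith
  refine ⟨(c : ℤ), ?_, ?_⟩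
  · have h3 : log ((p : ℝ) ^ c) ≤ log (Y * 2 ^ a) := log_le_log (by positivity) h1'
    rw [Real.log_pow, Real.log_mul (by positivity) (by positivity), Real.log_pow] at h3
    have e : log Y / log p + a * (log 2 / log p) = (log Y + a * log 2) / log p := by ring
    rw [e, le_div_iff₀ hlp]
    push_cast
    exact h3
  · have h3 : log (Y * 2 ^ a) < log ((p : ℝ) ^ c * (1 + 1 / p)) :=
      log_lt_log (by positivity) h2'
    rw [Real.log_mul (by positivity) (by positivity), Real.log_pow,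
      Real.log_mul (by positivity) (by positivity), Real.log_pow] at h3
    have e : log Y / log p + a * (log 2 / log p) = (log Y + a * log 2) / log p := by ring
    rw [e, div_lt_iff₀ hlp]
    unfold lam
    push_cast
    have : ((c : ℝ) + log (1 + 1 / p) / log p) * log p = c * log p + log (1 + 1 / p) := by
      field_simp
    rw [this]
    exact h3

theorem lam_nonneg {p : ℕ} (hp : p.Prime) : 0 ≤ lam p := by
  unfold lam
  have hp0 : (0 : ℝ) < p := by exact_mod_cast hp.pos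
  apply div_nonneg
  · apply log_nonneg
    have : (0 : ℝ) ≤ 1 / p := by positivity
    linarith
  · exact log_nonneg (by exact_mod_cast hp.one_lt.le)

/-- small primes -/
theorem small_bound {p : ℕ} (hp : p.Prime) (h3 : 3 ≤ p) {ε : ℝ} (hε : 0 < ε) :
    ∃ C : ℝ, ∀ N : ℕ, ∑ a ∈ range N, av a (Bd p) ≤ (lam p + ε) * N + C := by
  obtain ⟨C, hC⟩ := cnt_bound (irr hp h3) (lam_nonneg hp) hε
  refine ⟨C, fun N => ?_⟩
  have h1 : ∑ a ∈ range N, av a (Bd p) =
      (∑ j ∈ range (2 ^ N), ∑ a ∈ range N, ind (Bd p (3 * 2 ^ a + j / 2 ^ (N - a)))) / 2 ^ N := by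
    rw [Finset.sum_comm, Finset.sum_div]
    apply Finset.sum_congr rfl
    intro a ha
    exact av_eq (mem_range.1 ha).le _
  rw [h1, div_le_iff₀ (by positivity)]
  have h2 : ∀ j ∈ range (2 ^ N), ∑ a ∈ range N, ind (Bd p (3 * 2 ^ a + j / 2 ^ (N - a))) ≤
      (lam p + ε) * N + C := by
    intro j _
    refine le_trans ?_ (hC (log ((3 * 2 ^ N + j : ℕ) / 2 ^ N) / log p) N)
    unfold cnt
    apply Finset.sum_le_sum
    intro a ha
    exact ind_mono (bad_arc hp (mem_range.1 ha).le)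
  calc ∑ j ∈ range (2 ^ N), ∑ a ∈ range N, ind (Bd p (3 * 2 ^ a + j / 2 ^ (N - a)))
      ≤ ∑ j ∈ range (2 ^ N), ((lam p + ε) * N + C) := Finset.sum_le_sum h2
    _ = ((lam p + ε) * N + C) * 2 ^ N := by
      rw [Finset.sum_const, Finset.card_range, nsmul_eq_mul]; push_cast; ring

theorem sum_ind (S : Finset ℕ) (Q : ℕ → Prop) [DecidablePred Q] :
    ∑ i ∈ S, ind (Q i) = ((S.filter Q).card : ℝ) := by
  rw [Finset.card_filter]
  push_cast
  apply Finset.sum_congr rfl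
  intro i _
  by_cases h : Q i
  · rw [ind_pos h, if_pos h]
  · rw [ind_neg h, if_neg h]

/-- number of points of an interval in the window -/
theorem av_interval (a u v : ℕ) (huv : u ≤ v) :
    av a (fun k => u ≤ k ∧ k < v) ≤ (v - u) / 2 ^ a := by
  unfold av
  apply div_le_div_of_nonneg_right _ (by positivity)
  have h0 := sum_ind (range (2 ^ a)) (fun i => u ≤ 3 * 2 ^ a + i ∧ 3 * 2 ^ a + i < v)
  have h1 : ((range (2 ^ a)).filter (fun i => u ≤ 3 * 2 ^ a + i ∧ 3 * 2 ^ a + i < v)).card ≤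
      (Finset.Ico u v).card := by
    apply Finset.card_le_card_of_injOn (fun i => 3 * 2 ^ a + i)
    · intro i hi
      have := (mem_filter.1 hi).2
      exact Finset.mem_coe.2 (Finset.mem_Ico.2 this)
    · intro i _ j _ e
      simpa using e
  rw [Nat.card_Ico] at h1
  have h2 : (((range (2 ^ a)).filter (fun i => u ≤ 3 * 2 ^ a + i ∧ 3 * 2 ^ a + i < v)).card : ℝ)
      ≤ ((v - u : ℕ) : ℝ) := by exact_mod_cast h1
  rw [Nat.cast_sub huv] at h2
  rw [← h0] at h2
  exact h2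

theorem av_mono {a : ℕ} {Q R : ℕ → Prop}
    (h : ∀ k, 3 * 2 ^ a ≤ k → k < 4 * 2 ^ a → Q k → R k) : av a Q ≤ av a R := by
  unfold av
  apply div_le_div_of_nonneg_right _ (by positivity)
  apply Finset.sum_le_sum
  intro i hi
  rw [mem_range] at hi
  exact ind_mono (h _ (by omega) (by omega))

theorem av_false {a : ℕ} {Q : ℕ → Prop}
    (h : ∀ k, 3 * 2 ^ a ≤ k → k < 4 * 2 ^ a → ¬ Q k) : av a Q = 0 := by
  unfold av
  rw [Finset.sum_eq_zero]
  · simp
  · intro i hi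
    rw [mem_range] at hi
    exact ind_neg (h _ (by omega) (by omega))

theorem av_le_sum {a : ℕ} {Q : ℕ → Prop} {ι : Type} (S : Finset ι) (R : ι → ℕ → Prop)
    (h : ∀ k, 3 * 2 ^ a ≤ k → k < 4 * 2 ^ a → Q k → ∃ c ∈ S, R c k) :
    av a Q ≤ ∑ c ∈ S, av a (R c) := by
  unfold av
  rw [← Finset.sum_div]
  apply div_le_div_of_nonneg_right _ (by positivity)
  rw [Finset.sum_comm]
  apply Finset.sum_le_sum
  intro i hi
  rw [mem_range] at hi
  by_cases hQ : Q (3 * 2 ^ a + i)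
  · rw [ind_pos hQ]
    obtain ⟨c, hc, hR⟩ := h _ (by omega) (by omega) hQ
    rw [← ind_pos hR]
    exact Finset.single_le_sum (f := fun c => ind (R c (3 * 2 ^ a + i)))
      (fun _ _ => ind_nonneg _) hc
  · rw [ind_neg hQ]
    exact Finset.sum_nonneg fun _ _ => ind_nonneg _

/-- large primes -/
theorem large_bound {p : ℕ} (hp : p.Prime) (h3 : 3 ≤ p) (N : ℕ) :
    ∑ a ∈ range N, av a (Bd p) ≤ (N + 2) * (4 * log 2) * (1 / (p * log p)) := by
  have hlp : 0 < log (p : ℝ) := log_pos (by exact_mod_cast hp.one_lt)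
  have hp0 : (0 : ℝ) < p := by exact_mod_cast hp.pos
  set M := Nat.log p (2 ^ (N + 2)) with hM
  have hMle : (M : ℝ) * log p ≤ (N + 2) * log 2 := by
    have h1 : p ^ M ≤ 2 ^ (N + 2) := Nat.pow_log_le_self p (by positivity)
    have h2 : ((p : ℝ) ^ M) ≤ 2 ^ (N + 2) := by exact_mod_cast h1
    have h4 := log_le_log (by positivity) h2
    rw [Real.log_pow, Real.log_pow] at h4
    push_cast at h4
    exact h4
  -- single exponent
  have hc : ∀ c, 1 ≤ c → ∑ a ∈ range N, av a (fun k => p ^ c ≤ k ∧ k < p ^ c + p ^ (c - 1)) ≤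
      4 / p := by
    intro c hc1
    have hpc : p ^ c = p ^ (c - 1) * p := by rw [← pow_succ]; congr 1; omega
    have hx0 : 0 < p ^ (c - 1) := pow_pos hp.pos _
    have h3x : 3 * p ^ (c - 1) ≤ p ^ c := by
      rw [hpc, Nat.mul_comm]; exact Nat.mul_le_mul_left _ h3
    by_cases hex : ∃ a0 ∈ range N, p ^ c < 4 * 2 ^ a0 ∧ 3 * 2 ^ a0 < p ^ c + p ^ (c - 1)
    · obtain ⟨a0, ha0, h1, h2⟩ := hex
      have hz : ∀ a ∈ range N, a ≠ a0 →
          av a (fun k => p ^ c ≤ k ∧ k < p ^ c + p ^ (c - 1)) = 0 := by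
        intro a _ hne
        apply av_false
        rintro k hk1 hk2 ⟨hk3, hk4⟩
        rcases Nat.lt_or_gt_of_ne hne with hlt | hlt
        · have h5 : 2 * 2 ^ a ≤ 2 ^ a0 := by
            calc 2 * 2 ^ a = 2 ^ (a + 1) := by ring
              _ ≤ 2 ^ a0 := Nat.pow_le_pow_right (by norm_num) (by omega)
          omega
        · have h5 : 2 * 2 ^ a0 ≤ 2 ^ a := by
            calc 2 * 2 ^ a0 = 2 ^ (a0 + 1) := by ring
              _ ≤ 2 ^ a := Nat.pow_le_pow_right (by norm_num) (by omega)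
          omega
      rw [Finset.sum_eq_single_of_mem a0 ha0 hz]
      refine (av_interval a0 _ _ (by omega)).trans ?_
      rw [div_le_div_iff₀ (by positivity) hp0]
      push_cast
      have h6 : ((p : ℝ) ^ (c - 1)) * p ≤ 4 * 2 ^ a0 := by
        rw [hpc] at h1
        exact_mod_cast h1.le
      linarith
    · push Not at hex
      rw [Finset.sum_eq_zero]
      · positivity
      · intro a ha
        apply av_false
        rintro k hk1 hk2 ⟨hk3, hk4⟩
        have := hex a ha (by omega)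
        omega
  -- sum over exponents
  have h1 : ∑ a ∈ range N, av a (Bd p) ≤
      ∑ a ∈ range N, ∑ c ∈ Finset.Icc 1 M,
        av a (fun k => p ^ c ≤ k ∧ k < p ^ c + p ^ (c - 1)) := by
    apply Finset.sum_le_sum
    intro a ha
    rw [mem_range] at ha
    apply av_le_sum
    rintro k hk1 hk2 ⟨c, hc2, hk3, hk4⟩
    refine ⟨c, Finset.mem_Icc.2 ⟨by omega, ?_⟩, hk3, hk4⟩
    rw [hM]
    apply Nat.le_log_of_pow_le hp.one_lt
    have h5 : 4 * 2 ^ a ≤ 2 ^ (N + 2) := by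
      calc 4 * 2 ^ a = 2 ^ (a + 2) := by ring
        _ ≤ 2 ^ (N + 2) := Nat.pow_le_pow_right (by norm_num) (by omega)
    omega
  rw [Finset.sum_comm] at h1
  refine h1.trans ?_
  have h2 : ∑ c ∈ Finset.Icc 1 M, ∑ a ∈ range N,
      av a (fun k => p ^ c ≤ k ∧ k < p ^ c + p ^ (c - 1)) ≤ ∑ c ∈ Finset.Icc 1 M, (4 / p : ℝ) := by
    apply Finset.sum_le_sum
    intro c hc'
    exact hc c (Finset.mem_Icc.1 hc').1
  refine h2.trans ?_
  rw [Finset.sum_const, Nat.card_Icc, Nat.add_sub_cancel, nsmul_eq_mul]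
  have h4 : (M : ℝ) ≤ (N + 2) * log 2 / log p := by
    rw [le_div_iff₀ hlp]; exact hMle
  calc (M : ℝ) * (4 / p) ≤ ((N + 2) * log 2 / log p) * (4 / p) :=
        mul_le_mul_of_nonneg_right h4 (by positivity)
    _ = (N + 2) * (4 * log 2) * (1 / (p * log p)) := by field_simp

end R43LD
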