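import Mathlib
import Pool.Agent.R43.LDWin

namespace R43LD

open Finset Real

/-! ### numeric part -/

def tab : List (ℕ × ℕ) := [
  (3, 524), (5, 227), (7, 138), (11, 73), (13, 58), (17, 41), (19, 35), (23, 28), (29, 21), 
  (31, 19), (37, 15), (41, 13), (43, 13), (47, 11), (53, 10), (59, 9), (61, 8), (67, 8), 
  (71, 7), (73, 7), (79, 6), (83, 6), (89, 5), (97, 5), (101, 5), (103, 5), (107, 4), 
  (109, 4), (113, 4), (127, 4), (131, 4), (137, 3), (139, 3), (149, 3), (151, 3), (157, 3), 
  (163, 3), (167, 3), (173, 3), (179, 3), (181, 3), (191, 2), (193, 2), (197, 2), (199, 2), 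
  (211, 2), (223, 2), (227, 2), (229, 2), (233, 2), (239, 2), (241, 2), (251, 2)]

def uf (m : ℕ) : ℕ := tab.foldr (fun x acc => bif Nat.beq x.1 m then x.2 else acc) 0

def cB (m : ℕ) : Bool :=
  Nat.ble 3 m && (List.range 17).all fun d =>
    Nat.ble d 1 || (Nat.ble m d || !(Nat.beq (m % d) 0))

theorem cB_of {m : ℕ} (h3 : 3 ≤ m) (hm : m.Prime) : cB m = true := by
  rw [cB, Bool.and_eq_true, List.all_eq_true]
  refine ⟨by rw [Nat.ble_eq]; exact h3, ?_⟩
  intro d _
  rw [Bool.or_eq_true, Bool.or_eq_true]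
  by_cases h1 : d ≤ 1
  · left; rw [Nat.ble_eq]; exact h1
  right
  by_cases h2 : m ≤ d
  · left; rw [Nat.ble_eq]; exact h2
  right
  rw [Bool.not_eq_true']
  cases hb : Nat.beq (m % d) 0
  · rfl
  · exfalso
    have h4 := Nat.dvd_of_mod_eq_zero (Nat.eq_of_beq_eq_true hb)
    rcases (Nat.dvd_prime hm).1 h4 with h5 | h5 <;> omega

theorem chk1 : ((List.range 257).all fun m =>
    !(cB m) || Nat.ble ((m + 1) ^ 2000) (m ^ (uf m + 2000))) = true := by
  decide +kernel

theorem chk2 : (∑ m ∈ Finset.range 257, (bif cB m then uf m else 0)) ≤ 1380 := by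
  decide +kernel

theorem lam_le_uf {m : ℕ} (h3 : 3 ≤ m) (hm : m.Prime) (h257 : m < 257) :
    lam m ≤ (uf m : ℝ) / 2000 := by
  have h := chk1
  rw [List.all_eq_true] at h
  have h1 := h m (List.mem_range.2 h257)
  rw [cB_of h3 hm] at h1
  simp only [Bool.not_true, Bool.false_or] at h1
  rw [Nat.ble_eq] at h1
  have hm0 : (0 : ℝ) < m := by exact_mod_cast hm.pos
  have hlm : 0 < log (m : ℝ) := log_pos (by exact_mod_cast hm.one_lt)
  have h2 : ((m : ℝ) + 1) ^ 2000 ≤ (m : ℝ) ^ (uf m + 2000) := by exact_mod_cast h1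
  have h4 := log_le_log (by positivity) h2
  rw [Real.log_pow, Real.log_pow] at h4
  unfold lam
  have h5 : (1 : ℝ) + 1 / m = (m + 1) / m := by field_simp
  rw [h5, Real.log_div (by positivity) (by positivity), div_le_iff₀ hlm]
  push_cast at h4
  linarith

/-- sum of the densities of the odd primes up to P -/
noncomputable def slam (P : ℕ) : ℝ :=
  ∑ m ∈ range (P + 1), if 3 ≤ m ∧ m.Prime then lam m else 0

theorem slam_256 : slam 256 ≤ 0.69 := by
  have h1 : slam 256 ≤ ∑ m ∈ range 257, (((bif cB m then uf m else 0 : ℕ) : ℝ) / 2000) := by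
    unfold slam
    apply Finset.sum_le_sum
    intro m hm
    rw [mem_range] at hm
    split_ifs with h
    · rw [cB_of h.1 h.2]
      exact lam_le_uf h.1 h.2 hm
    · positivity
  rw [← Finset.sum_div] at h1
  have h2 : (∑ m ∈ range 257, ((bif cB m then uf m else 0 : ℕ) : ℝ)) ≤ 1380 := by
    exact_mod_cast chk2
  refine h1.trans ?_
  rw [div_le_iff₀ (by norm_num)]
  linarith

theorem lam_le {m : ℕ} (hm : m.Prime) : lam m ≤ 1 / (m * log m) := by
  have hm0 : (0 : ℝ) < m := by exact_mod_cast hm.pos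
  have hlm : 0 < log (m : ℝ) := log_pos (by exact_mod_cast hm.one_lt)
  unfold lam
  have h1 := Real.log_le_sub_one_of_pos (x := 1 + 1 / (m : ℝ)) (by positivity)
  have h2 : log (1 + 1 / (m : ℝ)) ≤ 1 / m := by linarith
  calc log (1 + 1 / (m : ℝ)) / log m ≤ (1 / m) / log m := by
        apply div_le_div_of_nonneg_right h2 hlm.le
    _ = 1 / (m * log m) := by field_simp

theorem slam_le (P : ℕ) (hP : 256 ≤ P) : slam P ≤ slam 256 + ps 256 P := by
  induction P, hP using Nat.le_induction with
  | base =>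
    have : 0 ≤ ps 256 256 := by
      unfold ps
      apply Finset.sum_nonneg
      intro m _
      split_ifs with h
      · have hlm : 0 ≤ log (m : ℝ) := log_nonneg (by exact_mod_cast h.2.one_lt.le)
        positivity
      · exact le_rfl
    linarith
  | succ P hP ih =>
    have e1 : slam (P + 1) = slam P +
        if 3 ≤ P + 1 ∧ (P + 1).Prime then lam (P + 1) else 0 := by
      unfold slam
      rw [Finset.sum_range_succ]
    have e2 : ps 256 (P + 1) = ps 256 P +
        if 256 < P + 1 ∧ (P + 1).Prime then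
          1 / (((P + 1 : ℕ) : ℝ) * log ((P + 1 : ℕ) : ℝ)) else 0 := by
      unfold ps
      rw [Finset.sum_range_succ]
    rw [e1, e2]
    by_cases hp : (P + 1).Prime
    · rw [if_pos ⟨by omega, hp⟩, if_pos ⟨by omega, hp⟩]
      have := lam_le hp
      linarith
    · rw [if_neg (by tauto), if_neg (by tauto)]
      linarith

theorem slam_bound (P : ℕ) (hP : 256 ≤ P) : slam P ≤ 0.9852 := by
  have h1 := slam_le P hP
  have h2 := ps_bound (X := 256) (by norm_num) P
  have h3 := slam_256
  have hL := Real.log_two_gt_d9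
  have e1 : log ((256 : ℕ) : ℝ) = 8 * log 2 := by
    rw [show ((256 : ℕ) : ℝ) = 2 ^ 8 by norm_num, Real.log_pow]; norm_num
  have e2 : log (4 : ℝ) = 2 * log 2 := by
    rw [show (4 : ℝ) = 2 ^ 2 by norm_num, Real.log_pow]; norm_num
  rw [e1, e2] at h2
  set L := log (2 : ℝ) with hLdef
  have hL0 : 0 < L := by linarith
  have e3 : 2 * L * (1 / (8 * L) ^ 2 + 1 / (8 * L)) = 1 / (32 * L) + 1 / 4 := by
    field_simp
    ring
  rw [e3] at h2
  have h4 : 1 / (32 * L) ≤ 0.0451 := by
    rw [div_le_iff₀ (by positivity)]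
    nlinarith
  linarith

theorem tail_small {δ : ℝ} (hδ : 0 < δ) : ∃ P : ℕ, 256 ≤ P ∧ ∀ Y, ps P Y ≤ δ := by
  have hl4 : 0 < log (4 : ℝ) := log_pos (by norm_num)
  set T : ℝ := max 1 (2 * log 4 / δ) with hT
  refine ⟨max 256 ⌈exp T⌉₊, le_max_left _ _, ?_⟩
  intro Y
  set P := max 256 ⌈exp T⌉₊ with hP
  have hP2 : 2 ≤ P := le_trans (by norm_num) (le_max_left _ _)
  have h1 := ps_bound hP2 Y
  have h2 : exp T ≤ P := by
    calc exp T ≤ ⌈exp T⌉₊ := Nat.le_ceil _
      _ ≤ P := by exact_mod_cast le_max_right _ _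
  have h3 : T ≤ log P := by
    rw [Real.le_log_iff_exp_le (by exact_mod_cast (by omega : 0 < P))]
    exact h2
  have hT1 : 1 ≤ T := le_max_left _ _
  have hT2 : 2 * log 4 / δ ≤ T := le_max_right _ _
  have hlP : 1 ≤ log (P : ℝ) := hT1.trans h3
  have h4 : 1 / log (P : ℝ) ^ 2 + 1 / log (P : ℝ) ≤ 2 / log P := by
    have h5 : 1 / log (P : ℝ) ^ 2 ≤ 1 / log P := by
      apply one_div_le_one_div_of_le (by linarith)
      nlinarith
    have h6 : 2 / log (P : ℝ) = 1 / log P + 1 / log P := by ring
    linarith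
  have h7 : 2 * log 4 / δ ≤ log P := hT2.trans h3
  rw [div_le_iff₀ hδ] at h7
  calc ps P Y ≤ log 4 * (1 / log (P : ℝ) ^ 2 + 1 / log P) := h1
    _ ≤ log 4 * (2 / log P) := mul_le_mul_of_nonneg_left h4 hl4.le
    _ = (2 * log 4) / log P := by ring
    _ ≤ δ := by
      rw [div_le_iff₀ (by linarith)]
      linarith

/-! ### exceptional integers -/

def Ex (k : ℕ) : Prop := k.Prime ∨ (k + 1).Prime ∨ (k / 2).Prime ∨ ((k + 1) / 2).Prime

theorem av_prime (a : ℕ) (g : ℕ → ℕ) (hg : ∀ k, 3 * 2 ^ a ≤ k → k < 4 * 2 ^ a → g k ≤ 4 * 2 ^ a)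
    (hinj : ∀ k k', g k = g k' → k % 2 = k' % 2 → k = k') :
    av a (fun k => (g k).Prime) ≤
      2 * (((range (4 * 2 ^ a + 1)).filter Nat.Prime).card : ℝ) / 2 ^ a := by
  unfold av
  apply div_le_div_of_nonneg_right _ (by positivity)
  have h0 := sum_ind (range (2 ^ a)) (fun i => (g (3 * 2 ^ a + i)).Prime)
  rw [h0]
  have h1 : ((range (2 ^ a)).filter (fun i => (g (3 * 2 ^ a + i)).Prime)).card ≤
      (((range (4 * 2 ^ a + 1)).filter Nat.Prime) ×ˢ (range 2)).card := by
    apply Finset.card_le_card_of_injOn (fun i => (g (3 * 2 ^ a + i), (3 * 2 ^ a + i) % 2))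
    · intro i hi
      have h2 := mem_filter.1 hi
      rw [mem_range] at h2
      have h3 := hg (3 * 2 ^ a + i) (by omega) (by omega)
      refine Finset.mem_coe.2 (Finset.mem_product.2 ⟨mem_filter.2 ⟨mem_range.2 ?_, h2.2⟩,
        mem_range.2 (Nat.mod_lt _ (by norm_num))⟩)
      show g (3 * 2 ^ a + i) < 4 * 2 ^ a + 1
      omega
    · intro i _ j _ e
      have e1 := congrArg Prod.fst e
      have e2 := congrArg Prod.snd e
      have := hinj _ _ e1 e2
      omega
  rw [Finset.card_product, Finset.card_range] at h1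
  have h2 : (((range (2 ^ a)).filter (fun i => (g (3 * 2 ^ a + i)).Prime)).card : ℝ) ≤
      ((((range (4 * 2 ^ a + 1)).filter Nat.Prime).card * 2 : ℕ) : ℝ) := by exact_mod_cast h1
  push_cast at h2
  linarith

theorem Ex_av (a : ℕ) : av a Ex ≤
    8 * (((range (4 * 2 ^ a + 1)).filter Nat.Prime).card : ℝ) / 2 ^ a := by
  have h1 : av a Ex ≤ ∑ c ∈ range 4, av a (fun k => ((if c = 0 then k else if c = 1 then k + 1
      else if c = 2 then k / 2 else (k + 1) / 2) : ℕ).Prime) := by
    apply av_le_sum (range 4) (fun c k => ((if c = 0 then k else if c = 1 then k + 1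
      else if c = 2 then k / 2 else (k + 1) / 2) : ℕ).Prime)
    rintro k _ _ (h | h | h | h)
    · exact ⟨0, by simp, by simpa using h⟩
    · exact ⟨1, by simp, by simpa using h⟩
    · exact ⟨2, by simp, by simpa using h⟩
    · exact ⟨3, by simp, by simpa using h⟩
  refine h1.trans ?_
  have h2 : ∀ c ∈ range 4, av a (fun k => ((if c = 0 then k else if c = 1 then k + 1
      else if c = 2 then k / 2 else (k + 1) / 2) : ℕ).Prime) ≤
      2 * (((range (4 * 2 ^ a + 1)).filter Nat.Prime).card : ℝ) / 2 ^ a := by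
    intro c hc
    rw [mem_range] at hc
    have ha0 : 0 < 2 ^ a := by positivity
    apply av_prime
    · intro k h1 h2
      split_ifs <;> omega
    · intro k k' e1 e2
      split_ifs at e1 <;> omega
  refine (Finset.sum_le_sum h2).trans ?_
  rw [Finset.sum_const, Finset.card_range, nsmul_eq_mul]
  apply le_of_eq
  push_cast
  ring

theorem Ex_small {ε : ℝ} (hε : 0 < ε) : ∃ A : ℕ, ∀ a, A ≤ a → av a Ex ≤ ε := by
  have h1 := Chebyshev.eventually_primeCounting_le (ε := 1) one_pos
  have hT : Filter.Tendsto (fun a : ℕ => (4 * 2 ^ a : ℝ)) Filter.atTop Filter.atTop := by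
    apply Filter.Tendsto.const_mul_atTop (by norm_num)
    exact tendsto_pow_atTop_atTop_of_one_lt (by norm_num)
  have h2 := hT.eventually h1
  have h3 := (Real.tendsto_log_atTop.comp hT).eventually
    (Filter.eventually_ge_atTop (32 * (log 4 + 1) / ε))
  obtain ⟨A, hA⟩ := Filter.eventually_atTop.1 (h2.and h3)
  refine ⟨A, fun a ha => ?_⟩
  obtain ⟨h4, h5⟩ := hA a ha
  simp only [Function.comp] at h5
  have hfl : ⌊(4 * 2 ^ a : ℝ)⌋₊ = 4 * 2 ^ a := by
    have : (4 * 2 ^ a : ℝ) = ((4 * 2 ^ a : ℕ) : ℝ) := by push_cast; ring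
    rw [this, Nat.floor_natCast]
  rw [hfl] at h4
  have hpc : Nat.primeCounting (4 * 2 ^ a) =
      ((range (4 * 2 ^ a + 1)).filter Nat.Prime).card := by
    rw [Nat.primeCounting, Nat.primeCounting', Nat.count_eq_card_filter_range]
  rw [hpc] at h4
  refine (Ex_av a).trans ?_
  have hl4 : 0 < log (4 : ℝ) := log_pos (by norm_num)
  have hlog : 0 < log (4 * 2 ^ a : ℝ) := by
    apply log_pos
    have : (1 : ℝ) ≤ 2 ^ a := one_le_pow₀ (by norm_num)
    linarith
  rw [div_le_iff₀ hε] at h5
  rw [div_le_iff₀ (by positivity)]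
  have h6 : (log 4 + 1) * (4 * 2 ^ a) / log (4 * 2 ^ a : ℝ) ≤ ε / 8 * 2 ^ a := by
    rw [div_le_iff₀ hlog]
    have h2a : (0 : ℝ) < 2 ^ a := by positivity
    nlinarith [mul_le_mul_of_nonneg_right h5 h2a.le]
  linarith

/-! ### the main existence statement -/

theorem exists_good (A0 : ℕ) : ∃ a, A0 ≤ a ∧ ∃ k, 3 * 2 ^ a ≤ k ∧ k < 4 * 2 ^ a ∧ ¬ Ex k ∧
    ∀ p, p.Prime → 3 ≤ p → ¬ Bd p k := by
  by_contra hcon
  push Not at hcon
  obtain ⟨P, hP, hPt⟩ := tail_small (δ := 0.0005) (by norm_num)
  obtain ⟨A1, hA1⟩ := Ex_small (ε := 0.001) (by norm_num)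
  set ε' : ℝ := 0.001 / (P + 1) with hε'
  have hε'0 : 0 < ε' := by positivity
  have hCex : ∀ p : ℕ, ∃ C : ℝ, (3 ≤ p ∧ p.Prime) → ∀ N : ℕ,
      ∑ a ∈ range N, av a (Bd p) ≤ (lam p + ε') * N + C := by
    intro p
    by_cases h : 3 ≤ p ∧ p.Prime
    · obtain ⟨C, hC⟩ := small_bound h.2 h.1 hε'0
      exact ⟨C, fun _ => hC⟩
    · exact ⟨0, fun h' => absurd h' h⟩
  choose C hC using hCex
  set K : ℝ := ∑ p ∈ range (P + 1), |C p| with hK
  have hmain : ∀ N : ℕ, (N : ℝ) ≤ A0 + (A1 + 0.001 * N) + (slam P * N + 0.001 * N + K) +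
      (N + 2) * 0.0014 := by
    intro N
    set x : ℕ → ℝ := fun p => ∑ a ∈ range N, av a (Bd p) with hx
    have hx0 : ∀ p, 0 ≤ x p := fun p => Finset.sum_nonneg fun _ _ => av_nonneg _ _
    set PN := (range (2 ^ (N + 2))).filter (fun p => 3 ≤ p ∧ p.Prime) with hPN
    have hone : ∀ a ∈ range N, (1 : ℝ) ≤ (if a < A0 then 1 else 0) + av a Ex +
        ∑ p ∈ PN, av a (Bd p) := by
      intro a ha
      rw [mem_range] at ha
      have hs0 : 0 ≤ ∑ p ∈ PN, av a (Bd p) := Finset.sum_nonneg fun _ _ => av_nonneg _ _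
      have he0 := av_nonneg a Ex
      split_ifs with h
      · linarith
      · have h1 : av a (fun _ => True) ≤ ∑ c ∈ insert 0 PN, av a (fun k =>
            if c = 0 then Ex k else Bd c k) := by
          apply av_le_sum (insert 0 PN) (fun c k => if c = 0 then Ex k else Bd c k)
          intro k hk1 hk2 _
          by_cases hEx : Ex k
          · exact ⟨0, Finset.mem_insert_self _ _, by simpa using hEx⟩
          · obtain ⟨p, hp, hp3, hbd⟩ := hcon a (by omega) k hk1 hk2 hEx
            refine ⟨p, Finset.mem_insert_of_mem ?_, ?_⟩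
            · rw [hPN, mem_filter, mem_range]
              refine ⟨?_, hp3, hp⟩
              obtain ⟨c, hc, h1, h2⟩ := hbd
              have h3 : p ≤ p ^ c := Nat.le_self_pow (by omega) p
              have h4 : 4 * 2 ^ a ≤ 2 ^ (N + 2) := by
                calc 4 * 2 ^ a = 2 ^ (a + 2) := by ring
                  _ ≤ 2 ^ (N + 2) := Nat.pow_le_pow_right (by norm_num) (by omega)
              omega
            · rw [if_neg (by omega)]; exact hbd
        have h0PN : 0 ∉ PN := by
          rw [hPN, mem_filter]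
          rintro ⟨_, h3, _⟩
          omega
        rw [Finset.sum_insert h0PN] at h1
        have h2 : av a (fun _ => True) = 1 := by
          unfold av
          rw [Finset.sum_congr rfl (fun i _ => ind_pos trivial)]
          simp
        have h3 : ∑ c ∈ PN, av a (fun k => if c = 0 then Ex k else Bd c k) =
            ∑ c ∈ PN, av a (Bd c) := by
          apply Finset.sum_congr rfl
          intro c hc
          have hc0 : c ≠ 0 := fun e => h0PN (e ▸ hc)
          congr 1
          funext k
          rw [if_neg hc0]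
        have h4 : av a (fun k => if (0 : ℕ) = 0 then Ex k else Bd 0 k) = av a Ex := by
          congr 1
        rw [h2, h3, h4] at h1
        linarith
    have hsum := Finset.sum_le_sum hone
    rw [Finset.sum_add_distrib, Finset.sum_add_distrib, Finset.sum_const, Finset.card_range,
      nsmul_eq_mul, mul_one, Finset.sum_comm] at hsum
    have s1 : ∑ a ∈ range N, (if a < A0 then (1 : ℝ) else 0) ≤ A0 := by
      rw [Finset.sum_boole]
      have : ((range N).filter (fun a => a < A0)).card ≤ A0 := by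
        calc ((range N).filter (fun a => a < A0)).card ≤ (range A0).card := by
              apply Finset.card_le_card
              intro a ha
              exact mem_range.2 (mem_filter.1 ha).2
          _ = A0 := Finset.card_range _
      exact_mod_cast this
    have s2 : ∑ a ∈ range N, av a Ex ≤ A1 + 0.001 * N := by
      have h1 : ∀ a ∈ range N, av a Ex ≤ (if a < A1 then (1 : ℝ) else 0) + 0.001 := by
        intro a _
        split_ifs with h
        · have := av_le_one a Ex
          linarith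
        · have := hA1 a (by omega)
          linarith
      refine (Finset.sum_le_sum h1).trans ?_
      rw [Finset.sum_add_distrib, Finset.sum_boole, Finset.sum_const, Finset.card_range,
        nsmul_eq_mul]
      have : ((range N).filter (fun a => a < A1)).card ≤ A1 := by
        calc ((range N).filter (fun a => a < A1)).card ≤ (range A1).card := by
              apply Finset.card_le_card
              intro a ha
              exact mem_range.2 (mem_filter.1 ha).2
          _ = A1 := Finset.card_range _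
      have h2 : (((range N).filter (fun a => a < A1)).card : ℝ) ≤ A1 := by exact_mod_cast this
      linarith
    have s3 : ∑ p ∈ PN, x p ≤ (∑ p ∈ range (P + 1), if 3 ≤ p ∧ p.Prime then x p else 0) +
        ∑ p ∈ range (2 ^ (N + 2) + 1), if P < p ∧ p.Prime then x p else 0 := by
      rw [← Finset.sum_filter, ← Finset.sum_filter]
      have hsub : PN ⊆ ((range (P + 1)).filter (fun p => 3 ≤ p ∧ p.Prime)) ∪
          ((range (2 ^ (N + 2) + 1)).filter (fun p => P < p ∧ p.Prime)) := by
        intro p hp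
        rw [hPN, mem_filter, mem_range] at hp
        rw [mem_union, mem_filter, mem_filter, mem_range, mem_range]
        by_cases h : p ≤ P
        · left; exact ⟨by omega, hp.2⟩
        · right; exact ⟨by omega, by omega, hp.2.2⟩
      refine (Finset.sum_le_sum_of_subset_of_nonneg hsub fun _ _ _ => hx0 _).trans ?_
      have h1 := Finset.sum_union_inter (s₁ := ((range (P + 1)).filter
        (fun p => 3 ≤ p ∧ p.Prime))) (s₂ := ((range (2 ^ (N + 2) + 1)).filter
        (fun p => P < p ∧ p.Prime))) (f := x)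
      have h2 : 0 ≤ ∑ p ∈ ((range (P + 1)).filter (fun p => 3 ≤ p ∧ p.Prime)) ∩
          ((range (2 ^ (N + 2) + 1)).filter (fun p => P < p ∧ p.Prime)), x p :=
        Finset.sum_nonneg fun _ _ => hx0 _
      linarith
    have s4 : (∑ p ∈ range (P + 1), if 3 ≤ p ∧ p.Prime then x p else 0) ≤
        slam P * N + 0.001 * N + K := by
      have e1 : (0.001 : ℝ) * N = ∑ p ∈ range (P + 1), ε' * N := by
        rw [Finset.sum_const, Finset.card_range, nsmul_eq_mul, hε']
        push_cast
        field_simp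
      rw [e1, hK]
      unfold slam
      rw [Finset.sum_mul, ← Finset.sum_add_distrib, ← Finset.sum_add_distrib]
      apply Finset.sum_le_sum
      intro p _
      have hN0 : (0 : ℝ) ≤ ε' * N := by positivity
      split_ifs with h
      · have h1 := hC p h N
        have h2 := le_abs_self (C p)
        have h3 : (lam p + ε') * N = lam p * N + ε' * N := by ring
        simp only [hx]
        linarith
      · have := abs_nonneg (C p)
        linarith
    have s5 : (∑ p ∈ range (2 ^ (N + 2) + 1), if P < p ∧ p.Prime then x p else 0) ≤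
        (N + 2) * 0.0014 := by
      have h1 : (∑ p ∈ range (2 ^ (N + 2) + 1), if P < p ∧ p.Prime then x p else 0) ≤
          (N + 2) * (4 * log 2) * ps P (2 ^ (N + 2)) := by
        unfold ps
        rw [Finset.mul_sum]
        apply Finset.sum_le_sum
        intro p _
        split_ifs with h
        · exact large_bound h.2 (by omega) N
        · simp
      have h2 := hPt (2 ^ (N + 2))
      have hL := Real.log_two_lt_d9
      have hL0 : 0 < log (2 : ℝ) := log_pos (by norm_num)
      have h3 : (N + 2 : ℝ) * (4 * log 2) * ps P (2 ^ (N + 2)) ≤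
          (N + 2) * (4 * log 2) * 0.0005 := mul_le_mul_of_nonneg_left h2 (by positivity)
      have h4 : (N + 2 : ℝ) * (4 * log 2) * 0.0005 ≤ (N + 2) * 0.0014 := by
        have hN0 : (0 : ℝ) ≤ N + 2 := by positivity
        have : (4 * log 2) * 0.0005 ≤ (0.0014 : ℝ) := by linarith
        nlinarith
      linarith
    have hxx : ∑ p ∈ PN, x p = ∑ p ∈ PN, ∑ a ∈ range N, av a (Bd p) := rfl
    rw [← hxx] at hsum
    linarith
  have hsl := slam_bound P hP
  obtain ⟨N, hN⟩ := exists_nat_gt ((A0 + A1 + K + 1) / 0.01)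
  have h1 := hmain N
  rw [div_lt_iff₀ (by norm_num)] at hN
  have hN0 : (0 : ℝ) ≤ N := by positivity
  have h2 : slam P * N ≤ 0.9852 * N := mul_le_mul_of_nonneg_right hsl hN0
  linarith

end R43LD
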