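import Mathlib

/-!
The inequality behind the lower bound `3` for coverings of a neighbourhood of the cube
(MP_a2070a_co), by helper43.
-/

set_option autoImplicit false

namespace R43NC

open Finset

/-- real inequality, case `p ≤ q` -/
theorem real_ineq_aux (p q h h' T X Y : ℝ) (hp : 0 < p) (hq : 0 < q) (hpq : p ^ 2 + q ^ 2 = 1)
    (hh : h + h' = 1) (h0 : 0 ≤ h) (h0' : 0 ≤ h') (hT : 0 ≤ T)
    (X1 : p - T ≤ p * X) (X2 : h * (T + h * p ^ 2) ≤ X)
    (Y1 : q - T ≤ q * Y) (Y2 : h' * (T + h' * q ^ 2) ≤ Y) (hle : p ≤ q) :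
    1 ≤ X + Y + T := by
  have hp1 : p < 1 := by nlinarith
  have hq1 : q < 1 := by nlinarith
  by_cases c1 : 1 ≤ q * (1 + h)
  · -- X ≥ h T, Y ≥ 1 - T / q
    have e1 : h * T ≤ X := by nlinarith [mul_nonneg h0 (mul_nonneg h0 (sq_nonneg p))]
    have e2 : q ≤ q * (X + Y + T) := by nlinarith [mul_nonneg hT hq.le]
    nlinarith
  by_cases c2 : 1 ≤ p * (1 + h')
  · have e1 : h' * T ≤ Y := by nlinarith [mul_nonneg h0' (mul_nonneg h0' (sq_nonneg q))]
    have e2 : p ≤ p * (X + Y + T) := by nlinarith [mul_nonneg hT hp.le]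
    nlinarith
  push Not at c1 c2
  by_cases c3 : T * (p + q - p * q) ≤ p * q
  · have e1 : p * q * 1 ≤ p * q * (X + Y + T) := by
      have a1 : q * (p - T) ≤ q * (p * X) := mul_le_mul_of_nonneg_left X1 hq.le
      have a2 : p * (q - T) ≤ p * (q * Y) := mul_le_mul_of_nonneg_left Y1 hp.le
      nlinarith
    exact le_of_mul_le_mul_left e1 (mul_pos hp hq)
  · push Not at c3
    have hq2 : 1 / 2 ≤ q ^ 2 := by nlinarith
    have hq7 : 7 / 10 < q := by nlinarith
    have hh' : h = 1 - h' := by linarith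
    have k1 : 2 * q - 1 ≤ h' * q := by
      rw [hh'] at c1
      nlinarith
    have k2 : (2 * q - 1) ^ 2 ≤ (h' * q) ^ 2 := by
      apply pow_le_pow_left₀ (by linarith) k1
    -- T ≥ 2 q (1 - q)
    have k3 : 2 * q * (1 - q) * (p + q - p * q) ≤ p * q := by
      -- suffices 2 (1-q) (p + q - p q) ≤ p
      have k4 : 2 * (1 - q) * (p + q - p * q) ≤ p := by
        have k5 : p * (2 * (1 - q) * (p + q - p * q)) ≤ p * p := by
          have hpp : p * p = (1 - q) * (1 + q) := by nlinarith
          have k6 : 2 * (p * p * (1 - q) + p * q) ≤ 1 + q := by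
            have : 2 * (p * q) ≤ 1 := by nlinarith [sq_nonneg (p - q)]
            have h3 : p * p ≤ 1 / 2 := by nlinarith
            nlinarith
          calc p * (2 * (1 - q) * (p + q - p * q))
              = (1 - q) * (2 * (p * p * (1 - q) + p * q)) := by ring
            _ ≤ (1 - q) * (1 + q) := mul_le_mul_of_nonneg_left k6 (by linarith)
            _ = p * p := hpp.symm
        exact le_of_mul_le_mul_left k5 hp
      nlinarith
    have hs : 0 < p + q - p * q := by nlinarith
    have k7 : 2 * q * (1 - q) ≤ T := by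
      have : 2 * q * (1 - q) * (p + q - p * q) ≤ T * (p + q - p * q) := by linarith
      exact le_of_mul_le_mul_right this hs
    have k8 : 2 * T + (h' * q) ^ 2 ≤ X + Y + T := by
      have : 0 ≤ h ^ 2 * p ^ 2 := by positivity
      have e3 : h * (T + h * p ^ 2) + h' * (T + h' * q ^ 2)
          = (h + h') * T + h ^ 2 * p ^ 2 + (h' * q) ^ 2 := by ring
      rw [hh] at e3
      linarith
    nlinarith

theorem real_ineq (p q h h' T X Y : ℝ) (hp : 0 < p) (hq : 0 < q) (hpq : p ^ 2 + q ^ 2 = 1)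
    (hh : h + h' = 1) (h0 : 0 ≤ h) (h0' : 0 ≤ h') (hT : 0 ≤ T)
    (X1 : p - T ≤ p * X) (X2 : h * (T + h * p ^ 2) ≤ X)
    (Y1 : q - T ≤ q * Y) (Y2 : h' * (T + h' * q ^ 2) ≤ Y) :
    1 ≤ X + Y + T := by
  rcases le_total p q with hle | hle
  · exact real_ineq_aux p q h h' T X Y hp hq hpq hh h0 h0' hT X1 X2 Y1 Y2 hle
  · have := real_ineq_aux q p h' h T Y X hq hp (by linarith) (by linarith) h0' h0 hT Y1 Y2 X1 X2 hle
    linarith

/-- bounds for one half of the index set -/
theorem half_bounds {ι : Type} (P : Finset ι) (α ρ : ι → ℝ) (h lam T p : ℝ)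
    (h0 : 0 ≤ h) (hα : ∀ m ∈ P, 0 ≤ α m) (hρ : ∀ m ∈ P, 0 ≤ ρ m) (hlam : lam ≤ 1)
    (hb : ∀ m ∈ P, α m + h * ρ m ≤ lam) (hT : ∑ m ∈ P, α m * ρ m = T)
    (hp0 : 0 ≤ p) (hp : ∑ m ∈ P, ρ m ^ 2 = p ^ 2) :
    (∑ m ∈ P, (1 - α m) + (1 - lam) * ∑ m ∈ P, α m + h * T ≤ ∑ m ∈ P, (1 - α m ^ 2)) ∧
    (p - T ≤ p * ∑ m ∈ P, (1 - α m)) ∧
    (h * (T + h * p ^ 2) ≤ ∑ m ∈ P, (1 - α m)) := by
  have hρp : ∀ m ∈ P, ρ m ≤ p := by
    intro m hm
    have h1 : ρ m ^ 2 ≤ p ^ 2 := by
      rw [← hp]
      exact Finset.single_le_sum (f := fun m => ρ m ^ 2) (fun _ _ => sq_nonneg _) hm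
    exact (le_abs_self _).trans (abs_le_of_sq_le_sq h1 hp0)
  have hA : p ≤ ∑ m ∈ P, ρ m := by
    have h1 : ∑ m ∈ P, ρ m ^ 2 ≤ (∑ m ∈ P, ρ m) ^ 2 := by
      rw [sq (∑ m ∈ P, ρ m), Finset.sum_mul]
      refine Finset.sum_le_sum fun m hm => ?_
      rw [sq]
      exact mul_le_mul_of_nonneg_left (Finset.single_le_sum hρ hm) (hρ m hm)
    rw [hp] at h1
    exact (le_abs_self _).trans (abs_le_of_sq_le_sq h1 (Finset.sum_nonneg hρ))
  refine ⟨?_, ?_, ?_⟩
  · rw [← hT, Finset.mul_sum, Finset.mul_sum, ← Finset.sum_add_distrib, ← Finset.sum_add_distrib]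
    refine Finset.sum_le_sum fun m hm => ?_
    have h1 := hb m hm
    have h2 := hα m hm
    nlinarith
  · rw [Finset.mul_sum]
    have h1 : ∑ m ∈ P, (1 - α m) * ρ m ≤ ∑ m ∈ P, p * (1 - α m) := by
      refine Finset.sum_le_sum fun m hm => ?_
      have h2 := hb m hm
      have h3 := mul_nonneg h0 (hρ m hm)
      have h4 := hρp m hm
      nlinarith
    have h2 : ∑ m ∈ P, (1 - α m) * ρ m = ∑ m ∈ P, ρ m - T := by
      rw [← hT, ← Finset.sum_sub_distrib]
      refine Finset.sum_congr rfl fun m _ => ?_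
      ring
    linarith
  · have h1 : h * ∑ m ∈ P, ρ m ≤ ∑ m ∈ P, (1 - α m) := by
      rw [Finset.mul_sum]
      refine Finset.sum_le_sum fun m hm => ?_
      have := hb m hm
      linarith
    have h2 : T + h * p ^ 2 ≤ ∑ m ∈ P, ρ m := by
      rw [← hT, ← hp, Finset.mul_sum, ← Finset.sum_add_distrib]
      refine Finset.sum_le_sum fun m hm => ?_
      have h3 := hb m hm
      have h4 := hρ m hm
      nlinarith
    nlinarith

theorem abs_add_same {a r t : ℝ} (ht : 0 ≤ t) (h : 0 ≤ a * r) : |a| + t * |r| = |a + t * r| := by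
  have h1 : 0 ≤ a * (t * r) := by nlinarith
  have h2 : |a + t * r| = |a| + |t * r| := by
    rcases le_total 0 a with ha | ha
    · rcases eq_or_lt_of_le ha with ha' | ha'
      · rw [← ha']; simp
      · have : 0 ≤ t * r := by
          by_contra hc
          push Not at hc
          nlinarith
        rw [abs_of_nonneg ha, abs_of_nonneg this, abs_of_nonneg (by linarith)]
    · rcases eq_or_lt_of_le ha with ha' | ha'
      · rw [ha']; simp
      · have : t * r ≤ 0 := by
          by_contra hc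
          push Not at hc
          nlinarith
        rw [abs_of_nonpos ha, abs_of_nonpos this, abs_of_nonpos (by linarith)]
        ring
  rw [h2, abs_mul, abs_of_nonneg ht]

/-- There is no unit segment in a cube of side less than two on a line at distance at least
`√(d-1)` from the centre (coordinate form). -/
theorem no_chord {ι : Type} [Fintype ι] (a r : ι → ℝ) (t lam : ℝ) (ht0 : 0 ≤ t) (ht1 : t ≤ 1)
    (hlam : lam < 1) (hd : 2 ≤ Fintype.card ι)
    (ha : ∑ m, a m ^ 2 = (Fintype.card ι : ℝ) - 1) (hr : ∑ m, r m ^ 2 = 1)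
    (har : ∑ m, a m * r m = 0) (h1 : ∀ m, |a m + t * r m| ≤ lam)
    (h2 : ∀ m, |a m + (t - 1) * r m| ≤ lam) : False := by
  classical
  set P : Finset ι := univ.filter (fun m => 0 ≤ a m * r m) with hP
  set N : Finset ι := univ.filter (fun m => ¬ 0 ≤ a m * r m) with hN
  have hsplit : ∀ f : ι → ℝ, ∑ m, f m = ∑ m ∈ P, f m + ∑ m ∈ N, f m := fun f =>
    (Finset.sum_filter_add_sum_filter_not univ (fun m => 0 ≤ a m * r m) f).symm
  have hal : ∀ m, |a m| ≤ lam := by
    intro m
    have e : a m = (1 - t) * (a m + t * r m) + t * (a m + (t - 1) * r m) := by ring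
    have k1 := abs_le.mp (h1 m)
    have k2 := abs_le.mp (h2 m)
    rw [e, abs_le]
    constructor <;> nlinarith [k1.1, k1.2, k2.1, k2.2]
  have hPb : ∀ m ∈ P, |a m| + t * |r m| ≤ lam := by
    intro m hm
    have : 0 ≤ a m * r m := by simpa [hP] using hm
    rw [abs_add_same ht0 this]
    exact h1 m
  have hNb : ∀ m ∈ N, |a m| + (1 - t) * |r m| ≤ lam := by
    intro m hm
    have h3 : a m * r m < 0 := by simpa [hN] using hm
    have h4 : 0 ≤ a m * (- r m) := by nlinarith
    have h5 := abs_add_same (t := 1 - t) (by linarith) h4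
    rw [abs_neg] at h5
    rw [h5]
    have : a m + (1 - t) * (- r m) = a m + (t - 1) * r m := by ring
    rw [this]
    exact h2 m
  set T : ℝ := ∑ m ∈ P, |a m| * |r m| with hTdef
  have hTP : T = ∑ m ∈ P, a m * r m := by
    refine Finset.sum_congr rfl fun m hm => ?_
    have : 0 ≤ a m * r m := by simpa [hP] using hm
    rw [← abs_mul, abs_of_nonneg this]
  have hTN : ∑ m ∈ N, |a m| * |r m| = T := by
    have e1 : ∑ m ∈ N, |a m| * |r m| = - ∑ m ∈ N, a m * r m := by
      rw [← Finset.sum_neg_distrib]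
      refine Finset.sum_congr rfl fun m hm => ?_
      have h3 : a m * r m < 0 := by simpa [hN] using hm
      rw [← abs_mul, abs_of_neg h3]
    have e2 := hsplit (fun m => a m * r m)
    rw [har] at e2
    rw [e1, hTP]
    linarith
  have hT0 : 0 ≤ T := Finset.sum_nonneg fun m _ => mul_nonneg (abs_nonneg _) (abs_nonneg _)
  set p : ℝ := Real.sqrt (∑ m ∈ P, |r m| ^ 2) with hpdef
  set q : ℝ := Real.sqrt (∑ m ∈ N, |r m| ^ 2) with hqdef
  have hp2 : ∑ m ∈ P, |r m| ^ 2 = p ^ 2 := by
    rw [hpdef, Real.sq_sqrt (Finset.sum_nonneg fun _ _ => sq_nonneg _)]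
  have hq2 : ∑ m ∈ N, |r m| ^ 2 = q ^ 2 := by
    rw [hqdef, Real.sq_sqrt (Finset.sum_nonneg fun _ _ => sq_nonneg _)]
  have hpq : p ^ 2 + q ^ 2 = 1 := by
    rw [← hp2, ← hq2, ← hr, hsplit]
    simp only [sq_abs]
  have hp0 : 0 ≤ p := Real.sqrt_nonneg _
  have hq0 : 0 ≤ q := Real.sqrt_nonneg _
  obtain ⟨A1, A2, A3⟩ := half_bounds P (fun m => |a m|) (fun m => |r m|) t lam T p ht0
    (fun _ _ => abs_nonneg _) (fun _ _ => abs_nonneg _) hlam.le hPb rfl hp0 hp2
  obtain ⟨B1, B2, B3⟩ := half_bounds N (fun m => |a m|) (fun m => |r m|) (1 - t) lam T q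
    (by linarith) (fun _ _ => abs_nonneg _) (fun _ _ => abs_nonneg _) hlam.le hNb hTN hq0 hq2
  -- the sum of all the `1 - a²` is one
  have hS : ∑ m ∈ P, (1 - |a m| ^ 2) + ∑ m ∈ N, (1 - |a m| ^ 2) = 1 := by
    rw [← hsplit]
    simp only [sq_abs]
    rw [Finset.sum_sub_distrib, ha]
    simp
  -- `a ≠ 0`
  have hapos : 0 < ∑ m ∈ P, |a m| + ∑ m ∈ N, |a m| := by
    rw [← hsplit]
    by_contra hc
    push Not at hc
    have hz : ∑ m, |a m| = 0 := le_antisymm hc (Finset.sum_nonneg fun _ _ => abs_nonneg _)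
    rw [Finset.sum_eq_zero_iff_of_nonneg (fun _ _ => abs_nonneg _)] at hz
    have : ∑ m, a m ^ 2 = 0 := by
      refine Finset.sum_eq_zero fun m hm => ?_
      have := hz m hm
      rw [abs_eq_zero] at this
      rw [this]
      norm_num
    rw [this] at ha
    have h3 : (2 : ℝ) ≤ (Fintype.card ι : ℝ) := by exact_mod_cast hd
    linarith
  have hkey : ∀ (hp : 0 < p) (hq : 0 < q), False := by
    intro hp hq
    have h3 := real_ineq p q t (1 - t) T (∑ m ∈ P, (1 - |a m|)) (∑ m ∈ N, (1 - |a m|)) hp hq hpq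
      (by ring) ht0 (by linarith) hT0 A2 A3 B2 B3
    nlinarith
  rcases eq_or_lt_of_le hp0 with hp | hp
  · -- p = 0
    have h3 : ∀ m ∈ P, r m = 0 := by
      intro m hm
      have h4 : |r m| ^ 2 ≤ 0 := by
        have : |r m| ^ 2 ≤ ∑ m ∈ P, |r m| ^ 2 :=
          Finset.single_le_sum (f := fun m => |r m| ^ 2) (fun _ _ => sq_nonneg _) hm
        rw [hp2, ← hp] at this
        simpa using this
      have : |r m| = 0 := by nlinarith [abs_nonneg (r m)]
      exact abs_eq_zero.mp this
    have hT : T = 0 := Finset.sum_eq_zero fun m hm => by rw [h3 m hm]; simp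
    have hNe : ∀ m ∈ N, False := by
      intro m hm
      rw [hT] at hTN
      rw [Finset.sum_eq_zero_iff_of_nonneg
        (fun _ _ => mul_nonneg (abs_nonneg _) (abs_nonneg _))] at hTN
      have h4 := hTN m hm
      have h5 : a m * r m < 0 := by simpa [hN] using hm
      rw [← abs_mul, abs_eq_zero] at h4
      linarith
    have : q ^ 2 = 0 := by
      rw [← hq2]
      exact Finset.sum_eq_zero fun m hm => (hNe m hm).elim
    rw [← hp, this] at hpq
    norm_num at hpq
  · rcases eq_or_lt_of_le hq0 with hq | hq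
    · -- q = 0
      have h3 : ∀ m ∈ N, r m = 0 := by
        intro m hm
        have h4 : |r m| ^ 2 ≤ 0 := by
          have : |r m| ^ 2 ≤ ∑ m ∈ N, |r m| ^ 2 :=
            Finset.single_le_sum (f := fun m => |r m| ^ 2) (fun _ _ => sq_nonneg _) hm
          rw [hq2, ← hq] at this
          simpa using this
        have : |r m| = 0 := by nlinarith [abs_nonneg (r m)]
        exact abs_eq_zero.mp this
      have hNe : ∀ m ∈ N, False := by
        intro m hm
        have h5 : a m * r m < 0 := by simpa [hN] using hm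
        rw [h3 m hm] at h5
        simp at h5
      have hT : T = 0 := by
        rw [← hTN]
        exact Finset.sum_eq_zero fun m hm => (hNe m hm).elim
      have h6 : ∀ m, a m * r m = 0 := by
        intro m
        by_cases hm : m ∈ P
        · rw [hTdef, Finset.sum_eq_zero_iff_of_nonneg
            (fun _ _ => mul_nonneg (abs_nonneg _) (abs_nonneg _))] at hT
          have := hT m hm
          rw [← abs_mul, abs_eq_zero] at this
          exact this
        · exact (hNe m (by
            simp only [hP, hN, Finset.mem_filter, Finset.mem_univ, true_and] at hm ⊢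
            exact hm)).elim
      -- some `r m ≠ 0`, hence `a m = 0`
      obtain ⟨m0, hm0⟩ : ∃ m, r m ≠ 0 := by
        by_contra hc
        push Not at hc
        have : ∑ m, r m ^ 2 = 0 := Finset.sum_eq_zero fun m _ => by rw [hc m]; norm_num
        rw [this] at hr
        norm_num at hr
      have ha0 : a m0 = 0 := by
        rcases mul_eq_zero.mp (h6 m0) with h | h
        · exact h
        · exact absurd h hm0
      have hlam0 : 0 ≤ lam := (abs_nonneg _).trans (hal m0)
      have h7 : ∑ m, a m ^ 2 ≤ ((Fintype.card ι : ℝ) - 1) * lam ^ 2 := by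
        rw [← Finset.add_sum_erase _ _ (Finset.mem_univ m0), ha0]
        have h8 : ∑ m ∈ univ.erase m0, a m ^ 2 ≤ ∑ m ∈ univ.erase m0, lam ^ 2 :=
          Finset.sum_le_sum fun m _ => by
            rw [← sq_abs]
            exact pow_le_pow_left₀ (abs_nonneg _) (hal m) 2
        rw [Finset.sum_const, Finset.card_erase_of_mem (Finset.mem_univ m0), Finset.card_univ,
          nsmul_eq_mul, Nat.cast_sub (by omega)] at h8
        push_cast at h8
        linarith
      rw [ha] at h7
      have h3 : (2 : ℝ) ≤ (Fintype.card ι : ℝ) := by exact_mod_cast hd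
      have h9 : lam ^ 2 < 1 := by nlinarith
      nlinarith
    · exact hkey hp hq

end R43NC
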