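import Mathlib

/-!
Coverings of a neighbourhood of the unit cube by congruent cubes: upper bound `d + 1`
(MP_a2070a_co), by helper43.
-/

set_option autoImplicit false

namespace R43NC

open Finset

variable {ι : Type} [Fintype ι] [DecidableEq ι]

abbrev Eu (ι : Type) : Type := EuclideanSpace ℝ ι

/-- the closed unit cube -/
def Cb (ι : Type) : Set (Eu ι) := {x | ∀ i, 0 ≤ x i ∧ x i ≤ 1}

/-- the open unit cube -/
def Ob (ι : Type) : Set (Eu ι) := {x | ∀ i, 0 < x i ∧ x i < 1}

theorem abs_sub_le_dist (x y : Eu ι) (j : ι) : |x j - y j| ≤ dist x y := by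
  rw [dist_eq_norm]
  have h := PiLp.norm_apply_le (x - y) j
  simpa using h

/-- coordinate formula for the rotation -/
def rotF (i k : ι) (c s : ℝ) (x : Eu ι) : Eu ι :=
  WithLp.toLp 2 (fun j => if j = i then c * x i + s * x k else
    if j = k then -s * x i + c * x k else x j)

theorem rotF_i (i k : ι) (c s : ℝ) (x : Eu ι) :
    rotF i k c s x i = c * x i + s * x k := by
  simp [rotF]

theorem rotF_k (i k : ι) (h : i ≠ k) (c s : ℝ) (x : Eu ι) :
    rotF i k c s x k = -s * x i + c * x k := by
  simp [rotF, h.symm]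

theorem rotF_o (i k : ι) (c s : ℝ) (x : Eu ι) (j : ι) (hi : j ≠ i) (hk : j ≠ k) :
    rotF i k c s x j = x j := by
  simp [rotF, hi, hk]

theorem rotF_inv (i k : ι) (h : i ≠ k) (c s : ℝ) (hcs : c ^ 2 + s ^ 2 = 1) (x : Eu ι) :
    rotF i k c s (rotF i k c (-s) x) = x := by
  ext j
  by_cases hi : j = i
  · subst hi
    rw [rotF_i, rotF_i, rotF_k _ _ h]
    linear_combination (x j) * hcs
  · by_cases hk : j = k
    · subst hk
      rw [rotF_k _ _ h, rotF_i, rotF_k _ _ h]
      linear_combination (x j) * hcs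
    · rw [rotF_o _ _ _ _ _ _ hi hk, rotF_o _ _ _ _ _ _ hi hk]

theorem rotF_isometry (i k : ι) (h : i ≠ k) (c s : ℝ) (hcs : c ^ 2 + s ^ 2 = 1) :
    Isometry (rotF i k c s : Eu ι → Eu ι) := by
  refine Isometry.of_dist_eq fun x y => ?_
  rw [EuclideanSpace.dist_eq, EuclideanSpace.dist_eq]
  congr 1
  rw [← sub_eq_zero, ← Finset.sum_sub_distrib, Fintype.sum_eq_add i k h]
  · rw [Real.dist_eq, Real.dist_eq, Real.dist_eq, Real.dist_eq, sq_abs, sq_abs, sq_abs, sq_abs,
      rotF_i, rotF_i, rotF_k _ _ h, rotF_k _ _ h]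
    linear_combination ((x i - y i) ^ 2 + (x k - y k) ^ 2) * hcs
  · intro j hj
    rw [rotF_o _ _ _ _ _ _ hj.1 hj.2, rotF_o _ _ _ _ _ _ hj.1 hj.2, sub_self]

/-- rotation in a coordinate plane -/
noncomputable def rot (i k : ι) (h : i ≠ k) (c s : ℝ) (hcs : c ^ 2 + s ^ 2 = 1) :
    Eu ι ≃ᵢ Eu ι :=
  IsometryEquiv.mk' (rotF i k c s) (rotF i k c (-s)) (rotF_inv i k h c s hcs)
    (rotF_isometry i k h c s hcs)

/-- translation in a coordinate direction -/
noncomputable def trn (k : ι) (t : ℝ) : Eu ι ≃ᵢ Eu ι :=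
  IsometryEquiv.addRight (EuclideanSpace.single k t)

theorem trn_k (k : ι) (t : ℝ) (x : Eu ι) : trn k t x k = x k + t := by
  simp [trn]

theorem trn_o (k : ι) (t : ℝ) (x : Eu ι) (j : ι) (h : j ≠ k) : trn k t x j = x j := by
  simp [trn, h]

/-- Rupert property: the facet `x i0 = 0` fits into the interior. -/
theorem rupert (i0 : ι) (T : Finset ι) : i0 ∉ T → ∃ (A : Eu ι ≃ᵢ Eu ι) (δ : ℝ), 0 < δ ∧ δ ≤ 1 / 2 ∧
    (∀ x, ∀ j, j ∉ insert i0 T → A x j = x j) ∧
    (∀ x ∈ Cb ι, x i0 = 0 → ∀ j ∈ insert i0 T, δ ≤ A x j ∧ A x j ≤ 1 - δ) := by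
  induction T using Finset.induction_on with
  | empty =>
    intro _
    refine ⟨trn i0 (1 / 2), 1 / 2, by norm_num, le_rfl, ?_, ?_⟩
    · intro x j hj
      rw [trn_o]
      simpa using hj
    · intro x _ hx j hj
      have hj' : j = i0 := by simpa using hj
      subst hj'
      rw [trn_k, hx]
      norm_num
  | insert k T hk ih =>
    intro hi0
    have hi0k : i0 ≠ k := by
      intro h
      exact hi0 (by simp [h])
    have hi0T : i0 ∉ T := fun h => hi0 (by simp [h])
    obtain ⟨A, δ, hδ, hδ2, hA1, hA2⟩ := ih hi0T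
    set s : ℝ := δ / 4 with hs
    have hs0 : 0 < s := by positivity
    have hs1 : s ≤ 1 / 8 := by linarith
    set c : ℝ := Real.sqrt (1 - s ^ 2) with hc
    have hcs : c ^ 2 + s ^ 2 = 1 := by
      rw [hc, Real.sq_sqrt (by nlinarith)]
      ring
    have hc0 : 0 ≤ c := Real.sqrt_nonneg _
    have hc1 : c < 1 := by nlinarith
    have hcs' : 1 - c ≤ s := by nlinarith
    set b : ℝ := (1 - c) / 2 with hb
    have hb0 : 0 < b := by linarith
    set ρ : Eu ι ≃ᵢ Eu ι := (rot i0 k hi0k c s hcs).trans (trn k b) with hρ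
    have hρi : ∀ x : Eu ι, ρ x i0 = c * x i0 + s * x k := by
      intro x
      show trn k b (rotF i0 k c s x) i0 = _
      rw [trn_o _ _ _ _ hi0k, rotF_i]
    have hρk : ∀ x : Eu ι, ρ x k = -s * x i0 + c * x k + b := by
      intro x
      show trn k b (rotF i0 k c s x) k = _
      rw [trn_k, rotF_k _ _ hi0k]
    have hρo : ∀ x : Eu ι, ∀ j, j ≠ i0 → j ≠ k → ρ x j = x j := by
      intro x j h1 h2
      show trn k b (rotF i0 k c s x) j = _
      rw [trn_o _ _ _ _ h2, rotF_o _ _ _ _ _ _ h1 h2]
    have hdist : ∀ x ∈ Cb ι, x i0 = 0 → dist (ρ x) x ≤ δ / 2 := by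
      intro x hx hx0
      rw [EuclideanSpace.dist_eq, Fintype.sum_eq_add i0 k hi0k]
      · rw [hρi, hρk, hx0, Real.dist_eq, Real.dist_eq, sq_abs, sq_abs]
        have h1 := hx k
        rw [Real.sqrt_le_left (by positivity)]
        have e1 : (c * 0 + s * x k - 0) ^ 2 ≤ s ^ 2 := by
          have : c * 0 + s * x k - 0 = s * x k := by ring
          rw [this, mul_pow]
          have : (x k) ^ 2 ≤ 1 := by nlinarith [h1.1, h1.2]
          nlinarith [sq_nonneg s]
        have e2 : (-s * 0 + c * x k + b - x k) ^ 2 ≤ s ^ 2 := by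
          have e3 : -s * 0 + c * x k + b - x k = b - (1 - c) * x k := by ring
          rw [e3]
          have e4 : b - (1 - c) * x k ≤ s := by nlinarith [h1.1, h1.2]
          have e5 : -s ≤ b - (1 - c) * x k := by nlinarith [h1.1, h1.2]
          nlinarith
        nlinarith
      · intro j hj
        rw [hρo x j hj.1 hj.2, dist_self]
        norm_num
    refine ⟨ρ.trans A, min (δ / 2) b, lt_min (by linarith) hb0, ?_, ?_, ?_⟩
    · exact (min_le_left _ _).trans (by linarith)
    · intro x j hj
      simp only [Finset.mem_insert, not_or] at hj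
      show A (ρ x) j = x j
      rw [hA1 _ j (by simp [hj.1, hj.2.2]), hρo x j hj.1 hj.2.1]
    · intro x hx hx0 j hj
      show min (δ / 2) b ≤ A (ρ x) j ∧ A (ρ x) j ≤ 1 - min (δ / 2) b
      by_cases hjk : j = k
      · subst hjk
        rw [hA1 _ j (by simp [hi0k.symm, hk]), hρk, hx0]
        have h1 := hx j
        have h2 : min (δ / 2) b ≤ b := min_le_right _ _
        constructor
        · nlinarith [h1.1, h1.2]
        · nlinarith [h1.1, h1.2]
      · have hj' : j ∈ insert i0 T := by
          simp only [Finset.mem_insert] at hj ⊢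
          rcases hj with h | h | h
          · exact Or.inl h
          · exact absurd h hjk
          · exact Or.inr h
        have h1 := hA2 x hx hx0 j hj'
        have h2 := abs_sub_le_dist (A (ρ x)) (A x) j
        rw [A.isometry.dist_eq] at h2
        have h3 := hdist x hx hx0
        have h4 := abs_le.mp (h2.trans h3)
        have h5 : min (δ / 2) b ≤ δ / 2 := min_le_left _ _
        constructor <;> linarith [h4.1, h4.2, h1.1, h1.2]

/-- The covering, one coordinate at a time. -/
theorem cover_aux (T : Finset ι) : ∃ A : Fin (T.card + 1) → (Eu ι ≃ᵢ Eu ι),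
    (∀ i x j, j ∉ T → A i x j = x j) ∧
    (∀ x ∈ Cb ι, ∃ i, ∀ j ∈ T, 0 < A i x j ∧ A i x j < 1) := by
  induction T using Finset.induction_on with
  | empty =>
    refine ⟨fun _ => IsometryEquiv.refl _, fun _ _ _ _ => rfl, fun x _ => ⟨0, ?_⟩⟩
    intro j hj
    simp at hj
  | insert k T hk ih =>
    obtain ⟨A, hA1, hA2⟩ := ih
    obtain ⟨B, δ, hδ, hδ2, hB1, hB2⟩ := rupert k T hk
    set s : ℝ := δ / 2 with hs
    have hs0 : 0 < s := by positivity
    rw [Finset.card_insert_of_notMem hk]
    refine ⟨Fin.cons B (fun i => (A i).trans (trn k (-s))), ?_, ?_⟩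
    · intro i x j hj
      refine Fin.cases ?_ (fun i => ?_) i
      · rw [Fin.cons_zero]
        exact hB1 x j hj
      · rw [Fin.cons_succ]
        simp only [Finset.mem_insert, not_or] at hj
        show trn k (-s) (A i x) j = x j
        rw [trn_o _ _ _ _ hj.1, hA1 i x j hj.2]
    · intro x hx
      by_cases hxk : x k ≤ s
      · refine ⟨0, ?_⟩
        rw [Fin.cons_zero]
        intro j hj
        set y : Eu ι := trn k (-(x k)) x with hy
        have hyk : y k = 0 := by rw [hy, trn_k]; ring
        have hyC : y ∈ Cb ι := by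
          intro l
          by_cases hl : l = k
          · rw [hl, hyk]
            norm_num
          · rw [hy, trn_o _ _ _ _ hl]
            exact hx l
        have hxy : dist x y ≤ s := by
          rw [hy, dist_comm]
          show dist (x + EuclideanSpace.single k (-(x k))) x ≤ s
          rw [dist_eq_norm, add_sub_cancel_left, EuclideanSpace.norm_single, norm_neg,
            Real.norm_eq_abs, abs_of_nonneg (hx k).1]
          exact hxk
        have h1 := hB2 y hyC hyk j hj
        have h2 := abs_sub_le_dist (B x) (B y) j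
        rw [B.isometry.dist_eq] at h2
        have h4 := abs_le.mp (h2.trans hxy)
        constructor <;> linarith [h4.1, h4.2, h1.1, h1.2]
      · obtain ⟨i, hi⟩ := hA2 x hx
        refine ⟨i.succ, ?_⟩
        rw [Fin.cons_succ]
        intro j hj
        show 0 < trn k (-s) (A i x) j ∧ trn k (-s) (A i x) j < 1
        by_cases hjk : j = k
        · subst hjk
          rw [trn_k, hA1 i x j hk]
          have := hx j
          constructor <;> linarith [this.1, this.2]
        · rw [trn_o _ _ _ _ hjk]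
          refine hi j ?_
          simpa [hjk] using hj

theorem Ob_isOpen : IsOpen (Ob ι) := by
  have : Ob ι = ⋂ i : ι, ({x : Eu ι | 0 < x i} ∩ {x : Eu ι | x i < 1}) := by
    ext x
    simp [Ob]
  rw [this]
  refine isOpen_iInter_of_finite fun i => ?_
  have hc : Continuous fun x : Eu ι => x i := by fun_prop
  exact (isOpen_lt continuous_const hc).inter (isOpen_lt hc continuous_const)

theorem cover : ∃ A : Fin (Fintype.card ι + 1) → (Eu ι ≃ᵢ Eu ι),
    ∀ x ∈ Cb ι, ∃ i, A i x ∈ Ob ι := by
  obtain ⟨A, _, hA⟩ := cover_aux (Finset.univ : Finset ι)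
  refine ⟨A, fun x hx => ?_⟩
  obtain ⟨i, hi⟩ := hA x hx
  exact ⟨i, fun j => hi j (Finset.mem_univ j)⟩

end R43NC
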