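import Mathlib
import Pool.Agent.R43.NCIneq
import Pool.Agent.R43.NCUpper

/-!
Two congruent copies of the unit cube do not cover a neighbourhood of it (dimension at least two)
(MP_a2070a_co), by helper43.
-/

set_option autoImplicit false

namespace R43NC

open Finset

variable {ι : Type} [Fintype ι] [DecidableEq ι]

theorem norm_sq' (x : Eu ι) : ‖x‖ ^ 2 = ∑ m, x m ^ 2 := by
  rw [EuclideanSpace.norm_sq_eq]
  simp only [Real.norm_eq_abs, sq_abs]

theorem inner' (x y : Eu ι) : inner ℝ x y = ∑ m, x m * y m := by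
  rw [PiLp.inner_apply]
  refine Finset.sum_congr rfl fun m _ => ?_
  simp [mul_comm]

theorem norm_sgl (k : ι) : ‖(EuclideanSpace.single k (1 : ℝ) : Eu ι)‖ = 1 := by
  simp

/-- contradiction for one piece -/
theorem piece (R : Eu ι ≃ₗᵢ[ℝ] Eu ι) (lam : ℝ) (hlam : lam < 1) (hd : 2 ≤ Fintype.card ι)
    (x : Eu ι) (k : ι) (w : ℝ) (hw : w ^ 2 = 1) (hxk : x k = 0)
    (hx : ∀ j, j ≠ k → (x j) ^ 2 = 1 / 4) (t : ℝ) (ht0 : 0 ≤ t) (ht1 : t ≤ 1)
    (K : Set (Eu ι)) (hK : ∀ p ∈ K, ∀ p' ∈ K, ∀ m, |R (p - p') m| ≤ lam)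
    (m1 : x - (w / 2) • EuclideanSpace.single k (1 : ℝ) ∈ K)
    (m2 : -(x + (w / 2) • EuclideanSpace.single k (1 : ℝ)) ∈ K)
    (m3 : x + ((t - 1 / 2) * w) • EuclideanSpace.single k (1 : ℝ) ∈ K)
    (m4 : -(x + ((t - 1 / 2) * w) • EuclideanSpace.single k (1 : ℝ)) ∈ K) : False := by
  set S : Eu ι := EuclideanSpace.single k (1 : ℝ) with hS
  have hSk : S k = 1 := by simp [hS]
  have hSo : ∀ j, j ≠ k → S j = 0 := by
    intro j hj
    simp [hS, hj]
  set X : Eu ι := (2 : ℝ) • x with hX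
  set W : Eu ι := w • S with hW
  refine no_chord (fun m => R X m) (fun m => R W m) t lam ht0 ht1 hlam hd ?_ ?_ ?_ ?_ ?_
  · show ∑ m, (R X m) ^ 2 = _
    rw [← norm_sq', LinearIsometryEquiv.norm_map, norm_sq', ← Finset.add_sum_erase _ _ (mem_univ k)]
    have e1 : X k = 0 := by
      show (2 : ℝ) * x k = 0
      rw [hxk, mul_zero]
    have e2 : ∑ m ∈ univ.erase k, X m ^ 2 = ∑ m ∈ univ.erase k, (1 : ℝ) := by
      refine Finset.sum_congr rfl fun m hm => ?_
      have h3 := hx m (Finset.ne_of_mem_erase hm)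
      show ((2 : ℝ) * x m) ^ 2 = 1
      rw [mul_pow, h3]
      norm_num
    rw [e1, e2, Finset.sum_const, Finset.card_erase_of_mem (mem_univ k), Finset.card_univ,
      nsmul_eq_mul, Nat.cast_sub (by omega)]
    push_cast
    ring
  · show ∑ m, (R W m) ^ 2 = _
    rw [← norm_sq', LinearIsometryEquiv.norm_map, hW, norm_smul, mul_pow, hS, norm_sgl,
      Real.norm_eq_abs, sq_abs, hw]
    norm_num
  · show ∑ m, (R X m) * (R W m) = _
    rw [← inner', LinearIsometryEquiv.inner_map_map, inner']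
    refine Finset.sum_eq_zero fun m _ => ?_
    by_cases hm : m = k
    · have : X m = 0 := by
        rw [hm]
        show (2 : ℝ) * x k = 0
        rw [hxk, mul_zero]
      rw [this, zero_mul]
    · have : W m = 0 := by
        show w * S m = 0
        rw [hSo m hm, mul_zero]
      rw [this, mul_zero]
  · intro m
    have h3 := hK _ m3 _ m2 m
    have e1 : x + ((t - 1 / 2) * w) • S - -(x + (w / 2) • S) = X + t • W := by
      rw [hX, hW]
      module
    rw [e1, map_add, map_smul R t W] at h3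
    exact h3
  · intro m
    have h3 := hK _ m1 _ m4 m
    have e1 : x - (w / 2) • S - -(x + ((t - 1 / 2) * w) • S) = X + (t - 1) • W := by
      rw [hX, hW]
      module
    rw [e1, map_add, map_smul R (t - 1) W] at h3
    exact h3

/-- vertices -/
noncomputable def vtx (S : Finset ι) : Eu ι := WithLp.toLp 2 (fun j => if j ∈ S then 1 / 2 else -1 / 2)

theorem vtx_abs (S : Finset ι) (j : ι) : |vtx S j| = 1 / 2 := by
  unfold vtx
  by_cases h : j ∈ S
  · simp [h]
  · simp [h, abs_of_neg (by norm_num : (-1 / 2 : ℝ) < 0)]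
    norm_num

theorem vtx_compl (S : Finset ι) : vtx Sᶜ = - vtx S := by
  ext j
  unfold vtx
  by_cases h : j ∈ S
  · simp [h]; norm_num
  · simp [h]; norm_num

theorem anti (R : Eu ι ≃ₗᵢ[ℝ] Eu ι) (lam : ℝ) (hlam : lam < 1) (hd : 1 ≤ Fintype.card ι)
    (K : Set (Eu ι)) (hK : ∀ p ∈ K, ∀ p' ∈ K, ∀ m, |R (p - p') m| ≤ lam) (S : Finset ι)
    (h1 : vtx S ∈ K) (h2 : - vtx S ∈ K) : False := by
  have h3 : ‖R (vtx S - - vtx S)‖ ^ 2 = (Fintype.card ι : ℝ) := by
    rw [LinearIsometryEquiv.norm_map, norm_sq']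
    have : ∀ m, (vtx S - - vtx S) m ^ 2 = 1 := by
      intro m
      have h4 := vtx_abs S m
      show (vtx S m - - vtx S m) ^ 2 = 1
      have h5 : (vtx S m) ^ 2 = (1 / 2) ^ 2 := by rw [← sq_abs, h4]
      nlinarith
    rw [Finset.sum_congr rfl fun m _ => this m]
    simp
  rw [norm_sq'] at h3
  obtain ⟨m0⟩ : Nonempty ι := Fintype.card_pos_iff.mp (by omega)
  have hl0 : 0 ≤ lam := (abs_nonneg _).trans (hK _ h1 _ h2 m0)
  have h4 : ∑ m, R (vtx S - - vtx S) m ^ 2 ≤ ∑ m : ι, lam ^ 2 := by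
    refine Finset.sum_le_sum fun m _ => ?_
    rw [← sq_abs]
    exact pow_le_pow_left₀ (abs_nonneg _) (hK _ h1 _ h2 m) 2
  rw [h3, Finset.sum_const, Finset.card_univ, nsmul_eq_mul] at h4
  have h5 : (1 : ℝ) ≤ (Fintype.card ι : ℝ) := by exact_mod_cast hd
  have h6 : lam ^ 2 < 1 := by nlinarith
  nlinarith

theorem edge_case (hd : 2 ≤ Fintype.card ι) (Ra Rb : Eu ι ≃ₗᵢ[ℝ] Eu ι) (lam : ℝ) (hlam : lam < 1)
    (Ka Kb : Set (Eu ι)) (ca : IsClosed Ka) (cb : IsClosed Kb)
    (ha : ∀ p ∈ Ka, ∀ p' ∈ Ka, ∀ m, |Ra (p - p') m| ≤ lam)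
    (hb : ∀ p ∈ Kb, ∀ p' ∈ Kb, ∀ m, |Rb (p - p') m| ≤ lam)
    (hcov : ∀ p : Eu ι, (∀ j, |p j| ≤ 1 / 2) → p ∈ Ka ∨ p ∈ Kb)
    (S : Finset ι) (k : ι) (hk : k ∉ S) (hS : vtx S ∈ Ka) (hS' : vtx (insert k S) ∈ Kb) :
    False := by
  have hbox : ∀ (S : Finset ι) (j : ι), |vtx S j| ≤ 1 / 2 := fun S j => (vtx_abs S j).le
  have n1 : -vtx S ∈ Kb := by
    rcases hcov (-vtx S) (fun j => by
      show |-(vtx S j)| ≤ 1 / 2
      rw [abs_neg]; exact hbox S j) with h | h
    · exact (anti Ra lam hlam (by omega) Ka ha S hS h).elim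
    · exact h
  have n2 : -vtx (insert k S) ∈ Ka := by
    rcases hcov (-vtx (insert k S)) (fun j => by
      show |-(vtx (insert k S) j)| ≤ 1 / 2
      rw [abs_neg]; exact hbox _ j) with h | h
    · exact h
    · exact (anti Rb lam hlam (by omega) Kb hb _ hS' h).elim
  set x : Eu ι := WithLp.toLp 2 (fun j => if j = k then 0 else vtx S j) with hx
  have hxk : x k = 0 := by simp [hx]
  have hxo : ∀ j, j ≠ k → x j = vtx S j := by
    intro j hj
    simp [hx, hj]
  set E : ℝ → Eu ι := fun t => x + (t - 1 / 2) • EuclideanSpace.single k (1 : ℝ) with hE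
  have hEk : ∀ t, E t k = t - 1 / 2 := by
    intro t
    simp [hE, hxk]
  have hEo : ∀ t, ∀ j, j ≠ k → E t j = vtx S j := by
    intro t j hj
    simp [hE, hj, hxo j hj]
  have hE0 : E 0 = vtx S := by
    ext j
    by_cases hj : j = k
    · rw [hj, hEk]
      simp [vtx, hk]
      norm_num
    · exact hEo 0 j hj
  have hE1 : E 1 = vtx (insert k S) := by
    ext j
    by_cases hj : j = k
    · rw [hj, hEk]
      simp [vtx]
      norm_num
    · rw [hEo 1 j hj]
      simp [vtx, hj]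
  have hEc : Continuous E := by
    rw [hE]
    fun_prop
  have hEb : ∀ t ∈ Set.Icc (0 : ℝ) 1, ∀ j, |E t j| ≤ 1 / 2 := by
    intro t ht j
    by_cases hj : j = k
    · rw [hj, hEk, abs_le]
      constructor <;> linarith [ht.1, ht.2]
    · rw [hEo t j hj]
      exact hbox S j
  -- a parameter with an antipodal pair in the same set
  have hex : ∃ t ∈ Set.Icc (0 : ℝ) 1, (E t ∈ Ka ∧ -E t ∈ Ka) ∨ (E t ∈ Kb ∧ -E t ∈ Kb) := by
    by_contra hc
    push Not at hc
    have hpre := isPreconnected_closed_iff.mp (isPreconnected_Icc (a := (0 : ℝ)) (b := 1))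
      {t | E t ∈ Ka ∧ -E t ∈ Kb} {t | E t ∈ Kb ∧ -E t ∈ Ka}
      ((ca.preimage hEc).inter (cb.preimage hEc.neg))
      ((cb.preimage hEc).inter (ca.preimage hEc.neg)) (by
        intro t ht
        have h3 := hc t ht
        have h4 := hcov (E t) (hEb t ht)
        have h5 := hcov (-E t) (fun j => by
          show |-(E t j)| ≤ 1 / 2
          rw [abs_neg]; exact hEb t ht j)
        rcases h4 with h4 | h4
        · rcases h5 with h5 | h5
          · exact absurd h5 (h3.1 h4)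
          · exact Or.inl ⟨h4, h5⟩
        · rcases h5 with h5 | h5
          · exact Or.inr ⟨h4, h5⟩
          · exact absurd h5 (h3.2 h4))
      ⟨0, ⟨by norm_num, by norm_num⟩, by rw [Set.mem_setOf_eq, hE0]; exact ⟨hS, n1⟩⟩
      ⟨1, ⟨by norm_num, by norm_num⟩, by rw [Set.mem_setOf_eq, hE1]; exact ⟨hS', n2⟩⟩
    obtain ⟨t, ht, h3, h4⟩ := hpre
    exact (hc t ht).1 h3.1 h4.2
  have hx4 : ∀ j, j ≠ k → (x j) ^ 2 = 1 / 4 := by
    intro j hj
    rw [hxo j hj, ← sq_abs, vtx_abs]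
    norm_num
  obtain ⟨t, ht, h3 | h3⟩ := hex
  · refine piece Ra lam hlam hd x k 1 (by norm_num) hxk hx4 t ht.1 ht.2 Ka ha ?_ ?_ ?_ ?_
    · have : x - ((1 : ℝ) / 2) • EuclideanSpace.single k (1 : ℝ) = E 0 := by
        rw [hE]; module
      rw [this, hE0]
      exact hS
    · have : x + ((1 : ℝ) / 2) • EuclideanSpace.single k (1 : ℝ) = E 1 := by
        rw [hE]; module
      rw [this, hE1]
      exact n2
    · rw [mul_one]
      exact h3.1
    · rw [mul_one]
      exact h3.2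
  · refine piece Rb lam hlam hd x k (-1) (by norm_num) hxk hx4 (1 - t) (by linarith [ht.2])
      (by linarith [ht.1]) Kb hb ?_ ?_ ?_ ?_
    · have : x - ((-1 : ℝ) / 2) • EuclideanSpace.single k (1 : ℝ) = E 1 := by
        rw [hE]; module
      rw [this, hE1]
      exact hS'
    · have : x + ((-1 : ℝ) / 2) • EuclideanSpace.single k (1 : ℝ) = E 0 := by
        rw [hE]; module
      rw [this, hE0]
      exact n1
    · have : x + ((1 - t - 1 / 2) * (-1 : ℝ)) • EuclideanSpace.single k (1 : ℝ) = E t := by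
        rw [hE]; module
      rw [this]
      exact h3.1
    · have : x + ((1 - t - 1 / 2) * (-1 : ℝ)) • EuclideanSpace.single k (1 : ℝ) = E t := by
        rw [hE]; module
      rw [this]
      exact h3.2

theorem two_sets (hd : 2 ≤ Fintype.card ι) (Ra Rb : Eu ι ≃ₗᵢ[ℝ] Eu ι) (lam : ℝ) (hlam : lam < 1)
    (Ka Kb : Set (Eu ι)) (ca : IsClosed Ka) (cb : IsClosed Kb)
    (ha : ∀ p ∈ Ka, ∀ p' ∈ Ka, ∀ m, |Ra (p - p') m| ≤ lam)
    (hb : ∀ p ∈ Kb, ∀ p' ∈ Kb, ∀ m, |Rb (p - p') m| ≤ lam)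
    (hcov : ∀ p : Eu ι, (∀ j, |p j| ≤ 1 / 2) → p ∈ Ka ∨ p ∈ Kb) : False := by
  have hv : ∀ S : Finset ι, vtx S ∈ Ka ∨ vtx S ∈ Kb := fun S =>
    hcov _ (fun j => (vtx_abs S j).le)
  have hcov' : ∀ p : Eu ι, (∀ j, |p j| ≤ 1 / 2) → p ∈ Kb ∨ p ∈ Ka := fun p hp =>
    (hcov p hp).symm
  have hiff : ∀ (S : Finset ι) (k : ι), k ∉ S → (vtx (insert k S) ∈ Ka ↔ vtx S ∈ Ka) := by
    intro S k hk
    constructor
    · intro h
      by_contra hc
      exact edge_case hd Rb Ra lam hlam Kb Ka cb ca hb ha hcov' S k hk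
        ((hv S).resolve_left hc) h
    · intro h
      by_contra hc
      exact edge_case hd Ra Rb lam hlam Ka Kb ca cb ha hb hcov S k hk h
        ((hv (insert k S)).resolve_left hc)
  have hall : ∀ S : Finset ι, (vtx S ∈ Ka ↔ vtx (∅ : Finset ι) ∈ Ka) := by
    intro S
    induction S using Finset.induction_on with
    | empty => rfl
    | insert k S hk ih => exact (hiff S k hk).trans ih
  have h1 := hall univ
  have h2 : vtx (univ : Finset ι) = - vtx (∅ : Finset ι) := by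
    rw [← vtx_compl, Finset.compl_empty]
  rw [h2] at h1
  by_cases h3 : vtx (∅ : Finset ι) ∈ Ka
  · exact anti Ra lam hlam (by omega) Ka ha _ h3 (h1.mpr h3)
  · have h4 : vtx (∅ : Finset ι) ∈ Kb := (hv ∅).resolve_left h3
    have h5 : - vtx (∅ : Finset ι) ∉ Ka := fun h => h3 (h1.mp h)
    have h6 : - vtx (∅ : Finset ι) ∈ Kb := by
      rw [← h2] at h5 ⊢
      exact (hv univ).resolve_left h5
    exact anti Rb lam hlam (by omega) Kb hb _ h4 h6

theorem Cb_isClosed : IsClosed (Cb ι) := by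
  have : Cb ι = ⋂ i : ι, ({x : Eu ι | 0 ≤ x i} ∩ {x : Eu ι | x i ≤ 1}) := by
    ext x
    simp [Cb]
  rw [this]
  refine isClosed_iInter fun i => ?_
  have hc : Continuous fun x : Eu ι => x i := by fun_prop
  exact (isClosed_le continuous_const hc).inter (isClosed_le hc continuous_const)

theorem norm_le_card (x : Eu ι) (hx : ∀ j, |x j| ≤ 1) : ‖x‖ ≤ (Fintype.card ι : ℝ) + 1 := by
  have h1 : ‖x‖ ^ 2 ≤ (Fintype.card ι : ℝ) := by
    rw [norm_sq']
    calc ∑ m, x m ^ 2 ≤ ∑ m : ι, (1 : ℝ) := Finset.sum_le_sum fun m _ => by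
          rw [← sq_abs]
          have := hx m
          have h0 := abs_nonneg (x m)
          nlinarith
      _ = (Fintype.card ι : ℝ) := by simp
  have h2 : (0 : ℝ) ≤ (Fintype.card ι : ℝ) := Nat.cast_nonneg _
  nlinarith [norm_nonneg x]

theorem Cb_isCompact : IsCompact (Cb ι) := by
  refine Metric.isCompact_of_isClosed_isBounded Cb_isClosed ?_
  refine (Metric.isBounded_closedBall (x := (0 : Eu ι))
    (r := (Fintype.card ι : ℝ) + 1)).subset ?_
  intro x hx
  rw [mem_closedBall_zero_iff]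
  refine norm_le_card x fun j => ?_
  rw [abs_le]
  exact ⟨by linarith [(hx j).1], (hx j).2⟩

/-- From a covering of a neighbourhood of the cube one gets closed sets covering the centred
cube, with strict widths. -/
theorem scale (n : ℕ) (g : Fin n → (Eu ι ≃ᵢ Eu ι)) (U : Set (Eu ι)) (hU : IsOpen U)
    (hCU : Cb ι ⊆ U) (hUK : U ⊆ ⋃ i, g i '' Cb ι) :
    ∃ (lam : ℝ) (K : Fin n → Set (Eu ι)) (R : Fin n → (Eu ι ≃ₗᵢ[ℝ] Eu ι)), lam < 1 ∧
      (∀ i, IsClosed (K i)) ∧ (∀ i, ∀ p ∈ K i, ∀ p' ∈ K i, ∀ m, |R i (p - p') m| ≤ lam) ∧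
      (∀ p : Eu ι, (∀ j, |p j| ≤ 1 / 2) → ∃ i, p ∈ K i) := by
  obtain ⟨δ, hδ, hth⟩ := Cb_isCompact.exists_thickening_subset_open hU hCU
  set D : ℝ := (Fintype.card ι : ℝ) + 1 with hD
  have hD0 : 0 < D := by positivity
  set η : ℝ := δ / (2 * D) with hη
  have hη0 : 0 < η := by positivity
  have hηD : η * D < δ := by
    rw [hη, div_mul_eq_mul_div, div_lt_iff₀ (by positivity)]
    nlinarith
  set L : ℝ := 1 + η with hL
  have hL1 : 1 < L := by linarith
  set ctr : Eu ι := WithLp.toLp 2 (fun _ => 1 / 2) with hctr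
  set z : Eu ι → Eu ι := fun p => ctr + L • p with hz
  have hzc : Continuous z := by
    rw [hz]
    fun_prop
  have hzU : ∀ p : Eu ι, (∀ j, |p j| ≤ 1 / 2) → z p ∈ U := by
    intro p hp
    apply hth
    rw [Metric.mem_thickening_iff]
    refine ⟨ctr + p, ?_, ?_⟩
    · intro j
      have h1 := abs_le.mp (hp j)
      show 0 ≤ 1 / 2 + p j ∧ 1 / 2 + p j ≤ 1
      constructor <;> linarith [h1.1, h1.2]
    · have e1 : z p - (ctr + p) = η • p := by
        rw [hz, hL]
        module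
      rw [dist_eq_norm, e1, norm_smul, Real.norm_eq_abs, abs_of_pos hη0]
      have h2 : ‖p‖ ≤ D := norm_le_card p fun j => (hp j).trans (by norm_num)
      calc η * ‖p‖ ≤ η * D := mul_le_mul_of_nonneg_left h2 hη0.le
        _ < δ := hηD
  refine ⟨1 / L, fun i => z ⁻¹' ((g i).symm ⁻¹' Cb ι),
    fun i => (g i).symm.toRealLinearIsometryEquiv, ?_, ?_, ?_, ?_⟩
  · rw [div_lt_one (by linarith)]
    exact hL1
  · intro i
    exact (Cb_isClosed.preimage (g i).symm.continuous).preimage hzc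
  · intro i p hp p' hp' m
    have h1 : (g i).symm (z p) ∈ Cb ι := hp
    have h2 : (g i).symm (z p') ∈ Cb ι := hp'
    set R := (g i).symm.toRealLinearIsometryEquiv with hR
    have hRa : ∀ x : Eu ι, R x = (g i).symm x - (g i).symm 0 := fun x =>
      IsometryEquiv.toRealLinearIsometryEquiv_apply _ _
    have h3 : L • R (p - p') = (g i).symm (z p) - (g i).symm (z p') := by
      have e1 : L • (p - p') = z p - z p' := by
        rw [hz]
        module
      rw [← map_smul, e1, map_sub, hRa, hRa]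
      abel
    have h4 : L * R (p - p') m = (g i).symm (z p) m - (g i).symm (z p') m := by
      have := congrArg (fun v : Eu ι => v m) h3
      exact this
    have h5 : |L * R (p - p') m| ≤ 1 := by
      rw [h4, abs_le]
      have a1 := h1 m
      have a2 := h2 m
      constructor <;> linarith [a1.1, a1.2, a2.1, a2.2]
    rw [abs_mul, abs_of_pos (by linarith : (0 : ℝ) < L)] at h5
    rw [le_div_iff₀ (by linarith)]
    linarith
  · intro p hp
    obtain ⟨i, y, hy, hyz⟩ := Set.mem_iUnion.mp (hUK (hzU p hp))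
    refine ⟨i, ?_⟩
    show (g i).symm (z p) ∈ Cb ι
    rw [← hyz, IsometryEquiv.symm_apply_apply]
    exact hy

theorem not_two (hd : 2 ≤ Fintype.card ι) (g : Fin 2 → (Eu ι ≃ᵢ Eu ι)) (U : Set (Eu ι))
    (hU : IsOpen U) (hCU : Cb ι ⊆ U) (hUK : U ⊆ ⋃ i, g i '' Cb ι) : False := by
  obtain ⟨lam, K, R, hlam, hc, hw, hcov⟩ := scale 2 g U hU hCU hUK
  refine two_sets hd (R 0) (R 1) lam hlam (K 0) (K 1) (hc 0) (hc 1) (hw 0) (hw 1) ?_
  intro p hp
  obtain ⟨i, hi⟩ := hcov p hp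
  fin_cases i
  · exact Or.inl hi
  · exact Or.inr hi

theorem not_one (hd : 1 ≤ Fintype.card ι) (g : Fin 1 → (Eu ι ≃ᵢ Eu ι)) (U : Set (Eu ι))
    (hU : IsOpen U) (hCU : Cb ι ⊆ U) (hUK : U ⊆ ⋃ i, g i '' Cb ι) : False := by
  obtain ⟨lam, K, R, hlam, hc, hw, hcov⟩ := scale 1 g U hU hCU hUK
  have h1 : vtx (∅ : Finset ι) ∈ K 0 := by
    obtain ⟨i, hi⟩ := hcov (vtx (∅ : Finset ι)) (fun j => (vtx_abs _ j).le)
    rwa [Subsingleton.elim i 0] at hi
  have h2 : - vtx (∅ : Finset ι) ∈ K 0 := by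
    obtain ⟨i, hi⟩ := hcov (- vtx (∅ : Finset ι)) (fun j => by
      show |-(vtx (∅ : Finset ι) j)| ≤ 1 / 2
      rw [abs_neg]; exact (vtx_abs _ j).le)
    rwa [Subsingleton.elim i 0] at hi
  exact anti (R 0) lam hlam hd (K 0) (hw 0) ∅ h1 h2

end R43NC
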