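import Mathlib

/-! Weakly consecutive sequences: basic facts. -/

namespace R43WCS

/-- A weakly consecutive sequence of length `k`: a permutation of `{1,...,k}` such that
`m ∣ σ i` and `m ∣ i - j` imply `m ∣ σ j`. -/
def IsWCS (k : ℕ) (σ : ℕ → ℕ) : Prop :=
  Set.BijOn σ (Set.Icc 1 k) (Set.Icc 1 k) ∧
  ∀ i ∈ Set.Icc 1 k, ∀ j ∈ Set.Icc 1 k, ∀ m : ℕ, 0 < m →
    m ∣ σ i → (m : ℤ) ∣ (i : ℤ) - (j : ℤ) → m ∣ σ j

/-- alignment with shift `c` for the modulus `m` -/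
def Al (k : ℕ) (σ : ℕ → ℕ) (m c : ℕ) : Prop :=
  ∀ x, 1 ≤ x → x ≤ k → (m ∣ σ x ↔ m ∣ x + c)

/-- reversal -/
def rev (k : ℕ) (σ : ℕ → ℕ) : ℕ → ℕ := fun i => σ (k + 1 - i)

/-- division slice -/
def sl (σ : ℕ → ℕ) (d a : ℕ) : ℕ → ℕ := fun j => σ (a + 1 + (j - 1) * d) / d

variable {k : ℕ} {σ : ℕ → ℕ}

theorem IsWCS.maps (h : IsWCS k σ) {x : ℕ} (h1 : 1 ≤ x) (h2 : x ≤ k) :
    1 ≤ σ x ∧ σ x ≤ k := by
  have := h.1.mapsTo (Set.mem_Icc.2 ⟨h1, h2⟩)
  exact Set.mem_Icc.1 this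

theorem IsWCS.inj (h : IsWCS k σ) {x y : ℕ} (h1 : 1 ≤ x) (h2 : x ≤ k) (h3 : 1 ≤ y)
    (h4 : y ≤ k) (e : σ x = σ y) : x = y :=
  h.1.injOn (Set.mem_Icc.2 ⟨h1, h2⟩) (Set.mem_Icc.2 ⟨h3, h4⟩) e

theorem IsWCS.surj (h : IsWCS k σ) {v : ℕ} (h1 : 1 ≤ v) (h2 : v ≤ k) :
    ∃ x, 1 ≤ x ∧ x ≤ k ∧ σ x = v := by
  obtain ⟨x, hx, hv⟩ := h.1.surjOn (Set.mem_Icc.2 ⟨h1, h2⟩)
  exact ⟨x, (Set.mem_Icc.1 hx).1, (Set.mem_Icc.1 hx).2, hv⟩

theorem IsWCS.step (h : IsWCS k σ) {x y m : ℕ} (h1 : 1 ≤ x) (h2 : x ≤ k) (h3 : 1 ≤ y)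
    (h4 : y ≤ k) (hm : 0 < m) (hd : m ∣ σ x) (hxy : x ≡ y [MOD m]) : m ∣ σ y := by
  refine h.2 x (Set.mem_Icc.2 ⟨h1, h2⟩) y (Set.mem_Icc.2 ⟨h3, h4⟩) m hm hd ?_
  have := (Nat.modEq_iff_dvd.1 hxy.symm)
  exact this

/-- the positions of the multiples of `m` form a residue class with `k / m` members -/
theorem cls (h : IsWCS k σ) {m : ℕ} (hm : 0 < m) (hmk : m ≤ k) :
    ∃ a, k % m ≤ a ∧ a < m ∧ ∀ x, 1 ≤ x → x ≤ k → (m ∣ σ x ↔ x ≡ a + 1 [MOD m]) := by
  obtain ⟨x0, hx1, hxk, hx⟩ := h.surj (v := m) hm hmk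
  set a := (x0 - 1) % m with ha
  have ham : a < m := Nat.mod_lt _ hm
  have hax : x0 ≡ a + 1 [MOD m] := by
    have h1 : (x0 - 1) % m ≡ x0 - 1 [MOD m] := Nat.mod_modEq _ _
    have h2 := h1.add_right 1
    rw [Nat.sub_add_cancel hx1] at h2
    exact h2.symm
  set S := (Finset.Ioc 0 k).filter (fun x => m ∣ σ x) with hS
  have hScard : S.card = k / m := by
    rw [← Nat.Ioc_filter_dvd_card_eq_div k m]
    apply Finset.card_nbij σ
    · intro x hx
      simp only [hS, Finset.coe_filter, Finset.mem_Ioc, Set.mem_setOf_eq, Finset.mem_filter] at hx ⊢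
      have := h.maps (x := x) (by omega) (by omega)
      refine ⟨⟨by omega, by omega⟩, hx.2⟩
    · intro x hx y hy e
      simp only [hS, Finset.coe_filter, Finset.mem_Ioc, Set.mem_setOf_eq] at hx hy
      exact h.inj (by omega) (by omega) (by omega) (by omega) e
    · intro v hv
      simp only [Finset.coe_filter, Finset.mem_Ioc, Set.mem_setOf_eq] at hv
      obtain ⟨x, hx1, hx2, hx3⟩ := h.surj (v := v) (by omega) (by omega)
      refine ⟨x, ?_, hx3⟩
      simp only [hS, Finset.coe_filter, Finset.mem_Ioc, Set.mem_setOf_eq]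
      refine ⟨⟨by omega, hx2⟩, ?_⟩
      rw [hx3]; exact hv.2
  set T := (Finset.range (k / m)).image (fun j => j * m + (a + 1)) with hT
  have hTcard : T.card = k / m := by
    rw [hT, Finset.card_image_of_injective, Finset.card_range]
    intro i j hij
    simp only at hij
    have : i * m = j * m := by omega
    exact Nat.eq_of_mul_eq_mul_right hm this
  have hmem : ∀ j, j * m + (a + 1) ≤ k → m ∣ σ (j * m + (a + 1)) := by
    intro j hj
    refine h.step (x := x0) hx1 hxk (by omega) hj hm (by rw [hx]) ?_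
    have : j * m + (a + 1) ≡ a + 1 [MOD m] := by
      have h0 : j * m ≡ 0 [MOD m] := (Nat.modEq_zero_iff_dvd.2 (Dvd.intro_left j rfl))
      have := h0.add_right (a + 1)
      simpa using this
    exact hax.trans this.symm
  have hTS : T ⊆ S := by
    intro y hy
    rw [hT, Finset.mem_image] at hy
    obtain ⟨j, hj, rfl⟩ := hy
    rw [Finset.mem_range] at hj
    have h1 : (j + 1) * m ≤ k := by
      calc (j + 1) * m ≤ (k / m) * m := Nat.mul_le_mul_right m hj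
        _ ≤ k := Nat.div_mul_le_self k m
    have h2 : j * m + (a + 1) ≤ k := by
      have : (j + 1) * m = j * m + m := by ring
      omega
    rw [hS, Finset.mem_filter, Finset.mem_Ioc]
    exact ⟨⟨by omega, h2⟩, hmem j h2⟩
  have hEq : T = S := Finset.eq_of_subset_of_card_le hTS (by rw [hScard, hTcard])
  refine ⟨a, ?_, ham, ?_⟩
  · by_contra hlt
    push Not at hlt
    have hk := Nat.div_add_mod k m
    have h2 : (k / m) * m + (a + 1) ≤ k := by
      have : m * (k / m) = (k / m) * m := Nat.mul_comm _ _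
      omega
    have h3 : (k / m) * m + (a + 1) ∈ S := by
      rw [hS, Finset.mem_filter, Finset.mem_Ioc]
      exact ⟨⟨by omega, h2⟩, hmem _ h2⟩
    rw [← hEq, hT, Finset.mem_image] at h3
    obtain ⟨j, hj, hj2⟩ := h3
    rw [Finset.mem_range] at hj
    have : j * m = (k / m) * m := by omega
    have := Nat.eq_of_mul_eq_mul_right hm this
    omega
  · intro x h1 h2
    constructor
    · intro hd
      have hxS : x ∈ S := by
        rw [hS, Finset.mem_filter, Finset.mem_Ioc]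
        exact ⟨⟨by omega, h2⟩, hd⟩
      rw [← hEq, hT, Finset.mem_image] at hxS
      obtain ⟨j, hj, rfl⟩ := hxS
      have h0 : j * m ≡ 0 [MOD m] := (Nat.modEq_zero_iff_dvd.2 (Dvd.intro_left j rfl))
      have := h0.add_right (a + 1)
      simpa using this
    · intro hd
      exact h.step (x := x0) hx1 hxk h1 h2 hm (by rw [hx]) (hax.trans hd.symm)

theorem al_of_dvd {m a c : ℕ}
    (ha : ∀ x, 1 ≤ x → x ≤ k → (m ∣ σ x ↔ x ≡ a + 1 [MOD m])) (hd : m ∣ a + 1 + c) :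
    Al k σ m c := by
  intro x h1 h2
  rw [ha x h1 h2]
  constructor
  · intro e
    exact ((e.add_right c).dvd_iff (dvd_refl m)).2 hd
  · intro e
    exact Nat.ModEq.add_right_cancel' c
      ((Nat.modEq_zero_iff_dvd.2 e).trans (Nat.modEq_zero_iff_dvd.2 hd).symm)

theorem dvd_of_al {m a c : ℕ} (hmk : m ≤ k) (ham : a < m)
    (ha : ∀ x, 1 ≤ x → x ≤ k → (m ∣ σ x ↔ x ≡ a + 1 [MOD m])) (hal : Al k σ m c) :
    m ∣ a + 1 + c := by
  have h1 := (ha (a + 1) (by omega) (by omega)).2 rfl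
  exact (hal (a + 1) (by omega) (by omega)).1 h1

/-- alignment passes to divisors -/
theorem al_divisor (h : IsWCS k σ) {M m c : ℕ} (hM : M ≤ k) (hM0 : 0 < M) (hm : m ∣ M)
    (hal : Al k σ M c) : Al k σ m c := by
  have hm0 : 0 < m := Nat.pos_of_dvd_of_pos hm hM0
  have hmk : m ≤ k := le_trans (Nat.le_of_dvd hM0 hm) hM
  obtain ⟨a, -, ham, ha⟩ := cls h hm0 hmk
  obtain ⟨A, -, hAM, hA⟩ := cls h hM0 hM
  have h1 : M ∣ σ (A + 1) := (hA (A + 1) (by omega) (by omega)).2 rfl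
  have h2 : M ∣ A + 1 + c := (hal (A + 1) (by omega) (by omega)).1 h1
  have h3 : A + 1 ≡ a + 1 [MOD m] := (ha (A + 1) (by omega) (by omega)).1 (hm.trans h1)
  exact al_of_dvd ha (((h3.add_right c).dvd_iff (dvd_refl m)).1 (hm.trans h2))

theorem al_mul {m n c : ℕ} (hmn : Nat.Coprime m n) (h1 : Al k σ m c) (h2 : Al k σ n c) :
    Al k σ (m * n) c := by
  intro x hx1 hx2
  constructor
  · intro hd
    exact hmn.mul_dvd_of_dvd_of_dvd ((h1 x hx1 hx2).1 (dvd_of_mul_right_dvd hd))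
      ((h2 x hx1 hx2).1 (dvd_of_mul_left_dvd hd))
  · intro hd
    exact hmn.mul_dvd_of_dvd_of_dvd ((h1 x hx1 hx2).2 (dvd_of_mul_right_dvd hd))
      ((h2 x hx1 hx2).2 (dvd_of_mul_left_dvd hd))

theorem rev_isWCS (h : IsWCS k σ) : IsWCS k (rev k σ) := by
  refine ⟨⟨?_, ?_, ?_⟩, ?_⟩
  · intro x hx
    rw [Set.mem_Icc] at hx
    exact h.1.mapsTo (Set.mem_Icc.2 ⟨by omega, by omega⟩)
  · intro x hx y hy e
    rw [Set.mem_Icc] at hx hy
    have := h.inj (x := k + 1 - x) (y := k + 1 - y) (by omega) (by omega) (by omega) (by omega) e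
    omega
  · intro v hv
    rw [Set.mem_Icc] at hv
    obtain ⟨x, h1, h2, h3⟩ := h.surj hv.1 hv.2
    refine ⟨k + 1 - x, Set.mem_Icc.2 ⟨by omega, by omega⟩, ?_⟩
    show σ (k + 1 - (k + 1 - x)) = v
    rw [show k + 1 - (k + 1 - x) = x by omega, h3]
  · intro i hi j hj m hm hd hij
    rw [Set.mem_Icc] at hi hj
    refine h.2 (k + 1 - i) (Set.mem_Icc.2 ⟨by omega, by omega⟩) (k + 1 - j)
      (Set.mem_Icc.2 ⟨by omega, by omega⟩) m hm hd ?_
    have h1 : ((k + 1 - i : ℕ) : ℤ) = k + 1 - i := by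
      rw [Nat.cast_sub (by omega)]; push_cast; ring
    have h2 : ((k + 1 - j : ℕ) : ℤ) = k + 1 - j := by
      rw [Nat.cast_sub (by omega)]; push_cast; ring
    rw [h1, h2]
    have : (k : ℤ) + 1 - i - (k + 1 - j) = -((i : ℤ) - j) := by ring
    rw [this]
    exact (dvd_neg).2 hij

theorem sl_isWCS (h : IsWCS k σ) {d a : ℕ} (hd : 0 < d) (hdk : d ≤ k) (hka : k % d ≤ a)
    (had : a < d) (ha : ∀ x, 1 ≤ x → x ≤ k → (d ∣ σ x ↔ x ≡ a + 1 [MOD d])) :
    IsWCS (k / d) (sl σ d a) := by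
  have hkd := Nat.div_add_mod k d
  have hpos : ∀ j, 1 ≤ j → j ≤ k / d → a + 1 + (j - 1) * d ≤ k := by
    intro j h1 h2
    have h3 : j * d ≤ (k / d) * d := Nat.mul_le_mul_right d h2
    have h4 := Nat.div_mul_le_self k d
    have h5 : j * d = (j - 1) * d + d := by
      obtain ⟨t, rfl⟩ : ∃ t, j = t + 1 := ⟨j - 1, by omega⟩
      simp; ring
    omega
  have hmod : ∀ j, a + 1 + (j - 1) * d ≡ a + 1 [MOD d] := by
    intro j
    have h0 : (j - 1) * d ≡ 0 [MOD d] := (Nat.modEq_zero_iff_dvd.2 (Dvd.intro_left _ rfl))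
    simpa using h0.add_left (a + 1)
  have hdv : ∀ j, 1 ≤ j → j ≤ k / d → d ∣ σ (a + 1 + (j - 1) * d) := fun j h1 h2 =>
    (ha _ (by omega) (hpos j h1 h2)).2 (hmod j)
  have hval : ∀ j, 1 ≤ j → j ≤ k / d → sl σ d a j * d = σ (a + 1 + (j - 1) * d) :=
    fun j h1 h2 => Nat.div_mul_cancel (hdv j h1 h2)
  refine ⟨⟨?_, ?_, ?_⟩, ?_⟩
  · intro j hj
    rw [Set.mem_Icc] at hj ⊢
    have h1 := h.maps (x := a + 1 + (j - 1) * d) (by omega) (hpos j hj.1 hj.2)
    have h2 := hval j hj.1 hj.2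
    constructor
    · by_contra hc
      have : sl σ d a j = 0 := by omega
      rw [this] at h2
      omega
    · rw [Nat.le_div_iff_mul_le hd, h2]
      exact h1.2
  · intro i hi j hj e
    rw [Set.mem_Icc] at hi hj
    have h1 := hval i hi.1 hi.2
    have h2 := hval j hj.1 hj.2
    rw [e, h2] at h1
    have := h.inj (by omega) (hpos j hj.1 hj.2) (by omega) (hpos i hi.1 hi.2) h1
    have h3 : (j - 1) * d = (i - 1) * d := by omega
    have := Nat.eq_of_mul_eq_mul_right hd h3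
    omega
  · intro v hv
    rw [Set.mem_Icc] at hv
    have hvk : v * d ≤ k := le_trans (Nat.mul_le_mul_right d hv.2) (Nat.div_mul_le_self k d)
    obtain ⟨x, h1, h2, h3⟩ := h.surj (v := v * d) (Nat.mul_pos hv.1 hd) hvk
    have h4 := (ha x h1 h2).1 (by rw [h3]; exact Dvd.intro_left v rfl)
    have h5 : a + 1 ≤ x := by
      by_contra hlt
      have h6 := h4
      unfold Nat.ModEq at h6
      rcases Nat.lt_or_ge (a + 1) d with h7 | h7
      · rw [Nat.mod_eq_of_lt (by omega : x < d), Nat.mod_eq_of_lt h7] at h6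
        omega
      · have : a + 1 = d := by omega
        rw [this, Nat.mod_self, Nat.mod_eq_of_lt (by omega : x < d)] at h6
        omega
    obtain ⟨t, ht⟩ := (Nat.modEq_iff_dvd' h5).1 h4.symm
    have hxt : x = a + 1 + t * d := by
      have : t * d = d * t := Nat.mul_comm _ _
      omega
    have htk : t + 1 ≤ k / d := by
      by_contra hlt
      have h8 : k / d ≤ t := by omega
      have h9 : (k / d) * d ≤ t * d := Nat.mul_le_mul_right d h8
      have : d * (k / d) = (k / d) * d := Nat.mul_comm _ _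
      omega
    refine ⟨t + 1, Set.mem_Icc.2 ⟨by omega, htk⟩, ?_⟩
    have h10 := hval (t + 1) (by omega) htk
    simp only [Nat.add_sub_cancel] at h10
    rw [← hxt, h3] at h10
    exact Nat.eq_of_mul_eq_mul_right hd h10
  · intro i hi j hj m hm hmd hij
    rw [Set.mem_Icc] at hi hj
    have h1 := hval i hi.1 hi.2
    have h2 := hval j hj.1 hj.2
    have h3 : m * d ∣ σ (a + 1 + (j - 1) * d) := by
      refine h.2 (a + 1 + (i - 1) * d) (Set.mem_Icc.2 ⟨by omega, hpos i hi.1 hi.2⟩)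
        (a + 1 + (j - 1) * d) (Set.mem_Icc.2 ⟨by omega, hpos j hj.1 hj.2⟩) (m * d)
        (Nat.mul_pos hm hd) ?_ ?_
      · rw [← h1]; exact Nat.mul_dvd_mul_right hmd d
      · obtain ⟨t, ht⟩ := hij
        refine ⟨t, ?_⟩
        have e1 : ((i - 1 : ℕ) : ℤ) = i - 1 := by rw [Nat.cast_sub hi.1]; simp
        have e2 : ((j - 1 : ℕ) : ℤ) = j - 1 := by rw [Nat.cast_sub hj.1]; simp
        push_cast
        rw [e1, e2]
        have : (i : ℤ) = j + m * t := by linarith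
        rw [this]; ring
    rw [← h2] at h3
    exact Nat.dvd_of_mul_dvd_mul_right hd h3

end R43WCS
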