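import Mathlib
import Pool.Agent.R43.WCSBasic

namespace R43WCS

variable {k : ℕ} {σ : ℕ → ℕ}

theorem rfact {m n t : ℕ} (hm11 : 11 ≤ m) (hn : 0 < n) (ht1 : 1 ≤ t) (ht4 : t ≤ 4)
    (hd : ∀ d, 0 < d → d < m → (d ∣ t ↔ d ∣ n)) (hmn : ¬ m ∣ n) :
    ∃ r, n = t * r ∧ (r = 1 ∨ m + 1 ≤ r) ∧ ¬ 2 ∣ r ∧ ¬ 3 ∣ r := by
  obtain ⟨r, hr⟩ := (hd t (by omega) (by omega)).1 (dvd_refl t)
  have h2 : ¬ 2 ∣ r := by
    rintro ⟨s, rfl⟩
    have h1 : t * 2 ∣ n := ⟨s, by rw [hr]; ring⟩
    have h3 := (hd (t * 2) (by omega) (by omega)).2 h1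
    have := Nat.le_of_dvd (by omega) h3
    omega
  have h3 : ¬ 3 ∣ r := by
    rintro ⟨s, rfl⟩
    have h1 : 3 ∣ n := ⟨t * s, by rw [hr]; ring⟩
    have h4 := (hd 3 (by omega) (by omega)).2 h1
    have ht3 : t = 3 := by
      interval_cases t <;> omega
    subst ht3
    have h5 : 9 ∣ n := ⟨s, by rw [hr]; ring⟩
    have h6 := (hd 9 (by omega) (by omega)).2 h5
    omega
  refine ⟨r, hr, ?_, h2, h3⟩
  by_cases h1 : r = 1
  · exact Or.inl h1
  right
  set q := r.minFac with hq
  have hqp : q.Prime := Nat.minFac_prime h1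
  have hqr : q ∣ r := Nat.minFac_dvd r
  have hr0 : 0 < r := by
    rcases Nat.eq_zero_or_pos r with h | h
    · rw [h] at hr; omega
    · exact h
  have hqn : q ∣ n := hr ▸ (Dvd.dvd.mul_left hqr t)
  have hqle : q ≤ r := Nat.le_of_dvd hr0 hqr
  rcases Nat.lt_or_ge q m with h4 | h4
  · exfalso
    have h5 := (hd q hqp.pos h4).2 hqn
    have h6 := Nat.le_of_dvd (by omega) h5
    have h7 := hqp.two_le
    have h8 : q ≤ 4 := by omega
    interval_cases hqq : q
    · exact h2 hqr
    · exact h3 hqr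
    · exact absurd hqp (by decide)
  · rcases Nat.lt_or_ge m q with h5 | h5
    · omega
    · have : q = m := by omega
      rw [this] at hqn
      exact absurd hqn hmn

/-- prime moduli -/
theorem al_prime (h : IsWCS k σ) {m c : ℕ} (hc : c ≤ 5) (hm11 : 11 ≤ m) (hkm : k ≤ 4 * m + 3)
    (h2 : 2 * m + 2 ≤ k) (hal : ∀ d, 0 < d → d < m → Al k σ d c) (hp : m.Prime) :
    Al k σ m c := by
  obtain ⟨a, hka, ham, ha⟩ := cls h (by omega : 0 < m) (by omega : m ≤ k)
  by_cases hmn : m ∣ a + 1 + c
  · exact al_of_dvd ha hmn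
  exfalso
  have hdivm := Nat.div_add_mod k m
  -- values
  have key : ∀ i, i * m + (a + 1) ≤ k → ∃ t, 1 ≤ t ∧ t ≤ 4 ∧ σ (i * m + (a + 1)) = m * t ∧
      ∃ r, i * m + (a + 1) + c = t * r ∧ (r = 1 ∨ m + 1 ≤ r) ∧ ¬ 2 ∣ r ∧ ¬ 3 ∣ r := by
    intro i hi
    have hmod : i * m + (a + 1) ≡ a + 1 [MOD m] := by
      have h0 : i * m ≡ 0 [MOD m] := (Nat.modEq_zero_iff_dvd.2 (Dvd.intro_left i rfl))
      simpa using h0.add_right (a + 1)
    obtain ⟨t, ht⟩ := (ha _ (by omega) hi).2 hmod
    have hmp := h.maps (x := i * m + (a + 1)) (by omega) hi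
    have ht1 : 1 ≤ t := by
      rcases Nat.eq_zero_or_pos t with h0 | h0
      · rw [h0] at ht; omega
      · exact h0
    have ht4 : t ≤ 4 := by
      by_contra hlt
      have : m * 5 ≤ m * t := Nat.mul_le_mul_left m (by omega)
      omega
    refine ⟨t, ht1, ht4, ht, ?_⟩
    refine rfact hm11 (by omega) ht1 ht4 ?_ ?_
    · intro d hd0 hdm
      rw [← hal d hd0 hdm _ (by omega) hi, ht]
      have hcop : Nat.Coprime d m := (Nat.coprime_of_lt_prime hd0.ne' hdm hp).symm
      constructor
      · intro h1; exact Dvd.dvd.mul_left h1 m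
      · intro h1; exact hcop.dvd_of_dvd_mul_left h1
    · intro h1
      apply hmn
      have h3 : i * m + (a + 1) + c = a + 1 + c + i * m := by ring
      rw [h3] at h1
      exact (Nat.dvd_add_left (Dvd.intro_left i rfl)).1 h1
  have hodd : m % 2 = 1 := by
    rcases hp.eq_two_or_odd with h3 | h3
    · omega
    · exact h3
  have hm3 : m % 3 ≠ 0 := by
    intro h3
    have h4 : 3 ∣ m := Nat.dvd_of_mod_eq_zero h3
    have := (Nat.prime_dvd_prime_iff_eq Nat.prime_three hp).1 h4
    omega
  have hx1 : 1 * m + (a + 1) ≤ k := by omega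
  obtain ⟨t0, ht01, ht04, hs0, r0, hr0, hr0', hr02, hr03⟩ := key 0 (by omega)
  obtain ⟨t1, ht11, ht14, hs1, r1, hr1, hr1', hr12, hr13⟩ := key 1 hx1
  have hne01 : t0 ≠ t1 := by
    intro e
    rw [← e] at hs1
    have := h.inj (by omega) (by omega) (by omega) hx1 (hs0.trans hs1.symm)
    omega
  have hm0 := h.maps (x := 0 * m + (a + 1)) (by omega) (by omega)
  have hm1 := h.maps (x := 1 * m + (a + 1)) (by omega) hx1
  rw [hs0] at hm0
  rw [hs1] at hm1
  by_cases h3 : 3 * m ≤ k
  · have hka3 : k / m = 3 ∨ k / m = 4 := by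
      have h5 : 3 ≤ k / m := (Nat.le_div_iff_mul_le (by omega)).2 h3
      have h6 : k / m < 5 := (Nat.div_lt_iff_lt_mul (by omega)).2 (by omega)
      omega
    have hx2 : 2 * m + (a + 1) ≤ k := by omega
    obtain ⟨t2, ht21, ht24, hs2, r2, hr2, hr2', hr22, hr23⟩ := key 2 hx2
    have hne02 : t0 ≠ t2 := by
      intro e
      rw [← e] at hs2
      have := h.inj (by omega) (by omega) (by omega) hx2 (hs0.trans hs2.symm)
      omega
    have hne12 : t1 ≠ t2 := by
      intro e
      rw [← e] at hs2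
      have := h.inj (by omega) hx1 (by omega) hx2 (hs1.trans hs2.symm)
      omega
    have hm2 := h.maps (x := 2 * m + (a + 1)) (by omega) hx2
    rw [hs2] at hm2
    by_cases h4 : 4 * m ≤ k
    · have hx3 : 3 * m + (a + 1) ≤ k := by omega
      obtain ⟨t3, ht31, ht34, hs3, r3, hr3, hr3', hr32, hr33⟩ := key 3 hx3
      have hne03 : t0 ≠ t3 := by
        intro e
        rw [← e] at hs3
        have := h.inj (by omega) (by omega) (by omega) hx3 (hs0.trans hs3.symm)
        omega
      have hne13 : t1 ≠ t3 := by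
        intro e
        rw [← e] at hs3
        have := h.inj (by omega) hx1 (by omega) hx3 (hs1.trans hs3.symm)
        omega
      have hne23 : t2 ≠ t3 := by
        intro e
        rw [← e] at hs3
        have := h.inj (by omega) hx2 (by omega) hx3 (hs2.trans hs3.symm)
        omega
      interval_cases t1 <;> interval_cases t0 <;> interval_cases t2 <;> interval_cases t3 <;> omega
    · interval_cases t1 <;> interval_cases t0 <;> interval_cases t2 <;> omega
  · have hkm2 : k / m = 2 := by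
      have h5 : 2 ≤ k / m := (Nat.le_div_iff_mul_le (by omega)).2 (by omega)
      have h6 : k / m < 3 := (Nat.div_lt_iff_lt_mul (by omega)).2 (by omega)
      omega
    rw [hkm2] at hdivm
    interval_cases t1 <;> interval_cases t0 <;>
      first
      | omega
      | (have e1 : r0 = m + 4 := by omega
         have e2 : r1 = m + 2 := by omega
         subst e1 e2
         have h5 : m % 3 = 1 ∨ m % 3 = 2 := by omega
         rcases h5 with h5 | h5
         · exact hr13 (Nat.dvd_of_mod_eq_zero (by omega))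
         · exact hr03 (Nat.dvd_of_mod_eq_zero (by omega)))

/-- prime power moduli that are not prime -/
theorem al_primePow (h : IsWCS k σ) {b c p : ℕ} (hc : c ≤ 5) (hm11 : 11 ≤ p * b)
    (hkm : k ≤ 4 * (p * b) + 3) (h2 : 2 * (p * b) + 2 ≤ k)
    (hal : ∀ d, 0 < d → d < p * b → Al k σ d c) (hp : p.Prime) (hpb : p ∣ b)
    (hcopr : ∀ d, Nat.Coprime d p → Nat.Coprime d (p * b)) :
    Al k σ (p * b) c := by
  set m := p * b with hmdef
  obtain ⟨a, hka, ham, ha⟩ := cls h (by omega : 0 < m) (by omega : m ≤ k)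
  by_cases hmn : m ∣ a + 1 + c
  · exact al_of_dvd ha hmn
  exfalso
  have hp2 := hp.two_le
  have hb0 : 0 < b := by
    rcases Nat.eq_zero_or_pos b with h0 | h0
    · rw [h0] at hmdef; omega
    · exact h0
  have hbp : p ≤ b := Nat.le_of_dvd hb0 hpb
  have hbm : b < m := by
    have : 2 * b ≤ p * b := Nat.mul_le_mul_right b hp2
    omega
  have hmod : ∀ i, i * m + (a + 1) ≡ a + 1 [MOD m] := by
    intro i
    have h0 : i * m ≡ 0 [MOD m] := (Nat.modEq_zero_iff_dvd.2 (Dvd.intro_left i rfl))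
    simpa using h0.add_right (a + 1)
  -- b divides n0
  have hs0 : m ∣ σ (a + 1) := (ha _ (by omega) (by omega)).2 rfl
  have hbn0 : b ∣ a + 1 + c :=
    (hal b hb0 hbm (a + 1) (by omega) (by omega)).1 ((Dvd.intro_left p rfl).trans hs0)
  obtain ⟨u, hu⟩ := hbn0
  have hpu : ¬ p ∣ u := by
    rintro ⟨w, rfl⟩
    apply hmn
    exact ⟨w, by rw [hu, hmdef]; ring⟩
  have hu0 : 0 < u := by
    rcases Nat.eq_zero_or_pos u with h0 | h0
    · rw [h0] at hu; omega
    · exact h0
  have key : ∀ i, i * m + (a + 1) ≤ k → ∃ t, 1 ≤ t ∧ t ≤ 4 ∧ σ (i * m + (a + 1)) = m * t ∧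
      ∀ d, 0 < d → d < m → Nat.Coprime d p → d ∣ u + i * p → d ∣ t := by
    intro i hi
    obtain ⟨t, ht⟩ := (ha _ (by omega) hi).2 (hmod i)
    have hmp := h.maps (x := i * m + (a + 1)) (by omega) hi
    have ht1 : 1 ≤ t := by
      rcases Nat.eq_zero_or_pos t with h0 | h0
      · rw [h0] at ht; omega
      · exact h0
    have ht4 : t ≤ 4 := by
      by_contra hlt
      have : m * 5 ≤ m * t := Nat.mul_le_mul_left m (by omega)
      omega
    refine ⟨t, ht1, ht4, ht, ?_⟩
    intro d hd0 hdm hcd hdu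
    have h3 : d ∣ i * m + (a + 1) + c := by
      have : i * m + (a + 1) + c = b * (u + i * p) := by
        rw [Nat.mul_add, ← hu, hmdef]; ring
      rw [this]
      exact Dvd.dvd.mul_left hdu b
    have h4 := (hal d hd0 hdm _ (by omega) hi).2 h3
    rw [ht] at h4
    exact (hcopr d hcd).dvd_of_dvd_mul_left h4
  have hx1 : 1 * m + (a + 1) ≤ k := by omega
  obtain ⟨t1, ht11, ht14, hs1, hd1⟩ := key 1 hx1
  have hcop1 : Nat.Coprime (u + 1 * p) p := by
    have h5 : Nat.Coprime p u := (Nat.Prime.coprime_iff_not_dvd hp).2 hpu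
    simpa using h5.symm
  -- size of u + p
  have hsize : u + p < m := by
    by_contra hge
    push Not at hge
    have h5 : b * m ≤ b * (u + p) := Nat.mul_le_mul_left b hge
    have h6 : b * (u + p) = a + 1 + c + m := by
      rw [Nat.mul_add, ← hu, hmdef]; ring
    have h7 : b * m ≤ 2 * m + 5 := by omega
    have h8 : b ≤ 2 := by
      by_contra hb3
      have : 3 * m ≤ b * m := Nat.mul_le_mul_right m (by omega)
      omega
    have h9 : b = 2 := by omega
    have h10 : p = 2 := by omega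
    rw [h9, h10] at hmdef
    omega
  have hdt := hd1 (u + 1 * p) (by omega) (by omega) hcop1 (dvd_refl _)
  have hle := Nat.le_of_dvd (by omega) hdt
  have hp3 : p ≤ 3 := by omega
  have hm1 := h.maps (x := 1 * m + (a + 1)) (by omega) hx1
  rw [hs1] at hm1
  have hcase : p = 2 ∨ p = 3 := by omega
  rcases hcase with hp' | hp'
  · -- p = 2
    subst hp'
    have hu1 : u = 1 := by omega
    subst hu1
    have h3t : 3 ∣ t1 := by simpa using hdt
    have ht3 : t1 = 3 := by omega
    subst ht3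
    have hx2 : 2 * m + (a + 1) ≤ k := by
      have hdivm := Nat.div_add_mod k m
      have h5 : 3 ≤ k / m := (Nat.le_div_iff_mul_le (by omega)).2 (by omega)
      have h6 : m * 3 ≤ m * (k / m) := Nat.mul_le_mul_left m h5
      omega
    obtain ⟨t2, ht21, ht24, hs2, hd2⟩ := key 2 hx2
    have := hd2 5 (by omega) (by omega) (by decide) (by norm_num)
    omega
  · subst hp'
    have hu1 : u = 1 := by omega
    subst hu1
    have h3t : 4 ∣ t1 := by simpa using hdt
    have ht3 : t1 = 4 := by omega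
    subst ht3
    have hx2 : 2 * m + (a + 1) ≤ k := by
      have hdivm := Nat.div_add_mod k m
      have h5 : 3 ≤ k / m := (Nat.le_div_iff_mul_le (by omega)).2 (by omega)
      have h6 : m * 3 ≤ m * (k / m) := Nat.mul_le_mul_left m h5
      omega
    obtain ⟨t2, ht21, ht24, hs2, hd2⟩ := key 2 hx2
    have := hd2 7 (by omega) (by omega) (by decide) (by norm_num)
    omega

/-- the engine -/
theorem engine (h : IsWCS k σ) {c : ℕ} (hc : c ≤ 5) (hk : 40 ≤ k)
    (hal2 : ∀ m, 0 < m → 2 * m + 2 ≤ k / 2 → Al k σ (2 * m) c) :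
    ∀ m, 0 < m → 2 * m + 2 ≤ k → Al k σ m c := by
  intro m
  induction m using Nat.strong_induction_on with
  | _ m ih =>
    intro hm hmk
    by_cases h1 : 2 * m + 2 ≤ k / 2
    · exact al_divisor h (M := 2 * m) (by omega) (by omega) (Dvd.intro_left 2 rfl) (hal2 m hm h1)
    by_cases h2 : m % 2 = 0 ∧ m + 2 ≤ k / 2
    · have := hal2 (m / 2) (by omega) (by omega)
      rwa [show 2 * (m / 2) = m by omega] at this
    have hm11 : 11 ≤ m := by omega
    have hkm : k ≤ 4 * m + 3 := by omega
    have hal : ∀ d, 0 < d → d < m → Al k σ d c := fun d hd hdm => ih d hdm hd (by omega)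
    have hm1 : m ≠ 1 := by omega
    set p := m.minFac with hp
    have hpp : p.Prime := Nat.minFac_prime hm1
    set e := m.factorization p with he
    have hprod : p ^ e * (m / p ^ e) = m := Nat.ordProj_mul_ordCompl_eq_self m p
    have hcop : Nat.Coprime p (m / p ^ e) := Nat.coprime_ordCompl hpp (by omega)
    have he1 : 0 < e := hpp.factorization_pos_of_dvd (by omega) (Nat.minFac_dvd m)
    by_cases hb : m / p ^ e = 1
    · rw [hb, Nat.mul_one] at hprod
      by_cases he2 : e = 1
      · rw [he2, pow_one] at hprod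
        have hmp : m.Prime := hprod ▸ hpp
        exact al_prime h hc hm11 hkm hmk hal hmp
      · obtain ⟨f, hf⟩ : ∃ f, e = f + 2 := ⟨e - 2, by omega⟩
        have hm' : m = p * p ^ (f + 1) := by
          rw [← hprod, hf]; ring
        rw [hm'] at hm11 hkm hmk hal ⊢
        refine al_primePow h hc hm11 hkm hmk hal hpp (dvd_pow_self p (by omega)) ?_
        intro d hd
        have : p * p ^ (f + 1) = p ^ (f + 2) := by ring
        rw [this]
        exact Nat.Coprime.pow_right _ hd
    · have hne : p ^ e ≠ 0 := (pow_pos hpp.pos e).ne'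
      have hbpos : 0 < m / p ^ e := by
        rcases Nat.eq_zero_or_pos (m / p ^ e) with h0 | h0
        · rw [h0] at hprod; omega
        · exact h0
      have hpe : 2 ≤ p ^ e := by
        calc 2 ≤ p := hpp.two_le
          _ = p ^ 1 := (pow_one p).symm
          _ ≤ p ^ e := Nat.pow_le_pow_right hpp.pos he1
      have hlt1 : p ^ e < m := by
        have : p ^ e * 2 ≤ p ^ e * (m / p ^ e) := Nat.mul_le_mul_left _ (by omega)
        omega
      have hlt2 : m / p ^ e < m := Nat.div_lt_self hm hpe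
      have := al_mul (hcop.pow_left e) (hal (p ^ e) (by omega) hlt1) (hal (m / p ^ e) hbpos hlt2)
      rwa [hprod] at this

end R43WCS
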