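import Mathlib
import Pool.Agent.R43.WCSCore

namespace R43WCS

variable {k : ℕ} {σ : ℕ → ℕ}

theorem pos_of_modEq {x a w : ℕ} (h1 : 1 ≤ x) (haw : a < w) (hx : x ≡ a + 1 [MOD w]) :
    ∃ j, x = a + 1 + j * w := by
  have h5 : a + 1 ≤ x := by
    by_contra hlt
    have h6 := hx
    unfold Nat.ModEq at h6
    rcases Nat.lt_or_ge (a + 1) w with h7 | h7
    · rw [Nat.mod_eq_of_lt (by omega : x < w), Nat.mod_eq_of_lt h7] at h6
      omega
    · have : a + 1 = w := by omega
      rw [this, Nat.mod_self, Nat.mod_eq_of_lt (by omega : x < w)] at h6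
      omega
  obtain ⟨t, ht⟩ := (Nat.modEq_iff_dvd' h5).1 hx.symm
  refine ⟨t, ?_⟩
  have : t * w = w * t := Nat.mul_comm _ _
  omega

/-- a value `w ≥ (k-1)/2` at the last position -/
theorem big_last (h : IsWCS k σ) {w : ℕ} (hk : 1 ≤ k) (hσ : σ k = w) (hw : 2 ≤ w)
    (hbig : k ≤ 2 * w + 1) : w = k ∨ (k = 2 * w ∧ σ w = k) := by
  have hm := h.maps (x := k) hk le_rfl
  rw [hσ] at hm
  obtain ⟨a, hka, haw, ha⟩ := cls h (by omega : 0 < w) hm.2
  obtain ⟨j, hj⟩ := pos_of_modEq hk haw ((ha k hk le_rfl).1 (by rw [hσ]))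
  have hdiv := Nat.div_add_mod k w
  by_cases h2 : 2 * w ≤ k
  · have hq : k / w = 2 := by
      have h5 : 2 ≤ k / w := (Nat.le_div_iff_mul_le (by omega)).2 h2
      have h6 : k / w < 3 := (Nat.div_lt_iff_lt_mul (by omega)).2 (by omega)
      omega
    rw [hq] at hdiv
    have hj1 : j = 1 := by
      have h7 : j ≤ 2 := by
        by_contra hlt
        have : 3 * w ≤ j * w := Nat.mul_le_mul_right w (by omega)
        omega
      interval_cases j <;> omega
    subst hj1
    have haw' : a + 1 = w := by omega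
    right
    refine ⟨by omega, ?_⟩
    have hwk : w ≤ k := by omega
    have hmw := h.maps (x := w) (by omega) hwk
    have hd : w ∣ σ w := (ha w (by omega) hwk).2 (by rw [haw'])
    obtain ⟨t, ht⟩ := hd
    have ht2 : t ≤ 2 := by
      by_contra hlt
      have : w * 3 ≤ w * t := Nat.mul_le_mul_left w (by omega)
      omega
    have ht0 : t ≠ 0 := by
      rintro rfl
      omega
    have ht1 : t ≠ 1 := by
      rintro rfl
      have := h.inj (x := w) (y := k) (by omega) hwk hk le_rfl (by rw [ht, hσ, Nat.mul_one])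
      omega
    have : t = 2 := by omega
    subst this
    omega
  · left
    have hq : k / w = 1 := by
      have h5 : 1 ≤ k / w := (Nat.le_div_iff_mul_le (by omega)).2 (by omega)
      have h6 : k / w < 2 := (Nat.div_lt_iff_lt_mul (by omega)).2 (by omega)
      omega
    rw [hq] at hdiv
    have hj1 : j ≤ 1 := by
      by_contra hlt
      have : 2 * w ≤ j * w := Nat.mul_le_mul_right w (by omega)
      omega
    interval_cases j <;> omega

/-- a value `w ≥ (k-1)/2` at the first position -/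
theorem big_first (h : IsWCS k σ) {w : ℕ} (hk : 1 ≤ k) (hσ : σ 1 = w) (hw : 2 ≤ w)
    (hbig : k ≤ 2 * w + 1) : w = k ∨ (k = 2 * w ∧ σ (w + 1) = k) := by
  have h' := rev_isWCS h
  have hlast : rev k σ k = w := by
    show σ (k + 1 - k) = w
    rw [show k + 1 - k = 1 by omega, hσ]
  rcases big_last h' hk hlast hw hbig with h1 | ⟨h1, h2⟩
  · exact Or.inl h1
  · right
    refine ⟨h1, ?_⟩
    have : rev k σ w = σ (k + 1 - w) := rfl
    rw [this, show k + 1 - w = w + 1 by omega] at h2
    exact h2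

theorem outside (h : IsWCS k σ) {c : ℕ} (hal : ∀ m, 0 < m → 2 * m + 2 ≤ k → Al k σ m c)
    {m j : ℕ} (hm : c < m) (h2 : 2 * m + 2 ≤ k) (hj1 : 1 ≤ j) (hjc : j ≤ c) : ¬ m ∣ k + j := by
  intro hd
  obtain ⟨a, hka, ham, ha⟩ := cls h (by omega : 0 < m) (by omega : m ≤ k)
  have h3 := dvd_of_al (by omega) ham ha (hal m (by omega) h2)
  obtain ⟨t, ht⟩ := h3
  have ht1 : t = 1 := by
    have h4 : t < 2 := by
      by_contra hlt
      have : m * 2 ≤ m * t := Nat.mul_le_mul_left m (by omega)
      omega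
    have h5 : t ≠ 0 := by
      rintro rfl
      omega
    omega
  subst ht1
  have hdiv := Nat.div_add_mod k m
  have h6 : m ∣ m * (k / m) + (k % m + j) := by
    have : m * (k / m) + (k % m + j) = k + j := by omega
    rw [this]; exact hd
  have h7 := (Nat.dvd_add_right (Dvd.intro _ rfl)).1 h6
  have := Nat.le_of_dvd (by omega) h7
  omega

theorem end_of_al (h : IsWCS k σ) (hk : 20 ≤ k) {c : ℕ} (hc : c ≤ 2)
    (hal : ∀ m, 0 < m → 2 * m + 2 ≤ k → Al k σ m c) : σ 1 = 1 ∨ σ k = 1 := by
  have hm1 := h.maps (x := 1) le_rfl (by omega)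
  have hmk := h.maps (x := k) (by omega) le_rfl
  have hout := fun m j => @outside k σ h c hal m j
  -- helper: `2 w` at position next to `w`
  have aux : ∀ w x, 20 ≤ 2 * w → k = 2 * w → ¬ 2 ∣ w → 1 ≤ x → x ≤ k → σ x = k →
      x + c = w + 1 → False := by
    intro w x hw hkw hodd hx1 hxk hσx hxc
    obtain ⟨t, ht⟩ : ∃ t, w = 2 * t + 1 := ⟨w / 2, by omega⟩
    have h1 := (hal (t + 1) (by omega) (by omega) x hx1 hxk).2 (by
      rw [hxc, ht]; exact ⟨2, by ring⟩)
    rw [hσx, hkw, ht] at h1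
    have h2 : t + 1 ∣ (t + 1) * 4 := Dvd.intro _ rfl
    have h3 : (t + 1) * 4 = 2 * (2 * t + 1) + 2 := by ring
    rw [h3] at h2
    have h4 := (Nat.dvd_add_right h1).1 h2
    have := Nat.le_of_dvd (by norm_num) h4
    omega
  have hc' : c = 0 ∨ c = 1 ∨ c = 2 := by omega
  rcases hc' with rfl | rfl | rfl
  · -- c = 0
    by_cases hv : σ 1 = 1
    · exact Or.inl hv
    have hnd : ∀ m, 2 ≤ m → 2 * m + 2 ≤ k → ¬ m ∣ σ 1 := by
      intro m hm1 hm2 hd
      have := (hal m (by omega) hm2 1 le_rfl (by omega)).1 hd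
      have := Nat.le_of_dvd (by omega) this
      omega
    have hbig : k ≤ 2 * σ 1 + 1 := by
      by_contra hlt
      exact hnd (σ 1) (by omega) (by omega) (dvd_refl _)
    rcases big_first h (by omega) rfl (by omega) hbig with h1 | ⟨h1, h2⟩
    · -- σ 1 = k
      right
      by_contra hw
      have hnd2 : ∀ m, 2 ≤ m → 2 * m + 2 ≤ k → ¬ m ∣ σ k := by
        intro m hm1 hm2 hd
        have := (hal m (by omega) hm2 k (by omega) le_rfl).1 hd
        rw [Nat.add_zero] at this
        rw [h1] at hnd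
        exact hnd m hm1 hm2 this
      have hbig2 : k ≤ 2 * σ k + 1 := by
        by_contra hlt
        exact hnd2 (σ k) (by omega) (by omega) (dvd_refl _)
      rcases big_last h (by omega) rfl (by omega) hbig2 with h3 | ⟨h3, h4⟩
      · have := h.inj (x := 1) (y := k) le_rfl (by omega) (by omega) le_rfl (by rw [h1, h3])
        omega
      · apply hnd 2 (by omega) (by omega)
        rw [h1, h3]; exact Dvd.intro _ rfl
    · exfalso
      exact aux (σ 1) (σ 1 + 1) (by omega) h1 (hnd 2 (by omega) (by omega)) (by omega)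
        (by omega) h2 (by omega)
  · -- c = 1
    by_cases hw : σ k = 1
    · exact Or.inr hw
    have hnd : ∀ m, 2 ≤ m → 2 * m + 2 ≤ k → ¬ m ∣ σ k := by
      intro m hm1 hm2 hd
      have := (hal m (by omega) hm2 k (by omega) le_rfl).1 hd
      exact hout m 1 (by omega) hm2 (by omega) (by omega) this
    have hbig : k ≤ 2 * σ k + 1 := by
      by_contra hlt
      exact hnd (σ k) (by omega) (by omega) (dvd_refl _)
    have hk1 := hout 2 1 (by omega) (by omega) (by omega) (by omega)
    have h2k := hnd 2 (by omega) (by omega)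
    rcases big_last h (by omega) rfl (by omega) hbig with h1 | ⟨h1, h2⟩
    · exfalso
      rw [h1] at h2k
      omega
    · exfalso
      exact aux (σ k) (σ k) (by omega) h1 h2k (by omega) (by omega) h2 (by omega)
  · -- c = 2
    have h31 := hout 3 1 (by omega) (by omega) (by omega) (by omega)
    have h32 := hout 3 2 (by omega) (by omega) (by omega) (by omega)
    have h42 := hout 4 2 (by omega) (by omega) (by omega) (by omega)
    by_cases hodd : k % 2 = 1
    · by_cases hw : σ k = 1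
      · exact Or.inr hw
      have hnd : ∀ m, 2 ≤ m → 2 * m + 2 ≤ k → ¬ m ∣ σ k := by
        intro m hm1 hm2 hd
        have h5 := (hal m (by omega) hm2 k (by omega) le_rfl).1 hd
        by_cases hm3 : m = 2
        · subst hm3; omega
        · exact hout m 2 (by omega) hm2 (by omega) (by omega) h5
      have hbig : k ≤ 2 * σ k + 1 := by
        by_contra hlt
        exact hnd (σ k) (by omega) (by omega) (dvd_refl _)
      have h3k := hnd 3 (by omega) (by omega)
      rcases big_last h (by omega) rfl (by omega) hbig with h1 | ⟨h1, h2⟩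
      · exfalso
        rw [h1] at h3k
        have h7 : k % 3 = 0 ∨ k % 3 = 1 ∨ k % 3 = 2 := by omega
        rcases h7 with h7 | h7 | h7
        · exact h3k (Nat.dvd_of_mod_eq_zero h7)
        · exact h32 (Nat.dvd_of_mod_eq_zero (by omega))
        · exact h31 (Nat.dvd_of_mod_eq_zero (by omega))
      · omega
    · exfalso
      obtain ⟨Q, hQ⟩ : ∃ Q, k = 2 * Q - 2 ∧ 2 ≤ Q := ⟨k / 2 + 1, by omega, by omega⟩
      have hQodd : Q % 2 = 1 := by omega
      obtain ⟨x, hx1, hxk, hx⟩ := h.surj (v := Q) (by omega) (by omega)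
      obtain ⟨a, hka, haQ, ha⟩ := cls h (by omega : 0 < Q) (by omega : Q ≤ k)
      obtain ⟨j, hj⟩ := pos_of_modEq hx1 haQ ((ha x hx1 hxk).1 (by rw [hx]))
      have hdiv := Nat.div_add_mod k Q
      have hq : k / Q = 1 := by
        have h5 : 1 ≤ k / Q := (Nat.le_div_iff_mul_le (by omega)).2 (by omega)
        have h6 : k / Q < 2 := (Nat.div_lt_iff_lt_mul (by omega)).2 (by omega)
        omega
      rw [hq] at hdiv
      have hj1 : j ≤ 1 := by
        by_contra hlt
        have : 2 * Q ≤ j * Q := Nat.mul_le_mul_right Q (by omega)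
        omega
      have hxQ : x = Q ∨ x = Q - 1 := by
        interval_cases j <;> omega
      have h2 := hal 2 (by omega) (by omega) x hx1 hxk
      rw [hx] at h2
      have hxQ' : x = Q := by
        rcases hxQ with h6 | h6
        · exact h6
        · exfalso
          have : 2 ∣ x + 2 := Nat.dvd_of_mod_eq_zero (by omega)
          have := h2.2 this
          omega
      have h3 := hal 3 (by omega) (by omega) x hx1 hxk
      rw [hx, hxQ'] at h3
      have h7 : Q % 3 = 0 ∨ Q % 3 = 1 ∨ Q % 3 = 2 := by omega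
      rcases h7 with h7 | h7 | h7
      · have := h3.1 (Nat.dvd_of_mod_eq_zero h7)
        omega
      · have := h3.2 (Nat.dvd_of_mod_eq_zero (by omega))
        omega
      · apply h31
        apply Nat.dvd_of_mod_eq_zero
        omega

/-- the structure statement -/
def SK (k : ℕ) (σ : ℕ → ℕ) : Prop :=
  ∃ c ≤ 2, (∀ m, 0 < m → 2 * m + 2 ≤ k → Al k σ m c) ∨
    (∀ m, 0 < m → 2 * m + 2 ≤ k → Al k (rev k σ) m c)

theorem slice_al {a m c : ℕ} (had : a < 2) (hka : k % 2 ≤ a)
    (ha : ∀ x, 1 ≤ x → x ≤ k → (2 ∣ σ x ↔ x ≡ a + 1 [MOD 2]))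
    (hal : Al (k / 2) (sl σ 2 a) m c) : Al k σ (2 * m) (1 + 2 * c - a) := by
  intro x hx1 hxk
  by_cases hx : x ≡ a + 1 [MOD 2]
  · obtain ⟨j, hj⟩ := pos_of_modEq hx1 had hx
    have hd := (ha x hx1 hxk).2 hx
    have hjk : j + 1 ≤ k / 2 := by omega
    have h1 := hal (j + 1) (by omega) hjk
    have h2 : sl σ 2 a (j + 1) = σ x / 2 := by
      show σ (a + 1 + (j + 1 - 1) * 2) / 2 = σ x / 2
      rw [Nat.add_sub_cancel, ← hj]
    rw [h2] at h1
    have h3 : σ x = 2 * (σ x / 2) := (Nat.mul_div_cancel' hd).symm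
    have h4 : x + (1 + 2 * c - a) = 2 * (j + 1 + c) := by omega
    rw [h4, h3, Nat.mul_dvd_mul_iff_left (by norm_num), Nat.mul_dvd_mul_iff_left (by norm_num)]
    exact h1
  · constructor
    · intro hd
      exact absurd ((ha x hx1 hxk).1 (dvd_of_mul_right_dvd hd)) hx
    · intro hd
      exfalso
      apply hx
      have h5 : 2 ∣ x + (1 + 2 * c - a) := dvd_of_mul_right_dvd hd
      unfold Nat.ModEq
      omega

theorem c_le_two (h : IsWCS k σ) (hk : 40 ≤ k) {c : ℕ} (hc : c ≤ 5)
    (hal : ∀ m, 0 < m → 2 * m + 2 ≤ k → Al k σ m c) : c ≤ 2 := by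
  by_contra hlt
  obtain ⟨j, hj1, hj3, q, hq⟩ : ∃ j, 1 ≤ j ∧ j ≤ 3 ∧ ∃ q, k + j = 3 * q := by
    have : k % 3 = 0 ∨ k % 3 = 1 ∨ k % 3 = 2 := by omega
    rcases this with h1 | h1 | h1
    · exact ⟨3, by omega, by omega, k / 3 + 1, by omega⟩
    · exact ⟨2, by omega, by omega, k / 3 + 1, by omega⟩
    · exact ⟨1, by omega, by omega, k / 3 + 1, by omega⟩
  exact outside h hal (m := q) (j := j) (by omega) (by omega) hj1 (by omega)
    ⟨3, by rw [hq]; ring⟩

theorem S_step (hk : 40 ≤ k) (IH : ∀ τ, IsWCS (k / 2) τ → SK (k / 2) τ) (h : IsWCS k σ) :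
    SK k σ := by
  obtain ⟨a, hka, had, ha⟩ := cls h (by omega : 0 < 2) (by omega : 2 ≤ k)
  have hτ := sl_isWCS h (by omega) (by omega) hka had ha
  obtain ⟨c, hc, hcase⟩ := IH _ hτ
  rcases hcase with hf | hb
  · have hc5 : 1 + 2 * c - a ≤ 5 := by omega
    have hall := engine h hc5 hk (fun m hm hm2 => slice_al had hka ha (hf m hm hm2))
    exact ⟨1 + 2 * c - a, c_le_two h hk hc5 hall, Or.inl hall⟩
  · have h' := rev_isWCS h
    obtain ⟨b, hkb, hbd, hb2⟩ := cls h' (by omega : 0 < 2) (by omega : 2 ≤ k)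
    -- relation between a and b
    have hab : (k - b) % 2 = (a + 1) % 2 := by
      have h1 := (hb2 (b + 1) (by omega) (by omega)).2 rfl
      have h2 : rev k σ (b + 1) = σ (k - b) := by
        show σ (k + 1 - (b + 1)) = _
        rw [show k + 1 - (b + 1) = k - b by omega]
      rw [h2] at h1
      exact (ha (k - b) (by omega) (by omega)).1 h1
    have hc5 : 1 + 2 * c - b ≤ 5 := by omega
    have hall := engine h' hc5 hk (fun m hm hm2 => slice_al hbd hkb hb2 (by
      intro j hj1 hjk
      have h3 := hb m hm hm2 j hj1 hjk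
      have h4 : rev (k / 2) (sl σ 2 a) j = sl (rev k σ) 2 b j := by
        show σ (a + 1 + (k / 2 + 1 - j - 1) * 2) / 2 = σ (k + 1 - (b + 1 + (j - 1) * 2)) / 2
        rw [show a + 1 + (k / 2 + 1 - j - 1) * 2 = k + 1 - (b + 1 + (j - 1) * 2) by omega]
      rw [h4] at h3
      exact h3))
    exact ⟨1 + 2 * c - b, c_le_two h' hk hc5 hall, Or.inr hall⟩

end R43WCS
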