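import Mathlib
import Pool.Agent.R43.WCSFinal

namespace R43WCS

variable {k : ℕ} {σ : ℕ → ℕ}

def stepCur (m a : ℕ) (cur : List (ℕ × ℕ)) : List (ℕ × ℕ) :=
  cur.map fun xv => bif Nat.beq (xv.1 % m) ((a + 1) % m) then (xv.1, xv.2 * m / Nat.gcd xv.2 m)
    else xv

def search (k : ℕ) (leaf : List (ℕ × ℕ) → Bool) :
    List ℕ → List (ℕ × ℕ) → List (ℕ × ℕ) → Bool
  | [], asg, _ => leaf asg
  | m :: ms, asg, cur =>
    (List.range m).all fun a =>
      bif Nat.ble (k % m) a && (asg.all fun p => !(Nat.beq (m % p.1) 0) ||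
          Nat.beq ((a + 1) % p.1) ((p.2 + 1) % p.1)) then
        bif (stepCur m a cur).all (fun xv => Nat.ble xv.2 k) then
          search k leaf ms ((m, a) :: asg) (stepCur m a cur)
        else true
      else true

def initCur (k : ℕ) : List (ℕ × ℕ) := (List.range' 1 k).map fun x => (x, 1)

def leafS (k : ℕ) (asg : List (ℕ × ℕ)) : Bool :=
  (List.range 3).any fun c =>
    (asg.all fun p => Nat.beq ((p.2 + 1 + c) % p.1) 0) ||
    (asg.all fun p => Nat.beq ((k - p.2 + c) % p.1) 0)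

def leafE (k : ℕ) (asg : List (ℕ × ℕ)) : Bool :=
  (asg.all fun p => !(Nat.beq p.2 0)) || (asg.all fun p => !(Nat.beq (k % p.1) ((p.2 + 1) % p.1)))

def good (k : ℕ) (σ : ℕ → ℕ) (p : ℕ × ℕ) : Prop :=
  0 < p.1 ∧ p.1 ≤ k ∧ p.2 < p.1 ∧ ∀ x, 1 ≤ x → x ≤ k → (p.1 ∣ σ x ↔ x ≡ p.2 + 1 [MOD p.1])

theorem search_sound (h : IsWCS k σ) (leaf : List (ℕ × ℕ) → Bool) :
    ∀ (ms : List ℕ) (asg cur : List (ℕ × ℕ)), (∀ m ∈ ms, 0 < m ∧ m ≤ k) →
      (∀ p ∈ asg, good k σ p) → (∀ xv ∈ cur, 1 ≤ xv.1 ∧ xv.1 ≤ k ∧ xv.2 ∣ σ xv.1) →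
      search k leaf ms asg cur = true →
      ∃ asg' : List (ℕ × ℕ), leaf asg' = true ∧ (∀ p ∈ asg', good k σ p) ∧
        (∀ p ∈ asg, p ∈ asg') ∧ (∀ m ∈ ms, ∃ a, (m, a) ∈ asg') := by
  intro ms
  induction ms with
  | nil =>
    intro asg cur _ hasg _ hs
    exact ⟨asg, hs, hasg, fun p hp => hp, by simp⟩
  | cons m ms ih =>
    intro asg cur hms hasg hcur hs
    obtain ⟨hm0, hmk⟩ := hms m (by simp)
    obtain ⟨a, hka, ham, ha⟩ := cls h hm0 hmk
    rw [search, List.all_eq_true] at hs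
    have hs := hs a (List.mem_range.2 ham)
    have hcond1 : Nat.ble (k % m) a = true := by rw [Nat.ble_eq]; exact hka
    have hcond2 : (asg.all fun p => !(Nat.beq (m % p.1) 0) ||
          Nat.beq ((a + 1) % p.1) ((p.2 + 1) % p.1)) = true := by
      rw [List.all_eq_true]
      intro p hp
      obtain ⟨hp0, hpk, hp2, hp3⟩ := hasg p hp
      by_cases hdv : m % p.1 = 0
      · have h1 : m ∣ σ (a + 1) := (ha (a + 1) (by omega) (by omega)).2 rfl
        have h2 : p.1 ∣ σ (a + 1) := (Nat.dvd_of_mod_eq_zero hdv).trans h1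
        have h3 : (a + 1) % p.1 = (p.2 + 1) % p.1 := (hp3 (a + 1) (by omega) (by omega)).1 h2
        rw [Bool.or_eq_true]
        right
        rw [h3]; exact Nat.beq_refl _
      · rw [Bool.or_eq_true]
        left
        rw [Bool.not_eq_true']
        cases hbq : Nat.beq (m % p.1) 0
        · rfl
        · exact absurd (Nat.eq_of_beq_eq_true hbq) hdv
    have hcur' : ∀ xv ∈ stepCur m a cur, 1 ≤ xv.1 ∧ xv.1 ≤ k ∧ xv.2 ∣ σ xv.1 := by
      intro xv hxv
      rw [stepCur, List.mem_map] at hxv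
      obtain ⟨yv, hyv, rfl⟩ := hxv
      obtain ⟨h1, h2, h3⟩ := hcur yv hyv
      cases hbq : Nat.beq (yv.1 % m) ((a + 1) % m)
      · exact ⟨h1, h2, h3⟩
      · have h4 : yv.1 ≡ a + 1 [MOD m] := Nat.eq_of_beq_eq_true hbq
        have h5 := (ha yv.1 h1 h2).2 h4
        refine ⟨h1, h2, ?_⟩
        exact Nat.lcm_dvd h3 h5
    have hcond3 : (stepCur m a cur).all (fun xv => Nat.ble xv.2 k) = true := by
      rw [List.all_eq_true]
      intro xv hxv
      obtain ⟨h1, h2, h3⟩ := hcur' xv hxv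
      have h4 := h.maps h1 h2
      rw [Nat.ble_eq]; exact ((Nat.le_of_dvd (by omega) h3).trans h4.2)
    rw [hcond1, hcond2, hcond3] at hs
    simp only [Bool.and_self, cond_true] at hs
    obtain ⟨asg', h1, h2, h3, h4⟩ := ih ((m, a) :: asg) (stepCur m a cur)
      (fun m' hm' => hms m' (by simp [hm'])) (by
        intro p hp
        rw [List.mem_cons] at hp
        rcases hp with rfl | hp
        · exact ⟨hm0, hmk, ham, ha⟩
        · exact hasg p hp) hcur' hs
    refine ⟨asg', h1, h2, fun p hp => h3 p (by simp [hp]), ?_⟩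
    intro m' hm'
    rw [List.mem_cons] at hm'
    rcases hm' with rfl | hm'
    · exact ⟨a, h3 _ (by simp)⟩
    · exact h4 m' hm'

theorem initCur_ok (h : IsWCS k σ) : ∀ xv ∈ initCur k, 1 ≤ xv.1 ∧ xv.1 ≤ k ∧ xv.2 ∣ σ xv.1 := by
  intro xv hxv
  rw [initCur, List.mem_map] at hxv
  obtain ⟨x, hx, rfl⟩ := hxv
  rw [List.mem_range'_1] at hx
  exact ⟨hx.1, by omega, one_dvd _⟩

theorem SK_of_search (h : IsWCS k σ) (hk : 4 ≤ k)
    (hs : search k (leafS k) (List.range' 2 ((k - 2) / 2 - 1)) [] (initCur k) = true) :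
    SK k σ := by
  obtain ⟨asg, h1, h2, -, h4⟩ := search_sound h (leafS k) _ [] (initCur k) (by
    intro m hm
    rw [List.mem_range'_1] at hm
    omega) (by simp) (initCur_ok h) hs
  rw [leafS, List.any_eq_true] at h1
  obtain ⟨c, hc, h5⟩ := h1
  rw [List.mem_range] at hc
  refine ⟨c, by omega, ?_⟩
  rw [Bool.or_eq_true, List.all_eq_true, List.all_eq_true] at h5
  rcases h5 with h5 | h5
  · left
    intro m hm0 hm2
    rcases Nat.lt_or_ge m 2 with hm | hm
    · have : m = 1 := by omega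
      subst this
      intro x _ _
      simp
    · obtain ⟨a, hma⟩ := h4 m (by rw [List.mem_range'_1]; omega)
      obtain ⟨_, hmk, ham, ha⟩ := h2 _ hma
      exact al_of_dvd ha (Nat.dvd_of_mod_eq_zero (Nat.eq_of_beq_eq_true (h5 _ hma)))
  · right
    intro m hm0 hm2
    rcases Nat.lt_or_ge m 2 with hm | hm
    · have : m = 1 := by omega
      subst this
      intro x _ _
      simp
    · obtain ⟨a, hma⟩ := h4 m (by rw [List.mem_range'_1]; omega)
      obtain ⟨_, hmk, ham, ha⟩ := h2 _ hma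
      have h6 : m ∣ k - a + c := Nat.dvd_of_mod_eq_zero (Nat.eq_of_beq_eq_true (h5 _ hma))
      intro x hx1 hxk
      have h7 : rev k σ x = σ (k + 1 - x) := rfl
      rw [h7, ha (k + 1 - x) (by omega) (by omega)]
      simp only at ham
      have hmk' : m ≤ k := hmk
      have hsum : (x + c) + (k + 1 - x) = (k - a + c) + (a + 1) := by omega
      have h8 : k - a + c ≡ 0 [MOD m] := Nat.modEq_zero_iff_dvd.2 h6
      constructor
      · intro e
        have h9 : (x + c) + (k + 1 - x) ≡ (k - a + c) + (a + 1) [MOD m] := by rw [hsum]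
        have h10 := Nat.ModEq.add_right_cancel e h9
        exact Nat.modEq_zero_iff_dvd.1 (h10.trans h8)
      · intro e
        have h9 : (x + c) + (k + 1 - x) ≡ (k - a + c) + (a + 1) [MOD m] := by rw [hsum]
        exact Nat.ModEq.add_left_cancel ((Nat.modEq_zero_iff_dvd.2 e).trans h8.symm) h9

theorem end_of_search (h : IsWCS k σ) (hk : 1 ≤ k)
    (hs : search k (leafE k) (List.range' 2 (k - 1)) [] (initCur k) = true) :
    σ 1 = 1 ∨ σ k = 1 := by
  obtain ⟨asg, h1, h2, -, h4⟩ := search_sound h (leafE k) _ [] (initCur k) (by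
    intro m hm
    rw [List.mem_range'_1] at hm
    omega) (by simp) (initCur_ok h) hs
  rw [leafE, Bool.or_eq_true, List.all_eq_true, List.all_eq_true] at h1
  rcases h1 with h1 | h1
  · left
    by_contra hne
    have hm := h.maps (x := 1) le_rfl hk
    obtain ⟨a, hma⟩ := h4 (σ 1) (by rw [List.mem_range'_1]; omega)
    obtain ⟨h0, hmk, ham, ha⟩ := h2 _ hma
    have h5 := (ha 1 le_rfl hk).1 (dvd_refl _)
    obtain ⟨j, hj⟩ := pos_of_modEq le_rfl ham h5
    have ha0 : a = 0 := by
      simp only at hj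
      omega
    have h6 := h1 _ hma
    simp only [ha0] at h6
    exact absurd h6 (by decide)
  · right
    by_contra hne
    have hm := h.maps (x := k) hk le_rfl
    obtain ⟨a, hma⟩ := h4 (σ k) (by rw [List.mem_range'_1]; omega)
    obtain ⟨h0, hmk, ham, ha⟩ := h2 _ hma
    have h5 : k % σ k = (a + 1) % σ k := (ha k hk le_rfl).1 (dvd_refl _)
    have h6 := h1 _ hma
    simp only [h5] at h6
    have h7 : Nat.beq ((a + 1) % σ k) ((a + 1) % σ k) = true := Nat.beq_refl _
    rw [h7] at h6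
    exact absurd h6 (by decide)

theorem baseS : ∀ n ∈ List.range 20,
    search (n + 20) (leafS (n + 20)) (List.range' 2 ((n + 20 - 2) / 2 - 1)) []
      (initCur (n + 20)) = true := by
  decide +kernel

theorem baseE : ∀ n ∈ List.range 19,
    search (n + 1) (leafE (n + 1)) (List.range' 2 (n + 1 - 1)) [] (initCur (n + 1)) = true := by
  decide +kernel

theorem structure_thm : ∀ k, 20 ≤ k → ∀ σ, IsWCS k σ → SK k σ := by
  intro k
  induction k using Nat.strong_induction_on with
  | _ k ih =>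
    intro hk σ h
    rcases Nat.lt_or_ge k 40 with h40 | h40
    · have hb := baseS (k - 20) (List.mem_range.2 (by omega))
      rw [show k - 20 + 20 = k by omega] at hb
      exact SK_of_search h (by omega) hb
    · exact S_step h40 (fun τ hτ => ih (k / 2) (by omega) (by omega) τ hτ) h

/-- every weakly consecutive sequence begins or ends with `1` -/
theorem end_prop (hk : 1 ≤ k) (h : IsWCS k σ) : σ 1 = 1 ∨ σ k = 1 := by
  rcases Nat.lt_or_ge k 20 with h20 | h20
  · have hb := baseE (k - 1) (List.mem_range.2 (by omega))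
    rw [show k - 1 + 1 = k by omega] at hb
    exact end_of_search h hk hb
  · obtain ⟨c, hc, hcase⟩ := structure_thm k h20 σ h
    rcases hcase with hf | hb
    · exact end_of_al h h20 hc hf
    · have h' := rev_isWCS h
      have h1 := end_of_al h' h20 hc hb
      have e1 : rev k σ 1 = σ k := by
        show σ (k + 1 - 1) = σ k
        rw [Nat.add_sub_cancel]
      have e2 : rev k σ k = σ 1 := by
        show σ (k + 1 - k) = σ 1
        rw [show k + 1 - k = 1 by omega]
      rw [e1, e2] at h1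
      exact h1.symm

theorem main (h : IsWCS k σ) {m i : ℕ} (hm : 0 < m) (hi1 : 1 ≤ i) (hik : i ≤ k)
    (hσ : σ i = m) : i ≤ m ∨ k - m + 1 ≤ i := by
  have hmk : m ≤ k := hσ ▸ (h.maps hi1 hik).2
  obtain ⟨a, hka, ham, ha⟩ := cls h hm hmk
  have hτ := sl_isWCS h hm hmk hka ham ha
  have hK : 1 ≤ k / m := (Nat.le_div_iff_mul_le hm).2 (by omega)
  have hdiv := Nat.div_add_mod k m
  have hval : ∀ j, a + 1 + j * m ≤ k → sl σ m a (j + 1) = 1 → σ (a + 1 + j * m) = m := by
    intro j hj h1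
    have hd : m ∣ σ (a + 1 + j * m) := (ha _ (by omega) hj).2 (by
      have h0 : j * m ≡ 0 [MOD m] := (Nat.modEq_zero_iff_dvd.2 (Dvd.intro_left _ rfl))
      simpa using h0.add_left (a + 1))
    have h2 : σ (a + 1 + j * m) / m = 1 := by
      have h3 : sl σ m a (j + 1) = σ (a + 1 + j * m) / m := by
        show σ (a + 1 + (j + 1 - 1) * m) / m = _
        rw [Nat.add_sub_cancel]
      rw [h3] at h1
      exact h1
    have := Nat.div_mul_cancel hd
    rw [h2, Nat.one_mul] at this
    exact this.symm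
  rcases end_prop hK hτ with h1 | h1
  · left
    have h2 := hval 0 (by omega) h1
    have h3 := h.inj (x := a + 1 + 0 * m) (y := i) (by omega) (by omega) hi1 hik (by rw [h2, hσ])
    omega
  · right
    obtain ⟨j, hj⟩ : ∃ j, k / m = j + 1 := ⟨k / m - 1, by omega⟩
    rw [hj] at h1
    have hjm : m * (k / m) = j * m + m := by rw [hj]; ring
    have h2 := hval j (by omega) h1
    have h3 := h.inj (x := a + 1 + j * m) (y := i) (by omega) (by omega) hi1 hik (by rw [h2, hσ])
    omega

end R43WCS
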