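import Mathlib
import Pool.Agent.R43.WCSSearch

/-! Derivations of weakly consecutive sequences. -/

namespace R43WCS

/-- The starting sequences available for length `k`, numbered 1 to 5 (1 to 4 are the listed ones,
5 is the additional family `k = 2 p` with `p`, `p + 2`, `2 p + 1` prime). -/
inductive IsStart (k : ℕ) : ℕ → (ℕ → ℕ) → Prop
  | consecutive : IsStart k 1 (fun i => i)
  | inversion (h : (k + 1).Prime) : IsStart k 2 (fun i => if i = k then 1 else i + 1)
  | twice (p : ℕ) (hp : p.Prime) (hp2 : (p + 2).Prime) (hk : k = 2 * p ∨ k = 2 * p + 1) :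
      IsStart k 3 (fun i => Equiv.swap 2 (2 * p) (Equiv.swap p (p + 2) i))
  | germain (p : ℕ) (hp : p.Prime) (hp2 : (p + 2).Prime) (hp3 : (2 * p + 1).Prime)
      (hk : k + 1 = 2 * p) :
      IsStart k 4 (fun i => Equiv.swap p (p + 2)
        (if i = k then 1 else if i + 1 = k then 2 else i + 2))
  | fifth (p : ℕ) (hp : p.Prime) (hp2 : (p + 2).Prime) (hp3 : (2 * p + 1).Prime)
      (hk : k = 2 * p) :
      IsStart k 5 (fun i => Equiv.swap 2 (2 * p) (Equiv.swap p (p + 2)
        (if i = k then 1 else i + 1)))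

/-- `Deriv k t s l σ`: the sequence `σ` is obtained from the start `s` (number `t`) by the moves in
the list `l` (last move first); `some (a, b)` exchanges the entries `a` and `b`, `none` is the
reversal. -/
inductive Deriv (k t : ℕ) (s : ℕ → ℕ) : List (Option (ℕ × ℕ)) → (ℕ → ℕ) → Prop
  | start : Deriv k t s [] s
  | primePow {l : List (Option (ℕ × ℕ))} {σ : ℕ → ℕ} (p c : ℕ) (hd : Deriv k t s l σ)
      (hp : p.Prime) (hc : 1 ≤ c) (h1 : p ^ c ≤ k) (h2 : k < p ^ c + p ^ (c - 1)) :
      Deriv k t s (some (p ^ (c - 1), p ^ c) :: l)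
        (fun i => Equiv.swap (p ^ (c - 1)) (p ^ c) (σ i))
  | twin {l : List (Option (ℕ × ℕ))} {σ : ℕ → ℕ} (q : ℕ) (hd : Deriv k t s l σ) (ht : t = 4)
      (hq : q.Prime) (hq2 : (q + 2).Prime) (h1 : (k + 1) / 2 < q) (h2 : q + 2 ≤ k)
      (hpos : ∀ i, 1 ≤ i → i ≤ k → (s i = q → σ i = q) ∧ (s i = q + 2 → σ i = q + 2)) :
      Deriv k t s (some (q, q + 2) :: l) (fun i => Equiv.swap q (q + 2) (σ i))
  | reversal {l : List (Option (ℕ × ℕ))} {σ : ℕ → ℕ} (hd : Deriv k t s l σ) :
      Deriv k t s (none :: l) (fun i => σ (k + 1 - i))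

/-- the pairs of entries which may be exchanged -/
def Allowed (k t a b : ℕ) : Prop :=
  (∃ p c : ℕ, p.Prime ∧ 1 ≤ c ∧ a = p ^ (c - 1) ∧ b = p ^ c ∧ p ^ c ≤ k ∧
    k < p ^ c + p ^ (c - 1)) ∨
  (t = 4 ∧ a.Prime ∧ (a + 2).Prime ∧ b = a + 2 ∧ (k + 1) / 2 < a ∧ a + 2 ≤ k)

theorem mod3 {a : ℕ} (h1 : a.Prime) (h2 : (a + 2).Prime) (h3 : 3 < a) : a % 3 = 2 := by
  have h4 : ¬ 3 ∣ a := fun h => by
    have := (Nat.prime_dvd_prime_iff_eq Nat.prime_three h1).1 h
    omega
  have h5 : ¬ 3 ∣ a + 2 := fun h => by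
    have := (Nat.prime_dvd_prime_iff_eq Nat.prime_three h2).1 h
    omega
  omega

theorem Allowed.lt {k t a b : ℕ} (h : Allowed k t a b) : 1 ≤ a ∧ a < b ∧ b ≤ k := by
  rcases h with ⟨p, c, hp, hc, rfl, rfl, h1, h2⟩ | ⟨_, h1, h2, rfl, h3, h4⟩
  · refine ⟨Nat.one_le_pow _ _ hp.pos, ?_, h1⟩
    exact Nat.pow_lt_pow_right hp.one_lt (by omega)
  · have := h1.two_le
    omega

theorem pp_unique {k p q c d : ℕ} (hp : p.Prime) (hc : 1 ≤ c) (hd : 1 ≤ d)
    (h1 : p ^ c ≤ k) (h2 : k < p ^ c + p ^ (c - 1)) (h3 : q ^ d ≤ k)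
    (h4 : k < q ^ d + q ^ (d - 1)) (hpq : p = q) : c = d := by
  subst hpq
  have key : ∀ c d : ℕ, 1 ≤ c → p ^ c ≤ k → k < p ^ c + p ^ (c - 1) → p ^ d ≤ k → d ≤ c := by
    intro c d hc h1 h2 h3
    by_contra hlt
    have h5 : p ^ (c + 1) ≤ p ^ d := Nat.pow_le_pow_right hp.pos (by omega)
    have h6 : p ^ (c + 1) = p ^ c * p := pow_succ p c
    have h7 : p ^ c * 2 ≤ p ^ c * p := Nat.mul_le_mul_left _ hp.two_le
    have h8 : p ^ (c - 1) ≤ p ^ c := Nat.pow_le_pow_right hp.pos (by omega)
    omega
  have e1 := key c d hc h1 h2 h3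
  have e2 := key d c hd h3 h4 h1
  omega

/-- two allowed pairs with a common entry are equal -/
theorem Allowed.disj {k t a b a' b' e : ℕ} {s : ℕ → ℕ} (hs : IsStart k t s)
    (h : Allowed k t a b) (h' : Allowed k t a' b') (he : e = a ∨ e = b) (he' : e = a' ∨ e = b') :
    a = a' ∧ b = b' := by
  -- info for t = 4
  have h4 : t = 4 → ∃ p : ℕ, 3 ≤ p ∧ p.Prime ∧ (p + 2).Prime ∧ (2 * p + 1).Prime ∧
      k + 1 = 2 * p := by
    intro ht
    cases hs with
    | consecutive => omega
    | inversion => omega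
    | twice => omega
    | germain p hp hp2 hp3 hk =>
      refine ⟨p, ?_, hp, hp2, hp3, hk⟩
      by_contra hlt
      have := hp.two_le
      have : p = 2 := by omega
      subst this
      exact absurd hp2 (by decide)
    | fifth => omega
  have mixed : ∀ {p c q : ℕ}, p.Prime → 1 ≤ c → p ^ c ≤ k → k < p ^ c + p ^ (c - 1) → t = 4 →
      q.Prime → (q + 2).Prime → (k + 1) / 2 < q → q + 2 ≤ k →
      (e = p ^ (c - 1) ∨ e = p ^ c) → (e = q ∨ e = q + 2) → False := by
    intro p c q hp hc hk1 hk2 ht hq hq2 hq3 hq4 he1 he2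
    obtain ⟨P, hP3, hP, hP2, hP4, hkP⟩ := h4 ht
    have hep : e.Prime := by rcases he2 with rfl | rfl <;> assumption
    have heP : P < e := by omega
    by_cases hc1 : c = 1
    · subst hc1
      simp only [Nat.sub_self, pow_zero, pow_one] at *
      rcases he1 with rfl | rfl
      · exact absurd hep Nat.not_prime_one
      · have hek : e = k := by omega
        have hqk : q + 2 = k := by omega
        have hP3' : 3 < P := by
          by_contra hlt
          have : P = 3 := by omega
          subst this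
          omega
        have h5 := mod3 hP hP2 hP3'
        have h6 : 3 ∣ k := Nat.dvd_of_mod_eq_zero (by omega)
        have h7 := (Nat.prime_dvd_prime_iff_eq Nat.prime_three (hek ▸ hep)).1 h6
        omega
    · rcases he1 with he1 | he1
      · have hc2 : c = 2 := by
          by_contra hne
          rw [he1] at hep
          exact (Nat.Prime.not_prime_pow (by omega : 2 ≤ c - 1)) hep
        subst hc2
        simp only [Nat.add_one_sub_one, pow_one] at he1
        have h5 : p ^ 2 = p * p := by ring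
        have h6 : P * p ≤ p * p := Nat.mul_le_mul_right p (by omega)
        have h7 : P * 3 ≤ P * p := Nat.mul_le_mul_left P (by omega)
        omega
      · rw [he1] at hep
        exact (Nat.Prime.not_prime_pow (by omega : 2 ≤ c)) hep
  rcases h with ⟨p, c, hp, hc, rfl, rfl, h1, h2⟩ | ⟨ht, hq, hq2, rfl, h1, h2⟩ <;>
  rcases h' with ⟨p', c', hp', hc', rfl, rfl, h1', h2'⟩ | ⟨ht', hq', hq2', rfl, h1', h2'⟩
  · have hpp : p = p' := by
      by_cases hc1 : c = 1 ∧ c' = 1
      · obtain ⟨rfl, rfl⟩ := hc1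
        simp only [Nat.sub_self, pow_zero, pow_one] at *
        omega
      · have hdv : p ∣ e ∨ p' ∣ e := by
          by_cases h5 : c = 1
          · right
            rcases he' with rfl | rfl
            · exact dvd_pow_self p' (by omega)
            · exact dvd_pow_self p' (by omega)
          · left
            rcases he with rfl | rfl
            · exact dvd_pow_self p (by omega)
            · exact dvd_pow_self p (by omega)
        rcases hdv with hdv | hdv
        · rcases he' with rfl | rfl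
          · exact (Nat.prime_dvd_prime_iff_eq hp hp').1 (hp.dvd_of_dvd_pow hdv)
          · exact (Nat.prime_dvd_prime_iff_eq hp hp').1 (hp.dvd_of_dvd_pow hdv)
        · rcases he with rfl | rfl
          · exact ((Nat.prime_dvd_prime_iff_eq hp' hp).1 (hp'.dvd_of_dvd_pow hdv)).symm
          · exact ((Nat.prime_dvd_prime_iff_eq hp' hp).1 (hp'.dvd_of_dvd_pow hdv)).symm
    have hcc := pp_unique hp hc hc' h1 h2 h1' h2' hpp
    subst hpp hcc
    exact ⟨rfl, rfl⟩
  · exact (mixed hp hc h1 h2 ht' hq' hq2' h1' h2' he he').elim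
  · exact (mixed hp' hc' h1' h2' ht hq hq2 h1 h2 he' he).elim
  · obtain ⟨P, hP3, hP, hP2, hP4, hkP⟩ := h4 ht
    by_cases haa : a = a'
    · subst haa; exact ⟨rfl, rfl⟩
    · exfalso
      have h5 := mod3 hq hq2 (by omega)
      have h6 := mod3 hq' hq2' (by omega)
      omega

/-- composition of the exchanges in a list -/
def sw : List (ℕ × ℕ) → ℕ → ℕ
  | [], v => v
  | p :: L, v => Equiv.swap p.1 p.2 (sw L v)

theorem sw_inj (L : List (ℕ × ℕ)) : Function.Injective (sw L) := by
  induction L with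
  | nil => intro a b h; exact h
  | cons p L ih =>
    intro a b h
    exact ih ((Equiv.swap p.1 p.2).injective h)

theorem sw_fix (L : List (ℕ × ℕ)) {v : ℕ} (h : ∀ p ∈ L, v ≠ p.1 ∧ v ≠ p.2) : sw L v = v := by
  induction L with
  | nil => rfl
  | cons p L ih =>
    have h1 := ih (fun q hq => h q (by simp [hq]))
    have h2 := h p (by simp)
    show Equiv.swap p.1 p.2 (sw L v) = v
    rw [h1, Equiv.swap_apply_of_ne_of_ne h2.1 h2.2]

theorem sw_spec {k t : ℕ} {s : ℕ → ℕ} (hs : IsStart k t s) (L : List (ℕ × ℕ)) (hnd : L.Nodup)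
    (hL : ∀ p ∈ L, Allowed k t p.1 p.2) {p : ℕ × ℕ} (hp : p ∈ L) :
    sw L p.1 = p.2 ∧ sw L p.2 = p.1 := by
  induction L with
  | nil => simp at hp
  | cons q L ih =>
    rw [List.nodup_cons] at hnd
    have hall : ∀ r ∈ L, Allowed k t r.1 r.2 := fun r hr => hL r (by simp [hr])
    have hq := hL q (by simp)
    rw [List.mem_cons] at hp
    rcases hp with rfl | hp
    · have hdis : ∀ v, (v = p.1 ∨ v = p.2) → ∀ r ∈ L, v ≠ r.1 ∧ v ≠ r.2 := by
        intro v hv r hr
        constructor
        · intro e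
          have := Allowed.disj hs hq (hall r hr) hv (Or.inl e)
          have h2 : p = r := Prod.ext this.1 this.2
          exact hnd.1 (h2 ▸ hr)
        · intro e
          have := Allowed.disj hs hq (hall r hr) hv (Or.inr e)
          have h2 : p = r := Prod.ext this.1 this.2
          exact hnd.1 (h2 ▸ hr)
      constructor
      · show Equiv.swap p.1 p.2 (sw L p.1) = p.2
        rw [sw_fix L (hdis p.1 (Or.inl rfl)), Equiv.swap_apply_left]
      · show Equiv.swap p.1 p.2 (sw L p.2) = p.1
        rw [sw_fix L (hdis p.2 (Or.inr rfl)), Equiv.swap_apply_right]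
    · obtain ⟨h1, h2⟩ := ih hnd.2 hall hp
      have hpa := hall p hp
      have hne : q ≠ p := fun e => hnd.1 (e ▸ hp)
      have hdis : ∀ v, (v = p.1 ∨ v = p.2) → v ≠ q.1 ∧ v ≠ q.2 := by
        intro v hv
        constructor
        · intro e
          have := Allowed.disj hs hpa hq hv (Or.inl e)
          exact hne (Prod.ext this.1.symm this.2.symm)
        · intro e
          have := Allowed.disj hs hpa hq hv (Or.inr e)
          exact hne (Prod.ext this.1.symm this.2.symm)
      constructor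
      · show Equiv.swap q.1 q.2 (sw L p.1) = p.2
        rw [h1]
        have := hdis p.2 (Or.inr rfl)
        exact Equiv.swap_apply_of_ne_of_ne this.1 this.2
      · show Equiv.swap q.1 q.2 (sw L p.2) = p.1
        rw [h2]
        have := hdis p.1 (Or.inl rfl)
        exact Equiv.swap_apply_of_ne_of_ne this.1 this.2

theorem build {k t : ℕ} {s : ℕ → ℕ} (hs : IsStart k t s) (L : List (ℕ × ℕ)) (hnd : L.Nodup)
    (hL : ∀ p ∈ L, Allowed k t p.1 p.2) :
    Deriv k t s (L.map some) (fun i => sw L (s i)) := by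
  induction L with
  | nil => exact Deriv.start
  | cons q L ih =>
    rw [List.nodup_cons] at hnd
    have hall : ∀ r ∈ L, Allowed k t r.1 r.2 := fun r hr => hL r (by simp [hr])
    have hq := hL q (by simp)
    have hd := ih hnd.2 hall
    have hdis : ∀ v, (v = q.1 ∨ v = q.2) → ∀ r ∈ L, v ≠ r.1 ∧ v ≠ r.2 := by
      intro v hv r hr
      constructor
      · intro e
        have := Allowed.disj hs hq (hall r hr) hv (Or.inl e)
        have h2 : q = r := Prod.ext this.1 this.2
        exact hnd.1 (h2 ▸ hr)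
      · intro e
        have := Allowed.disj hs hq (hall r hr) hv (Or.inr e)
        have h2 : q = r := Prod.ext this.1 this.2
        exact hnd.1 (h2 ▸ hr)
    obtain ⟨a, b⟩ := q
    rcases hq with ⟨p, c, hp, hc, ha, hb, h1, h2⟩ | ⟨ht, hq1, hq2, hb, h1, h2⟩
    · simp only at ha hb
      subst ha hb
      exact Deriv.primePow p c hd hp hc h1 h2
    · simp only at hb
      subst hb
      refine Deriv.twin a hd ht hq1 hq2 h1 h2 ?_
      intro i _ _
      constructor
      · intro e
        show sw L (s i) = a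
        rw [e]
        exact sw_fix L (hdis a (Or.inl rfl))
      · intro e
        show sw L (s i) = a + 2
        rw [e]
        exact sw_fix L (hdis (a + 2) (Or.inr rfl))

end R43WCS
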