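import Mathlib
import Pool.Agent.R43.WCSDeriv

namespace R43WCS

variable {k : ℕ} {σ : ℕ → ℕ}

/-- numbers with the same small divisors as `2 q` -/
theorem twoq {w q y : ℕ} (hw : 12 ≤ w) (hq : q.Prime) (hwq : w ≤ q) (hy1 : 1 ≤ y)
    (hy : y ≤ 2 * w + 2) (hD : ∀ d, 0 < d → d < w → (d ∣ y ↔ d ∣ 2 * q)) :
    (y = 2 ∨ y = 2 * w ∨ y = 2 * w + 2) ∧ ¬ 4 ∣ y := by
  have hodd : ¬ 2 ∣ q := fun h => by
    have := (Nat.prime_dvd_prime_iff_eq Nat.prime_two hq).1 h
    omega
  have h4 : ¬ 4 ∣ y := by
    intro h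
    have h1 := (hD 4 (by omega) (by omega)).1 h
    obtain ⟨t, ht⟩ := h1
    exact hodd ⟨t, by omega⟩
  refine ⟨?_, h4⟩
  obtain ⟨z, hz⟩ := (hD 2 (by omega) (by omega)).2 (Dvd.intro _ rfl)
  rcases Nat.lt_or_ge z w with h1 | h1
  · left
    have h2 : z ∣ 2 * q := (hD z (by omega) h1).1 ⟨2, by omega⟩
    have hcop : Nat.Coprime z q :=
      (Nat.coprime_of_lt_prime (by omega) (by omega) hq).symm
    have h3 : z ∣ 2 := hcop.dvd_of_dvd_mul_right h2
    have h5 := Nat.le_of_dvd (by norm_num) h3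
    have h6 : z ≠ 2 := by
      rintro rfl
      exact h4 ⟨1, by omega⟩
    omega
  · right; omega

/-- numbers without small divisors -/
theorem rough_cases {w y : ℕ} (hw : 12 ≤ w) (hy1 : 1 ≤ y) (hy : y ≤ 2 * w + 3)
    (hD : ∀ d, 1 < d → d < w → ¬ d ∣ y) : y = 1 ∨ (y.Prime ∧ w ≤ y) := by
  by_cases h1 : y = 1
  · exact Or.inl h1
  right
  have hyp : y.Prime := by
    by_contra hnp
    have h2 := Nat.minFac_sq_le_self (by omega) hnp
    have h3 := (Nat.minFac_prime h1).two_le
    set q := y.minFac with hq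
    have h4 : q ^ 2 = q * q := by ring
    rcases Nat.lt_or_ge q w with h5 | h5
    · exact hD q (by omega) h5 (Nat.minFac_dvd y)
    · have : w * w ≤ q * q := Nat.mul_le_mul h5 h5
      have : 12 * w ≤ w * w := Nat.mul_le_mul_right w hw
      omega
  refine ⟨hyp, ?_⟩
  by_contra hlt
  exact hD y (by have := hyp.two_le; omega) (by omega) (dvd_refl y)

theorem prime_rough {w v : ℕ} (hv : v.Prime) (hwv : w ≤ v) : ∀ d, 1 < d → d < w → ¬ d ∣ v := by
  intro d h1 h2 h3
  rcases (Nat.dvd_prime hv).1 h3 with h | h <;> omega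

theorem not_prime_pow_two_mul {w p e : ℕ} (hw : w.Prime) (h12 : 12 ≤ w) (hp : p.Prime)
    (h : p ^ e = 2 * w) : False := by
  have h1 : w ∣ p ^ e := ⟨2, by rw [h]; ring⟩
  have h2 : 2 ∣ p ^ e := ⟨w, h⟩
  have h3 := (Nat.prime_dvd_prime_iff_eq hw hp).1 (hw.dvd_of_dvd_pow h1)
  have h4 := (Nat.prime_dvd_prime_iff_eq Nat.prime_two hp).1 (Nat.prime_two.dvd_of_dvd_pow h2)
  omega

/-- two numbers `u < v` with the same small divisors -/
theorem lemA {w k u v : ℕ} (hw : 12 ≤ w) (hk : k ≤ 2 * w + 1) (hu : 1 ≤ u) (huv : u < v)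
    (hv : v ≤ k) (hD : ∀ d, 0 < d → d < w → (d ∣ u ↔ d ∣ v))
    (hW : w.Prime ∨ (w ∣ u ↔ w ∣ v)) :
    (v.Prime ∧ w ≤ v ∧ (u = 1 ∨ (u.Prime ∧ w ≤ u))) ∨
    (∃ p e, p.Prime ∧ 2 ≤ e ∧ v = p ^ e ∧ u = p ^ (e - 1)) ∨
    (w.Prime ∧ v = 2 * w ∧ u = 2) := by
  by_cases hvp : v.Prime
  · left
    have hwv : w ≤ v := by
      by_contra hlt
      have := (hD v (by omega) (by omega)).2 (dvd_refl v)
      have := Nat.le_of_dvd (by omega) this
      omega
    refine ⟨hvp, hwv, ?_⟩
    refine rough_cases hw hu (by omega) ?_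
    intro d h1 h2 h3
    exact prime_rough hvp hwv d h1 h2 ((hD d (by omega) h2).1 h3)
  right
  have hv1 : v ≠ 1 := by omega
  set p := v.minFac with hp
  have hpp : p.Prime := Nat.minFac_prime hv1
  have hp2 := hpp.two_le
  set e := v.factorization p with he
  have hprod : p ^ e * (v / p ^ e) = v := Nat.ordProj_mul_ordCompl_eq_self v p
  have hcop : Nat.Coprime p (v / p ^ e) := Nat.coprime_ordCompl hpp (by omega)
  have he1 : 0 < e := hpp.factorization_pos_of_dvd (by omega) (Nat.minFac_dvd v)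
  by_cases hb : v / p ^ e = 1
  · left
    rw [hb, Nat.mul_one] at hprod
    have he2 : 2 ≤ e := by
      by_contra hlt
      have : e = 1 := by omega
      rw [this, pow_one] at hprod
      exact hvp (hprod ▸ hpp)
    obtain ⟨f, hf⟩ : ∃ f, e = f + 1 := ⟨e - 1, by omega⟩
    have hvf : v = p ^ f * p := by rw [← hprod, hf, pow_succ]
    have hpf : p ^ f * 2 ≤ p ^ f * p := Nat.mul_le_mul_left _ hp2
    have hpf0 : 0 < p ^ f := pow_pos hpp.pos f
    have hppf : p ≤ p ^ f := by
      calc p = p ^ 1 := (pow_one p).symm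
        _ ≤ p ^ f := Nat.pow_le_pow_right hpp.pos (by omega)
    have hdu : p ^ f ∣ u := by
      rcases Nat.lt_or_ge (p ^ f) w with h1 | h1
      · exact (hD _ hpf0 h1).2 ⟨p, hvf⟩
      · have h2 : p ^ f = w := by omega
        have hnw : ¬ w.Prime := by
          intro hwp
          by_cases hf1 : f = 1
          · rw [hf1, pow_one] at h2
            rw [hf1, pow_one, h2] at hvf
            have : 12 * w ≤ w * w := Nat.mul_le_mul_right w hw
            omega
          · rw [← h2] at hwp
            exact (Nat.Prime.not_prime_pow (by omega : 2 ≤ f)) hwp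
        rcases hW with h3 | h3
        · exact absurd h3 hnw
        · rw [h2]
          refine h3.2 ⟨p, ?_⟩
          rw [hvf, h2]
    obtain ⟨j, hj⟩ := hdu
    have hjp : j < p := by
      by_contra hlt
      have : p ^ f * p ≤ p ^ f * j := Nat.mul_le_mul_left _ (by omega)
      omega
    have hj0 : 0 < j := by
      rcases Nat.eq_zero_or_pos j with h0 | h0
      · rw [h0] at hj; omega
      · exact h0
    have hjv : j ∣ v := (hD j hj0 (by omega)).1 ⟨p ^ f, by rw [hj]; ring⟩
    have hcj : Nat.Coprime j (p ^ e) :=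
      (Nat.coprime_of_lt_prime (by omega) hjp hpp).symm.pow_right e
    rw [← hprod] at hjv
    have hj1 : j = 1 := Nat.Coprime.eq_one_of_dvd hcj hjv
    refine ⟨p, e, hpp, he2, hprod.symm, ?_⟩
    rw [hj, hj1, hf, Nat.add_sub_cancel, Nat.mul_one]
  · right
    set b := v / p ^ e with hbdef
    set a := p ^ e with hadef
    have hb0 : 0 < b := by
      rcases Nat.eq_zero_or_pos b with h0 | h0
      · rw [h0] at hprod; omega
      · exact h0
    have ha2 : 2 ≤ a := by
      calc 2 ≤ p := hp2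
        _ = p ^ 1 := (pow_one p).symm
        _ ≤ p ^ e := Nat.pow_le_pow_right hpp.pos he1
    have hab : Nat.Coprime a b := hcop.pow_left e
    have h1 : a * 2 ≤ a * b := Nat.mul_le_mul_left a (by omega)
    have h2 : 2 * b ≤ a * b := Nat.mul_le_mul_right b ha2
    have hcase : (a < w ∧ b < w) ∨ (v = 2 * w ∧ Nat.Coprime 2 w) := by
      rcases Nat.lt_or_ge a w with h3 | h3
      · rcases Nat.lt_or_ge b w with h4 | h4
        · exact Or.inl ⟨h3, h4⟩
        · right
          have hbw : b = w := by omega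
          have ha : a = 2 := by
            by_contra hne
            have : 3 * w ≤ a * w := Nat.mul_le_mul_right w (by omega)
            rw [hbw] at hprod
            omega
          rw [ha, hbw] at hprod hab
          exact ⟨hprod.symm, hab⟩
      · right
        have haw : a = w := by omega
        have hb2 : b = 2 := by
          by_contra hne
          have : w * 3 ≤ w * b := Nat.mul_le_mul_left w (by omega)
          rw [haw] at hprod
          omega
        rw [haw, hb2] at hprod hab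
        exact ⟨by omega, hab.symm⟩
    rcases hcase with ⟨h3, h4⟩ | ⟨h3, h4⟩
    · exfalso
      have h5 : a ∣ u := (hD a (by omega) h3).2 ⟨b, hprod.symm⟩
      have h6 : b ∣ u := (hD b hb0 h4).2 ⟨a, by rw [← hprod]; ring⟩
      have h7 := hab.mul_dvd_of_dvd_of_dvd h5 h6
      rw [hprod] at h7
      have := Nat.le_of_dvd (by omega) h7
      omega
    · by_cases hwp : w.Prime
      · refine ⟨hwp, h3, ?_⟩
        have h5 := twoq hw hwp le_rfl hu (by omega) (fun d hd0 hdw => by rw [hD d hd0 hdw, h3])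
        omega
      · exfalso
        rcases hW with h5 | h5
        · exact hwp h5
        · have h6 : w ∣ u := h5.2 ⟨2, by omega⟩
          have h7 : 2 ∣ u := (hD 2 (by omega) (by omega)).2 ⟨w, h3⟩
          have h8 := h4.mul_dvd_of_dvd_of_dvd h7 h6
          have := Nat.le_of_dvd (by omega) h8
          omega

/-- a value larger than `k / 2` -/
theorem big_val (h : IsWCS k σ) {x : ℕ} (hx1 : 1 ≤ x) (hxk : x ≤ k) (hv : k < 2 * σ x) :
    x ≤ σ x ∧ k + 1 ≤ x + σ x := by
  have hm := h.maps hx1 hxk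
  have key : ∀ y, 1 ≤ y → y ≤ k → x ≡ y [MOD σ x] → x = y := by
    intro y hy1 hyk hxy
    obtain ⟨t, ht⟩ := h.step hx1 hxk hy1 hyk (by omega) (dvd_refl _) hxy
    have hmy := h.maps hy1 hyk
    have ht1 : t = 1 := by
      have h1 : t < 2 := by
        by_contra hlt
        have : σ x * 2 ≤ σ x * t := Nat.mul_le_mul_left _ (by omega)
        omega
      have h2 : t ≠ 0 := by
        rintro rfl
        omega
      omega
    rw [ht1, Nat.mul_one] at ht
    exact h.inj hx1 hxk hy1 hyk ht.symm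
  constructor
  · by_contra hlt
    have h1 : x - σ x + σ x = x := by omega
    have h2 : x ≡ x - σ x [MOD σ x] := by
      have h3 : (x - σ x) + σ x ≡ x - σ x [MOD σ x] := Nat.add_mod_right _ _
      rwa [h1] at h3
    have := key (x - σ x) (by omega) (by omega) h2
    omega
  · by_contra hlt
    have h2 : x ≡ x + σ x [MOD σ x] := by
      unfold Nat.ModEq
      exact (Nat.add_mod_right _ _).symm
    have := key (x + σ x) (by omega) (by omega) h2
    omega

/-- the positions of the multiples of `w = k / 2` -/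
theorem w_pos (h : IsWCS k σ) {w : ℕ} (hw : 12 ≤ w) (hk : k = 2 * w ∨ k = 2 * w + 1) :
    ∃ a, a < w ∧ a + 1 + w ≤ k ∧ (∀ x, 1 ≤ x → x ≤ k → (w ∣ σ x ↔ x ≡ a + 1 [MOD w])) ∧
      ((σ (a + 1) = w ∧ σ (a + 1 + w) = 2 * w) ∨ (σ (a + 1) = 2 * w ∧ σ (a + 1 + w) = w)) := by
  obtain ⟨a, hka, haw, ha⟩ := cls h (by omega : 0 < w) (by omega : w ≤ k)
  have h1 : w ∣ σ (a + 1) := (ha _ (by omega) (by omega)).2 rfl
  have h2 : w ∣ σ (a + 1 + w) := (ha _ (by omega) (by omega)).2 (by
    unfold Nat.ModEq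
    exact Nat.add_mod_right _ _)
  have hval : ∀ x, 1 ≤ x → x ≤ k → w ∣ σ x → σ x = w ∨ σ x = 2 * w := by
    intro x hx1 hxk hd
    obtain ⟨t, ht⟩ := hd
    have hm := h.maps hx1 hxk
    have h3 : t < 3 := by
      by_contra hlt
      have : w * 3 ≤ w * t := Nat.mul_le_mul_left _ (by omega)
      omega
    interval_cases t <;> omega
  refine ⟨a, haw, by omega, ha, ?_⟩
  have h3 := hval _ (by omega) (by omega) h1
  have h4 := hval _ (by omega) (by omega) h2
  have h5 : σ (a + 1) ≠ σ (a + 1 + w) := by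
    intro e
    have := h.inj (by omega) (by omega) (by omega) (by omega) e
    omega
  omega

/-- alignment of `w = k / 2` for composite `w` -/
theorem al_w_comp (h : IsWCS k σ) {w c : ℕ} (hw : 12 ≤ w) (hk : k = 2 * w ∨ k = 2 * w + 1)
    (hc : c ≤ 2) (hal : ∀ m, 0 < m → m < w → Al k σ m c) (hnp : ¬ w.Prime) : Al k σ w c := by
  have hw1 : w ≠ 1 := by omega
  set p := w.minFac with hp
  have hpp : p.Prime := Nat.minFac_prime hw1
  have hp2 := hpp.two_le
  set e := w.factorization p with he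
  have hprod : p ^ e * (w / p ^ e) = w := Nat.ordProj_mul_ordCompl_eq_self w p
  have hcop : Nat.Coprime p (w / p ^ e) := Nat.coprime_ordCompl hpp (by omega)
  have he1 : 0 < e := hpp.factorization_pos_of_dvd (by omega) (Nat.minFac_dvd w)
  by_cases hb : w / p ^ e = 1
  · rw [hb, Nat.mul_one] at hprod
    have he2 : 2 ≤ e := by
      by_contra hlt
      have : e = 1 := by omega
      rw [this, pow_one] at hprod
      exact hnp (hprod ▸ hpp)
    obtain ⟨f, hf⟩ : ∃ f, e = f + 2 := ⟨e - 2, by omega⟩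
    set b := p ^ (f + 1) with hbdef
    have hwb : w = p * b := by
      rw [← hprod, hf, hbdef]; ring
    have hb0 : 0 < b := pow_pos hpp.pos _
    have hpb : p ≤ b := by
      calc p = p ^ 1 := (pow_one p).symm
        _ ≤ p ^ (f + 1) := Nat.pow_le_pow_right hpp.pos (by omega)
    have hbw : b < w := by
      have : 2 * b ≤ p * b := Nat.mul_le_mul_right b hp2
      omega
    obtain ⟨a, haw, hak, ha, hval⟩ := w_pos h hw hk
    by_cases hmn : w ∣ a + 1 + c
    · exact al_of_dvd ha hmn
    exfalso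
    have hs0 : w ∣ σ (a + 1) := (ha _ (by omega) (by omega)).2 rfl
    have hbn0 : b ∣ a + 1 + c :=
      (hal b hb0 hbw (a + 1) (by omega) (by omega)).1 ((Dvd.intro_left p hwb.symm).trans hs0)
    obtain ⟨u, hu⟩ := hbn0
    have hpu : ¬ p ∣ u := by
      rintro ⟨z, rfl⟩
      apply hmn
      exact ⟨z, by rw [hu, hwb]; ring⟩
    have hu0 : 0 < u := by
      rcases Nat.eq_zero_or_pos u with h0 | h0
      · rw [h0] at hu; omega
      · exact h0
    have hn1 : a + 1 + w + c = b * (u + p) := by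
      rw [Nat.mul_add, ← hu]
      have : b * p = w := by rw [hwb]; ring
      omega
    have hcop1 : Nat.Coprime (u + p) p := by
      have h5 : Nat.Coprime p u := (Nat.Prime.coprime_iff_not_dvd hpp).2 hpu
      simpa using h5.symm
    have hsize : u + p < w := by
      by_contra hge
      have h5 : b * w ≤ b * (u + p) := Nat.mul_le_mul_left b (by omega)
      have h8 : b ≤ 2 := by
        by_contra hb3
        have : 3 * w ≤ b * w := Nat.mul_le_mul_right w (by omega)
        omega
      have h9 : p * b ≤ 2 * 2 := Nat.mul_le_mul (by omega) h8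
      omega
    have h3 := (hal (u + p) (by omega) hsize (a + 1 + w) (by omega) hak).2 (by
      rw [hn1]; exact Dvd.intro_left b rfl)
    have h4 : Nat.Coprime (u + p) w := by
      rw [← hprod]
      exact hcop1.pow_right e
    have h5 : u + p ∣ 2 := by
      rcases hval with ⟨_, h6⟩ | ⟨_, h6⟩
      · rw [h6] at h3
        exact h4.dvd_of_dvd_mul_right h3
      · rw [h6] at h3
        have := Nat.Coprime.eq_one_of_dvd h4 h3
        omega
    have := Nat.le_of_dvd (by norm_num) h5
    omega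
  · have hbpos : 0 < w / p ^ e := by
      rcases Nat.eq_zero_or_pos (w / p ^ e) with h0 | h0
      · rw [h0] at hprod; omega
      · exact h0
    have hpe : 2 ≤ p ^ e := by
      calc 2 ≤ p := hpp.two_le
        _ = p ^ 1 := (pow_one p).symm
        _ ≤ p ^ e := Nat.pow_le_pow_right hpp.pos he1
    have hlt1 : p ^ e < w := by
      have : p ^ e * 2 ≤ p ^ e * (w / p ^ e) := Nat.mul_le_mul_left _ (by omega)
      omega
    have hlt2 : w / p ^ e < w := Nat.div_lt_self (by omega) hpe
    have := al_mul (hcop.pow_left e) (hal (p ^ e) (by omega) hlt1) (hal (w / p ^ e) hbpos hlt2)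
    rwa [hprod] at this

/-- alignment of `w = k / 2` or the exceptional situation -/
theorem al_w (h : IsWCS k σ) {w c : ℕ} (hw : 12 ≤ w) (hk : k = 2 * w ∨ k = 2 * w + 1)
    (hc : c ≤ 2) (hal : ∀ m, 0 < m → m < w → Al k σ m c) :
    Al k σ w c ∨ (c ≤ 1 ∧ w.Prime ∧ (w + 2).Prime ∧ σ (2 - c) = 2 * w ∧ σ (w + 2 - c) = w) := by
  by_cases hwp : w.Prime
  swap
  · exact Or.inl (al_w_comp h hw hk hc hal hwp)
  obtain ⟨a, haw, hak, ha, hval⟩ := w_pos h hw hk
  rcases hval with ⟨h1, h2⟩ | ⟨h1, h2⟩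
  · left
    have h3 := twoq (y := a + 1 + w + c) hw hwp le_rfl (by omega) (by omega)
      (fun d hd0 hdw => by rw [← hal d hd0 hdw _ (by omega) hak, h2])
    have hodd : w % 2 = 1 := by
      rcases hwp.eq_two_or_odd with h4 | h4
      · omega
      · exact h4
    have h4 : a + 1 + w + c ≠ 2 * w + 2 := by
      intro e
      exact h3.2 (Nat.dvd_of_mod_eq_zero (by omega))
    apply al_of_dvd ha
    exact ⟨1, by omega⟩
  · right
    have h3 := twoq (y := a + 1 + c) hw hwp le_rfl (by omega) (by omega)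
      (fun d hd0 hdw => by rw [← hal d hd0 hdw _ (by omega) (by omega), h1])
    have h4 : a + 1 + c = 2 := by omega
    have h5 := rough_cases (y := a + 1 + w + c) hw (by omega) (by omega) (by
      intro d h5 h6 h7
      have := (hal d (by omega) h6 _ (by omega) hak).2 h7
      rw [h2] at this
      exact prime_rough hwp le_rfl d h5 h6 this)
    have h6 : a + 1 + w + c = w + 2 := by omega
    rw [h6] at h5
    refine ⟨by omega, hwp, ?_, ?_, ?_⟩
    · rcases h5 with h5 | h5
      · omega
      · exact h5.1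
    · rw [show 2 - c = a + 1 by omega]; exact h1
    · rw [show w + 2 - c = a + 1 + w by omega]; exact h2

end R43WCS
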