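import Mathlib
import Pool.Agent.R43.WCSArith

namespace R43WCS

/-- the situation of an almost aligned sequence -/
structure Ctx (k w c : ℕ) (σ : ℕ → ℕ) : Prop where
  h : IsWCS k σ
  hw : 12 ≤ w
  hk : k = 2 * w ∨ k = 2 * w + 1
  hc : c ≤ 2
  hal : ∀ m, 0 < m → m < w → Al k σ m c
  hWal : w.Prime ∨ Al k σ w c
  htail : ∀ y, 1 ≤ y → y ≤ k → k < y + c → σ y ≤ 2

variable {k w c : ℕ} {σ : ℕ → ℕ}

theorem Ctx.sd (C : Ctx k w c σ) {x : ℕ} (hx1 : 1 ≤ x) (hxk : x ≤ k) :
    ∀ d, 0 < d → d < w → (d ∣ σ x ↔ d ∣ x + c) := fun d h0 h1 => C.hal d h0 h1 x hx1 hxk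

theorem Ctx.sW (C : Ctx k w c σ) {x : ℕ} (hx1 : 1 ≤ x) (hxk : x ≤ k) :
    w.Prime ∨ (w ∣ σ x ↔ w ∣ x + c) := by
  rcases C.hWal with h | h
  · exact Or.inl h
  · exact Or.inr (h x hx1 hxk)

theorem Ctx.ppcase (C : Ctx k w c σ) {x p e : ℕ} (hx1 : 1 ≤ x) (hxk : x + c ≤ k)
    (hp : p.Prime) (he : 2 ≤ e)
    (hcase : (x + c = p ^ e ∧ σ x = p ^ (e - 1)) ∨ (x + c = p ^ (e - 1) ∧ σ x = p ^ e)) :
    p ^ e ≤ k ∧ k < p ^ e + p ^ (e - 1) := by
  have h := C.h
  have hw := C.hw
  have hk := C.hk
  have hc := C.hc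
  have hm := h.maps (x := x) hx1 (by omega)
  have hp2 := hp.two_le
  have hVU : p ^ e = p * p ^ (e - 1) := by
    conv_lhs => rw [show e = (e - 1) + 1 by omega]
    rw [pow_succ]; ring
  have hU0 : 0 < p ^ (e - 1) := pow_pos hp.pos _
  have h2U : 2 * p ^ (e - 1) ≤ p ^ e := by
    rw [hVU]; exact Nat.mul_le_mul_right _ hp2
  have hpU : p ≤ p ^ (e - 1) := by
    calc p = p ^ 1 := (pow_one p).symm
      _ ≤ p ^ (e - 1) := Nat.pow_le_pow_right hp.pos (by omega)
  have hVnp : ¬ (p ^ e).Prime := Nat.Prime.not_prime_pow he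
  have hVk : p ^ e ≤ k := by rcases hcase with ⟨h1, h2⟩ | ⟨h1, h2⟩ <;> omega
  refine ⟨hVk, ?_⟩
  -- V > w
  have hVw : w < p ^ e := by
    by_contra hle
    have hdv : p ^ e ∣ σ x ↔ p ^ e ∣ x + c := by
      rcases Nat.lt_or_ge (p ^ e) w with h1 | h1
      · exact C.sd hx1 (by omega) _ (by omega) h1
      · have h2 : p ^ e = w := by omega
        rcases C.sW hx1 (by omega : x ≤ k) with h3 | h3
        · rw [← h2] at h3; exact absurd h3 hVnp
        · rw [h2]; exact h3
    rcases hcase with ⟨h1, h2⟩ | ⟨h1, h2⟩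
    · have := hdv.2 (by rw [h1])
      rw [h2] at this
      have := Nat.le_of_dvd hU0 this
      omega
    · have := hdv.1 (by rw [h2])
      rw [h1] at this
      have := Nat.le_of_dvd hU0 this
      omega
  rcases hcase with ⟨h1, h2⟩ | ⟨h1, h2⟩
  · obtain ⟨y, hy1, hyk, hy⟩ := h.surj (v := p ^ e) (by omega) hVk
    have hbv := big_val h hy1 hyk (by omega)
    rw [hy] at hbv
    have hxy : y ≠ x := by
      rintro rfl
      omega
    rcases Nat.lt_or_ge k (y + c) with h3 | h3
    · have := C.htail y hy1 hyk h3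
      omega
    have hq : ∀ q f, q.Prime → 2 ≤ f → p ^ e = q ^ f → q = p := by
      intro q f hq hf heq
      have h4 : q ∣ p ^ e := by rw [heq]; exact dvd_pow_self q (by omega)
      exact (Nat.prime_dvd_prime_iff_eq hq hp).1 (hq.dvd_of_dvd_pow h4)
    rcases Nat.lt_trichotomy (y + c) (p ^ e) with h4 | h4 | h4
    · rcases lemA (k := k) hw (by omega) (by omega) h4 hVk
        (fun d hd0 hdw => by rw [← C.sd hy1 hyk d hd0 hdw, hy])
        (by
          rcases C.sW hy1 hyk with h5 | h5
          · exact Or.inl h5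
          · right; rw [← h5, hy]) with h5 | ⟨q, f, hqp, hf, h6, h7⟩ | ⟨h5, h6, h7⟩
      · exact absurd h5.1 hVnp
      · have hqeq := hq q f hqp hf h6
        subst hqeq
        have hef : e = f := Nat.pow_right_injective hqp.two_le h6
        subst hef
        omega
      · exact (not_prime_pow_two_mul h5 hw hp h6).elim
    · omega
    · rcases lemA (k := k) (u := p ^ e) (v := y + c) hw (by omega) (by omega) h4 h3
        (fun d hd0 hdw => by rw [← C.sd hy1 hyk d hd0 hdw, hy])
        (by
          rcases C.sW hy1 hyk with h5 | h5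
          · exact Or.inl h5
          · right; rw [← h5, hy]) with h5 | ⟨q, f, hqp, hf, h6, h7⟩ | ⟨h5, h6, h7⟩
      · rcases h5.2.2 with h6 | h6
        · omega
        · exact absurd h6.1 hVnp
      · have h8 : q ^ f = q * q ^ (f - 1) := by
          conv_lhs => rw [show f = (f - 1) + 1 by omega]
          rw [pow_succ]; ring
        have h9 : 2 * q ^ (f - 1) ≤ q * q ^ (f - 1) := Nat.mul_le_mul_right _ hqp.two_le
        omega
      · omega
  · have hbv := big_val h hx1 (by omega) (by omega)
    omega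

/-- values and shifted positions compared -/
theorem Ctx.cases (C : Ctx k w c σ) {x : ℕ} (hx1 : 1 ≤ x) (hxk : x + c ≤ k) :
    σ x = x + c ∨
    ((σ x = 1 ∨ (σ x).Prime ∧ w ≤ σ x) ∧ (x + c = 1 ∨ (x + c).Prime ∧ w ≤ x + c)) ∨
    (∃ p e, p.Prime ∧ 2 ≤ e ∧ p ^ e ≤ k ∧ k < p ^ e + p ^ (e - 1) ∧
      ((x + c = p ^ e ∧ σ x = p ^ (e - 1)) ∨ (x + c = p ^ (e - 1) ∧ σ x = p ^ e))) ∨
    (w.Prime ∧ ((x + c = 2 * w ∧ σ x = 2) ∨ (x + c = 2 ∧ σ x = 2 * w))) := by
  have h := C.h
  have hw := C.hw
  have hk := C.hk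
  have hm := h.maps (x := x) hx1 (by omega)
  rcases Nat.lt_trichotomy (σ x) (x + c) with h1 | h1 | h1
  · right
    rcases lemA (k := k) hw (by omega) hm.1 h1 hxk
      (fun d hd0 hdw => C.sd hx1 (by omega) d hd0 hdw) (C.sW hx1 (by omega)) with
      h5 | ⟨q, f, hqp, hf, h6, h7⟩ | ⟨h5, h6, h7⟩
    · exact Or.inl ⟨h5.2.2, Or.inr ⟨h5.1, h5.2.1⟩⟩
    · right; left
      have := C.ppcase hx1 hxk hqp hf (Or.inl ⟨h6, h7⟩)
      exact ⟨q, f, hqp, hf, this.1, this.2, Or.inl ⟨h6, h7⟩⟩
    · right; right
      exact ⟨h5, Or.inl ⟨h6, h7⟩⟩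
  · exact Or.inl h1
  · right
    rcases lemA (k := k) hw (by omega) (by omega) h1 hm.2
      (fun d hd0 hdw => (C.sd hx1 (by omega) d hd0 hdw).symm) (by
        rcases C.sW hx1 (by omega : x ≤ k) with h5 | h5
        · exact Or.inl h5
        · exact Or.inr h5.symm) with
      h5 | ⟨q, f, hqp, hf, h6, h7⟩ | ⟨h5, h6, h7⟩
    · exact Or.inl ⟨Or.inr ⟨h5.1, h5.2.1⟩, h5.2.2⟩
    · right; left
      have := C.ppcase hx1 hxk hqp hf (Or.inr ⟨h7, h6⟩)
      exact ⟨q, f, hqp, hf, this.1, this.2, Or.inr ⟨h7, h6⟩⟩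
    · right; right
      exact ⟨h5, Or.inr ⟨h7, h6⟩⟩

/-- `σ` differs from `s` by allowed exchanges -/
def Close (k t : ℕ) (s σ : ℕ → ℕ) : Prop :=
  ∀ x, 1 ≤ x → x ≤ k → σ x = s x ∨
    ∃ a b, Allowed k t a b ∧ ((s x = a ∧ σ x = b) ∨ (s x = b ∧ σ x = a))

theorem Ctx.close (C : Ctx k w c σ) {t : ℕ} {s : ℕ → ℕ} (Exc : ℕ → Prop)
    (hs1 : ∀ x, 1 ≤ x → x + c ≤ k → ¬ Exc (x + c) → s x = x + c)
    (hs2 : ∀ x, 1 ≤ x → x ≤ k → (k < x + c ∨ Exc (x + c)) → σ x = s x)
    (hI : ∀ x, 1 ≤ x → x + c ≤ k → ¬ Exc (x + c) → (σ x = 1 ∨ (σ x).Prime ∧ w ≤ σ x) →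
      (x + c = 1 ∨ (x + c).Prime ∧ w ≤ x + c) → σ x ≠ x + c →
      ∃ a b, Allowed k t a b ∧ ((x + c = a ∧ σ x = b) ∨ (x + c = b ∧ σ x = a)))
    (hIII : Al k σ w c ∨ (Exc 2 ∧ Exc (2 * w))) : Close k t s σ := by
  intro x hx1 hxk
  have hw := C.hw
  rcases Nat.lt_or_ge k (x + c) with h1 | h1
  · exact Or.inl (hs2 x hx1 hxk (Or.inl h1))
  by_cases hE : Exc (x + c)
  · exact Or.inl (hs2 x hx1 hxk (Or.inr hE))
  have hsx := hs1 x hx1 h1 hE
  rw [hsx]
  rcases C.cases hx1 h1 with h2 | ⟨h2, h3⟩ | ⟨p, e, hp, he, h4, h5, h6⟩ | ⟨h2, h3⟩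
  · exact Or.inl h2
  · by_cases h4 : σ x = x + c
    · exact Or.inl h4
    · exact Or.inr (hI x hx1 h1 hE h2 h3 h4)
  · right
    refine ⟨p ^ (e - 1), p ^ e, Or.inl ⟨p, e, hp, by omega, rfl, rfl, h4, h5⟩, ?_⟩
    exact h6.symm
  · exfalso
    rcases hIII with h4 | ⟨h4, h5⟩
    · have h5 := h4 x hx1 hxk
      rcases h3 with ⟨h6, h7⟩ | ⟨h6, h7⟩
      · have := h5.2 (by rw [h6]; exact Dvd.intro_left 2 rfl)
        rw [h7] at this
        have := Nat.le_of_dvd (by norm_num) this
        omega
      · have := h5.1 (by rw [h7]; exact Dvd.intro_left 2 rfl)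
        rw [h6] at this
        have := Nat.le_of_dvd (by norm_num) this
        omega
    · rcases h3 with ⟨h6, h7⟩ | ⟨h6, h7⟩
      · rw [h6] at hE; exact hE h5
      · rw [h6] at hE; exact hE h4

/-- positions of rough values are rough -/
theorem Ctx.pos_rough (C : Ctx k w c σ) {x : ℕ} (hx1 : 1 ≤ x) (hxk : x ≤ k)
    (hv : (σ x).Prime) (hwv : w ≤ σ x) : x + c = 1 ∨ ((x + c).Prime ∧ w ≤ x + c) := by
  have hw := C.hw
  have hk := C.hk
  have hc := C.hc
  refine rough_cases hw (by omega) (by omega) ?_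
  intro d h1 h2 h3
  exact prime_rough hv hwv d h1 h2 ((C.sd hx1 hxk d (by omega) h2).2 h3)

theorem prime_odd {v : ℕ} (hv : v.Prime) (h : 12 ≤ v) : v % 2 = 1 := by
  rcases hv.eq_two_or_odd with h1 | h1
  · omega
  · exact h1

/-- positions of the large primes, `c ≤ 1`, `w` aligned -/
theorem Ctx.posA (C : Ctx k w c σ) (hc1 : c ≤ 1) (hW : Al k σ w c) :
    ∀ v, v.Prime → w ≤ v → v ≤ k → ∀ x, 1 ≤ x → x ≤ k → σ x = v →
      x + c = v ∨ (c = 0 ∧ x = 1 ∧ v = k) := by
  intro v
  induction v using Nat.strong_induction_on with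
  | _ v ih =>
    intro hv hwv hvk x hx1 hxk hx
    have hw := C.hw
    have hk := C.hk
    have hr := C.pos_rough hx1 hxk (by rw [hx]; exact hv) (by rw [hx]; exact hwv)
    by_cases hvw : v = w
    · have h1 := (hW x hx1 hxk).1 (by rw [hx, hvw])
      obtain ⟨t, ht⟩ := h1
      have ht3 : t < 3 := by
        by_contra hlt
        have : w * 3 ≤ w * t := Nat.mul_le_mul_left _ (by omega)
        omega
      rcases hr with h2 | h2
      · exfalso
        interval_cases t <;> omega
      · have h3 := prime_odd h2.1 (by omega)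
        have h4 := prime_odd hv (by omega)
        left
        interval_cases t <;> omega
    · have hbv := big_val C.h hx1 hxk (by omega)
      rw [hx] at hbv
      rcases hr with h2 | h2
      · right; omega
      · have h3 := prime_odd h2.1 (by omega)
        have h4 := prime_odd hv (by omega)
        left
        by_contra hne
        have hlt : x + c < v := by omega
        obtain ⟨y, hy1, hyk, hy⟩ := C.h.surj (v := x + c) (by omega) (by omega)
        rcases ih (x + c) hlt h2.1 h2.2 (by omega) y hy1 hyk hy with h5 | h5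
        · have : y = x := by omega
          rw [this] at hy
          omega
        · omega

/-- positions of the large primes, `c ≤ 1`, `w` not aligned -/
theorem Ctx.posB (C : Ctx k w c σ) (hc1 : c ≤ 1) (hwp : w.Prime)
    (hW : σ (w + 2 - c) = w) :
    ∀ v, v.Prime → w ≤ v → v ≤ k → ∀ x, 1 ≤ x → x ≤ k → σ x = v →
      (v = w ∧ x + c = w + 2) ∨ (v = w + 2 ∧ x + c = w) ∨
      (v ≠ w ∧ v ≠ w + 2 ∧ (x + c = v ∨ (c = 0 ∧ x = 1 ∧ v = k))) := by
  intro v
  induction v using Nat.strong_induction_on with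
  | _ v ih =>
    intro hv hwv hvk x hx1 hxk hx
    have hw := C.hw
    have hk := C.hk
    have hwodd := prime_odd hwp hw
    have hr := C.pos_rough hx1 hxk (by rw [hx]; exact hv) (by rw [hx]; exact hwv)
    by_cases hvw : v = w
    · left
      refine ⟨hvw, ?_⟩
      have := C.h.inj hx1 hxk (by omega : 1 ≤ w + 2 - c) (by omega) (by rw [hx, hW, hvw])
      omega
    · have hbv := big_val C.h hx1 hxk (by omega)
      rw [hx] at hbv
      have hnw : x ≠ w + 2 - c := by
        intro e
        rw [e, hW] at hx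
        exact hvw hx.symm
      by_cases hvw2 : v = w + 2
      · right; left
        refine ⟨hvw2, ?_⟩
        rcases hr with h2 | h2
        · omega
        · have h3 := prime_odd h2.1 (by omega)
          omega
      · right; right
        refine ⟨hvw, hvw2, ?_⟩
        rcases hr with h2 | h2
        · right; omega
        · have h3 := prime_odd h2.1 (by omega)
          have h4 := prime_odd hv (by omega)
          left
          by_contra hne
          have hlt : x + c < v := by omega
          by_cases hxw : x + c = w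
          · have hp2 : (w + 2).Prime := by
              have h5 := C.pos_rough (x := w + 2 - c) (by omega) (by omega) (by rw [hW]; exact hwp)
                (by rw [hW])
              rw [show w + 2 - c + c = w + 2 by omega] at h5
              rcases h5 with h5 | h5
              · omega
              · exact h5.1
            obtain ⟨y, hy1, hyk, hy⟩ := C.h.surj (v := w + 2) (by omega) (by omega)
            rcases ih (w + 2) (by omega) hp2 (by omega) (by omega) y hy1 hyk hy with
              h5 | h5 | h5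
            · omega
            · have : y = x := by omega
              rw [this] at hy
              omega
            · omega
          · obtain ⟨y, hy1, hyk, hy⟩ := C.h.surj (v := x + c) (by omega) (by omega)
            rcases ih (x + c) hlt h2.1 h2.2 (by omega) y hy1 hyk hy with h5 | h5 | h5
            · omega
            · omega
            · rcases h5.2.2 with h5 | h5
              · have : y = x := by omega
                rw [this] at hy
                omega
              · omega

/-- positions of the large primes, `c = 2` -/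
theorem Ctx.posC (C : Ctx k w 2 σ) (hkw : k = 2 * w + 1) (hP : (w + 1).Prime)
    (hσk : σ k = 1) (hσk1 : σ (k - 1) = 2) :
    ∀ v, v.Prime → w ≤ v → v ≤ k → ∀ x, 1 ≤ x → x ≤ k → σ x = v →
      x + 2 = v ∨ x = v ∨ (x + 4 = v ∧ σ (v - 2) = v - 2) := by
  intro v
  induction v using Nat.strong_induction_on with
  | _ v ih =>
    intro hv hwv hvk x hx1 hxk hx
    have hw := C.hw
    have hPodd := prime_odd hP (by omega)
    have hvodd := prime_odd hv (by omega)
    have hr := C.pos_rough hx1 hxk (by rw [hx]; exact hv) (by rw [hx]; exact hwv)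
    have hbv := big_val C.h hx1 hxk (by omega)
    rw [hx] at hbv
    have hr2 : (x + 2).Prime ∧ w ≤ x + 2 := by
      rcases hr with h | h
      · omega
      · exact h
    have hodd := prime_odd hr2.1 (by omega)
    have hxne : x ≠ k := by
      rintro rfl
      rw [hσk] at hx
      omega
    have hxne1 : x ≠ k - 1 := by
      intro e
      rw [e, hσk1] at hx
      omega
    by_cases h1 : x + 2 < v
    · right; right
      obtain ⟨y, hy1, hyk, hy⟩ := C.h.surj (v := x + 2) (by omega) (by omega)
      rcases ih (x + 2) h1 hr2.1 hr2.2 (by omega) y hy1 hyk hy with h5 | h5 | h5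
      · have : y = x := by omega
        rw [this] at hy
        omega
      · -- value x + 2 at position x + 2
        have hy' : σ (x + 2) = x + 2 := by rw [← h5]; rw [hy, h5]
        have hr3 := C.pos_rough (x := x + 2) (by omega) (by omega) (by rw [hy']; exact hr2.1)
          (by rw [hy']; exact hr2.2)
        have hr4 : (x + 2 + 2).Prime := by
          rcases hr3 with h | h
          · omega
          · exact h.1
        by_cases h6 : x + 4 = v
        · refine ⟨h6, ?_⟩
          rw [show v - 2 = x + 2 by omega]; exact hy'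
        · exfalso
          obtain ⟨z, hz1, hzk, hz⟩ := C.h.surj (v := x + 4) (by omega) (by omega)
          rcases ih (x + 4) (by omega) hr4 (by omega) (by omega) z hz1 hzk hz with h7 | h7 | h7
          · have : z = x + 2 := by omega
            rw [this] at hz
            omega
          · have hr5 := C.pos_rough hz1 hzk (by rw [hz]; exact hr4) (by rw [hz]; omega)
            have hr6 : (x + 6).Prime := by
              rcases hr5 with h | h
              · omega
              · rw [h7] at h; exact h.1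
            have m1 := mod3 hr2.1 hr4 (by omega)
            have m2 := mod3 (a := x + 4) hr4 hr6 (by omega)
            omega
          · have : z = x := by omega
            rw [this] at hz
            omega
      · have : σ x = x := by
          have := h5.2
          rwa [show x + 2 - 2 = x by omega] at this
        omega
    · omega

end R43WCS
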