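import Mathlib
import Pool.Agent.R43.WCSClass

namespace R43WCS

variable {k w c t : ℕ} {s σ : ℕ → ℕ}

theorem swap_comp_bij {f : ℕ → ℕ} {k a b : ℕ} (hf : Set.BijOn f (Set.Icc 1 k) (Set.Icc 1 k))
    (ha1 : 1 ≤ a) (hak : a ≤ k) (hb1 : 1 ≤ b) (hbk : b ≤ k) :
    Set.BijOn (fun i => Equiv.swap a b (f i)) (Set.Icc 1 k) (Set.Icc 1 k) := by
  have h1 : Set.BijOn (Equiv.swap a b) (Set.Icc 1 k) (Set.Icc 1 k) :=
    Equiv.swap_bijOn_self (by simp only [Set.mem_Icc]; omega)
  exact h1.comp hf

theorem twin_three {p : ℕ} (hp : p.Prime) (hp2 : (p + 2).Prime) : 3 ≤ p := by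
  have := hp.two_le
  by_contra hlt
  have : p = 2 := by omega
  subst this
  exact absurd hp2 (by decide)

theorem start_bij (hk : 1 ≤ k) (hs : IsStart k t s) :
    Set.BijOn s (Set.Icc 1 k) (Set.Icc 1 k) := by
  have hf1 : Set.BijOn (fun i => if i = k then 1 else i + 1) (Set.Icc 1 k) (Set.Icc 1 k) := by
    refine ⟨?_, ?_, ?_⟩
    · intro i hi
      rw [Set.mem_Icc] at hi ⊢
      simp only
      split_ifs <;> omega
    · intro i hi j hj e
      rw [Set.mem_Icc] at hi hj
      simp only at e
      split_ifs at e <;> omega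
    · intro v hv
      rw [Set.mem_Icc] at hv
      by_cases h : v = 1
      · refine ⟨k, Set.mem_Icc.2 ⟨hk, le_rfl⟩, ?_⟩
        simp [h]
      · refine ⟨v - 1, Set.mem_Icc.2 ⟨by omega, by omega⟩, ?_⟩
        simp only
        rw [if_neg (by omega)]
        omega
  cases hs with
  | consecutive => exact Set.bijOn_id _
  | inversion h => exact hf1
  | twice p hp hp2 hkp =>
    have h3 := twin_three hp hp2
    exact swap_comp_bij (swap_comp_bij (Set.bijOn_id _) (by omega) (by omega) (by omega)
      (by omega)) (by omega) (by omega) (by omega) (by omega)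
  | germain p hp hp2 hp3 hkp =>
    have h3 := twin_three hp hp2
    refine swap_comp_bij ?_ (by omega) (by omega) (by omega) (by omega)
    refine ⟨?_, ?_, ?_⟩
    · intro i hi
      rw [Set.mem_Icc] at hi ⊢
      simp only
      split_ifs <;> omega
    · intro i hi j hj e
      rw [Set.mem_Icc] at hi hj
      simp only at e
      split_ifs at e <;> omega
    · intro v hv
      rw [Set.mem_Icc] at hv
      by_cases h : v = 1
      · refine ⟨k, Set.mem_Icc.2 ⟨hk, le_rfl⟩, ?_⟩
        simp [h]
      by_cases h2 : v = 2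
      · refine ⟨k - 1, Set.mem_Icc.2 ⟨by omega, by omega⟩, ?_⟩
        simp only
        rw [if_neg (by omega), if_pos (by omega)]
        exact h2.symm
      · refine ⟨v - 2, Set.mem_Icc.2 ⟨by omega, by omega⟩, ?_⟩
        simp only
        rw [if_neg (by omega), if_neg (by omega)]
        omega
  | fifth p hp hp2 hp3 hkp =>
    have h3 := twin_three hp hp2
    exact swap_comp_bij (swap_comp_bij hf1 (by omega) (by omega) (by omega)
      (by omega)) (by omega) (by omega) (by omega) (by omega)

theorem deriv_of_close (h : IsWCS k σ) (hk : 1 ≤ k) (hs : IsStart k t s)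
    (hcl : Close k t s σ) : ∃ (l : List (Option (ℕ × ℕ))) (τ : ℕ → ℕ), l.Nodup ∧
      (none ∉ l) ∧ Deriv k t s l τ ∧ ∀ i, 1 ≤ i → i ≤ k → τ i = σ i := by
  classical
  have hb := start_bij hk hs
  have hinj : ∀ x y, 1 ≤ x → x ≤ k → 1 ≤ y → y ≤ k → s x = s y → x = y := fun x y h1 h2 h3 h4 e =>
    hb.injOn (Set.mem_Icc.2 ⟨h1, h2⟩) (Set.mem_Icc.2 ⟨h3, h4⟩) e
  have hsurj : ∀ v, 1 ≤ v → v ≤ k → ∃ y, 1 ≤ y ∧ y ≤ k ∧ s y = v := by
    intro v h1 h2
    obtain ⟨y, hy, hv⟩ := hb.surjOn (Set.mem_Icc.2 ⟨h1, h2⟩)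
    rw [Set.mem_Icc] at hy
    exact ⟨y, hy.1, hy.2, hv⟩
  set S : Finset (ℕ × ℕ) := ((Finset.range (k + 1)) ×ˢ (Finset.range (k + 1))).filter
    (fun p => Allowed k t p.1 p.2 ∧ ∃ x, 1 ≤ x ∧ x ≤ k ∧ s x = p.1 ∧ σ x = p.2) with hS
  set L := S.toList with hL
  have hnd : L.Nodup := Finset.nodup_toList S
  have hmem : ∀ p, p ∈ L ↔ Allowed k t p.1 p.2 ∧ ∃ x, 1 ≤ x ∧ x ≤ k ∧ s x = p.1 ∧ σ x = p.2 := by
    intro p
    rw [hL, Finset.mem_toList, hS, Finset.mem_filter, Finset.mem_product, Finset.mem_range,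
      Finset.mem_range]
    constructor
    · exact fun h => h.2
    · intro hp
      have := hp.1.lt
      exact ⟨⟨by omega, by omega⟩, hp⟩
  have hLa : ∀ p ∈ L, Allowed k t p.1 p.2 := fun p hp => ((hmem p).1 hp).1
  have hd := build hs L hnd hLa
  refine ⟨L.map some, _, hnd.map (Option.some_injective _), ?_, hd, ?_⟩
  · simp
  intro x hx1 hxk
  show sw L (s x) = σ x
  have hcase1 : ∀ a b, Allowed k t a b → s x = a → σ x = b → sw L (s x) = σ x := by
    intro a b hab ha hb'
    have h1 : (a, b) ∈ L := (hmem (a, b)).2 ⟨hab, x, hx1, hxk, ha, hb'⟩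
    have h2 := sw_spec hs L hnd hLa h1
    rw [ha, hb']
    exact h2.1
  rcases hcl x hx1 hxk with h1 | ⟨a, b, hab, ⟨h1, h2⟩ | ⟨h1, h2⟩⟩
  · rw [h1]
    apply sw_fix
    intro p hp
    obtain ⟨hpa, y, hy1, hyk, hy2, hy3⟩ := (hmem p).1 hp
    have hlt := hpa.lt
    constructor
    · intro e
      have : x = y := hinj x y hx1 hxk hy1 hyk (by rw [e, hy2])
      subst this
      omega
    · intro e
      have : x = y := h.inj hx1 hxk hy1 hyk (by rw [hy3, h1, e])
      subst this
      omega
  · exact hcase1 a b hab h1 h2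
  · have hlt := hab.lt
    obtain ⟨y, hy1, hyk, hy⟩ := hsurj a (by omega) (by omega)
    have hyx : y ≠ x := by
      rintro rfl
      omega
    have hyσ : σ y = b := by
      rcases hcl y hy1 hyk with h3 | ⟨a', b', hab', ⟨h3, h4⟩ | ⟨h3, h4⟩⟩
      · exfalso
        exact hyx (h.inj hy1 hyk hx1 hxk (by rw [h3, hy, h2]))
      · have := Allowed.disj (e := a) hs hab hab' (Or.inl rfl) (Or.inl (by rw [← hy, h3]))
        rw [h4, ← this.2]
      · have := Allowed.disj (e := a) hs hab hab' (Or.inl rfl) (Or.inr (by rw [← hy, h3]))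
        have hlt' := hab'.lt
        omega
    have h3 : (a, b) ∈ L := (hmem (a, b)).2 ⟨hab, y, hy1, hyk, hy, hyσ⟩
    have h4 := sw_spec hs L hnd hLa h3
    rw [h1, h2]
    exact h4.2

theorem swap_ne {a b x : ℕ} (h1 : x ≠ a) (h2 : x ≠ b) : Equiv.swap a b x = x :=
  Equiv.swap_apply_of_ne_of_ne h1 h2

/-- the value at the position of `2 w` -/
theorem Ctx.two_w (C : Ctx k w c σ) (hwp : w.Prime) (hc1 : c ≤ 1)
    (hσ2 : σ (2 - c) = 2 * w) : σ (2 * w - c) = 2 := by
  have hw := C.hw
  have hk := C.hk
  have hm := C.h.maps (x := 2 * w - c) (by omega) (by omega)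
  have h1 := twoq (y := σ (2 * w - c)) hw hwp le_rfl hm.1 (by omega) (fun d hd0 hdw => by
    rw [C.sd (x := 2 * w - c) (by omega) (by omega) d hd0 hdw]
    rw [show 2 * w - c + c = 2 * w by omega])
  rcases h1.1 with h2 | h2 | h2
  · exact h2
  · have := C.h.inj (x := 2 * w - c) (y := 2 - c) (by omega) (by omega) (by omega) (by omega)
      (by rw [h2, hσ2])
    omega
  · omega

theorem allowed_one (h : k.Prime) : Allowed k t 1 k :=
  Or.inl ⟨k, 1, h, le_rfl, by simp, by simp, by simp, by simp⟩

theorem close_zero (C : Ctx k w 0 σ) (hend : σ 1 = 1 ∨ σ k = 1)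
    (hW : Al k σ w 0 ∨ (w.Prime ∧ (w + 2).Prime ∧ σ 2 = 2 * w ∧ σ (w + 2) = w)) :
    ∃ t s, IsStart k t s ∧ Close k t s σ := by
  have hw := C.hw
  have hk := C.hk
  have h := C.h
  have hone : ∀ x, 1 < x → x ≤ k → σ x = 1 → x = k := by
    intro x h1 h2 h3
    rcases hend with h4 | h4
    · have := h.inj (x := x) (y := 1) (by omega) h2 le_rfl (by omega) (by rw [h3, h4])
      omega
    · exact h.inj (by omega) h2 (by omega) le_rfl (by rw [h3, h4])
  rcases hW with hW | ⟨hwp, hwp2, hσ2, hσw2⟩
  · refine ⟨1, fun i => i, IsStart.consecutive, ?_⟩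
    refine C.close (fun _ => False) ?_ ?_ ?_ (Or.inl hW)
    · intro x _ _ _; rfl
    · intro x _ hxk hx
      rcases hx with hx | hx
      · omega
      · exact hx.elim
    · intro x hx1 hxk _ h2 h3 hne
      rw [Nat.add_zero] at h3 hne hxk ⊢
      rcases h2 with h2 | h2
      · have hxp : x ≠ 1 := fun e => hne (by rw [h2, e])
        have hxk' := hone x (by omega) hxk h2
        rcases h3 with h3 | h3
        · exact absurd h3 hxp
        · subst hxk'
          exact ⟨1, x, allowed_one h3.1, Or.inr ⟨rfl, h2⟩⟩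
      · rcases C.posA (by omega) hW (σ x) h2.1 h2.2 (h.maps hx1 hxk).2 x hx1 hxk rfl with h4 | h4
        · exact absurd (by omega) hne
        · obtain ⟨_, h5, h6⟩ := h4
          refine ⟨1, k, allowed_one (h6 ▸ h2.1), Or.inl ⟨h5, h6⟩⟩
  · have hwodd := prime_odd hwp hw
    have hσw : σ w = w + 2 := by
      obtain ⟨y, hy1, hyk, hy⟩ := h.surj (v := w + 2) (by omega) (by omega)
      rcases C.posB (by omega) hwp hσw2 (w + 2) hwp2 (by omega) (by omega) y hy1 hyk hy with
        h5 | h5 | h5
      · omega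
      · rw [show y = w by omega] at hy; exact hy
      · omega
    have hσ2w : σ (2 * w) = 2 := C.two_w hwp (by omega) hσ2
    refine ⟨3, _, IsStart.twice w hwp hwp2 hk, ?_⟩
    refine C.close (fun n => n = 2 ∨ n = 2 * w ∨ n = w ∨ n = w + 2) ?_ ?_ ?_
      (Or.inr ⟨Or.inl rfl, Or.inr (Or.inl rfl)⟩)
    · intro x hx1 hxk hx
      simp only [Nat.add_zero] at hx ⊢
      rw [swap_ne (a := w) (by omega) (by omega), swap_ne (by omega) (by omega)]
    · intro x hx1 hxk hx
      rcases hx with hx | hx
      · omega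
      · simp only [Nat.add_zero] at hx ⊢
        rcases hx with rfl | rfl | rfl | rfl
        · rw [swap_ne (a := w) (by omega) (by omega), Equiv.swap_apply_left]; exact hσ2
        · rw [swap_ne (a := w) (by omega) (by omega), Equiv.swap_apply_right]; exact hσ2w
        · rw [Equiv.swap_apply_left, swap_ne (by omega) (by omega)]; exact hσw
        · rw [Equiv.swap_apply_right, swap_ne (by omega) (by omega)]; exact hσw2
    · intro x hx1 hxk hx h2 h3 hne
      rw [Nat.add_zero] at h3 hne hxk hx ⊢
      rcases h2 with h2 | h2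
      · have hxp : x ≠ 1 := fun e => hne (by rw [h2, e])
        have hxk' := hone x (by omega) hxk h2
        rcases h3 with h3 | h3
        · exact absurd h3 hxp
        · subst hxk'
          exact ⟨1, x, allowed_one h3.1, Or.inr ⟨rfl, h2⟩⟩
      · rcases C.posB (by omega) hwp hσw2 (σ x) h2.1 h2.2 (h.maps hx1 hxk).2 x hx1 hxk rfl with
          h4 | h4 | ⟨_, _, h4⟩
        · exfalso; omega
        · exfalso; omega
        · rcases h4 with h4 | h4
          · exact absurd (by omega) hne
          · obtain ⟨_, h5, h6⟩ := h4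
            refine ⟨1, k, allowed_one (h6 ▸ h2.1), Or.inl ⟨h5, h6⟩⟩

theorem close_one (C : Ctx k w 1 σ) (hkw : k = 2 * w) (hkp : (k + 1).Prime) (hσk : σ k = 1)
    (hW : Al k σ w 1 ∨ (w.Prime ∧ (w + 2).Prime ∧ σ 1 = 2 * w ∧ σ (w + 1) = w)) :
    ∃ t s, IsStart k t s ∧ Close k t s σ := by
  have hw := C.hw
  have hk := C.hk
  have h := C.h
  rcases hW with hW | ⟨hwp, hwp2, hσ2, hσw2⟩
  · refine ⟨2, _, IsStart.inversion hkp, ?_⟩
    refine C.close (fun _ => False) ?_ ?_ ?_ (Or.inl hW)
    · intro x _ hxk _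
      rw [if_neg (by omega)]
    · intro x _ hxk hx
      rcases hx with hx | hx
      · have : x = k := by omega
        rw [if_pos this, this, hσk]
      · exact hx.elim
    · intro x hx1 hxk _ h2 h3 hne
      exfalso
      rcases h2 with h2 | h2
      · have := h.inj (x := x) (y := k) (by omega) (by omega) (by omega) le_rfl (by rw [h2, hσk])
        omega
      · rcases C.posA (by omega) hW (σ x) h2.1 h2.2 (h.maps hx1 (by omega)).2 x hx1 (by omega)
          rfl with h4 | h4
        · exact absurd (by omega) hne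
        · omega
  · have hwodd := prime_odd hwp hw
    have hσw : σ (w - 1) = w + 2 := by
      obtain ⟨y, hy1, hyk, hy⟩ := h.surj (v := w + 2) (by omega) (by omega)
      rcases C.posB (by omega) hwp (by rw [show w + 2 - 1 = w + 1 by omega]; exact hσw2)
        (w + 2) hwp2 (by omega) (by omega) y hy1 hyk hy with h5 | h5 | h5
      · omega
      · rw [show y = w - 1 by omega] at hy; exact hy
      · omega
    have hσ2w : σ (2 * w - 1) = 2 := C.two_w hwp (by omega) hσ2
    refine ⟨5, _, IsStart.fifth w hwp hwp2 (hkw ▸ hkp) hkw, ?_⟩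
    refine C.close (fun n => n = 2 ∨ n = 2 * w ∨ n = w ∨ n = w + 2) ?_ ?_ ?_
      (Or.inr ⟨Or.inl rfl, Or.inr (Or.inl rfl)⟩)
    · intro x hx1 hxk hx
      try simp only at hx ⊢
      rw [if_neg (by omega), swap_ne (a := w) (by omega) (by omega),
        swap_ne (by omega) (by omega)]
    · intro x hx1 hxk hx
      rcases hx with hx | hx
      · have : x = k := by omega
        try simp only
        rw [if_pos this, this, hσk, swap_ne (a := w) (by omega) (by omega),
          swap_ne (by omega) (by omega)]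
      · try simp only at hx ⊢
        rcases hx with hx | hx | hx | hx
        · rw [if_neg (by omega), hx, swap_ne (a := w) (by omega) (by omega),
            Equiv.swap_apply_left, show x = 1 by omega]; exact hσ2
        · rw [if_neg (by omega), hx, swap_ne (a := w) (by omega) (by omega),
            Equiv.swap_apply_right, show x = 2 * w - 1 by omega]; exact hσ2w
        · rw [if_neg (by omega), hx, Equiv.swap_apply_left, swap_ne (by omega) (by omega),
            show x = w - 1 by omega]; exact hσw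
        · rw [if_neg (by omega), hx, Equiv.swap_apply_right, swap_ne (by omega) (by omega),
            show x = w + 1 by omega]; exact hσw2
    · intro x hx1 hxk hx h2 h3 hne
      exfalso
      rcases h2 with h2 | h2
      · have := h.inj (x := x) (y := k) (by omega) (by omega) (by omega) le_rfl (by rw [h2, hσk])
        omega
      · rcases C.posB (by omega) hwp (by rw [show w + 2 - 1 = w + 1 by omega]; exact hσw2)
          (σ x) h2.1 h2.2 (h.maps hx1 (by omega)).2 x hx1 (by omega) rfl with
          h4 | h4 | ⟨_, _, h4⟩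
        · omega
        · omega
        · rcases h4 with h4 | h4
          · exact absurd (by omega) hne
          · omega

theorem close_two (C : Ctx k w 2 σ) (hkw : k = 2 * w + 1) (hP : (w + 1).Prime)
    (hP2 : (w + 3).Prime) (hkp : (k + 2).Prime) (hσk : σ k = 1) (hσk1 : σ (k - 1) = 2)
    (hσP : σ (w + 1) = w + 1) (hW : Al k σ w 2) :
    ∃ t s, IsStart k t s ∧ Close k t s σ := by
  have hw := C.hw
  have hk := C.hk
  have h := C.h
  have hPodd := prime_odd hP (by omega)
  have hmodP := mod3 hP hP2 (by omega)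
  have hP4 : ¬ (w + 5).Prime := by
    intro hp
    have := mod3 (a := w + 3) hP2 hp (by omega)
    omega
  have hσP2 : σ (w - 1) = w + 3 := by
    obtain ⟨y, hy1, hyk, hy⟩ := h.surj (v := w + 3) (by omega) (by omega)
    rcases C.posC hkw hP hσk hσk1 (w + 3) hP2 (by omega) (by omega) y hy1 hyk hy with
      h5 | h5 | h5
    · have : y = w + 1 := by omega
      rw [this] at hy
      omega
    · exfalso
      have := C.pos_rough hy1 hyk (by rw [hy]; exact hP2) (by omega)
      rw [h5] at this
      rcases this with h6 | h6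
      · omega
      · exact hP4 h6.1
    · rw [show y = w - 1 by omega] at hy; exact hy
  refine ⟨4, _, IsStart.germain (w + 1) hP hP2 (by
    rw [show 2 * (w + 1) + 1 = k + 2 by omega]; exact hkp) (by omega), ?_⟩
  refine C.close (fun n => n = w + 1 ∨ n = w + 1 + 2) ?_ ?_ ?_ (Or.inl hW)
  · intro x hx1 hxk hx
    try simp only at hx ⊢
    rw [if_neg (by omega), if_neg (by omega), swap_ne (by omega) (by omega)]
  · intro x hx1 hxk hx
    rcases hx with hx | hx
    · have : x = k ∨ x = k - 1 := by omega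
      try simp only
      rcases this with this | this
      · rw [if_pos this, this, hσk, swap_ne (by omega) (by omega)]
      · rw [if_neg (by omega), if_pos (by omega), this, hσk1, swap_ne (by omega) (by omega)]
    · try simp only at hx ⊢
      rcases hx with hx | hx
      · rw [if_neg (by omega), if_neg (by omega), hx, Equiv.swap_apply_left,
          show x = w - 1 by omega]; exact hσP2
      · rw [if_neg (by omega), if_neg (by omega), hx, Equiv.swap_apply_right,
          show x = w + 1 by omega]; exact hσP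
  · intro x hx1 hxk hx h2 h3 hne
    rcases h2 with h2 | h2
    · have := h.inj (x := x) (y := k) (by omega) (by omega) (by omega) le_rfl (by rw [h2, hσk])
      omega
    · have hnp : (x + 2).Prime ∧ w ≤ x + 2 := by
        rcases h3 with h3 | h3
        · omega
        · exact h3
      have hnodd := prime_odd hnp.1 (by omega)
      rcases C.posC hkw hP hσk hσk1 (σ x) h2.1 h2.2 (h.maps hx1 (by omega)).2 x hx1 (by omega)
        rfl with h4 | h4 | ⟨h4, h5⟩
      · exact absurd h4.symm hne
      · refine ⟨x, x + 2, Or.inr ⟨rfl, ?_, hnp.1, rfl, by omega, hxk⟩, Or.inr ⟨rfl, h4.symm⟩⟩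
        rw [h4]; exact h2.1
      · refine ⟨x + 2, x + 4, Or.inr ⟨rfl, hnp.1, ?_, by omega, by omega, ?_⟩,
          Or.inl ⟨rfl, h4.symm⟩⟩
        · rw [show x + 2 + 2 = x + 4 by omega, h4]; exact h2.1
        · have := (h.maps hx1 (by omega)).2
          omega

end R43WCS
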