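import Mathlib
import Pool.Agent.R43.WCSExist

namespace R43WCS

variable {k w c t : ℕ} {s σ : ℕ → ℕ}

theorem prime_of_no_small {n : ℕ} (hn : 2 ≤ n) (h : ∀ q, q.Prime → q * q ≤ n → ¬ q ∣ n) :
    n.Prime := by
  by_contra hnp
  have h2 := Nat.minFac_sq_le_self (by omega : 0 < n) hnp
  refine h n.minFac (Nat.minFac_prime (by omega)) ?_ (Nat.minFac_dvd n)
  have : n.minFac ^ 2 = n.minFac * n.minFac := by ring
  omega

theorem sq_small {q k : ℕ} (hk : 24 ≤ k) (h : q * q ≤ k + 2) : 2 * q + 2 ≤ k := by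
  rcases Nat.lt_or_ge q 4 with h1 | h1
  · omega
  · have : 4 * q ≤ q * q := Nat.mul_le_mul_right q h1
    omega

theorem close_of_al (h : IsWCS k σ) (hk24 : 24 ≤ k) (hc : c ≤ 2)
    (hal : ∀ m, 0 < m → 2 * m + 2 ≤ k → Al k σ m c) :
    ∃ t s, IsStart k t s ∧ Close k t s σ := by
  obtain ⟨w, hw⟩ : ∃ w, k = 2 * w ∨ k = 2 * w + 1 := ⟨k / 2, by omega⟩
  have hal' : ∀ m, 0 < m → m < w → Al k σ m c := fun m h0 h1 => hal m h0 (by omega)
  have hout := fun m j => @outside k σ h c hal m j
  have hend := end_prop (by omega) h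
  have hWW := al_w h (by omega) hw hc hal'
  have hc' : c = 0 ∨ c = 1 ∨ c = 2 := by omega
  rcases hc' with rfl | rfl | rfl
  · have C : Ctx k w 0 σ := ⟨h, by omega, hw, by omega, hal', by
      rcases hWW with h1 | h1
      · exact Or.inr h1
      · exact Or.inl h1.2.1, by
      intro y _ h1 h2
      omega⟩
    refine close_zero C hend ?_
    rcases hWW with h1 | ⟨_, h1, h2, h3, h4⟩
    · exact Or.inl h1
    · exact Or.inr ⟨h1, h2, h3, h4⟩
  · -- c = 1
    have hkp : (k + 1).Prime := by
      refine prime_of_no_small (by omega) ?_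
      intro q hq hqq hqd
      exact hout q 1 (by have := hq.two_le; omega) (sq_small hk24 (by omega)) le_rfl le_rfl hqd
    have hkodd := prime_odd hkp (by omega)
    have hkw : k = 2 * w := by omega
    have hσk : σ k = 1 := by
      rcases hend with h1 | h1
      · exfalso
        have h2 := (hal 2 (by omega) (by omega) 1 le_rfl (by omega)).2 (by norm_num)
        rw [h1] at h2
        omega
      · exact h1
    have C : Ctx k w 1 σ := ⟨h, by omega, hw, by omega, hal', by
      rcases hWW with h1 | h1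
      · exact Or.inr h1
      · exact Or.inl h1.2.1, by
      intro y _ h1 h2
      have : y = k := by omega
      rw [this, hσk]; norm_num⟩
    refine close_one C hkw hkp hσk ?_
    rcases hWW with h1 | ⟨_, h1, h2, h3, h4⟩
    · exact Or.inl h1
    · exact Or.inr ⟨h1, h2, h3, by rw [show w + 1 = w + 2 - 1 by omega]; exact h4⟩
  · -- c = 2
    have hσk : σ k = 1 := by
      rcases hend with h1 | h1
      · exfalso
        have h2 := (hal 3 (by omega) (by omega) 1 le_rfl (by omega)).2 (by norm_num)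
        rw [h1] at h2
        omega
      · exact h1
    have hkw : k = 2 * w + 1 := by
      rcases hw with h1 | h1
      · exfalso
        have h2 := (hal 2 (by omega) (by omega) k (by omega) le_rfl).2
          (Nat.dvd_of_mod_eq_zero (by omega))
        rw [hσk] at h2
        omega
      · exact h1
    have hwpar : w % 2 = 0 := by
      by_contra hne
      obtain ⟨u, hu⟩ : ∃ u, w + 1 = 2 * u := ⟨(w + 1) / 2, by omega⟩
      exact hout u 1 (by omega) (by omega) (by omega) (by omega) ⟨4, by omega⟩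
    have hP : (w + 1).Prime := by
      refine prime_of_no_small (by omega) ?_
      intro q hq hqq hqd
      have hq2 := hq.two_le
      have hqne : q ≠ 2 := by
        rintro rfl
        omega
      exact hout q 1 (by omega) (sq_small hk24 (by omega)) (by omega) (by omega)
        (by rw [show k + 1 = 2 * (w + 1) by omega]; exact Dvd.dvd.mul_left hqd 2)
    have hkp : (k + 2).Prime := by
      refine prime_of_no_small (by omega) ?_
      intro q hq hqq hqd
      have hq2 := hq.two_le
      have hqne : q ≠ 2 := by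
        rintro rfl
        omega
      exact hout q 2 (by omega) (sq_small hk24 (by omega)) (by omega) (by omega) hqd
    have hσP : σ (w + 1) = w + 1 := by
      obtain ⟨x, hx1, hxk, hx⟩ := h.surj (v := w + 1) (by omega) (by omega)
      have hbv := big_val h hx1 hxk (by omega)
      rw [hx] at hbv
      rw [show x = w + 1 by omega] at hx
      exact hx
    have hP2 : (w + 3).Prime := by
      have h1 := rough_cases (w := w) (y := w + 3) (by omega) (by omega) (by omega) (by
        intro d h1 h2 h3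
        have h4 := (hal' d (by omega) h2 (w + 1) (by omega) (by omega)).2 h3
        rw [hσP] at h4
        exact prime_rough hP (by omega) d h1 h2 h4)
      rcases h1 with h1 | h1
      · omega
      · exact h1.1
    have hσk1 : σ (k - 1) = 2 := by
      have hm := h.maps (x := k - 1) (by omega) (by omega)
      have h1 := twoq (w := w) (y := σ (k - 1)) (by omega) hP (by omega) hm.1 (by omega)
        (fun d hd0 hdw => by
          rw [hal' d hd0 hdw (k - 1) (by omega) (by omega)]
          rw [show k - 1 + 2 = 2 * (w + 1) by omega])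
      rcases h1.1 with h2 | h2 | h2
      · exact h2
      · exfalso
        apply h1.2
        rw [h2]
        exact ⟨w / 2, by omega⟩
      · omega
    have hW : Al k σ w 2 := by
      rcases hWW with h1 | h1
      · exact h1
      · omega
    have C : Ctx k w 2 σ := ⟨h, by omega, hw, by omega, hal', Or.inr hW, by
      intro y hy1 h1 h2
      have : y = k ∨ y = k - 1 := by omega
      rcases this with this | this
      · rw [this, hσk]; norm_num
      · rw [this, hσk1]⟩
    exact close_two C hkw hP hP2 hkp hσk hσk1 hσP hW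

/-! ### base cases -/

def smallPrimes : List ℕ := [2, 3, 5, 7, 11, 13, 17, 19, 23]

def primeB (p : ℕ) : Bool := smallPrimes.any fun q => Nat.beq p q

theorem primeB_sound {p : ℕ} (h : primeB p = true) : p.Prime := by
  rw [primeB, List.any_eq_true] at h
  obtain ⟨q, hq, h2⟩ := h
  have h3 := Nat.eq_of_beq_eq_true h2
  subst h3
  simp only [smallPrimes, List.mem_cons, List.not_mem_nil, or_false] at hq
  rcases hq with rfl | rfl | rfl | rfl | rfl | rfl | rfl | rfl | rfl <;> norm_num

def swB (a b v : ℕ) : ℕ := bif Nat.beq v a then b else bif Nat.beq v b then a else v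

theorem beq_cases (a b : ℕ) : (Nat.beq a b = true ∧ a = b) ∨ (Nat.beq a b = false ∧ a ≠ b) := by
  cases h : Nat.beq a b
  · right
    refine ⟨rfl, fun e => ?_⟩
    rw [e, Nat.beq_refl] at h
    exact absurd h (by decide)
  · exact Or.inl ⟨rfl, Nat.eq_of_beq_eq_true h⟩

theorem swB_eq (a b v : ℕ) : swB a b v = Equiv.swap a b v := by
  rw [swB, Equiv.swap_apply_def]
  rcases beq_cases v a with ⟨h1, h2⟩ | ⟨h1, h2⟩
  · rw [h1, if_pos h2]; rfl
  · rw [h1, if_neg h2]
    rcases beq_cases v b with ⟨h3, h4⟩ | ⟨h3, h4⟩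
    · rw [h3, if_pos h4]; rfl
    · rw [h3, if_neg h4]; rfl

def allowedB (k t a b : ℕ) : Bool :=
  (Nat.ble b k && Nat.ble (k + 1) (a + b) && smallPrimes.any fun p =>
    (List.range' 1 5).any fun c => Nat.beq (p ^ (c - 1)) a && Nat.beq (p ^ c) b) ||
  (Nat.beq t 4 && primeB a && primeB (a + 2) && Nat.beq b (a + 2) &&
    Nat.ble ((k + 1) / 2 + 1) a && Nat.ble (a + 2) k)

theorem allowedB_sound {a b : ℕ} (h : allowedB k t a b = true) : Allowed k t a b := by
  rw [allowedB, Bool.or_eq_true] at h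
  rcases h with h | h
  · left
    simp only [Bool.and_eq_true, Nat.ble_eq, List.any_eq_true] at h
    obtain ⟨⟨h1, h2⟩, p, hp, c, hc, h3, h4⟩ := h
    rw [List.mem_range'_1] at hc
    have hpp : p.Prime := primeB_sound (by
      rw [primeB, List.any_eq_true]
      exact ⟨p, hp, Nat.beq_refl p⟩)
    have h3' := Nat.eq_of_beq_eq_true h3
    have h4' := Nat.eq_of_beq_eq_true h4
    exact ⟨p, c, hpp, hc.1, h3'.symm, h4'.symm, by omega, by omega⟩
  · right
    simp only [Bool.and_eq_true, Nat.ble_eq] at h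
    obtain ⟨⟨⟨⟨⟨h1, h2⟩, h3⟩, h4⟩, h5⟩, h6⟩ := h
    exact ⟨Nat.eq_of_beq_eq_true h1, primeB_sound h2, primeB_sound h3,
      Nat.eq_of_beq_eq_true h4, by omega, h6⟩

/-- availability of the starts for `k ≤ 23` -/
def availB (k t : ℕ) : Bool :=
  match t with
  | 1 => true
  | 2 => primeB (k + 1)
  | 3 => primeB (k / 2) && primeB (k / 2 + 2)
  | 4 => primeB ((k + 1) / 2) && primeB ((k + 1) / 2 + 2) && primeB (2 * ((k + 1) / 2) + 1) &&
      Nat.beq (k + 1) (2 * ((k + 1) / 2))
  | 5 => primeB (k / 2) && primeB (k / 2 + 2) && primeB (2 * (k / 2) + 1) &&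
      Nat.beq k (2 * (k / 2)) && Nat.ble 12 k
  | _ => false

def startB (k t : ℕ) (i : ℕ) : ℕ :=
  match t with
  | 1 => i
  | 2 => bif Nat.beq i k then 1 else i + 1
  | 3 => swB 2 (2 * (k / 2)) (swB (k / 2) (k / 2 + 2) i)
  | 4 => swB ((k + 1) / 2) ((k + 1) / 2 + 2)
      (bif Nat.beq i k then 1 else bif Nat.beq (i + 1) k then 2 else i + 2)
  | 5 => swB 2 (2 * (k / 2)) (swB (k / 2) (k / 2 + 2) (bif Nat.beq i k then 1 else i + 1))
  | _ => i

theorem cond_beq {α : Type} (a b : ℕ) (x y : α) :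
    (bif Nat.beq a b then x else y) = if a = b then x else y := by
  rcases beq_cases a b with ⟨h1, h2⟩ | ⟨h1, h2⟩
  · rw [h1, if_pos h2]; rfl
  · rw [h1, if_neg h2]; rfl

theorem availB_sound (h : availB k t = true) :
    IsStart k t (startB k t) ∧ (t = 5 → 12 ≤ k) := by
  unfold availB at h
  split at h
  · exact ⟨IsStart.consecutive, by omega⟩
  · refine ⟨?_, by omega⟩
    have h1 := IsStart.inversion (primeB_sound h)
    have h2 : startB k 2 = fun i => if i = k then 1 else i + 1 := by
      funext i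
      exact cond_beq i k 1 (i + 1)
    rw [h2]; exact h1
  · refine ⟨?_, by omega⟩
    simp only [Bool.and_eq_true] at h
    have h1 := IsStart.twice (k := k) (k / 2) (primeB_sound h.1) (primeB_sound h.2) (by omega)
    have h2 : startB k 3 = fun i => Equiv.swap 2 (2 * (k / 2))
        (Equiv.swap (k / 2) (k / 2 + 2) i) := by
      funext i
      show swB 2 (2 * (k / 2)) (swB (k / 2) (k / 2 + 2) i) = _
      rw [swB_eq, swB_eq]
    rw [h2]; exact h1
  · refine ⟨?_, by omega⟩
    simp only [Bool.and_eq_true] at h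
    obtain ⟨⟨⟨h1, h2⟩, h3⟩, h4⟩ := h
    have h1 := IsStart.germain (k := k) ((k + 1) / 2) (primeB_sound h1) (primeB_sound h2)
      (primeB_sound h3) (Nat.eq_of_beq_eq_true h4)
    have h2 : startB k 4 = fun i => Equiv.swap ((k + 1) / 2) ((k + 1) / 2 + 2)
        (if i = k then 1 else if i + 1 = k then 2 else i + 2) := by
      funext i
      show swB ((k + 1) / 2) ((k + 1) / 2 + 2)
        (bif Nat.beq i k then 1 else bif Nat.beq (i + 1) k then 2 else i + 2) = _
      rw [swB_eq, cond_beq, cond_beq]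
    rw [h2]; exact h1
  · simp only [Bool.and_eq_true, Nat.ble_eq] at h
    obtain ⟨⟨⟨⟨h1, h2⟩, h3⟩, h4⟩, h5⟩ := h
    refine ⟨?_, fun _ => h5⟩
    have h1 := IsStart.fifth (k := k) (k / 2) (primeB_sound h1) (primeB_sound h2)
      (primeB_sound h3) (Nat.eq_of_beq_eq_true h4)
    have h2 : startB k 5 = fun i => Equiv.swap 2 (2 * (k / 2))
        (Equiv.swap (k / 2) (k / 2 + 2) (if i = k then 1 else i + 1)) := by
      funext i
      show swB 2 (2 * (k / 2)) (swB (k / 2) (k / 2 + 2) (bif Nat.beq i k then 1 else i + 1)) = _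
      rw [swB_eq, swB_eq, cond_beq]
    rw [h2]; exact h1
  · exact absurd h (by decide)

/-- the value at `x` read off from the full assignment -/
def valB (x : ℕ) : List (ℕ × ℕ) → ℕ
  | [] => 1
  | p :: L => bif Nat.beq (x % p.1) ((p.2 + 1) % p.1) then Nat.max p.1 (valB x L) else valB x L

theorem valB_spec (h : IsWCS k σ) {x : ℕ} (hx1 : 1 ≤ x) (hxk : x ≤ k) :
    ∀ asg : List (ℕ × ℕ), (∀ p ∈ asg, good k σ p) →
      valB x asg ≤ σ x ∧ 1 ≤ valB x asg ∧ ∀ p ∈ asg, p.1 ∣ σ x → p.1 ≤ valB x asg := by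
  intro asg
  induction asg with
  | nil =>
    intro _
    have := h.maps hx1 hxk
    exact ⟨this.1, le_rfl, by simp⟩
  | cons p L ih =>
    intro hasg
    obtain ⟨i1, i2, i3⟩ := ih (fun q hq => hasg q (by simp [hq]))
    obtain ⟨hp0, hpk, hp2, hp3⟩ := hasg p (by simp)
    have hm := h.maps hx1 hxk
    show (bif Nat.beq (x % p.1) ((p.2 + 1) % p.1) then Nat.max p.1 (valB x L) else valB x L) ≤ σ x ∧
      1 ≤ (bif Nat.beq (x % p.1) ((p.2 + 1) % p.1) then Nat.max p.1 (valB x L) else valB x L) ∧ _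
    rcases beq_cases (x % p.1) ((p.2 + 1) % p.1) with ⟨h1, h2⟩ | ⟨h1, h2⟩
    · have h3 : p.1 ∣ σ x := (hp3 x hx1 hxk).2 h2
      have h4 := Nat.le_of_dvd (by omega) h3
      have e : valB x (p :: L) = Nat.max p.1 (valB x L) := by
        show (bif Nat.beq (x % p.1) ((p.2 + 1) % p.1) then Nat.max p.1 (valB x L)
          else valB x L) = _
        rw [h1]; rfl
      rw [e, h1]
      simp only [cond_true]
      refine ⟨Nat.max_le.2 ⟨h4, i1⟩, le_trans i2 (Nat.le_max_right _ _), ?_⟩
      intro q hq hqd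
      rw [List.mem_cons] at hq
      rcases hq with rfl | hq
      · exact Nat.le_max_left _ _
      · exact le_trans (i3 q hq hqd) (Nat.le_max_right _ _)
    · have e : valB x (p :: L) = valB x L := by
        show (bif Nat.beq (x % p.1) ((p.2 + 1) % p.1) then Nat.max p.1 (valB x L)
          else valB x L) = _
        rw [h1]; rfl
      rw [e, h1]
      simp only [cond_false]
      refine ⟨i1, i2, ?_⟩
      intro q hq hqd
      rw [List.mem_cons] at hq
      rcases hq with rfl | hq
      · exact absurd ((hp3 x hx1 hxk).1 hqd) h2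
      · exact i3 q hq hqd

def closeB (k t : ℕ) (f : ℕ → ℕ) : Bool :=
  (List.range' 1 k).all fun x =>
    (Nat.beq (f x) (startB k t x) || allowedB k t (f x) (startB k t x)) ||
      allowedB k t (startB k t x) (f x)

def leafD (k : ℕ) (asg : List (ℕ × ℕ)) : Bool :=
  [1, 2, 3, 4, 5].any fun t => availB k t &&
    (closeB k t (fun x => valB x asg) || closeB k t (fun x => valB (k + 1 - x) asg))

theorem closeB_sound {f : ℕ → ℕ} (h : closeB k t f = true)
    (hf : ∀ x, 1 ≤ x → x ≤ k → f x = σ x) : Close k t (startB k t) σ := by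
  intro x hx1 hxk
  rw [closeB, List.all_eq_true] at h
  have h1 := h x (by rw [List.mem_range'_1]; omega)
  rw [hf x hx1 hxk, Bool.or_eq_true, Bool.or_eq_true] at h1
  rcases h1 with (h1 | h1) | h1
  · exact Or.inl (Nat.eq_of_beq_eq_true h1)
  · exact Or.inr ⟨_, _, allowedB_sound h1, Or.inr ⟨rfl, rfl⟩⟩
  · exact Or.inr ⟨_, _, allowedB_sound h1, Or.inl ⟨rfl, rfl⟩⟩

theorem baseD : ∀ n ∈ List.range 23,
    search (n + 1) (leafD (n + 1)) (List.range' 2 (n + 1 - 1)) [] (initCur (n + 1)) = true := by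
  decide +kernel

theorem close_small (h : IsWCS k σ) (hk1 : 1 ≤ k) (hk : k ≤ 23) :
    ∃ t s, IsStart k t s ∧ (t = 5 → 12 ≤ k) ∧ (Close k t s σ ∨ Close k t s (rev k σ)) := by
  have hb := baseD (k - 1) (List.mem_range.2 (by omega))
  rw [show k - 1 + 1 = k by omega] at hb
  obtain ⟨asg, h1, h2, -, h4⟩ := search_sound h (leafD k) _ [] (initCur k) (by
    intro m hm
    rw [List.mem_range'_1] at hm
    omega) (by simp) (initCur_ok h) hb
  have hval : ∀ x, 1 ≤ x → x ≤ k → valB x asg = σ x := by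
    intro x hx1 hxk
    obtain ⟨i1, i2, i3⟩ := valB_spec h hx1 hxk asg h2
    have hm := h.maps hx1 hxk
    by_cases h5 : σ x = 1
    · omega
    · obtain ⟨a, ha⟩ := h4 (σ x) (by rw [List.mem_range'_1]; omega)
      have := i3 _ ha (dvd_refl _)
      simp only at this
      omega
  rw [leafD, List.any_eq_true] at h1
  obtain ⟨t, -, h5⟩ := h1
  rw [Bool.and_eq_true, Bool.or_eq_true] at h5
  obtain ⟨h6, h7⟩ := h5
  obtain ⟨h8, h9⟩ := availB_sound h6
  refine ⟨t, _, h8, h9, ?_⟩
  rcases h7 with h7 | h7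
  · left
    exact closeB_sound h7 hval
  · right
    refine closeB_sound h7 ?_
    intro x hx1 hxk
    exact hval (k + 1 - x) (by omega) (by omega)

/-- existence of reduced derivations -/
theorem exists_deriv (h : IsWCS k σ) (hk1 : 1 ≤ k) :
    ∃ (t : ℕ) (s : ℕ → ℕ) (l : List (Option (ℕ × ℕ))) (τ : ℕ → ℕ), IsStart k t s ∧
      (t = 5 → 12 ≤ k) ∧ l.Nodup ∧ Deriv k t s l τ ∧ ∀ i, 1 ≤ i → i ≤ k → τ i = σ i := by
  have key : ∃ t s, IsStart k t s ∧ (t = 5 → 12 ≤ k) ∧
      (Close k t s σ ∨ Close k t s (rev k σ)) := by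
    rcases Nat.lt_or_ge k 24 with h1 | h1
    · exact close_small h hk1 (by omega)
    · obtain ⟨c, hc, hcase⟩ := structure_thm k (by omega) σ h
      rcases hcase with hf | hf
      · obtain ⟨t, s, h2, h3⟩ := close_of_al h h1 hc hf
        exact ⟨t, s, h2, fun _ => by omega, Or.inl h3⟩
      · obtain ⟨t, s, h2, h3⟩ := close_of_al (rev_isWCS h) h1 hc hf
        exact ⟨t, s, h2, fun _ => by omega, Or.inr h3⟩
  obtain ⟨t, s, h2, h3, h4⟩ := key
  rcases h4 with h4 | h4
  · obtain ⟨l, τ, h5, _, h6, h7⟩ := deriv_of_close h hk1 h2 h4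
    exact ⟨t, s, l, τ, h2, h3, h5, h6, h7⟩
  · obtain ⟨l, τ, h5, h5', h6, h7⟩ := deriv_of_close (rev_isWCS h) hk1 h2 h4
    refine ⟨t, s, none :: l, _, h2, h3, List.nodup_cons.2 ⟨h5', h5⟩, Deriv.reversal h6, ?_⟩
    intro i hi1 hik
    show τ (k + 1 - i) = σ i
    rw [h7 (k + 1 - i) (by omega) (by omega)]
    show σ (k + 1 - (k + 1 - i)) = σ i
    rw [show k + 1 - (k + 1 - i) = i by omega]

end R43WCS
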