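import Mathlib
import Pool.Agent.R43.WCSAll

namespace R43WCS

variable {k t : ℕ} {s σ : ℕ → ℕ}

/-- the exchanges in a list of moves -/
def pairs : List (Option (ℕ × ℕ)) → List (ℕ × ℕ)
  | [] => []
  | none :: l => pairs l
  | some p :: l => p :: pairs l

theorem mem_pairs (l : List (Option (ℕ × ℕ))) (p : ℕ × ℕ) : p ∈ pairs l ↔ some p ∈ l := by
  induction l with
  | nil => simp [pairs]
  | cons a l ih =>
    cases a with
    | none => simp [pairs, ih]
    | some q => simp [pairs, ih]

theorem pairs_nodup {l : List (Option (ℕ × ℕ))} (h : l.Nodup) : (pairs l).Nodup := by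
  induction l with
  | nil => simp [pairs]
  | cons a l ih =>
    rw [List.nodup_cons] at h
    cases a with
    | none => exact ih h.2
    | some q =>
      show (q :: pairs l).Nodup
      rw [List.nodup_cons]
      exact ⟨fun hq => h.1 ((mem_pairs l q).1 hq), ih h.2⟩

/-- number of reversals -/
def revs : List (Option (ℕ × ℕ)) → ℕ
  | [] => 0
  | none :: l => revs l + 1
  | some _ :: l => revs l

theorem revs_zero {l : List (Option (ℕ × ℕ))} : revs l = 0 ↔ none ∉ l := by
  induction l with
  | nil => simp [revs]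
  | cons a l ih =>
    cases a with
    | none => simp [revs]
    | some q => simp [revs, ih]

theorem revs_le {l : List (Option (ℕ × ℕ))} (h : l.Nodup) : revs l ≤ 1 := by
  induction l with
  | nil => simp [revs]
  | cons a l ih =>
    rw [List.nodup_cons] at h
    cases a with
    | none =>
      have := revs_zero.2 h.1
      show revs l + 1 ≤ 1
      omega
    | some q => exact ih h.2

/-- a derived sequence is an exchanged and possibly reversed start -/
theorem deriv_sem {l : List (Option (ℕ × ℕ))} {τ : ℕ → ℕ} (hd : Deriv k t s l τ) :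
    (∀ p ∈ pairs l, Allowed k t p.1 p.2) ∧
    ∀ i, 1 ≤ i → i ≤ k → τ i = sw (pairs l) (s (if revs l % 2 = 0 then i else k + 1 - i)) := by
  induction hd with
  | start =>
    refine ⟨by simp [pairs], ?_⟩
    intro i _ _
    simp [revs, pairs, sw]
  | @primePow l σ p c hd hp hc h1 h2 ih =>
    refine ⟨?_, ?_⟩
    · intro q hq
      have hq' : q = (p ^ (c - 1), p ^ c) ∨ q ∈ pairs l := by
        simpa [pairs] using hq
      rcases hq' with rfl | hq'
      · exact Or.inl ⟨p, c, hp, hc, rfl, rfl, h1, h2⟩
      · exact ih.1 q hq'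
    · intro i hi1 hik
      show Equiv.swap (p ^ (c - 1)) (p ^ c) (σ i) =
        Equiv.swap (p ^ (c - 1)) (p ^ c) (sw (pairs l) (s (if revs l % 2 = 0 then i
          else k + 1 - i)))
      rw [ih.2 i hi1 hik]
  | @twin l σ q hd ht hq hq2 h1 h2 hpos ih =>
    refine ⟨?_, ?_⟩
    · intro r hr
      have hr' : r = (q, q + 2) ∨ r ∈ pairs l := by
        simpa [pairs] using hr
      rcases hr' with rfl | hr'
      · exact Or.inr ⟨ht, hq, hq2, rfl, h1, h2⟩
      · exact ih.1 r hr'
    · intro i hi1 hik
      show Equiv.swap q (q + 2) (σ i) =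
        Equiv.swap q (q + 2) (sw (pairs l) (s (if revs l % 2 = 0 then i else k + 1 - i)))
      rw [ih.2 i hi1 hik]
  | @reversal l σ hd ih =>
    refine ⟨ih.1, ?_⟩
    intro i hi1 hik
    show σ (k + 1 - i) = sw (pairs l) (s (if (revs l + 1) % 2 = 0 then i else k + 1 - i))
    rw [ih.2 (k + 1 - i) (by omega) (by omega)]
    by_cases h1 : revs l % 2 = 0
    · rw [if_pos h1, if_neg (by omega)]
    · rw [if_neg h1, if_pos (by omega), show k + 1 - (k + 1 - i) = i by omega]

/-- `2`, `6` and `12` are never moved -/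
theorem not_allowed (hk : 12 ≤ k) {v a b : ℕ} (hv : v = 2 ∨ v = 6 ∨ v = 12)
    (h : Allowed k t a b) : v ≠ a ∧ v ≠ b := by
  have hnpp : ∀ p c : ℕ, p.Prime → v = p ^ c → v = 2 := by
    intro p c hp he
    rcases hv with h1 | h1
    · exact h1
    · exfalso
      have h2 : 2 ∣ p ^ c := by rw [← he]; omega
      have h3 : 3 ∣ p ^ c := by rw [← he]; omega
      have h4 := (Nat.prime_dvd_prime_iff_eq Nat.prime_two hp).1 (Nat.prime_two.dvd_of_dvd_pow h2)
      have h5 := (Nat.prime_dvd_prime_iff_eq Nat.prime_three hp).1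
        (Nat.prime_three.dvd_of_dvd_pow h3)
      omega
  rcases h with ⟨p, c, hp, hc, rfl, rfl, h1, h2⟩ | ⟨_, h1, h2, rfl, h3, h4⟩
  · have hp2 := hp.two_le
    have hle : p ^ (c - 1) ≤ p ^ c := Nat.pow_le_pow_right hp.pos (by omega)
    constructor
    · intro e
      have h3 := hnpp p (c - 1) hp e
      have h4 : c - 1 ≠ 0 := by
        intro h4
        rw [h4, pow_zero] at e
        omega
      have h5 : p ∣ v := by rw [e]; exact dvd_pow_self p h4
      rw [h3] at h5 e
      have h6 := Nat.le_of_dvd (by norm_num) h5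
      have h7 : p = 2 := by omega
      have h8 : p ^ c = p ^ (c - 1) * p := by
        conv_lhs => rw [show c = (c - 1) + 1 by omega]
        rw [pow_succ]
      rw [h7] at h8 e h2 hle
      omega
    · intro e
      have h3 := hnpp p c hp e
      omega
  · have : v = 2 ∨ ¬ v.Prime := by
      rcases hv with h5 | h5 | h5
      · exact Or.inl h5
      · right; rw [h5]; decide
      · right; rw [h5]; decide
    constructor
    · intro e
      rcases this with h5 | h5
      · omega
      · rw [← e] at h1; exact h5 h1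
    · intro e
      rcases this with h5 | h5
      · omega
      · rw [← e] at h2; exact h5 h2

/-- positions of `2`, `6`, `12` in the starts -/
theorem start_pos (hk : 12 ≤ k) (hs : IsStart k t s) :
    ∃ x2 x6 x12, (1 ≤ x2 ∧ x2 ≤ k) ∧ (1 ≤ x6 ∧ x6 ≤ k) ∧ (1 ≤ x12 ∧ x12 ≤ k) ∧
      s x2 = 2 ∧ s x6 = 6 ∧ s x12 = 12 ∧
      ((t = 1 ∧ x2 = 2 ∧ x6 = 6 ∧ x12 = 12) ∨ (t = 2 ∧ x2 = 1 ∧ x6 = 5 ∧ x12 = 11) ∨
       (t = 3 ∧ k ≤ x2 + 1 ∧ x6 = 6 ∧ x12 = 12) ∨ (t = 4 ∧ x2 + 1 = k ∧ x6 = 4 ∧ x12 = 10) ∨
       (t = 5 ∧ x2 + 1 = k ∧ x6 = 5 ∧ x12 = 11)) := by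
  have hbig : ∀ p : ℕ, p.Prime → (p + 2).Prime → 12 ≤ 2 * p + 1 → 11 ≤ p := by
    intro p hp hp2 h
    by_contra hlt
    have hp' : p = 6 ∨ p = 7 ∨ p = 8 ∨ p = 9 ∨ p = 10 := by omega
    rcases hp' with rfl | rfl | rfl | rfl | rfl
    · exact absurd hp (by decide)
    · exact absurd hp2 (by decide)
    · exact absurd hp (by decide)
    · exact absurd hp (by decide)
    · exact absurd hp (by decide)
  cases hs with
  | consecutive =>
    exact ⟨2, 6, 12, by omega, by omega, by omega, rfl, rfl, rfl, Or.inl ⟨rfl, rfl, rfl, rfl⟩⟩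
  | inversion h =>
    have hk12 : k ≠ 11 := by omega
    refine ⟨1, 5, 11, by omega, by omega, by omega, ?_, ?_, ?_, by omega⟩
    · beta_reduce; rw [if_neg (by omega)]
    · beta_reduce; rw [if_neg (by omega)]
    · beta_reduce; rw [if_neg (by omega)]
  | twice p hp hp2 hkp =>
    have h11 := hbig p hp hp2 (by omega)
    refine ⟨2 * p, 6, 12, by omega, by omega, by omega, ?_, ?_, ?_, by omega⟩
    · beta_reduce; rw [swap_ne (a := p) (by omega) (by omega), Equiv.swap_apply_right]
    · beta_reduce; rw [swap_ne (a := p) (by omega) (by omega), swap_ne (by omega) (by omega)]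
    · have : p ≠ 12 := by rintro rfl; exact absurd hp (by decide)
      beta_reduce; rw [swap_ne (a := p) (by omega) (by omega), swap_ne (by omega) (by omega)]
  | germain p hp hp2 hp3 hkp =>
    have h11 := hbig p hp hp2 (by omega)
    have : p ≠ 12 := by rintro rfl; exact absurd hp (by decide)
    refine ⟨k - 1, 4, 10, by omega, by omega, by omega, ?_, ?_, ?_, by omega⟩
    · beta_reduce; rw [if_neg (by omega), if_pos (by omega), swap_ne (by omega) (by omega)]
    · beta_reduce; rw [if_neg (by omega), if_neg (by omega), swap_ne (by omega) (by omega)]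
    · beta_reduce; rw [if_neg (by omega), if_neg (by omega), swap_ne (by omega) (by omega)]
  | fifth p hp hp2 hp3 hkp =>
    have h11 := hbig p hp hp2 (by omega)
    have : p ≠ 12 := by rintro rfl; exact absurd hp (by decide)
    refine ⟨k - 1, 5, 11, by omega, by omega, by omega, ?_, ?_, ?_, by omega⟩
    · beta_reduce; rw [if_neg (by omega), swap_ne (a := p) (by omega) (by omega),
        show k - 1 + 1 = 2 * p by omega, Equiv.swap_apply_right]
    · beta_reduce; rw [if_neg (by omega), swap_ne (a := p) (by omega) (by omega),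
        swap_ne (by omega) (by omega)]
    · beta_reduce; rw [if_neg (by omega), swap_ne (a := p) (by omega) (by omega),
        swap_ne (by omega) (by omega)]

theorem start_unique {s' : ℕ → ℕ} (hs : IsStart k t s) (hs' : IsStart k t s') : s = s' := by
  cases hs with
  | consecutive => cases hs' with
    | consecutive => rfl
  | inversion h => cases hs' with
    | inversion h' => rfl
  | twice p hp hp2 hkp =>
    generalize ht : (3 : ℕ) = t' at hs'
    cases hs' with
    | twice p' hp' hp2' hkp' =>
      have : p = p' := by omega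
      subst this; rfl
    | _ => omega
  | germain p hp hp2 hp3 hkp =>
    generalize ht : (4 : ℕ) = t' at hs'
    cases hs' with
    | germain p' hp' hp2' hp3' hkp' =>
      have : p = p' := by omega
      subst this; rfl
    | _ => omega
  | fifth p hp hp2 hp3 hkp =>
    generalize ht : (5 : ℕ) = t' at hs'
    cases hs' with
    | fifth p' hp' hp2' hp3' hkp' =>
      have : p = p' := by omega
      subst this; rfl
    | _ => omega

/-- uniqueness of the data of a reduced derivation -/
theorem uniqueness (hk : 12 ≤ k) {t' : ℕ} {s' τ τ' : ℕ → ℕ} {l l' : List (Option (ℕ × ℕ))}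
    (hs : IsStart k t s) (hs' : IsStart k t' s') (hd : Deriv k t s l τ)
    (hd' : Deriv k t' s' l' τ') (he : ∀ i, 1 ≤ i → i ≤ k → τ i = τ' i) :
    t = t' ∧ (l.Nodup → l'.Nodup → ∀ m, m ∈ l ↔ m ∈ l') := by
  obtain ⟨hA, hsem⟩ := deriv_sem hd
  obtain ⟨hA', hsem'⟩ := deriv_sem hd'
  have hb := start_bij (by omega) hs
  have hb' := start_bij (by omega) hs'
  obtain ⟨x2, x6, x12, b2, b6, b12, e2, e6, e12, hpos⟩ := start_pos hk hs
  obtain ⟨y2, y6, y12, c2, c6, c12, f2, f6, f12, hpos'⟩ := start_pos hk hs'
  -- injectivity of τ'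
  have hinj : ∀ x y, 1 ≤ x → x ≤ k → 1 ≤ y → y ≤ k → τ' x = τ' y → x = y := by
    intro x y hx1 hxk hy1 hyk e
    rw [hsem' x hx1 hxk, hsem' y hy1 hyk] at e
    have e1 := sw_inj _ e
    have e3 := hb'.injOn (Set.mem_Icc.2 (by split_ifs <;> omega))
      (Set.mem_Icc.2 (by split_ifs <;> omega)) e1
    split_ifs at e3 <;> omega
  have hfix : ∀ v, (v = 2 ∨ v = 6 ∨ v = 12) → sw (pairs l) v = v := by
    intro v hv
    exact sw_fix _ fun p hp => not_allowed hk hv (hA p hp)
  have hfix' : ∀ v, (v = 2 ∨ v = 6 ∨ v = 12) → sw (pairs l') v = v := by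
    intro v hv
    exact sw_fix _ fun p hp => not_allowed hk hv (hA' p hp)
  have hplace : ∀ v x y, (v = 2 ∨ v = 6 ∨ v = 12) → (1 ≤ x ∧ x ≤ k) → (1 ≤ y ∧ y ≤ k) →
      s x = v → s' y = v →
      (if revs l % 2 = 0 then x else k + 1 - x) = (if revs l' % 2 = 0 then y else k + 1 - y) := by
    intro v x y hv hx hy hsx hsy
    apply hinj
    · split_ifs <;> omega
    · split_ifs <;> omega
    · split_ifs <;> omega
    · split_ifs <;> omega
    · rw [← he _ (by split_ifs <;> omega) (by split_ifs <;> omega),
        hsem _ (by split_ifs <;> omega) (by split_ifs <;> omega),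
        hsem' _ (by split_ifs <;> omega) (by split_ifs <;> omega)]
      have g1 : (if revs l % 2 = 0 then (if revs l % 2 = 0 then x else k + 1 - x)
          else k + 1 - (if revs l % 2 = 0 then x else k + 1 - x)) = x := by
        split_ifs <;> omega
      have g2 : (if revs l' % 2 = 0 then (if revs l' % 2 = 0 then y else k + 1 - y)
          else k + 1 - (if revs l' % 2 = 0 then y else k + 1 - y)) = y := by
        split_ifs <;> omega
      rw [g1, g2, hsx, hsy, hfix v hv, hfix' v hv]
  have q2 := hplace 2 x2 y2 (by omega) b2 c2 e2 f2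
  have q6 := hplace 6 x6 y6 (by omega) b6 c6 e6 f6
  have q12 := hplace 12 x12 y12 (by omega) b12 c12 e12 f12
  have hpar : (revs l % 2 = 0 ↔ revs l' % 2 = 0) := by
    constructor
    · intro h1
      by_contra h2
      rw [if_pos h1, if_neg h2] at q2 q6 q12
      omega
    · intro h1
      by_contra h2
      rw [if_neg h2, if_pos h1] at q2 q6 q12
      omega
  have htt : t = t' := by
    by_cases h1 : revs l % 2 = 0
    · rw [if_pos h1, if_pos (hpar.1 h1)] at q2 q6 q12
      omega
    · rw [if_neg h1, if_neg (fun h => h1 (hpar.2 h))] at q2 q6 q12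
      omega
  refine ⟨htt, ?_⟩
  subst htt
  have hss := start_unique hs hs'
  subst hss
  intro hnd hnd'
  have hsw : ∀ v, 1 ≤ v → v ≤ k → sw (pairs l) v = sw (pairs l') v := by
    intro v hv1 hvk
    obtain ⟨x, hx, hxv⟩ := hb.surjOn (Set.mem_Icc.2 ⟨hv1, hvk⟩)
    rw [Set.mem_Icc] at hx
    have h1 := he (if revs l % 2 = 0 then x else k + 1 - x) (by split_ifs <;> omega)
      (by split_ifs <;> omega)
    rw [hsem _ (by split_ifs <;> omega) (by split_ifs <;> omega),
      hsem' _ (by split_ifs <;> omega) (by split_ifs <;> omega)] at h1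
    have g1 : (if revs l % 2 = 0 then (if revs l % 2 = 0 then x else k + 1 - x)
        else k + 1 - (if revs l % 2 = 0 then x else k + 1 - x)) = x := by
      split_ifs <;> omega
    have g2 : (if revs l' % 2 = 0 then (if revs l % 2 = 0 then x else k + 1 - x)
        else k + 1 - (if revs l % 2 = 0 then x else k + 1 - x)) = x := by
      by_cases h2 : revs l % 2 = 0
      · rw [if_pos (hpar.1 h2), if_pos h2]
      · rw [if_neg (fun h => h2 (hpar.2 h)), if_neg h2]
        omega
    rw [g1, g2, hxv] at h1
    exact h1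
  have hsub : ∀ L L' : List (ℕ × ℕ), L.Nodup → (∀ p ∈ L, Allowed k t p.1 p.2) →
      (∀ p ∈ L', Allowed k t p.1 p.2) → (∀ v, 1 ≤ v → v ≤ k → sw L v = sw L' v) →
      ∀ p ∈ L, p ∈ L' := by
    intro L L' hL hLA hLA' hLL p hp
    have h1 := sw_spec hs L hL hLA hp
    have h2 := (hLA p hp).lt
    by_contra hpn
    have h3 : sw L' p.1 = p.1 := by
      apply sw_fix
      intro q hq
      constructor
      · intro e
        have := Allowed.disj hs (hLA p hp) (hLA' q hq) (Or.inl rfl) (Or.inl e)
        exact hpn ((Prod.ext this.1 this.2 : p = q) ▸ hq)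
      · intro e
        have := Allowed.disj hs (hLA p hp) (hLA' q hq) (Or.inl rfl) (Or.inr e)
        exact hpn ((Prod.ext this.1 this.2 : p = q) ▸ hq)
    have h4 := hLL p.1 (by omega) (by omega)
    rw [h1.1, h3] at h4
    omega
  intro m
  cases m with
  | none =>
    have r1 := revs_le hnd
    have r2 := revs_le hnd'
    have z1 := revs_zero (l := l)
    have z2 := revs_zero (l := l')
    have h0 : revs l = revs l' := by omega
    constructor
    · intro h1
      by_contra h2
      have := z2.2 h2
      exact z1.1 (by omega) h1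
    · intro h1
      by_contra h2
      have := z1.2 h2
      exact z2.1 (by omega) h1
  | some p =>
    rw [← mem_pairs, ← mem_pairs]
    constructor
    · exact hsub _ _ (pairs_nodup hnd) hA hA' hsw p
    · exact hsub _ _ (pairs_nodup hnd') hA' hA (fun v h1 h2 => (hsw v h1 h2).symm) p

end R43WCS
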