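import Mathlib
import Pool.Agent.R43.WCSUniq

namespace R43WCS

/-- the fifth starting sequence -/
def fifthSeq (p : ℕ) (i : ℕ) : ℕ :=
  Equiv.swap 2 (2 * p) (Equiv.swap p (p + 2) (if i = 2 * p then 1 else i + 1))

theorem fifth_val {p : ℕ} (h3 : 3 ≤ p) {i : ℕ} (hi1 : 1 ≤ i) (hik : i ≤ 2 * p) :
    (i = 2 * p ∧ fifthSeq p i = 1) ∨ (i = 1 ∧ fifthSeq p i = 2 * p) ∨
    (i + 1 = 2 * p ∧ fifthSeq p i = 2) ∨ (i + 1 = p ∧ fifthSeq p i = p + 2) ∨
    (i = p + 1 ∧ fifthSeq p i = p) ∨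
    (i ≠ 2 * p ∧ i ≠ 1 ∧ i + 1 ≠ 2 * p ∧ i + 1 ≠ p ∧ i ≠ p + 1 ∧ fifthSeq p i = i + 1) := by
  unfold fifthSeq
  by_cases h1 : i = 2 * p
  · left
    refine ⟨h1, ?_⟩
    rw [if_pos h1, swap_ne (a := p) (by omega) (by omega), swap_ne (by omega) (by omega)]
  right
  by_cases h2 : i = 1
  · left
    refine ⟨h2, ?_⟩
    rw [if_neg h1, h2, swap_ne (a := p) (by omega) (by omega)]
    exact Equiv.swap_apply_left _ _
  right
  by_cases h3 : i + 1 = 2 * p
  · left
    refine ⟨h3, ?_⟩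
    rw [if_neg h1, h3, swap_ne (a := p) (by omega) (by omega)]
    exact Equiv.swap_apply_right _ _
  right
  by_cases h4 : i + 1 = p
  · left
    refine ⟨h4, ?_⟩
    rw [if_neg h1, h4, Equiv.swap_apply_left]
    exact swap_ne (by omega) (by omega)
  right
  by_cases h5 : i = p + 1
  · left
    refine ⟨h5, ?_⟩
    rw [if_neg h1, h5, Equiv.swap_apply_right]
    exact swap_ne (by omega) (by omega)
  right
  refine ⟨h1, h2, h3, h4, h5, ?_⟩
  rw [if_neg h1, swap_ne (a := p) (by omega) (by omega)]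
  exact swap_ne (by omega) (by omega)

theorem fifth_isStart {p : ℕ} (hp : p.Prime) (hp2 : (p + 2).Prime) (hp3 : (2 * p + 1).Prime) :
    IsStart (2 * p) 5 (fifthSeq p) :=
  IsStart.fifth p hp hp2 hp3 rfl

theorem dvd_two_mul {p m : ℕ} (hp : p.Prime) (hm : m ∣ 2 * p) (h1 : m ≠ p) (h2 : m ≠ 2 * p) :
    m ∣ 2 := by
  by_cases h3 : p ∣ m
  · exfalso
    obtain ⟨t, ht⟩ := h3
    have hp0 := hp.pos
    rw [ht, Nat.mul_comm 2 p] at hm
    have h4 : t ∣ 2 := Nat.dvd_of_mul_dvd_mul_left hp0 hm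
    rcases (Nat.dvd_prime Nat.prime_two).1 h4 with h5 | h5
    · rw [h5, Nat.mul_one] at ht; exact h1 ht
    · rw [h5, Nat.mul_comm] at ht; exact h2 ht
  · have h4 : Nat.Coprime m p := ((Nat.Prime.coprime_iff_not_dvd hp).2 h3).symm
    exact h4.dvd_of_dvd_mul_right hm

theorem fifth_isWCS {p : ℕ} (hp : p.Prime) (hp2 : (p + 2).Prime) (hp3 : (2 * p + 1).Prime) :
    IsWCS (2 * p) (fifthSeq p) := by
  have h3 := twin_three hp hp2
  have hbij := start_bij (by omega) (fifth_isStart hp hp2 hp3)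
  refine ⟨hbij, ?_⟩
  intro i hi j hj m hm hd hij
  have hmap := hbij.mapsTo hi
  rw [Set.mem_Icc] at hi hj hmap
  have hmod : j ≡ i [MOD m] := Nat.modEq_iff_dvd.2 hij
  by_cases hm1 : m = 1
  · rw [hm1]; exact one_dvd _
  have hmk : m ≤ 2 * p := le_trans (Nat.le_of_dvd (by omega) hd) hmap.2
  have vi := fifth_val h3 hi.1 hi.2
  have vj := fifth_val h3 hj.1 hj.2
  by_cases hmp : m = p
  · subst hmp
    obtain ⟨t, ht⟩ := hd
    have ht3 : t < 3 := by
      by_contra hlt
      have : m * 3 ≤ m * t := Nat.mul_le_mul_left _ (by omega)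
      omega
    have ht0 : t ≠ 0 := by
      rintro rfl
      omega
    have hi' : i = 1 ∨ i = m + 1 := by
      have : t = 1 ∨ t = 2 := by omega
      rcases this with rfl | rfl <;> omega
    have hj' : j ≡ 1 [MOD m] := by
      rcases hi' with h4 | h4
      · rw [h4] at hmod; exact hmod
      · rw [h4] at hmod
        refine hmod.trans ?_
        unfold Nat.ModEq
        rw [Nat.add_mod_left]
    obtain ⟨u, hu⟩ := (Nat.modEq_iff_dvd' hj.1).1 hj'.symm
    have hu2 : u < 2 := by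
      by_contra hlt
      have : m * 2 ≤ m * u := Nat.mul_le_mul_left _ (by omega)
      omega
    have hj'' : j = 1 ∨ j = m + 1 := by
      have : u = 0 ∨ u = 1 := by omega
      rcases this with rfl | rfl <;> omega
    rcases hj'' with h4 | h4
    · have : fifthSeq m j = 2 * m := by omega
      rw [this]; exact Dvd.intro_left 2 rfl
    · have : fifthSeq m j = m := by omega
      rw [this]
  by_cases hm2p : m = 2 * p
  · subst hm2p
    have h4 := Nat.le_of_dvd (by omega) hd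
    have h5 : i = 1 := by omega
    rw [h5] at hmod
    obtain ⟨u, hu⟩ := (Nat.modEq_iff_dvd' hj.1).1 hmod.symm
    have hu0 : u = 0 := by
      by_contra hne
      have : 2 * p * 1 ≤ 2 * p * u := Nat.mul_le_mul_left _ (by omega)
      omega
    rw [hu0, Nat.mul_zero] at hu
    have : j = i := by omega
    rw [this]; exact hd
  by_cases hmp2 : m = p + 2
  · subst hmp2
    obtain ⟨t, ht⟩ := hd
    have ht2 : t < 2 := by
      by_contra hlt
      have : (p + 2) * 2 ≤ (p + 2) * t := Nat.mul_le_mul_left _ (by omega)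
      omega
    have ht0 : t ≠ 0 := by
      rintro rfl
      omega
    have ht1 : t = 1 := by omega
    subst ht1
    have hi' : i + 1 = p := by omega
    have hji : j = i := by
      rcases Nat.lt_or_ge j i with h4 | h4
      · exfalso
        obtain ⟨u, hu⟩ := (Nat.modEq_iff_dvd' h4.le).1 hmod
        have hu0 : u = 0 := by
          by_contra hne
          have : (p + 2) * 1 ≤ (p + 2) * u := Nat.mul_le_mul_left _ (by omega)
          omega
        rw [hu0, Nat.mul_zero] at hu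
        omega
      · obtain ⟨u, hu⟩ := (Nat.modEq_iff_dvd' h4).1 hmod.symm
        have hu0 : u = 0 := by
          by_contra hne
          have : (p + 2) * 1 ≤ (p + 2) * u := Nat.mul_le_mul_left _ (by omega)
          omega
        rw [hu0, Nat.mul_zero] at hu
        omega
    rw [hji, ht]; exact Dvd.intro _ rfl
  -- the general case
  have h2p : m ∣ 2 * p → m = 2 := by
    intro h4
    have h5 := dvd_two_mul hp h4 hmp hm2p
    rcases (Nat.dvd_prime Nat.prime_two).1 h5 with h6 | h6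
    · exact absurd h6 hm1
    · exact h6
  have hmi : m ∣ i + 1 := by
    rcases vi with ⟨h4, h5⟩ | ⟨h4, h5⟩ | ⟨h4, h5⟩ | ⟨h4, h5⟩ | ⟨h4, h5⟩ | ⟨_, _, _, _, _, h5⟩
    · rw [h5] at hd
      exact absurd (Nat.dvd_one.1 hd) hm1
    · rw [h5] at hd
      rw [h2p hd, h4]
    · rw [h5] at hd
      rw [h4]
      exact hd.mul_right p
    · rw [h5] at hd
      rcases (Nat.dvd_prime hp2).1 hd with h6 | h6
      · exact absurd h6 hm1
      · exact absurd h6 hmp2
    · rw [h5] at hd
      rcases (Nat.dvd_prime hp).1 hd with h6 | h6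
      · exact absurd h6 hm1
      · exact absurd h6 hmp
    · rw [← h5]; exact hd
  have hmj : m ∣ j + 1 := ((hmod.add_right 1).dvd_iff (dvd_refl m)).2 hmi
  rcases vj with ⟨h4, h5⟩ | ⟨h4, h5⟩ | ⟨h4, h5⟩ | ⟨h4, h5⟩ | ⟨h4, h5⟩ | ⟨_, _, _, _, _, h5⟩
  · rw [h4] at hmj
    rcases (Nat.dvd_prime hp3).1 hmj with h6 | h6
    · exact absurd h6 hm1
    · omega
  · rw [h4] at hmj
    rw [h5]
    exact (show m ∣ 2 from hmj).mul_right p
  · rw [h4] at hmj
    rw [h5, h2p hmj]
  · rw [h4] at hmj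
    rcases (Nat.dvd_prime hp).1 hmj with h6 | h6
    · exact absurd h6 hm1
    · exact absurd h6 hmp
  · rw [h4, show p + 1 + 1 = p + 2 by rfl] at hmj
    rcases (Nat.dvd_prime hp2).1 hmj with h6 | h6
    · exact absurd h6 hm1
    · exact absurd h6 hmp2
  · rw [h5]; exact hmj

end R43WCS
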